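import Pool.Agent.T2H40.BR.D.Q1

set_option autoImplicit false
set_option maxRecDepth 1000000
set_option exponentiation.threshold 1000000000

namespace Pool.Agent.T2H40.BR.Q1

theorem csE1_P4 : Chk (csEopts p c1) {({({(csEBox p c1) with l2 := 1500}) with l1 := 945}) with h2 := 2250} :=
  chk_of_checkP [⟨601, 23, 17, 23⟩, ⟨385, 13, 10, 15⟩, ⟨601, 23, 17, 23⟩, ⟨1, 1, 1, 1⟩, ⟨1, 1, 1, 1⟩, ⟨385, 13, 10, 15⟩, ⟨42, 2, 2, 3⟩, ⟨39, 2, 2, 1⟩, ⟨42, 2, 2, 3⟩, ⟨1, 1, 1, 1⟩, ⟨1, 1, 1, 1⟩] (csEopts p c1)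
  (.n2 1875 (.n1 1418 (.n2 1688 (.leaf 8) (.n1 1182 (.n0 2095 (.n2 1782 (.leaf 8) (.n0 2048 
  (.leaf 0) (.leaf 8))) (.leaf 8)) (.n2 1782 (.n0 2095 (.leaf 0) (.leaf 8)) (.leaf 0)))) 
  (.n2 1688 (.n2 1594 (.leaf 8) (.leaf 0)) (.leaf 0))) (.n0 2095 (.leaf 0) (.n0 2143 (.leaf 0) 
  (.n1 1418 (.n1 1182 (.n0 2167 (.leaf 0) (.n1 1064 (.n2 2063 (.n2 1969 (.leaf 8) (.leaf 0)) 
  (.leaf 0)) (.leaf 0))) (.leaf 0)) (.leaf 0)))))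
  _ (by decide +kernel)

theorem csE1_P5 : Chk (csEopts p c1) {({({({(csEBox p c1) with l2 := 1500}) with l1 := 945}) with l2 := 2250}) with h1 := 1418} :=
  chk_of_checkP [⟨601, 23, 17, 23⟩, ⟨385, 13, 10, 15⟩, ⟨601, 23, 17, 23⟩, ⟨1, 1, 1, 1⟩, ⟨1, 1, 1, 1⟩, ⟨385, 13, 10, 15⟩, ⟨42, 2, 2, 3⟩, ⟨39, 2, 2, 1⟩, ⟨42, 2, 2, 3⟩, ⟨1, 1, 1, 1⟩, ⟨1, 1, 1, 1⟩] (csEopts p c1)
  (.n2 2625 (.leaf 0) (.n2 2813 (.leaf 0) (.leaf 0)))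
  _ (by decide +kernel)

theorem csE1_P6 : Chk (csEopts p c1) {({({({({({(csEBox p c1) with l2 := 1500}) with l1 := 945}) with l2 := 2250}) with l1 := 1418}) with h2 := 2625}) with h1 := 1654} :=
  chk_of_checkP [⟨601, 23, 17, 23⟩, ⟨385, 13, 10, 15⟩, ⟨601, 23, 17, 23⟩, ⟨1, 1, 1, 1⟩, ⟨1, 1, 1, 1⟩, ⟨385, 13, 10, 15⟩, ⟨42, 2, 2, 3⟩, ⟨39, 2, 2, 1⟩, ⟨42, 2, 2, 3⟩, ⟨1, 1, 1, 1⟩, ⟨1, 1, 1, 1⟩] (csEopts p c1)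
  (.leaf 0)
  _ (by decide +kernel)

theorem csE1_P7 : Chk (csEopts p c1) {({({({({({({({(csEBox p c1) with l2 := 1500}) with l1 := 945}) with l2 := 2250}) with l1 := 1418}) with h2 := 2625}) with l1 := 1654}) with h0 := 2095}) with h2 := 2438} :=
  chk_of_checkP [⟨601, 23, 17, 23⟩, ⟨385, 13, 10, 15⟩, ⟨601, 23, 17, 23⟩, ⟨1, 1, 1, 1⟩, ⟨1, 1, 1, 1⟩, ⟨385, 13, 10, 15⟩, ⟨42, 2, 2, 3⟩, ⟨39, 2, 2, 1⟩, ⟨42, 2, 2, 3⟩, ⟨1, 1, 1, 1⟩, ⟨1, 1, 1, 1⟩] (csEopts p c1)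
  (.leaf 0)
  _ (by decide +kernel)

theorem csE1_P8 : Chk (csEopts p c1) {({({({({({({({({(csEBox p c1) with l2 := 1500}) with l1 := 945}) with l2 := 2250}) with l1 := 1418}) with h2 := 2625}) with l1 := 1654}) with h0 := 2095}) with l2 := 2438}) with h2 := 2532} :=
  chk_of_checkP [⟨601, 23, 17, 23⟩, ⟨385, 13, 10, 15⟩, ⟨601, 23, 17, 23⟩, ⟨1, 1, 1, 1⟩, ⟨1, 1, 1, 1⟩, ⟨385, 13, 10, 15⟩, ⟨42, 2, 2, 3⟩, ⟨39, 2, 2, 1⟩, ⟨42, 2, 2, 3⟩, ⟨1, 1, 1, 1⟩, ⟨1, 1, 1, 1⟩] (csEopts p c1)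
  (.n0 2048 (.n1 1772 (.leaf 0) (.leaf 7)) (.leaf 0))
  _ (by decide +kernel)

theorem csE1_P9 : Chk (csEopts p c1) {({({({({({({({({({({({(csEBox p c1) with l2 := 1500}) with l1 := 945}) with l2 := 2250}) with l1 := 1418}) with h2 := 2625}) with l1 := 1654}) with h0 := 2095}) with l2 := 2438}) with l2 := 2532}) with h0 := 2048}) with h1 := 1772}) with h2 := 2579} :=
  chk_of_checkP [⟨601, 23, 17, 23⟩, ⟨385, 13, 10, 15⟩, ⟨601, 23, 17, 23⟩, ⟨1, 1, 1, 1⟩, ⟨1, 1, 1, 1⟩, ⟨385, 13, 10, 15⟩, ⟨42, 2, 2, 3⟩, ⟨39, 2, 2, 1⟩, ⟨42, 2, 2, 3⟩, ⟨1, 1, 1, 1⟩, ⟨1, 1, 1, 1⟩] (csEopts p c1)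
  (.n0 2024 (.n0 2012 (.n1 1713 (.leaf 0) (.leaf 7)) (.leaf 0)) (.leaf 0))
  _ (by decide +kernel)


end Pool.Agent.T2H40.BR.Q1
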