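import Pool.Agent.T2H40.BR.D.Q1

set_option autoImplicit false
set_option maxRecDepth 1000000
set_option exponentiation.threshold 1000000000

namespace Pool.Agent.T2H40.BR.Q1

theorem csE1_P10 : Chk (csEopts p c1) {({({({({({({({({({({({(csEBox p c1) with l2 := 1500}) with l1 := 945}) with l2 := 2250}) with l1 := 1418}) with h2 := 2625}) with l1 := 1654}) with h0 := 2095}) with l2 := 2438}) with l2 := 2532}) with h0 := 2048}) with h1 := 1772}) with l2 := 2579} :=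
  chk_of_checkP [⟨601, 23, 17, 23⟩, ⟨385, 13, 10, 15⟩, ⟨601, 23, 17, 23⟩, ⟨1, 1, 1, 1⟩, ⟨1, 1, 1, 1⟩, ⟨385, 13, 10, 15⟩, ⟨42, 2, 2, 3⟩, ⟨39, 2, 2, 1⟩, ⟨42, 2, 2, 3⟩, ⟨1, 1, 1, 1⟩, ⟨1, 1, 1, 1⟩] (csEopts p c1)
  (.n0 2024 (.n1 1713 (.n2 2602 (.leaf 0) (.n1 1683 (.n0 2012 (.n0 2006 (.n2 2614 (.leaf 0) 
  (.leaf 6)) (.leaf 0)) (.leaf 0)) (.n0 2012 (.n0 2006 (.leaf 6) (.n0 2009 (.leaf 6) (.n2 2614 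
  (.leaf 0) (.leaf 6)))) (.n0 2018 (.n2 2614 (.leaf 0) (.leaf 6)) (.leaf 0))))) (.n0 2012 
  (.leaf 7) (.n1 1743 (.n2 2602 (.n1 1728 (.leaf 0) (.leaf 7)) (.n0 2018 (.leaf 6) (.n0 2021 
  (.leaf 6) (.n2 2614 (.n1 1728 (.leaf 0) (.leaf 6)) (.leaf 6))))) (.leaf 7)))) (.n1 1713 
  (.leaf 0) (.n1 1743 (.n0 2036 (.n0 2030 (.n1 1728 (.leaf 0) (.n2 2602 (.leaf 0) (.n2 2614 
  (.leaf 0) (.leaf 6)))) (.leaf 0)) (.leaf 0)) (.n0 2036 (.leaf 7) (.n0 2042 (.leaf 7) 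
  (.leaf 0))))))
  _ (by decide +kernel)

theorem csE1_P11 : Chk (csEopts p c1) {({({({({({({({({({({(csEBox p c1) with l2 := 1500}) with l1 := 945}) with l2 := 2250}) with l1 := 1418}) with h2 := 2625}) with l1 := 1654}) with h0 := 2095}) with l2 := 2438}) with l2 := 2532}) with h0 := 2048}) with l1 := 1772} :=
  chk_of_checkP [⟨601, 23, 17, 23⟩, ⟨385, 13, 10, 15⟩, ⟨601, 23, 17, 23⟩, ⟨1, 1, 1, 1⟩, ⟨1, 1, 1, 1⟩, ⟨385, 13, 10, 15⟩, ⟨42, 2, 2, 3⟩, ⟨39, 2, 2, 1⟩, ⟨42, 2, 2, 3⟩, ⟨1, 1, 1, 1⟩, ⟨1, 1, 1, 1⟩] (csEopts p c1)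
  (.leaf 7)
  _ (by decide +kernel)

theorem csE1_P12 : Chk (csEopts p c1) {({({({({({({({({({(csEBox p c1) with l2 := 1500}) with l1 := 945}) with l2 := 2250}) with l1 := 1418}) with h2 := 2625}) with l1 := 1654}) with h0 := 2095}) with l2 := 2438}) with l2 := 2532}) with l0 := 2048} :=
  chk_of_checkP [⟨601, 23, 17, 23⟩, ⟨385, 13, 10, 15⟩, ⟨601, 23, 17, 23⟩, ⟨1, 1, 1, 1⟩, ⟨1, 1, 1, 1⟩, ⟨385, 13, 10, 15⟩, ⟨42, 2, 2, 3⟩, ⟨39, 2, 2, 1⟩, ⟨42, 2, 2, 3⟩, ⟨1, 1, 1, 1⟩, ⟨1, 1, 1, 1⟩] (csEopts p c1)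
  (.n1 1772 (.leaf 0) (.n1 1831 (.n0 2072 (.n0 2060 (.leaf 7) (.n0 2066 (.leaf 7) (.leaf 0))) 
  (.leaf 0)) (.leaf 7)))
  _ (by decide +kernel)

theorem csE1_P13 : Chk (csEopts p c1) {({({({({({({(csEBox p c1) with l2 := 1500}) with l1 := 945}) with l2 := 2250}) with l1 := 1418}) with h2 := 2625}) with l1 := 1654}) with l0 := 2095} :=
  chk_of_checkP [⟨601, 23, 17, 23⟩, ⟨385, 13, 10, 15⟩, ⟨601, 23, 17, 23⟩, ⟨1, 1, 1, 1⟩, ⟨1, 1, 1, 1⟩, ⟨385, 13, 10, 15⟩, ⟨42, 2, 2, 3⟩, ⟨39, 2, 2, 1⟩, ⟨42, 2, 2, 3⟩, ⟨1, 1, 1, 1⟩, ⟨1, 1, 1, 1⟩] (csEopts p c1)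
  (.leaf 0)
  _ (by decide +kernel)


end Pool.Agent.T2H40.BR.Q1
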