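import Pool.Agent.T2H40.BR.D.Q1

set_option autoImplicit false
set_option maxRecDepth 1000000
set_option exponentiation.threshold 1000000000

namespace Pool.Agent.T2H40.BR.Q1

theorem csE1_P16 : Chk (csEopts p c1) {({({({({({({({({({(csEBox p c1) with l2 := 1500}) with l1 := 945}) with l2 := 2250}) with l1 := 1418}) with l2 := 2625}) with h2 := 2813}) with l1 := 1654}) with h0 := 2095}) with h2 := 2719}) with h0 := 2048} :=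
  chk_of_checkP [⟨601, 23, 17, 23⟩, ⟨385, 13, 10, 15⟩, ⟨601, 23, 17, 23⟩, ⟨1, 1, 1, 1⟩, ⟨1, 1, 1, 1⟩, ⟨385, 13, 10, 15⟩, ⟨42, 2, 2, 3⟩, ⟨39, 2, 2, 1⟩, ⟨42, 2, 2, 3⟩, ⟨1, 1, 1, 1⟩, ⟨1, 1, 1, 1⟩] (csEopts p c1)
  (.n1 1772 (.n2 2672 (.n1 1713 (.n0 2024 (.n0 2012 (.leaf 6) (.n0 2018 (.leaf 6) (.n1 1683 
  (.n2 2649 (.n1 1669 (.leaf 0) (.leaf 6)) (.leaf 6)) (.leaf 6)))) (.n2 2649 (.n0 2036 (.n1 1683 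
  (.leaf 0) (.n2 2637 (.n0 2030 (.leaf 6) (.leaf 0)) (.leaf 6))) (.leaf 0)) (.n0 2036 (.leaf 6) 
  (.n1 1683 (.leaf 0) (.leaf 6))))) (.n0 2024 (.leaf 6) (.n0 2036 (.leaf 6) (.n0 2042 (.leaf 6) 
  (.n1 1743 (.n2 2649 (.n1 1728 (.leaf 0) (.leaf 6)) (.leaf 6)) (.leaf 6)))))) (.leaf 6)) 
  (.leaf 7))
  _ (by decide +kernel)

theorem csE1_P17 : Chk (csEopts p c1) {({({({({({({({({({(csEBox p c1) with l2 := 1500}) with l1 := 945}) with l2 := 2250}) with l1 := 1418}) with l2 := 2625}) with h2 := 2813}) with l1 := 1654}) with h0 := 2095}) with h2 := 2719}) with l0 := 2048} :=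
  chk_of_checkP [⟨601, 23, 17, 23⟩, ⟨385, 13, 10, 15⟩, ⟨601, 23, 17, 23⟩, ⟨1, 1, 1, 1⟩, ⟨1, 1, 1, 1⟩, ⟨385, 13, 10, 15⟩, ⟨42, 2, 2, 3⟩, ⟨39, 2, 2, 1⟩, ⟨42, 2, 2, 3⟩, ⟨1, 1, 1, 1⟩, ⟨1, 1, 1, 1⟩] (csEopts p c1)
  (.n0 2072 (.n1 1772 (.n0 2060 (.n2 2672 (.n1 1713 (.leaf 0) (.n2 2649 (.n1 1743 (.leaf 0) 
  (.n2 2637 (.n0 2054 (.leaf 6) (.leaf 0)) (.leaf 6))) (.leaf 6))) (.n0 2054 (.leaf 6) (.n1 1713 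
  (.n1 1683 (.leaf 0) (.leaf 6)) (.leaf 6)))) (.n1 1713 (.n2 2672 (.leaf 0) (.n2 2696 (.leaf 0) 
  (.leaf 6))) (.n2 2672 (.n1 1743 (.leaf 0) (.n2 2649 (.leaf 0) (.leaf 6))) (.leaf 6)))) 
  (.n0 2060 (.leaf 7) (.n0 2066 (.leaf 7) (.n1 1831 (.n0 2069 (.leaf 7) (.n2 2672 (.n1 1802 
  (.n2 2649 (.leaf 0) (.leaf 6)) (.leaf 7)) (.leaf 6))) (.leaf 7))))) (.n1 1772 (.n2 2672 
  (.leaf 0) (.n0 2084 (.n1 1713 (.leaf 0) (.leaf 6)) (.leaf 0))) (.n1 1831 (.n1 1802 (.n2 2672 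
  (.n0 2084 (.n2 2649 (.leaf 0) (.leaf 6)) (.leaf 0)) (.leaf 6)) (.leaf 7)) (.leaf 7))))
  _ (by decide +kernel)

theorem csE1_P18 : Chk (csEopts p c1) {({({({({({({({({(csEBox p c1) with l2 := 1500}) with l1 := 945}) with l2 := 2250}) with l1 := 1418}) with l2 := 2625}) with h2 := 2813}) with l1 := 1654}) with h0 := 2095}) with l2 := 2719} :=
  chk_of_checkP [⟨601, 23, 17, 23⟩, ⟨385, 13, 10, 15⟩, ⟨601, 23, 17, 23⟩, ⟨1, 1, 1, 1⟩, ⟨1, 1, 1, 1⟩, ⟨385, 13, 10, 15⟩, ⟨42, 2, 2, 3⟩, ⟨39, 2, 2, 1⟩, ⟨42, 2, 2, 3⟩, ⟨1, 1, 1, 1⟩, ⟨1, 1, 1, 1⟩] (csEopts p c1)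
  (.leaf 6)
  _ (by decide +kernel)


end Pool.Agent.T2H40.BR.Q1
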