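import Pool.Agent.T2H40.BR.D.Q1

set_option autoImplicit false
set_option maxRecDepth 1000000
set_option exponentiation.threshold 1000000000

namespace Pool.Agent.T2H40.BR.Q1

theorem csE1_P19 : Chk (csEopts p c1) {({({({({({({({(csEBox p c1) with l2 := 1500}) with l1 := 945}) with l2 := 2250}) with l1 := 1418}) with l2 := 2625}) with h2 := 2813}) with l1 := 1654}) with l0 := 2095} :=
  chk_of_checkP [⟨601, 23, 17, 23⟩, ⟨385, 13, 10, 15⟩, ⟨601, 23, 17, 23⟩, ⟨1, 1, 1, 1⟩, ⟨1, 1, 1, 1⟩, ⟨385, 13, 10, 15⟩, ⟨42, 2, 2, 3⟩, ⟨39, 2, 2, 1⟩, ⟨42, 2, 2, 3⟩, ⟨1, 1, 1, 1⟩, ⟨1, 1, 1, 1⟩] (csEopts p c1)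
  (.n2 2719 (.n1 1772 (.leaf 0) (.n2 2672 (.n0 2143 (.n0 2119 (.n1 1831 (.leaf 0) (.leaf 7)) 
  (.leaf 0)) (.leaf 0)) (.leaf 0))) (.leaf 0))
  _ (by decide +kernel)

theorem csE1_P20 : Chk (csEopts p c1) {({({({({({(csEBox p c1) with l2 := 1500}) with l1 := 945}) with l2 := 2250}) with l1 := 1418}) with l2 := 2625}) with l2 := 2813} :=
  chk_of_checkP [⟨601, 23, 17, 23⟩, ⟨385, 13, 10, 15⟩, ⟨601, 23, 17, 23⟩, ⟨1, 1, 1, 1⟩, ⟨1, 1, 1, 1⟩, ⟨385, 13, 10, 15⟩, ⟨42, 2, 2, 3⟩, ⟨39, 2, 2, 1⟩, ⟨42, 2, 2, 3⟩, ⟨1, 1, 1, 1⟩, ⟨1, 1, 1, 1⟩] (csEopts p c1)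
  (.n1 1654 (.leaf 0) (.leaf 0))
  _ (by decide +kernel)


end Pool.Agent.T2H40.BR.Q1
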