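import Pool.Agent.T2H40.BR.D.Q1_csE1_0
import Pool.Agent.T2H40.BR.D.Q1_csE1_1
import Pool.Agent.T2H40.BR.D.Q1_csE1_2
import Pool.Agent.T2H40.BR.D.Q1_csE1_3
import Pool.Agent.T2H40.BR.D.Q1_csE1_4
import Pool.Agent.T2H40.BR.D.Q1_csE1_5
import Pool.Agent.T2H40.BR.D.Q1_csE1_6

set_option autoImplicit false
set_option maxRecDepth 1000000
set_option exponentiation.threshold 1000000000

namespace Pool.Agent.T2H40.BR.Q1

theorem chk_csE1 : Chk (csEopts p c1) (csEBox p c1) :=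
  (Chk.n2 (opts := csEopts p c1) 1500 csE1_P0 (Chk.n1 (opts := csEopts p c1) 945 (Chk.n1 
  (opts := csEopts p c1) 473 csE1_P1 (Chk.n2 (opts := csEopts p c1) 2250 csE1_P2 csE1_P3)) 
  (Chk.n2 (opts := csEopts p c1) 2250 csE1_P4 (Chk.n1 (opts := csEopts p c1) 1418 csE1_P5 (Chk.n2 
  (opts := csEopts p c1) 2625 (Chk.n1 (opts := csEopts p c1) 1654 csE1_P6 (Chk.n0 
  (opts := csEopts p c1) 2095 (Chk.n2 (opts := csEopts p c1) 2438 csE1_P7 (Chk.n2 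
  (opts := csEopts p c1) 2532 csE1_P8 (Chk.n0 (opts := csEopts p c1) 2048 (Chk.n1 
  (opts := csEopts p c1) 1772 (Chk.n2 
  (opts := csEopts p c1) 2579 csE1_P9 csE1_P10) csE1_P11) csE1_P12))) csE1_P13)) (Chk.n2 
  (opts := csEopts p c1) 2813 (Chk.n1 (opts := csEopts p c1) 1654 (Chk.n0 
  (opts := csEopts p c1) 2095 csE1_P14 csE1_P15) (Chk.n0 (opts := csEopts p c1) 2095 (Chk.n2 
  (opts := csEopts p c1) 2719 (Chk.n0 
  (opts := csEopts p c1) 2048 csE1_P16 csE1_P17) csE1_P18) csE1_P19)) csE1_P20))))))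

end Pool.Agent.T2H40.BR.Q1
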