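import Pool.Agent.T2H40.BR.D.Q1

set_option autoImplicit false
set_option maxRecDepth 1000000
set_option exponentiation.threshold 1000000000

namespace Pool.Agent.T2H40.BR.Q1

theorem csEu1_P3 : Chk (csEuopts p c1) {({({({({(csEuBox p) with l2 := 1800}) with l2 := 2400}) with h2 := 2700}) with h0 := 2095}) with l2 := 2550} :=
  chk_of_checkP [⟨565, 7, 17, 23⟩, ⟨1, 1, 1, 1⟩, ⟨1, 1, 1, 1⟩, ⟨1, 1, 1, 1⟩, ⟨1, 1, 1, 1⟩, ⟨1, 1, 1, 1⟩, ⟨41, 2, 2, 3⟩, ⟨40, 1, 2, 3⟩, ⟨1, 1, 1, 1⟩] (csEuopts p c1)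
  (.n2 2625 (.n1 150 (.n0 2048 (.leaf 6) (.n1 75 (.leaf 6) (.n2 2588 (.n0 2072 (.n1 113 (.leaf 6) 
  (.n1 132 (.leaf 6) (.n2 2569 (.n2 2560 (.leaf 0) (.leaf 6)) (.leaf 6)))) (.n2 2569 (.n1 113 
  (.n0 2084 (.leaf 6) (.leaf 0)) (.leaf 0)) (.n0 2084 (.leaf 6) (.n1 113 (.leaf 6) (.leaf 0))))) 
  (.leaf 6)))) (.n0 2048 (.n2 2588 (.n1 225 (.n2 2569 (.n0 2024 (.n1 188 (.leaf 6) (.n2 2560 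
  (.n1 207 (.n0 2012 (.leaf 6) (.n1 197 (.leaf 6) (.leaf 0))) (.n0 2012 (.n2 2555 (.leaf 0) 
  (.leaf 6)) (.leaf 0))) (.n0 2012 (.leaf 6) (.n1 207 (.leaf 6) (.n0 2018 (.leaf 6) (.leaf 0))))))
   (.n1 188 (.n2 2560 (.n1 169 (.n0 2036 (.leaf 6) (.n1 160 (.leaf 6) (.leaf 0))) (.n0 2036 
  (.n1 179 (.leaf 6) (.leaf 0)) (.leaf 0))) (.n1 169 (.leaf 6) (.n0 2036 (.leaf 6) (.n1 179 
  (.leaf 6) (.leaf 0))))) (.n0 2036 (.n1 207 (.n1 197 (.n2 2560 (.leaf 0) (.leaf 6)) (.leaf 0)) 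
  (.leaf 0)) (.leaf 0)))) (.n0 2024 (.leaf 6) (.n1 188 (.leaf 6) (.n1 207 (.leaf 6) (.n2 2579 
  (.n0 2036 (.n0 2030 (.leaf 6) (.leaf 0)) (.leaf 0)) (.leaf 6)))))) (.n1 263 (.n2 2569 (.n0 2024 
  (.n1 244 (.n0 2012 (.n1 235 (.n2 2560 (.leaf 0) (.leaf 6)) (.leaf 0)) (.leaf 0)) (.leaf 0)) 
  (.leaf 0)) (.n0 2024 (.n2 2579 (.n1 244 (.n0 2012 (.leaf 6) (.n1 235 (.leaf 6) (.leaf 0))) 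
  (.n0 2012 (.n1 253 (.leaf 6) (.leaf 0)) (.leaf 0))) (.n1 244 (.leaf 6) (.n0 2012 (.leaf 6) 
  (.n1 253 (.leaf 6) (.leaf 0))))) (.n1 244 (.n0 2036 (.n2 2579 (.leaf 0) (.leaf 6)) (.leaf 0)) 
  (.leaf 0)))) (.leaf 0))) (.n1 225 (.leaf 6) (.n2 2607 (.n1 263 (.n0 2024 (.leaf 6) (.n1 244 
  (.leaf 6) (.n0 2036 (.leaf 6) (.n2 2598 (.leaf 0) (.leaf 6))))) (.n0 2024 (.n2 2598 (.n1 282 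
  (.n0 2012 (.leaf 6) (.leaf 0)) (.leaf 0)) (.leaf 6)) (.leaf 0))) (.n0 2024 (.leaf 6) (.n1 263 
  (.leaf 6) (.n0 2036 (.leaf 6) (.n1 282 (.leaf 6) (.leaf 0)))))))) (.n0 2072 (.n2 2588 (.n1 225 
  (.n2 2569 (.leaf 0) (.n1 188 (.n0 2060 (.leaf 6) (.n1 169 (.leaf 6) (.leaf 0))) (.n0 2060 
  (.n1 207 (.n2 2579 (.leaf 0) (.leaf 6)) (.leaf 0)) (.leaf 0)))) (.leaf 0)) (.n1 225 (.n1 188 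
  (.leaf 6) (.n0 2060 (.leaf 6) (.n1 207 (.leaf 6) (.n2 2607 (.leaf 0) (.leaf 6))))) (.n1 263 
  (.n2 2607 (.n1 244 (.n0 2060 (.n2 2598 (.leaf 0) (.leaf 6)) (.leaf 0)) (.leaf 0)) (.n1 244 
  (.leaf 6) (.n0 2060 (.leaf 6) (.leaf 0)))) (.leaf 0)))) (.n1 225 (.n2 2588 (.leaf 0) (.n2 2607 
  (.n1 188 (.n1 169 (.leaf 6) (.n0 2084 (.leaf 6) (.leaf 0))) (.leaf 0)) (.leaf 6))) (.leaf 0)))))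
   (.n1 150 (.leaf 6) (.n0 2048 (.leaf 6) (.n1 225 (.leaf 6) (.n1 263 (.leaf 6) (.n2 2663 
  (.n2 2644 (.n0 2072 (.n0 2060 (.leaf 6) (.n1 282 (.leaf 6) (.leaf 0))) (.leaf 0)) (.leaf 6)) 
  (.leaf 6)))))))
  _ (by decide +kernel)

theorem csEu1_P4 : Chk (csEuopts p c1) {({({({(csEuBox p) with l2 := 1800}) with l2 := 2400}) with h2 := 2700}) with l0 := 2095} :=
  chk_of_checkP [⟨565, 7, 17, 23⟩, ⟨1, 1, 1, 1⟩, ⟨1, 1, 1, 1⟩, ⟨1, 1, 1, 1⟩, ⟨1, 1, 1, 1⟩, ⟨1, 1, 1, 1⟩, ⟨41, 2, 2, 3⟩, ⟨40, 1, 2, 3⟩, ⟨1, 1, 1, 1⟩] (csEuopts p c1)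
  (.n2 2550 (.leaf 0) (.n0 2143 (.n1 150 (.n2 2625 (.n1 75 (.leaf 0) (.n2 2588 (.leaf 0) (.n0 2119 
  (.leaf 6) (.leaf 0)))) (.leaf 6)) (.n0 2119 (.n2 2625 (.n1 225 (.n1 188 (.n1 169 (.n0 2107 
  (.n2 2588 (.leaf 0) (.n0 2101 (.leaf 6) (.leaf 0))) (.leaf 0)) (.leaf 0)) (.leaf 0)) (.leaf 0)) 
  (.n1 225 (.leaf 6) (.n2 2663 (.leaf 0) (.leaf 6)))) (.leaf 0))) (.leaf 0)))
  _ (by decide +kernel)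

theorem csEu1_P5 : Chk (csEuopts p c1) {({({(csEuBox p) with l2 := 1800}) with l2 := 2400}) with l2 := 2700} :=
  chk_of_checkP [⟨565, 7, 17, 23⟩, ⟨1, 1, 1, 1⟩, ⟨1, 1, 1, 1⟩, ⟨1, 1, 1, 1⟩, ⟨1, 1, 1, 1⟩, ⟨1, 1, 1, 1⟩, ⟨41, 2, 2, 3⟩, ⟨40, 1, 2, 3⟩, ⟨1, 1, 1, 1⟩] (csEuopts p c1)
  (.n0 2095 (.leaf 6) (.leaf 0))
  _ (by decide +kernel)


end Pool.Agent.T2H40.BR.Q1
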