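import Pool.Agent.T2H40.BR.D.Q1_csEu1_0
import Pool.Agent.T2H40.BR.D.Q1_csEu1_1

set_option autoImplicit false
set_option maxRecDepth 1000000
set_option exponentiation.threshold 1000000000

namespace Pool.Agent.T2H40.BR.Q1

theorem chk_csEu1 : Chk (csEuopts p c1) (csEuBox p) :=
  (Chk.n2 (opts := csEuopts p c1) 1800 csEu1_P0 (Chk.n2 (opts := csEuopts p c1) 2400 csEu1_P1 
  (Chk.n2 (opts := csEuopts p c1) 2700 (Chk.n0 (opts := csEuopts p c1) 2095 (Chk.n2 
  (opts := csEuopts p c1) 2550 csEu1_P2 csEu1_P3) csEu1_P4) csEu1_P5)))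

end Pool.Agent.T2H40.BR.Q1
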