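import Pool.Agent.T2H40.BR.D.Q1

set_option autoImplicit false
set_option maxRecDepth 1000000
set_option exponentiation.threshold 1000000000

namespace Pool.Agent.T2H40.BR.Q1

theorem chk_csE0 : Chk (csEopts p c0) (csEBox p c0) :=
  chk_of_checkP [⟨455, 7, 15, 17⟩, ⟨292, 4, 10, 11⟩, ⟨455, 7, 15, 17⟩, ⟨455, 7, 15, 17⟩, ⟨455, 7, 15, 17⟩, ⟨292, 4, 10, 11⟩, ⟨1, 1, 1, 1⟩, ⟨1, 1, 1, 1⟩, ⟨1, 1, 1, 1⟩, ⟨40, 1, 2, 3⟩, ⟨39, 2, 2, 1⟩] (csEopts p c0)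
  (.n2 1500 (.n1 1245 (.n2 750 (.n1 773 (.n2 375 (.n1 537 (.n1 419 (.n2 188 (.leaf 4) (.n1 360 
  (.n2 282 (.leaf 3) (.n1 330 (.n2 329 (.leaf 1) (.n2 352 (.n0 2095 (.n0 2048 (.n0 2024 (.n0 2012 
  (.n0 2006 (.n0 2003 (.n1 315 (.n0 2002 (.n1 308 (.n2 340 (.leaf 2) (.n1 304 (.leaf 0) 
  (.leaf 2))) (.leaf 2)) (.leaf 2)) (.leaf 2)) (.leaf 2)) (.leaf 2)) (.leaf 2)) (.leaf 2)) 
  (.leaf 2)) (.leaf 2)) (.n1 315 (.n0 2095 (.n0 2048 (.n1 308 (.leaf 0) (.n2 364 (.n2 358 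
  (.leaf 2) (.leaf 0)) (.leaf 0))) (.leaf 0)) (.leaf 0)) (.n0 2095 (.n0 2048 (.n0 2024 (.n1 323 
  (.n2 364 (.leaf 2) (.leaf 0)) (.leaf 2)) (.leaf 2)) (.leaf 2)) (.leaf 2))))) (.leaf 1))) 
  (.leaf 3))) (.leaf 4)) (.leaf 4)) (.n1 537 (.n2 563 (.n1 419 (.n2 469 (.n1 360 (.n1 330 
  (.leaf 0) (.n2 422 (.n2 399 (.n0 2095 (.n0 2048 (.n1 345 (.n2 387 (.leaf 2) (.n1 338 (.leaf 0) 
  (.n2 393 (.leaf 1) (.leaf 0)))) (.leaf 1)) (.leaf 2)) (.leaf 2)) (.n1 345 (.leaf 0) (.n2 411 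
  (.n1 353 (.n1 349 (.leaf 0) (.leaf 1)) (.leaf 1)) (.leaf 0)))) (.leaf 0))) (.n2 422 (.leaf 2) 
  (.n1 390 (.n2 446 (.n1 375 (.n0 2095 (.n2 434 (.n1 368 (.leaf 0) (.leaf 1)) (.leaf 0)) 
  (.leaf 2)) (.leaf 1)) (.n0 2095 (.n0 2048 (.n0 2024 (.n1 375 (.leaf 0) (.n1 383 (.leaf 0) 
  (.n2 458 (.leaf 1) (.leaf 0)))) (.leaf 0)) (.leaf 0)) (.leaf 0))) (.n0 2095 (.n0 2048 (.n0 2024 
  (.n2 446 (.leaf 2) (.n1 405 (.n1 398 (.n2 458 (.leaf 1) (.n1 394 (.leaf 0) (.leaf 1))) 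
  (.leaf 1)) (.leaf 2))) (.leaf 2)) (.leaf 2)) (.leaf 2))))) (.n1 360 (.leaf 0) (.n2 516 (.n1 390 
  (.leaf 0) (.n2 492 (.n1 405 (.leaf 0) (.n0 2095 (.n0 2048 (.n2 481 (.leaf 1) (.n1 412 (.leaf 0) 
  (.leaf 1))) (.leaf 2)) (.leaf 2))) (.leaf 0))) (.leaf 0)))) (.n2 469 (.leaf 2) (.n1 478 
  (.n2 516 (.n0 2095 (.n1 449 (.n1 434 (.n2 492 (.leaf 1) (.n2 504 (.leaf 1) (.n1 427 (.leaf 0) 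
  (.leaf 1)))) (.leaf 1)) (.leaf 2)) (.leaf 2)) (.n1 449 (.n0 2095 (.n0 2048 (.n1 434 (.leaf 0) 
  (.n2 540 (.n2 528 (.leaf 1) (.leaf 0)) (.leaf 0))) (.leaf 0)) (.leaf 0)) (.n0 2095 (.n2 540 
  (.leaf 1) (.n1 464 (.n1 457 (.leaf 0) (.n2 552 (.leaf 1) (.leaf 0))) (.leaf 1))) (.leaf 2)))) 
  (.leaf 2)))) (.n1 419 (.leaf 0) (.n1 478 (.leaf 0) (.n2 657 (.n2 610 (.n1 508 (.n2 587 (.leaf 1)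
   (.n1 493 (.leaf 0) (.leaf 1))) (.leaf 1)) (.n0 2095 (.n1 508 (.leaf 0) (.n2 634 (.leaf 1) 
  (.leaf 0))) (.leaf 0))) (.leaf 0))))) (.n2 563 (.leaf 3) (.n1 655 (.n1 596 (.n2 657 (.leaf 1) 
  (.n2 704 (.n1 567 (.n2 681 (.n1 552 (.leaf 0) (.leaf 1)) (.leaf 0)) (.leaf 1)) (.leaf 0))) 
  (.leaf 1)) (.leaf 2))))) (.leaf 3)) (.n2 1125 (.n2 938 (.n1 773 (.n1 537 (.leaf 0) (.n1 655 
  (.leaf 0) (.n2 844 (.leaf 1) (.leaf 0)))) (.leaf 2)) (.leaf 0)) (.leaf 0))) (.leaf 5)) 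
  (.n1 1245 (.n2 2250 (.n2 1875 (.leaf 0) (.n1 773 (.leaf 9) (.leaf 0))) (.leaf 9)) (.n1 1718 
  (.n2 2250 (.n1 1482 (.leaf 0) (.n1 1600 (.leaf 0) (.leaf 2))) (.n1 1482 (.leaf 9) (.n2 2625 
  (.n2 2438 (.n1 1600 (.n2 2344 (.leaf 0) (.leaf 9)) (.n0 2095 (.leaf 1) (.n0 2143 (.leaf 1) 
  (.n0 2167 (.leaf 1) (.n2 2344 (.leaf 1) (.n1 1659 (.n2 2391 (.leaf 1) (.leaf 9)) (.leaf 1)))))))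
   (.leaf 9)) (.leaf 9)))) (.n2 2250 (.leaf 5) (.n2 2625 (.n1 1954 (.n2 2438 (.leaf 1) (.n2 2532 
  (.n1 1836 (.n2 2485 (.leaf 1) (.n1 1777 (.n1 1748 (.leaf 9) (.n2 2509 (.n1 1763 (.leaf 9) 
  (.leaf 1)) (.leaf 9))) (.n0 2095 (.n0 2048 (.n0 2024 (.n1 1807 (.n1 1792 (.n2 2509 (.leaf 1) 
  (.leaf 9)) (.leaf 1)) (.leaf 3)) (.leaf 1)) (.leaf 1)) (.leaf 1)))) (.leaf 1)) (.n1 1836 
  (.n1 1777 (.leaf 9) (.n1 1807 (.leaf 9) (.n2 2579 (.n2 2556 (.n1 1822 (.n2 2544 (.leaf 1) 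
  (.leaf 9)) (.leaf 1)) (.leaf 9)) (.leaf 9)))) (.n1 1895 (.n2 2579 (.n0 2095 (.n0 2048 (.n0 2024 
  (.n0 2012 (.n1 1866 (.n1 1851 (.n2 2556 (.leaf 3) (.n2 2568 (.leaf 1) (.leaf 9))) (.leaf 1)) 
  (.leaf 1)) (.leaf 3)) (.leaf 3)) (.leaf 3)) (.leaf 3)) (.n1 1866 (.n1 1851 (.leaf 9) (.n0 2095 
  (.n2 2602 (.n2 2591 (.n1 1858 (.leaf 9) (.leaf 1)) (.leaf 9)) (.leaf 9)) (.leaf 1))) (.n0 2095 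
  (.n0 2048 (.n2 2602 (.leaf 1) (.n1 1881 (.leaf 9) (.n0 2024 (.n0 2012 (.n0 2006 (.n0 2003 
  (.n2 2614 (.leaf 1) (.n1 1888 (.leaf 9) (.leaf 1))) (.leaf 1)) (.leaf 1)) (.leaf 1)) 
  (.leaf 1)))) (.leaf 1)) (.leaf 1)))) (.leaf 1))))) (.leaf 5)) (.n1 1954 (.n2 2813 (.n1 1836 
  (.leaf 9) (.n2 2719 (.n1 1895 (.leaf 9) (.n2 2672 (.n0 2095 (.n1 1924 (.n2 2649 (.n0 2048 
  (.n0 2024 (.n1 1910 (.n2 2637 (.leaf 1) (.leaf 9)) (.leaf 1)) (.leaf 1)) (.leaf 1)) (.n1 1910 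
  (.leaf 9) (.n2 2661 (.n1 1917 (.leaf 9) (.leaf 1)) (.leaf 9)))) (.leaf 1)) (.leaf 1)) (.n1 1924 
  (.leaf 9) (.n2 2696 (.n1 1939 (.leaf 9) (.leaf 1)) (.leaf 9))))) (.leaf 9))) (.leaf 9)) 
  (.n2 2813 (.n1 2072 (.n2 2719 (.n0 2095 (.n0 2048 (.n0 2024 (.n0 2012 (.n0 2006 (.n1 2013 
  (.n0 2003 (.n2 2672 (.leaf 1) (.n1 1984 (.n1 1969 (.n2 2696 (.leaf 1) (.n2 2708 (.leaf 1) 
  (.leaf 9))) (.leaf 1)) (.leaf 4))) (.leaf 1)) (.leaf 4)) (.leaf 1)) (.leaf 1)) (.leaf 1)) 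
  (.leaf 1)) (.leaf 1)) (.n1 2013 (.n2 2766 (.n1 1984 (.n1 1969 (.leaf 9) (.n2 2743 (.n2 2731 
  (.leaf 1) (.leaf 9)) (.leaf 9))) (.n0 2095 (.n0 2048 (.n0 2024 (.n0 2012 (.n2 2743 (.leaf 1) 
  (.n1 1999 (.n1 1991 (.leaf 9) (.leaf 1)) (.leaf 4))) (.leaf 1)) (.leaf 1)) (.leaf 1)) 
  (.leaf 1))) (.n1 1984 (.leaf 9) (.n2 2790 (.n0 2095 (.n1 1999 (.leaf 9) (.n2 2778 (.leaf 1) 
  (.leaf 9))) (.leaf 1)) (.leaf 9)))) (.n0 2095 (.n0 2048 (.n0 2024 (.n0 2012 (.leaf 10) 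
  (.leaf 4)) (.leaf 4)) (.leaf 4)) (.leaf 1)))) (.leaf 5)) (.n1 2072 (.n1 2013 (.leaf 9) 
  (.n2 2907 (.n1 2043 (.leaf 9) (.n2 2860 (.n0 2095 (.n0 2048 (.n0 2024 (.leaf 10) (.leaf 1)) 
  (.leaf 4)) (.leaf 1)) (.leaf 9))) (.leaf 9))) (.n1 2131 (.n2 2907 (.leaf 1) (.n1 2102 (.leaf 9) 
  (.n0 2095 (.leaf 10) (.leaf 1)))) (.leaf 5))))))))))
  _ (by decide +kernel)

theorem chk_csN1 : Chk (csNopts p c1) (csNBox p c1) :=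
  chk_of_checkP [⟨347, 7, 13, 11⟩, ⟨1, 1, 1, 1⟩, ⟨39, 2, 2, 1⟩, ⟨39, 1, 2, 2⟩, ⟨1, 1, 1, 1⟩] (csNopts p c1)
  (.n1 1095 (.n2 1515 (.leaf 0) (.n2 1852 (.leaf 0) (.leaf 0))) (.n1 1643 (.n2 1515 (.leaf 0) 
  (.n2 1852 (.n2 1683 (.leaf 0) (.leaf 0)) (.leaf 0))) (.n2 1515 (.n1 1917 (.n0 2095 (.n2 1178 
  (.leaf 0) (.n2 1347 (.leaf 0) (.n1 1780 (.leaf 0) (.leaf 3)))) (.leaf 0)) (.n2 1178 (.n1 2054 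
  (.n0 2095 (.n0 2048 (.n0 2024 (.n2 1009 (.n2 925 (.n2 883 (.n1 1985 (.leaf 0) (.n1 2020 
  (.leaf 0) (.n1 2037 (.n0 2012 (.leaf 2) (.leaf 0)) (.leaf 2)))) (.leaf 0)) (.leaf 0)) (.leaf 0))
   (.leaf 0)) (.leaf 0)) (.leaf 0)) (.n2 1009 (.n0 2095 (.n0 2048 (.leaf 2) (.n1 2122 (.n2 925 
  (.n1 2088 (.n0 2072 (.n1 2071 (.leaf 0) (.n0 2060 (.leaf 2) (.leaf 0))) (.leaf 0)) (.n0 2072 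
  (.leaf 2) (.n1 2105 (.leaf 0) (.leaf 2)))) (.leaf 0)) (.leaf 2))) (.n1 2122 (.leaf 0) (.n2 925 
  (.n2 883 (.n0 2143 (.n0 2119 (.leaf 2) (.n1 2156 (.leaf 0) (.leaf 2))) (.n0 2167 (.n0 2155 
  (.n1 2156 (.leaf 0) (.leaf 2)) (.leaf 0)) (.leaf 0))) (.leaf 3)) (.leaf 3)))) (.leaf 3))) 
  (.leaf 3))) (.leaf 3))))
  _ (by decide +kernel)

theorem chk_csN0 : Chk (csNopts p c0) (csNBox p c0) :=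
  chk_of_checkP [⟨311, 7, 13, 8⟩, ⟨1, 1, 1, 1⟩, ⟨39, 2, 2, 1⟩, ⟨1, 1, 1, 1⟩, ⟨1, 1, 1, 1⟩] (csNopts p c0)
  (.n1 1095 (.leaf 0) (.n1 1643 (.leaf 0) (.n1 1917 (.leaf 0) (.n1 2054 (.n0 2095 (.n0 2048 
  (.n0 2024 (.n1 1985 (.leaf 0) (.n1 2020 (.leaf 0) (.n1 2037 (.n0 2012 (.leaf 2) (.leaf 0)) 
  (.leaf 2)))) (.leaf 0)) (.leaf 0)) (.leaf 0)) (.n0 2095 (.n0 2048 (.leaf 2) (.n1 2122 (.n1 2088 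
  (.n2 420 (.leaf 0) (.n0 2072 (.n1 2071 (.leaf 0) (.n0 2060 (.leaf 2) (.leaf 0))) (.leaf 0))) 
  (.n0 2072 (.leaf 2) (.n1 2105 (.n0 2084 (.leaf 2) (.leaf 0)) (.leaf 2)))) (.leaf 2))) (.n1 2122 
  (.leaf 0) (.n0 2143 (.n0 2119 (.leaf 2) (.n1 2156 (.n1 2139 (.leaf 0) (.n0 2131 (.leaf 2) 
  (.leaf 0))) (.leaf 2))) (.n2 420 (.leaf 0) (.n0 2167 (.n1 2156 (.leaf 0) (.n1 2173 (.n0 2155 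
  (.leaf 2) (.leaf 0)) (.leaf 2))) (.leaf 0))))))))))
  _ (by decide +kernel)

theorem chk_vS1 : Chk (vSopts p c1) (vSBox p c1) :=
  chk_of_checkP [⟨71, 2, 4, 1⟩] (vSopts p c1)
  (.leaf 0)
  _ (by decide +kernel)

theorem chk_vC : Chk (vCopts p) (vCBox p) :=
  chk_of_checkP [⟨70, 2, 4, 1⟩] (vCopts p)
  (.leaf 0)
  _ (by decide +kernel)

theorem chk_vS0 : Chk (vSopts p c0) (vSBox p c0) :=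
  chk_of_checkP [⟨52, 2, 3, 1⟩] (vSopts p c0)
  (.leaf 0)
  _ (by decide +kernel)


end Pool.Agent.T2H40.BR.Q1
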