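import Pool.Agent.T2H40.BR.D.Q1

set_option autoImplicit false
set_option maxRecDepth 1000000
set_option exponentiation.threshold 1000000000

namespace Pool.Agent.T2H40.BR.Q1

theorem chk_ccE : Chk (ccEopts p) (ccBox p) :=
  chk_of_checkP [⟨712, 5, 22, 23⟩, ⟨1, 1, 1, 1⟩, ⟨712, 5, 22, 23⟩, ⟨39, 2, 2, 1⟩] (ccEopts p)
  (.n1 1095 (.leaf 2) (.n1 1643 (.leaf 2) (.n1 1917 (.leaf 2) (.n1 2054 (.n0 2095 (.n0 2048 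
  (.n1 1985 (.leaf 2) (.n1 2020 (.n0 2024 (.n0 2012 (.n1 2003 (.leaf 2) (.n1 2012 (.leaf 0) 
  (.n0 2006 (.leaf 3) (.n2 750 (.leaf 0) (.leaf 0))))) (.leaf 2)) (.leaf 2)) (.n0 2024 (.n0 2012 
  (.leaf 3) (.n0 2018 (.leaf 3) (.n1 2037 (.n1 2029 (.leaf 2) (.leaf 3)) (.leaf 3)))) (.n1 2037 
  (.leaf 0) (.n0 2036 (.leaf 3) (.n2 750 (.n2 375 (.n0 2042 (.n1 2045 (.leaf 0) (.leaf 3)) 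
  (.leaf 0)) (.leaf 0)) (.leaf 0))))))) (.leaf 2)) (.leaf 2)) (.n0 2095 (.n0 2048 (.leaf 3) 
  (.n1 2122 (.n1 2088 (.n0 2072 (.n1 2071 (.n2 750 (.n0 2060 (.n1 2063 (.leaf 0) (.leaf 3)) 
  (.leaf 0)) (.leaf 0)) (.n0 2060 (.leaf 3) (.n2 750 (.n0 2066 (.leaf 3) (.n1 2080 (.leaf 0) 
  (.leaf 3))) (.leaf 0)))) (.n2 750 (.n2 375 (.leaf 0) (.leaf 0)) (.leaf 2))) (.n0 2072 (.leaf 3) 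
  (.n0 2084 (.leaf 3) (.n1 2105 (.n1 2097 (.n2 750 (.leaf 0) (.leaf 2)) (.leaf 3)) (.leaf 3))))) 
  (.leaf 3))) (.n1 2122 (.n2 750 (.n0 2143 (.n0 2119 (.n1 2088 (.leaf 0) (.n1 2105 (.leaf 0) 
  (.n0 2107 (.n1 2114 (.n0 2101 (.leaf 3) (.leaf 0)) (.leaf 3)) (.n2 375 (.leaf 0) (.leaf 0))))) 
  (.leaf 0)) (.leaf 0)) (.leaf 0)) (.n0 2143 (.n0 2119 (.leaf 3) (.n1 2156 (.n2 750 (.n1 2139 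
  (.n2 375 (.n0 2131 (.n1 2131 (.leaf 0) (.n0 2125 (.leaf 3) (.leaf 0))) (.leaf 0)) (.leaf 0)) 
  (.n0 2131 (.leaf 3) (.n1 2148 (.n0 2137 (.leaf 3) (.leaf 0)) (.leaf 3)))) (.leaf 0)) (.leaf 3)))
   (.n2 750 (.n1 2156 (.leaf 0) (.n0 2167 (.n1 2173 (.n0 2155 (.leaf 3) (.n2 375 (.n0 2161 
  (.n1 2165 (.leaf 0) (.leaf 3)) (.leaf 0)) (.leaf 0))) (.leaf 3)) (.n2 375 (.n0 2179 (.n1 2173 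
  (.leaf 0) (.n1 2182 (.n2 188 (.leaf 0) (.leaf 0)) (.leaf 3))) (.leaf 0)) (.leaf 0)))) 
  (.leaf 0)))))))))
  _ (by decide +kernel)

theorem chk_ccN : Chk (ccNopts p) (ccBox p) :=
  chk_of_checkP [⟨564, 5, 18, 19⟩, ⟨39, 2, 2, 1⟩] (ccNopts p)
  (.n0 2095 (.n1 1095 (.leaf 0) (.n2 750 (.leaf 0) (.n0 2048 (.n1 1643 (.leaf 0) (.n2 1125 (.leaf 0)
   (.n0 2024 (.n2 1313 (.leaf 0) (.n1 1917 (.leaf 0) (.n1 2054 (.leaf 0) (.leaf 1)))) (.leaf 0))))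
   (.leaf 0)))) (.leaf 0))
  _ (by decide +kernel)

theorem chk_csEu0 : Chk (csEuopts p c0) (csEuBox p) :=
  chk_of_checkP [⟨443, 7, 15, 17⟩, ⟨1, 1, 1, 1⟩, ⟨1, 1, 1, 1⟩, ⟨1, 1, 1, 1⟩, ⟨1, 1, 1, 1⟩, ⟨1, 1, 1, 1⟩, ⟨1, 1, 1, 1⟩, ⟨1, 1, 1, 1⟩, ⟨40, 1, 2, 3⟩] (csEuopts p c0)
  (.n2 1800 (.n0 2095 (.n2 1200 (.leaf 0) (.n2 1500 (.leaf 0) (.n2 1650 (.leaf 0) (.n2 1725 
  (.n1 150 (.leaf 8) (.leaf 0)) (.leaf 8))))) (.leaf 0)) (.leaf 8))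
  _ (by decide +kernel)

theorem chk_ssN11 : Chk (ssNopts p c1 c1) (ssNBox p c1 c1) :=
  chk_of_checkP [⟨336, 9, 11, 11⟩, ⟨1, 1, 1, 1⟩, ⟨40, 2, 2, 2⟩, ⟨39, 1, 2, 2⟩] (ssNopts p c1 c1)
  (.n1 1515 (.n2 1515 (.n1 1178 (.n2 1178 (.n0 2095 (.n1 1009 (.n2 1009 (.leaf 0) (.leaf 0)) 
  (.n2 1009 (.leaf 0) (.n0 2048 (.n1 1094 (.n2 1094 (.n0 2024 (.n0 2012 (.leaf 2) (.n1 1052 
  (.n2 1052 (.leaf 0) (.leaf 2)) (.leaf 2))) (.n1 1052 (.leaf 0) (.leaf 2))) (.leaf 2)) (.leaf 2))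
   (.leaf 0)))) (.leaf 0)) (.n2 1347 (.leaf 0) (.leaf 3))) (.n2 1178 (.n2 1009 (.leaf 0) 
  (.n0 2095 (.leaf 2) (.leaf 0))) (.leaf 2))) (.leaf 2)) (.leaf 2))
  _ (by decide +kernel)

theorem chk_ssN00 : Chk (ssNopts p c0 c0) (ssNBox p c0 c0) :=
  chk_of_checkP [⟨267, 9, 8, 8⟩, ⟨1, 1, 1, 1⟩, ⟨1, 1, 1, 1⟩, ⟨1, 1, 1, 1⟩] (ssNopts p c0 c0)
  (.leaf 0)
  _ (by decide +kernel)


end Pool.Agent.T2H40.BR.Q1
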