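import Pool.Agent.T2H40.BR.D.Q1

set_option autoImplicit false
set_option maxRecDepth 1000000
set_option exponentiation.threshold 1000000000

namespace Pool.Agent.T2H40.BR.Q1

theorem chk_csEs0 : Chk (csEsopts p c0) (csEsBox p) :=
  chk_of_checkP [⟨381, 4, 16, 11⟩, ⟨609, 7, 26, 17⟩] (csEsopts p c0)
  (.n2 3000 (.leaf 0) (.n2 4500 (.n2 3750 (.n2 3375 (.n1 150 (.n2 3188 (.n1 75 (.n2 3094 (.n1 38 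
  (.n2 3047 (.n1 19 (.n1 10 (.leaf 1) (.n2 3024 (.n2 3012 (.leaf 0) (.leaf 1)) (.leaf 1))) 
  (.n2 3024 (.leaf 0) (.n1 29 (.leaf 1) (.n2 3036 (.leaf 0) (.leaf 1))))) (.leaf 1)) (.n2 3047 
  (.leaf 0) (.n1 57 (.n1 47 (.leaf 1) (.n2 3071 (.leaf 0) (.leaf 1))) (.n1 66 (.n2 3071 (.leaf 0) 
  (.leaf 1)) (.leaf 0))))) (.leaf 1)) (.n2 3094 (.leaf 0) (.n1 113 (.n2 3141 (.n1 94 (.n2 3117 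
  (.leaf 0) (.leaf 1)) (.leaf 0)) (.leaf 1)) (.n1 132 (.n1 123 (.n2 3141 (.leaf 0) (.n2 3165 
  (.leaf 0) (.leaf 1))) (.leaf 0)) (.leaf 0))))) (.leaf 1)) (.n2 3188 (.leaf 0) (.n2 3282 
  (.n1 225 (.n2 3235 (.leaf 0) (.n1 188 (.leaf 1) (.leaf 0))) (.leaf 0)) (.n1 225 (.leaf 1) 
  (.n1 263 (.n1 244 (.leaf 1) (.leaf 0)) (.leaf 0)))))) (.leaf 1)) (.leaf 1)) (.leaf 1)))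
  _ (by decide +kernel)

theorem chk_ssE10 : Chk (ssEopts p c1 c0) (ssEBox p) :=
  chk_of_checkP [⟨58, 3, 3, 3⟩, ⟨1, 1, 1, 1⟩, ⟨454, 20, 13, 13⟩, ⟨1, 1, 1, 1⟩, ⟨599, 25, 17, 17⟩, ⟨1, 1, 1, 1⟩, ⟨1, 1, 1, 1⟩, ⟨1, 1, 1, 1⟩, ⟨1, 1, 1, 1⟩, ⟨1, 1, 1, 1⟩, ⟨1, 1, 1, 1⟩, ⟨1, 1, 1, 1⟩] (ssEopts p c1 c0)
  (.n1 1095 (.n2 1095 (.n2 548 (.n0 2095 (.n0 2048 (.leaf 4) (.leaf 2)) (.leaf 2)) (.leaf 4)) 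
  (.n1 548 (.n0 2095 (.n0 2048 (.n2 1643 (.leaf 4) (.n2 1917 (.leaf 4) (.leaf 0))) (.leaf 4)) 
  (.leaf 4)) (.leaf 4))) (.leaf 4))
  _ (by decide +kernel)

theorem chk_ssE00 : Chk (ssEopts p c0 c0) (ssEBox p) :=
  chk_of_checkP [⟨1, 1, 1, 1⟩, ⟨1, 1, 1, 1⟩, ⟨367, 17, 10, 10⟩, ⟨1, 1, 1, 1⟩, ⟨483, 21, 13, 13⟩, ⟨1, 1, 1, 1⟩, ⟨1, 1, 1, 1⟩, ⟨1, 1, 1, 1⟩, ⟨1, 1, 1, 1⟩, ⟨1, 1, 1, 1⟩, ⟨1, 1, 1, 1⟩, ⟨1, 1, 1, 1⟩] (ssEopts p c0 c0)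
  (.n2 1095 (.leaf 2) (.leaf 4))
  _ (by decide +kernel)

theorem chk_csEt0 : Chk (csEtopts p c0) (csEtBox p) :=
  chk_of_checkP [⟨446, 7, 28, 17⟩, ⟨1, 1, 1, 1⟩, ⟨1, 1, 1, 1⟩, ⟨1, 1, 1, 1⟩, ⟨1, 1, 1, 1⟩, ⟨1, 1, 1, 1⟩, ⟨1, 1, 1, 1⟩, ⟨1, 1, 1, 1⟩, ⟨1, 1, 1, 1⟩, ⟨1, 1, 1, 1⟩] (csEtopts p c0)
  (.leaf 0)
  _ (by decide +kernel)

theorem chk_ssN10 : Chk (ssNopts p c1 c0) (ssNBox p c1 c0) :=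
  chk_of_checkP [⟨305, 9, 11, 8⟩, ⟨1, 1, 1, 1⟩, ⟨1, 1, 1, 1⟩, ⟨1, 1, 1, 1⟩] (ssNopts p c1 c0)
  (.n1 1515 (.n1 1178 (.leaf 0) (.leaf 0)) (.n1 1852 (.leaf 0) (.leaf 0)))
  _ (by decide +kernel)


end Pool.Agent.T2H40.BR.Q1
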