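import Pool.Agent.T2H40.BR.D.Q1

set_option autoImplicit false
set_option maxRecDepth 1000000
set_option exponentiation.threshold 1000000000

namespace Pool.Agent.T2H40.BR.Q1

theorem chk_ssE11 : Chk (ssEopts p c1 c1) (ssEBox p) :=
  chk_of_checkP [⟨58, 3, 3, 3⟩, ⟨457, 20, 13, 13⟩, ⟨457, 20, 13, 13⟩, ⟨457, 20, 13, 13⟩, ⟨603, 25, 17, 17⟩, ⟨1, 1, 1, 1⟩, ⟨1, 1, 1, 1⟩, ⟨1, 1, 1, 1⟩, ⟨40, 2, 2, 2⟩, ⟨1, 1, 1, 1⟩, ⟨1, 1, 1, 1⟩, ⟨1, 1, 1, 1⟩] (ssEopts p c1 c1)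
  (.n1 1095 (.n2 1095 (.n1 548 (.n2 548 (.n1 274 (.n1 137 (.n1 69 (.n0 2095 (.n2 274 (.n0 2048 
  (.leaf 4) (.leaf 1)) (.leaf 4)) (.n2 274 (.leaf 1) (.n2 411 (.leaf 1) (.n0 2143 (.leaf 4) 
  (.n2 480 (.leaf 1) (.n0 2167 (.leaf 4) (.leaf 1))))))) (.leaf 2)) (.leaf 2)) (.leaf 3)) 
  (.leaf 8)) (.leaf 4)) (.leaf 8)) (.leaf 0))
  _ (by decide +kernel)


end Pool.Agent.T2H40.BR.Q1
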