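import Pool.Agent.T2H40.BR.D.Q2_csE1_0
import Pool.Agent.T2H40.BR.D.Q2_csE1_1
import Pool.Agent.T2H40.BR.D.Q2_csE1_2

set_option autoImplicit false
set_option maxRecDepth 1000000
set_option exponentiation.threshold 1000000000

namespace Pool.Agent.T2H40.BR.Q2

theorem chk_csE1 : Chk (csEopts p c1) (csEBox p c1) :=
  (Chk.n2 (opts := csEopts p c1) 1500 csE1_P0 (Chk.n2 (opts := csEopts p c1) 2250 (Chk.n1 
  (opts := csEopts p c1) 795 csE1_P1 csE1_P2) (Chk.n1 (opts := csEopts p c1) 795 (Chk.n1 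
  (opts := csEopts p c1) 398 (Chk.n1 
  (opts := csEopts p c1) 199 csE1_P3 csE1_P4) csE1_P5) csE1_P6)))

end Pool.Agent.T2H40.BR.Q2
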