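import Pool.Agent.T2H40.BR.D.Q2

set_option autoImplicit false
set_option maxRecDepth 1000000
set_option exponentiation.threshold 1000000000

namespace Pool.Agent.T2H40.BR.Q2

theorem csE2_P3 : Chk (csEopts p c2) {({({({(csEBox p c2) with l2 := 1500}) with l2 := 2250}) with h1 := 1095}) with l2 := 2625} :=
  chk_of_checkP [⟨465, 7, 15, 17⟩, ⟨298, 4, 10, 11⟩, ⟨465, 7, 15, 17⟩, ⟨1, 1, 1, 1⟩, ⟨1, 1, 1, 1⟩, ⟨298, 4, 10, 11⟩, ⟨41, 2, 2, 3⟩, ⟨1, 1, 1, 1⟩, ⟨40, 1, 2, 3⟩, ⟨40, 1, 2, 3⟩, ⟨1, 1, 1, 1⟩] (csEopts p c2)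
  (.n2 2813 (.n1 698 (.n1 499 (.leaf 9) (.n2 2719 (.n0 1845 (.n1 599 (.n0 1822 (.leaf 6) (.n0 1834 
  (.leaf 6) (.n1 549 (.leaf 6) (.n1 574 (.leaf 6) (.n2 2672 (.leaf 0) (.leaf 6)))))) (.n2 2672 
  (.n0 1822 (.n1 649 (.n2 2649 (.n0 1811 (.n1 624 (.leaf 6) (.n2 2637 (.leaf 0) (.leaf 6))) 
  (.leaf 0)) (.leaf 6)) (.n0 1811 (.n2 2649 (.leaf 0) (.n1 673 (.leaf 6) (.n2 2661 (.leaf 0) 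
  (.leaf 6)))) (.leaf 0))) (.leaf 0)) (.n0 1822 (.leaf 6) (.n1 649 (.leaf 6) (.n1 673 (.leaf 6) 
  (.leaf 0)))))) (.n1 599 (.n2 2672 (.n1 549 (.n0 1868 (.leaf 6) (.leaf 0)) (.leaf 0)) (.leaf 9)) 
  (.leaf 0))) (.leaf 9))) (.n1 897 (.n2 2719 (.n0 1845 (.n0 1822 (.n1 797 (.n2 2672 (.leaf 0) 
  (.n1 747 (.n2 2696 (.n0 1811 (.n1 723 (.n0 1806 (.leaf 6) (.leaf 0)) (.leaf 0)) (.leaf 0)) 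
  (.n0 1811 (.leaf 6) (.n0 1816 (.leaf 6) (.leaf 0)))) (.n0 1811 (.n0 1806 (.n0 1803 (.n1 772 
  (.n2 2696 (.leaf 0) (.n1 760 (.leaf 6) (.leaf 0))) (.leaf 0)) (.leaf 0)) (.leaf 0)) (.leaf 0))))
   (.leaf 0)) (.leaf 0)) (.leaf 0)) (.n0 1845 (.n1 797 (.n1 747 (.leaf 6) (.n2 2766 (.n0 1822 
  (.n1 772 (.leaf 6) (.n2 2743 (.n0 1811 (.n0 1806 (.leaf 6) (.leaf 0)) (.leaf 0)) (.leaf 6))) 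
  (.leaf 0)) (.leaf 6))) (.n0 1822 (.n2 2766 (.n0 1811 (.n1 847 (.n2 2743 (.leaf 0) (.n1 822 
  (.leaf 6) (.n2 2755 (.leaf 0) (.leaf 6)))) (.leaf 0)) (.leaf 0)) (.n1 847 (.leaf 6) (.n0 1811 
  (.n2 2790 (.n1 872 (.n0 1806 (.leaf 6) (.leaf 0)) (.leaf 0)) (.leaf 6)) (.leaf 0)))) (.n0 1834 
  (.n0 1828 (.n0 1825 (.n1 847 (.n2 2766 (.leaf 0) (.leaf 6)) (.leaf 0)) (.leaf 0)) (.leaf 0)) 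
  (.leaf 0)))) (.n0 1868 (.n0 1857 (.n0 1851 (.n1 797 (.n2 2766 (.leaf 0) (.leaf 6)) (.leaf 0)) 
  (.leaf 0)) (.leaf 0)) (.leaf 0)))) (.n0 1845 (.n0 1822 (.n0 1811 (.n1 996 (.n0 1806 (.n0 1803 
  (.n2 2719 (.leaf 0) (.n1 947 (.n0 1802 (.n1 922 (.n2 2766 (.leaf 0) (.n0 1801 (.n1 910 
  (.n2 2790 (.leaf 0) (.leaf 6)) (.leaf 0)) (.leaf 0))) (.leaf 0)) (.leaf 0)) (.leaf 0))) 
  (.leaf 0)) (.leaf 0)) (.leaf 0)) (.leaf 0)) (.leaf 0)) (.leaf 0)))) (.n1 698 (.leaf 9) (.n1 897 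
  (.n0 1845 (.leaf 6) (.n1 797 (.leaf 9) (.n1 847 (.leaf 9) (.n2 2907 (.leaf 0) (.leaf 9))))) 
  (.n2 2907 (.n0 1845 (.n1 996 (.n2 2860 (.n0 1822 (.n1 947 (.n1 922 (.leaf 6) (.n2 2837 
  (.n2 2825 (.leaf 0) (.n0 1811 (.leaf 6) (.leaf 0))) (.leaf 6))) (.n0 1811 (.n0 1806 (.n0 1803 
  (.n1 971 (.n2 2837 (.leaf 0) (.leaf 6)) (.leaf 0)) (.leaf 0)) (.leaf 0)) (.leaf 0))) (.leaf 0)) 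
  (.n1 947 (.leaf 6) (.n0 1822 (.n0 1811 (.leaf 6) (.n0 1816 (.leaf 6) (.leaf 0))) (.leaf 0)))) 
  (.n0 1822 (.n0 1811 (.n0 1806 (.n1 1046 (.n1 1021 (.n2 2860 (.leaf 0) (.n2 2884 (.leaf 0) 
  (.leaf 6))) (.leaf 0)) (.leaf 0)) (.leaf 0)) (.leaf 0)) (.leaf 0))) (.leaf 0)) (.n0 1845 
  (.n1 996 (.leaf 6) (.n2 2954 (.n0 1822 (.n1 1046 (.leaf 6) (.n2 2931 (.leaf 0) (.n0 1811 
  (.leaf 6) (.leaf 0)))) (.leaf 0)) (.leaf 6))) (.n1 996 (.n0 1868 (.leaf 6) (.leaf 0)) 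
  (.leaf 0)))))))
  _ (by decide +kernel)

theorem csE2_P4 : Chk (csEopts p c2) {({({(csEBox p c2) with l2 := 1500}) with l2 := 2250}) with l1 := 1095} :=
  chk_of_checkP [⟨465, 7, 15, 17⟩, ⟨298, 4, 10, 11⟩, ⟨465, 7, 15, 17⟩, ⟨1, 1, 1, 1⟩, ⟨1, 1, 1, 1⟩, ⟨298, 4, 10, 11⟩, ⟨41, 2, 2, 3⟩, ⟨1, 1, 1, 1⟩, ⟨40, 1, 2, 3⟩, ⟨40, 1, 2, 3⟩, ⟨1, 1, 1, 1⟩] (csEopts p c2)
  (.n1 1493 (.n2 2625 (.n2 2438 (.leaf 8) (.n1 1294 (.n0 1845 (.n0 1822 (.n2 2532 (.n1 1195 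
  (.n0 1811 (.n0 1806 (.n0 1803 (.n1 1145 (.leaf 0) (.n0 1802 (.n1 1170 (.leaf 0) (.n2 2485 
  (.leaf 8) (.leaf 0))) (.leaf 0))) (.leaf 0)) (.leaf 0)) (.leaf 0)) (.n2 2485 (.leaf 8) 
  (.n1 1245 (.leaf 0) (.leaf 8)))) (.leaf 0)) (.leaf 0)) (.leaf 0)) (.n1 1394 (.n2 2532 (.leaf 8) 
  (.n2 2579 (.n1 1344 (.leaf 0) (.leaf 8)) (.leaf 0))) (.leaf 8)))) (.n0 1845 (.n0 1822 (.n0 1811 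
  (.n0 1806 (.n1 1294 (.n1 1195 (.n2 2813 (.leaf 0) (.n1 1145 (.n2 2907 (.leaf 0) (.n2 2954 
  (.leaf 0) (.n1 1120 (.leaf 6) (.leaf 0)))) (.leaf 0))) (.leaf 0)) (.n1 1394 (.leaf 0) (.n2 2813 
  (.n0 1803 (.n2 2719 (.n1 1444 (.leaf 0) (.n2 2672 (.leaf 8) (.leaf 0))) (.leaf 0)) (.leaf 0)) 
  (.leaf 0)))) (.leaf 0)) (.leaf 0)) (.leaf 0)) (.n1 1294 (.leaf 0) (.n0 1868 (.leaf 0) 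
  (.leaf 2))))) (.n2 2625 (.leaf 8) (.n1 1692 (.n0 1845 (.n2 2813 (.n1 1592 (.n2 2719 (.leaf 8) 
  (.n1 1543 (.leaf 0) (.n1 1568 (.leaf 0) (.leaf 8)))) (.leaf 8)) (.n2 2907 (.n0 1822 (.n1 1592 
  (.leaf 0) (.n1 1642 (.n0 1811 (.n0 1806 (.n0 1803 (.n0 1802 (.n1 1617 (.leaf 0) (.n2 2860 
  (.leaf 8) (.leaf 1))) (.leaf 1)) (.leaf 1)) (.leaf 1)) (.leaf 1)) (.n1 1667 (.n2 2860 (.leaf 8) 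
  (.leaf 1)) (.leaf 8)))) (.n0 1834 (.n0 1828 (.n1 1592 (.leaf 2) (.n0 1825 (.n1 1642 (.leaf 1) 
  (.n1 1667 (.leaf 1) (.leaf 8))) (.leaf 2))) (.leaf 2)) (.leaf 1))) (.leaf 1))) (.leaf 1)) 
  (.n0 1845 (.n2 2813 (.leaf 8) (.n1 1791 (.n2 2907 (.leaf 8) (.n1 1742 (.n0 1822 (.n2 2954 
  (.n1 1717 (.n2 2931 (.leaf 8) (.leaf 1)) (.leaf 8)) (.n0 1811 (.n1 1717 (.leaf 1) (.n2 2977 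
  (.n1 1730 (.leaf 1) (.leaf 8)) (.leaf 2))) (.leaf 1))) (.leaf 1)) (.leaf 8))) (.leaf 8))) 
  (.leaf 5)))))
  _ (by decide +kernel)


end Pool.Agent.T2H40.BR.Q2
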