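import Pool.Agent.T2H40.BR.D.Q2

set_option autoImplicit false
set_option maxRecDepth 1000000
set_option exponentiation.threshold 1000000000

namespace Pool.Agent.T2H40.BR.Q2

theorem chk_csE0 : Chk (csEopts p c0) (csEBox p c0) :=
  chk_of_checkP [⟨458, 7, 15, 17⟩, ⟨294, 4, 10, 11⟩, ⟨458, 7, 15, 17⟩, ⟨458, 7, 15, 17⟩, ⟨458, 7, 15, 17⟩, ⟨1, 1, 1, 1⟩, ⟨1, 1, 1, 1⟩, ⟨1, 1, 1, 1⟩, ⟨1, 1, 1, 1⟩, ⟨40, 1, 2, 3⟩, ⟨1, 1, 1, 1⟩] (csEopts p c0)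
  (.n2 1500 (.n1 1095 (.n2 750 (.n1 698 (.n2 375 (.n2 188 (.leaf 4) (.leaf 2)) (.n2 563 (.n1 499 
  (.n1 399 (.n2 469 (.n1 350 (.leaf 0) (.n2 422 (.leaf 2) (.leaf 0))) (.leaf 0)) (.n2 469 
  (.leaf 2) (.n1 449 (.leaf 0) (.leaf 2)))) (.leaf 2)) (.n1 499 (.leaf 0) (.n1 599 (.leaf 0) 
  (.leaf 2))))) (.leaf 3)) (.leaf 0)) (.leaf 1)) (.n2 2250 (.n1 1095 (.n2 1875 (.n1 698 (.n2 1688 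
  (.leaf 0) (.n2 1782 (.n0 1845 (.n0 1822 (.n1 499 (.n2 1735 (.leaf 0) (.n1 399 (.leaf 9) 
  (.leaf 0))) (.leaf 0)) (.leaf 0)) (.leaf 0)) (.n1 499 (.leaf 9) (.n1 599 (.leaf 9) (.leaf 0)))))
   (.leaf 0)) (.n1 698 (.leaf 9) (.n2 2063 (.n1 897 (.n2 1969 (.n1 797 (.leaf 9) (.leaf 0)) 
  (.leaf 9)) (.n0 1845 (.n0 1822 (.n0 1811 (.n1 996 (.n2 1969 (.leaf 0) (.leaf 9)) (.leaf 0)) 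
  (.leaf 0)) (.leaf 0)) (.leaf 0))) (.leaf 9)))) (.n1 1493 (.n1 1294 (.n0 1845 (.n0 1822 
  (.n2 1875 (.leaf 0) (.n2 2063 (.leaf 0) (.n1 1195 (.leaf 9) (.leaf 0)))) (.leaf 0)) (.leaf 0)) 
  (.n2 1875 (.n1 1394 (.n1 1344 (.n2 1688 (.leaf 2) (.leaf 0)) (.leaf 1)) (.leaf 2)) (.n1 1394 
  (.leaf 0) (.n2 2063 (.n0 1845 (.n1 1444 (.n2 1969 (.leaf 1) (.leaf 0)) (.leaf 1)) (.leaf 2)) 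
  (.n0 1845 (.leaf 0) (.n0 1868 (.n2 2157 (.n1 1444 (.leaf 0) (.leaf 2)) (.leaf 0)) 
  (.leaf 2))))))) (.n0 1845 (.n2 1875 (.leaf 3) (.n1 1692 (.n1 1592 (.n2 2063 (.leaf 2) (.n2 2157 
  (.leaf 1) (.n1 1543 (.n0 1822 (.leaf 0) (.n0 1834 (.leaf 0) (.leaf 2))) (.leaf 1)))) (.leaf 1)) 
  (.leaf 1))) (.leaf 1)))) (.n1 1095 (.leaf 9) (.n1 1493 (.leaf 9) (.n2 2625 (.n1 1692 (.n2 2438 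
  (.n1 1592 (.n2 2344 (.n0 1845 (.n0 1822 (.leaf 0) (.n1 1543 (.leaf 0) (.n1 1568 (.leaf 0) 
  (.leaf 2)))) (.leaf 2)) (.leaf 9)) (.n0 1845 (.n1 1642 (.n2 2344 (.leaf 1) (.n1 1617 (.leaf 9) 
  (.n2 2391 (.leaf 1) (.leaf 9)))) (.leaf 1)) (.leaf 1))) (.leaf 9)) (.n2 2438 (.leaf 1) 
  (.n2 2532 (.leaf 1) (.n1 1791 (.leaf 9) (.n2 2579 (.leaf 1) (.n1 1840 (.leaf 9) (.n1 1865 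
  (.n2 2602 (.leaf 1) (.leaf 9)) (.leaf 1)))))))) (.leaf 9))))))
  _ (by decide +kernel)

theorem chk_csEs0 : Chk (csEsopts p c0) (csEsBox p) :=
  chk_of_checkP [⟨380, 4, 16, 11⟩, ⟨609, 7, 26, 17⟩] (csEsopts p c0)
  (.n2 3000 (.leaf 0) (.n0 1845 (.leaf 1) (.n0 1868 (.leaf 1) (.n2 4500 (.n2 3750 (.n2 3375 
  (.n2 3188 (.n1 150 (.n2 3094 (.n1 75 (.n1 38 (.leaf 1) (.n2 3047 (.leaf 0) (.leaf 1))) 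
  (.leaf 0)) (.leaf 1)) (.leaf 0)) (.leaf 1)) (.leaf 1)) (.leaf 1)) (.leaf 1)))))
  _ (by decide +kernel)

theorem chk_ccE : Chk (ccEopts p) (ccBox p) :=
  chk_of_checkP [⟨710, 5, 22, 23⟩, ⟨1, 1, 1, 1⟩, ⟨710, 5, 22, 23⟩, ⟨38, 2, 2, 1⟩] (ccEopts p)
  (.n1 945 (.leaf 2) (.n1 1418 (.leaf 2) (.n1 1654 (.leaf 2) (.n1 1772 (.leaf 2) (.n1 1831 (.leaf 0)
   (.n0 1845 (.n0 1822 (.leaf 3) (.n1 1861 (.n1 1846 (.leaf 0) (.leaf 3)) (.leaf 3))) (.n0 1868 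
  (.n1 1861 (.leaf 2) (.n1 1876 (.n0 1857 (.leaf 3) (.leaf 0)) (.leaf 3))) (.leaf 0))))))))
  _ (by decide +kernel)

theorem chk_csEu1 : Chk (csEuopts p c1) (csEuBox p) :=
  chk_of_checkP [⟨599, 7, 19, 23⟩, ⟨1, 1, 1, 1⟩, ⟨1, 1, 1, 1⟩, ⟨1, 1, 1, 1⟩, ⟨1, 1, 1, 1⟩, ⟨1, 1, 1, 1⟩, ⟨1, 1, 1, 1⟩, ⟨40, 1, 2, 3⟩, ⟨40, 1, 2, 3⟩] (csEuopts p c1)
  (.n2 1800 (.n2 1200 (.leaf 7) (.leaf 0)) (.n2 2400 (.n2 2100 (.n1 150 (.n0 1845 (.n2 1950 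
  (.leaf 0) (.n2 2025 (.n1 75 (.n2 1988 (.leaf 0) (.leaf 8)) (.leaf 0)) (.leaf 8))) (.leaf 0)) 
  (.leaf 0)) (.leaf 8)) (.leaf 8)))
  _ (by decide +kernel)

theorem chk_ssE11 : Chk (ssEopts p c1 c1) (ssEBox p) :=
  chk_of_checkP [⟨57, 3, 3, 3⟩, ⟨1, 1, 1, 1⟩, ⟨1, 1, 1, 1⟩, ⟨1, 1, 1, 1⟩, ⟨700, 29, 21, 21⟩, ⟨1, 1, 1, 1⟩, ⟨1, 1, 1, 1⟩, ⟨1, 1, 1, 1⟩, ⟨39, 2, 2, 2⟩, ⟨1, 1, 1, 1⟩, ⟨1, 1, 1, 1⟩, ⟨1, 1, 1, 1⟩] (ssEopts p c1 c1)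
  (.n1 945 (.n2 945 (.n1 473 (.leaf 4) (.leaf 8)) (.leaf 8)) (.leaf 0))
  _ (by decide +kernel)

theorem chk_ssE20 : Chk (ssEopts p c2 c0) (ssEBox p) :=
  chk_of_checkP [⟨57, 3, 3, 3⟩, ⟨1, 1, 1, 1⟩, ⟨1, 1, 1, 1⟩, ⟨1, 1, 1, 1⟩, ⟨496, 21, 13, 13⟩, ⟨1, 1, 1, 1⟩, ⟨40, 2, 2, 2⟩, ⟨1, 1, 1, 1⟩, ⟨1, 1, 1, 1⟩, ⟨1, 1, 1, 1⟩, ⟨1, 1, 1, 1⟩, ⟨1, 1, 1, 1⟩] (ssEopts p c2 c0)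
  (.n1 945 (.n1 473 (.n2 945 (.n2 473 (.leaf 6) (.n1 237 (.n2 709 (.n2 591 (.leaf 6) (.leaf 4)) 
  (.leaf 4)) (.leaf 4))) (.leaf 4)) (.leaf 4)) (.leaf 0))
  _ (by decide +kernel)

theorem chk_csEt0 : Chk (csEtopts p c0) (csEtBox p) :=
  chk_of_checkP [⟨446, 7, 28, 17⟩, ⟨1, 1, 1, 1⟩, ⟨1, 1, 1, 1⟩, ⟨1, 1, 1, 1⟩, ⟨1, 1, 1, 1⟩, ⟨1, 1, 1, 1⟩, ⟨1, 1, 1, 1⟩, ⟨1, 1, 1, 1⟩, ⟨1, 1, 1, 1⟩, ⟨1, 1, 1, 1⟩] (csEtopts p c0)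
  (.leaf 0)
  _ (by decide +kernel)

theorem chk_csN1 : Chk (csNopts p c1) (csNBox p c1) :=
  chk_of_checkP [⟨361, 7, 13, 11⟩, ⟨1, 1, 1, 1⟩, ⟨1, 1, 1, 1⟩, ⟨1, 1, 1, 1⟩, ⟨1, 1, 1, 1⟩] (csNopts p c1)
  (.leaf 0)
  _ (by decide +kernel)

theorem chk_ssE21 : Chk (ssEopts p c2 c1) (ssEBox p) :=
  chk_of_checkP [⟨57, 3, 3, 3⟩, ⟨1, 1, 1, 1⟩, ⟨1, 1, 1, 1⟩, ⟨1, 1, 1, 1⟩, ⟨1, 1, 1, 1⟩, ⟨1, 1, 1, 1⟩, ⟨40, 2, 2, 2⟩, ⟨1, 1, 1, 1⟩, ⟨39, 2, 2, 2⟩, ⟨1, 1, 1, 1⟩, ⟨1, 1, 1, 1⟩, ⟨1, 1, 1, 1⟩] (ssEopts p c2 c1)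
  (.n1 945 (.n2 945 (.n2 473 (.leaf 6) (.leaf 8)) (.leaf 8)) (.leaf 0))
  _ (by decide +kernel)

theorem chk_vC : Chk (vCopts p) (vCBox p) :=
  chk_of_checkP [⟨69, 2, 4, 1⟩] (vCopts p)
  (.leaf 0)
  _ (by decide +kernel)

theorem chk_vS1 : Chk (vSopts p c1) (vSBox p c1) :=
  chk_of_checkP [⟨69, 2, 4, 1⟩] (vSopts p c1)
  (.leaf 0)
  _ (by decide +kernel)

theorem chk_vS2 : Chk (vSopts p c2) (vSBox p c2) :=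
  chk_of_checkP [⟨59, 2, 3, 1⟩] (vSopts p c2)
  (.leaf 0)
  _ (by decide +kernel)

theorem chk_vS0 : Chk (vSopts p c0) (vSBox p c0) :=
  chk_of_checkP [⟨54, 2, 3, 1⟩] (vSopts p c0)
  (.leaf 0)
  _ (by decide +kernel)

theorem chk_ssN21 : Chk (ssNopts p c2 c1) (ssNBox p c2 c1) :=
  chk_of_checkP [⟨1, 1, 1, 1⟩, ⟨1, 1, 1, 1⟩, ⟨40, 2, 2, 2⟩, ⟨1, 1, 1, 1⟩] (ssNopts p c2 c1)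
  (.leaf 2)
  _ (by decide +kernel)

theorem chk_ssN22 : Chk (ssNopts p c2 c2) (ssNBox p c2 c2) :=
  chk_of_checkP [⟨1, 1, 1, 1⟩, ⟨1, 1, 1, 1⟩, ⟨40, 2, 2, 2⟩, ⟨1, 1, 1, 1⟩] (ssNopts p c2 c2)
  (.leaf 2)
  _ (by decide +kernel)

theorem chk_ssE22 : Chk (ssEopts p c2 c2) (ssEBox p) :=
  chk_of_checkP [⟨1, 1, 1, 1⟩, ⟨1, 1, 1, 1⟩, ⟨1, 1, 1, 1⟩, ⟨1, 1, 1, 1⟩, ⟨1, 1, 1, 1⟩, ⟨1, 1, 1, 1⟩, ⟨1, 1, 1, 1⟩, ⟨1, 1, 1, 1⟩, ⟨40, 2, 2, 2⟩, ⟨1, 1, 1, 1⟩, ⟨1, 1, 1, 1⟩, ⟨1, 1, 1, 1⟩] (ssEopts p c2 c2)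
  (.leaf 8)
  _ (by decide +kernel)


end Pool.Agent.T2H40.BR.Q2
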