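import Pool.Agent.T2H40.BR.D.Q2

set_option autoImplicit false
set_option maxRecDepth 1000000
set_option exponentiation.threshold 1000000000

namespace Pool.Agent.T2H40.BR.Q2

theorem chk_ssE10 : Chk (ssEopts p c1 c0) (ssEBox p) :=
  chk_of_checkP [⟨57, 3, 3, 3⟩, ⟨1, 1, 1, 1⟩, ⟨1, 1, 1, 1⟩, ⟨1, 1, 1, 1⟩, ⟨647, 27, 19, 19⟩, ⟨1, 1, 1, 1⟩, ⟨1, 1, 1, 1⟩, ⟨1, 1, 1, 1⟩, ⟨1, 1, 1, 1⟩, ⟨1, 1, 1, 1⟩, ⟨1, 1, 1, 1⟩, ⟨1, 1, 1, 1⟩] (ssEopts p c1 c0)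
  (.n1 945 (.leaf 4) (.leaf 0))
  _ (by decide +kernel)

theorem chk_csEu0 : Chk (csEuopts p c0) (csEuBox p) :=
  chk_of_checkP [⟨447, 7, 15, 17⟩, ⟨1, 1, 1, 1⟩, ⟨1, 1, 1, 1⟩, ⟨1, 1, 1, 1⟩, ⟨1, 1, 1, 1⟩, ⟨1, 1, 1, 1⟩, ⟨1, 1, 1, 1⟩, ⟨1, 1, 1, 1⟩, ⟨40, 1, 2, 3⟩] (csEuopts p c0)
  (.n2 1800 (.n2 1200 (.leaf 0) (.n2 1500 (.leaf 0) (.n2 1650 (.n1 150 (.n1 75 (.n2 1575 (.leaf 0) 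
  (.n2 1613 (.n1 38 (.n1 19 (.n2 1594 (.leaf 0) (.leaf 8)) (.leaf 0)) (.leaf 0)) (.leaf 8))) 
  (.leaf 0)) (.leaf 0)) (.n1 150 (.leaf 8) (.n2 1725 (.n2 1688 (.leaf 0) (.leaf 8)) (.leaf 8))))))
   (.leaf 8))
  _ (by decide +kernel)

theorem chk_ssE00 : Chk (ssEopts p c0 c0) (ssEBox p) :=
  chk_of_checkP [⟨57, 3, 3, 3⟩, ⟨1, 1, 1, 1⟩, ⟨369, 17, 10, 10⟩, ⟨369, 17, 10, 10⟩, ⟨488, 21, 13, 13⟩, ⟨1, 1, 1, 1⟩, ⟨1, 1, 1, 1⟩, ⟨39, 2, 2, 2⟩, ⟨1, 1, 1, 1⟩, ⟨1, 1, 1, 1⟩, ⟨1, 1, 1, 1⟩, ⟨1, 1, 1, 1⟩] (ssEopts p c0 c0)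
  (.n1 945 (.n2 945 (.n1 473 (.n2 473 (.n0 1845 (.leaf 4) (.n0 1868 (.leaf 4) (.n1 237 (.n2 237 
  (.leaf 2) (.leaf 7)) (.leaf 3)))) (.leaf 7)) (.leaf 4)) (.leaf 7)) (.leaf 0))
  _ (by decide +kernel)

theorem chk_ssN20 : Chk (ssNopts p c2 c0) (ssNBox p c2 c0) :=
  chk_of_checkP [⟨281, 9, 8, 8⟩, ⟨145, 5, 5, 5⟩, ⟨40, 2, 2, 2⟩, ⟨1, 1, 1, 1⟩] (ssNopts p c2 c0)
  (.n2 420 (.n0 1845 (.n1 1575 (.n2 210 (.n2 105 (.n0 1822 (.n1 1418 (.n1 1339 (.leaf 0) (.n0 1811 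
  (.n1 1379 (.leaf 0) (.n2 53 (.leaf 0) (.n0 1806 (.leaf 1) (.leaf 0)))) (.leaf 0))) (.n2 53 
  (.n0 1811 (.n2 27 (.leaf 0) (.n0 1806 (.leaf 1) (.leaf 0))) (.leaf 0)) (.leaf 1))) (.leaf 0)) 
  (.n1 1418 (.n1 1339 (.leaf 0) (.n0 1822 (.n0 1811 (.leaf 1) (.n1 1379 (.n2 158 (.leaf 0) 
  (.leaf 1)) (.leaf 1))) (.n2 158 (.leaf 0) (.leaf 1)))) (.leaf 1))) (.n1 1418 (.n1 1339 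
  (.n1 1300 (.leaf 0) (.leaf 1)) (.leaf 1)) (.leaf 1))) (.n2 210 (.n1 1733 (.n0 1822 (.n2 105 
  (.n0 1811 (.n1 1654 (.n2 53 (.n2 27 (.leaf 0) (.n1 1615 (.leaf 1) (.leaf 0))) (.leaf 1)) 
  (.n1 1694 (.n2 53 (.leaf 0) (.n0 1806 (.leaf 1) (.leaf 0))) (.leaf 0))) (.leaf 0)) (.n1 1654 
  (.leaf 1) (.n0 1811 (.leaf 1) (.n1 1694 (.leaf 1) (.leaf 0))))) (.n0 1834 (.n1 1654 (.n2 105 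
  (.leaf 0) (.leaf 1)) (.leaf 0)) (.leaf 0))) (.leaf 0)) (.n1 1733 (.n1 1654 (.leaf 1) (.leaf 2)) 
  (.leaf 2)))) (.n1 1575 (.n2 210 (.leaf 0) (.n1 1418 (.n1 1339 (.leaf 0) (.n0 1868 (.leaf 1) 
  (.leaf 0))) (.leaf 1))) (.n0 1868 (.n1 1733 (.n2 210 (.leaf 0) (.n2 315 (.leaf 0) (.leaf 2))) 
  (.leaf 0)) (.leaf 0)))) (.n1 1575 (.n2 630 (.n2 525 (.leaf 1) (.n1 1418 (.n0 1845 (.leaf 1) 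
  (.n0 1868 (.leaf 1) (.n2 578 (.leaf 1) (.n1 1339 (.n0 1879 (.leaf 1) (.n1 1300 (.leaf 1) 
  (.n1 1320 (.leaf 1) (.leaf 2)))) (.leaf 2))))) (.leaf 2))) (.n0 1845 (.leaf 2) (.n0 1868 
  (.leaf 2) (.n1 1418 (.n1 1339 (.n2 735 (.n0 1879 (.leaf 2) (.n1 1300 (.n2 682 (.n0 1885 
  (.leaf 2) (.n1 1280 (.n2 656 (.leaf 1) (.leaf 2)) (.leaf 2))) (.leaf 2)) (.leaf 2))) (.leaf 2)) 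
  (.leaf 2)) (.leaf 2))))) (.leaf 2)))
  _ (by decide +kernel)

theorem chk_csN2 : Chk (csNopts p c2) (csNBox p c2) :=
  chk_of_checkP [⟨321, 7, 13, 8⟩, ⟨183, 4, 9, 5⟩, ⟨1, 1, 1, 1⟩, ⟨39, 1, 2, 2⟩, ⟨1, 1, 1, 1⟩] (csNopts p c2)
  (.n0 1845 (.leaf 0) (.n1 945 (.leaf 0) (.n1 1418 (.leaf 0) (.n1 1654 (.leaf 0) (.n2 1575 
  (.n1 1772 (.n1 1713 (.leaf 0) (.n0 1868 (.leaf 0) (.n0 1879 (.leaf 0) (.leaf 1)))) (.leaf 3)) 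
  (.leaf 3))))))
  _ (by decide +kernel)

theorem chk_ccN : Chk (ccNopts p) (ccBox p) :=
  chk_of_checkP [⟨561, 5, 18, 19⟩, ⟨1, 1, 1, 1⟩] (ccNopts p)
  (.leaf 0)
  _ (by decide +kernel)

theorem chk_ssN11 : Chk (ssNopts p c1 c1) (ssNBox p c1 c1) :=
  chk_of_checkP [⟨368, 9, 11, 11⟩, ⟨1, 1, 1, 1⟩, ⟨40, 2, 2, 2⟩, ⟨38, 1, 2, 2⟩] (ssNopts p c1 c1)
  (.n1 1050 (.n2 1050 (.leaf 0) (.n1 945 (.leaf 3) (.leaf 2))) (.n0 1845 (.leaf 2) (.n2 1050 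
  (.n2 945 (.leaf 0) (.leaf 2)) (.leaf 2))))
  _ (by decide +kernel)

theorem chk_ssN10 : Chk (ssNopts p c1 c0) (ssNBox p c1 c0) :=
  chk_of_checkP [⟨319, 9, 11, 8⟩, ⟨1, 1, 1, 1⟩, ⟨1, 1, 1, 1⟩, ⟨1, 1, 1, 1⟩] (ssNopts p c1 c0)
  (.leaf 0)
  _ (by decide +kernel)

theorem chk_csN0 : Chk (csNopts p c0) (csNBox p c0) :=
  chk_of_checkP [⟨310, 7, 13, 8⟩, ⟨1, 1, 1, 1⟩, ⟨1, 1, 1, 1⟩, ⟨1, 1, 1, 1⟩, ⟨1, 1, 1, 1⟩] (csNopts p c0)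
  (.leaf 0)
  _ (by decide +kernel)

theorem chk_ssN00 : Chk (ssNopts p c0 c0) (ssNBox p c0 c0) :=
  chk_of_checkP [⟨268, 9, 8, 8⟩, ⟨1, 1, 1, 1⟩, ⟨1, 1, 1, 1⟩, ⟨1, 1, 1, 1⟩] (ssNopts p c0 c0)
  (.leaf 0)
  _ (by decide +kernel)


end Pool.Agent.T2H40.BR.Q2
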