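import Pool.Agent.T2H40.BR.D.Q3_csE0_0

set_option autoImplicit false
set_option maxRecDepth 1000000
set_option exponentiation.threshold 1000000000

namespace Pool.Agent.T2H40.BR.Q3

theorem chk_csE0 : Chk (csEopts p c0) (csEBox p c0) :=
  (Chk.n2 (opts := csEopts p c0) 1500 csE0_P0 csE0_P1)

end Pool.Agent.T2H40.BR.Q3
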