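import Pool.Agent.T2H40.BR.D.Q3_csE1_0
import Pool.Agent.T2H40.BR.D.Q3_csE1_1

set_option autoImplicit false
set_option maxRecDepth 1000000
set_option exponentiation.threshold 1000000000

namespace Pool.Agent.T2H40.BR.Q3

theorem chk_csE1 : Chk (csEopts p c1) (csEBox p c1) :=
  (Chk.n2 (opts := csEopts p c1) 1500 csE1_P0 (Chk.n2 (opts := csEopts p c1) 2250 csE1_P1 (Chk.n1 
  (opts := csEopts p c1) 850 csE1_P2 csE1_P3)))

end Pool.Agent.T2H40.BR.Q3
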