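import Pool.Agent.T2H40.BR.D.Q3

set_option autoImplicit false
set_option maxRecDepth 1000000
set_option exponentiation.threshold 1000000000

namespace Pool.Agent.T2H40.BR.Q3

theorem csE2_P2 : Chk (csEopts p c2) {({({({(csEBox p c2) with l2 := 1500}) with l2 := 2250}) with h1 := 1150}) with h1 := 725} :=
  chk_of_checkP [⟨591, 7, 19, 23⟩, ⟨382, 4, 12, 15⟩, ⟨591, 7, 19, 23⟩, ⟨1, 1, 1, 1⟩, ⟨1, 1, 1, 1⟩, ⟨1, 1, 1, 1⟩, ⟨41, 2, 2, 3⟩, ⟨1, 1, 1, 1⟩, ⟨40, 1, 2, 3⟩, ⟨40, 1, 2, 3⟩, ⟨1, 1, 1, 1⟩] (csEopts p c2)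
  (.n2 2625 (.n0 1975 (.n0 1963 (.n1 513 (.n2 2438 (.leaf 0) (.n2 2532 (.leaf 0) (.n1 407 (.n2 2579 
  (.n0 1957 (.n0 1954 (.n1 354 (.n1 327 (.n2 2556 (.leaf 0) (.n2 2568 (.n0 1952 (.n0 1951 
  (.n1 314 (.n1 307 (.leaf 6) (.leaf 0)) (.leaf 0)) (.leaf 0)) (.leaf 0)) (.leaf 6))) (.leaf 0)) 
  (.leaf 0)) (.leaf 0)) (.leaf 0)) (.n0 1957 (.n1 354 (.n0 1954 (.leaf 6) (.n0 1955 (.leaf 6) 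
  (.n1 327 (.leaf 6) (.n2 2602 (.leaf 0) (.leaf 6))))) (.n2 2602 (.n0 1954 (.n0 1952 (.n1 381 
  (.n2 2591 (.leaf 0) (.leaf 6)) (.leaf 0)) (.leaf 0)) (.leaf 0)) (.n1 381 (.leaf 6) (.n0 1954 
  (.n1 394 (.leaf 6) (.n2 2614 (.leaf 0) (.leaf 6))) (.leaf 0))))) (.n1 354 (.n1 327 (.leaf 6) 
  (.leaf 0)) (.leaf 0)))) (.n0 1957 (.n0 1954 (.n0 1952 (.n1 460 (.n0 1951 (.n1 433 (.n2 2579 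
  (.leaf 0) (.n2 2602 (.leaf 0) (.n1 420 (.n2 2614 (.leaf 0) (.leaf 6)) (.leaf 0)))) (.leaf 0)) 
  (.leaf 0)) (.leaf 0)) (.leaf 0)) (.leaf 0)) (.leaf 0))))) (.leaf 0)) (.leaf 0)) (.leaf 0)) 
  (.n2 2813 (.n1 513 (.n2 2719 (.n0 1975 (.n0 1963 (.n1 407 (.leaf 6) (.n2 2672 (.n0 1957 
  (.n1 460 (.n1 433 (.leaf 6) (.n2 2649 (.n2 2637 (.leaf 0) (.leaf 6)) (.leaf 6))) (.n0 1954 
  (.n2 2649 (.leaf 0) (.n1 487 (.leaf 6) (.leaf 0))) (.leaf 0))) (.leaf 0)) (.leaf 6))) (.leaf 0))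
   (.leaf 0)) (.leaf 9)) (.n0 1975 (.n0 1963 (.n2 2719 (.n0 1957 (.n1 619 (.n1 566 (.n2 2672 
  (.leaf 0) (.n2 2696 (.n1 540 (.n1 527 (.leaf 6) (.leaf 0)) (.leaf 0)) (.leaf 6))) (.leaf 0)) 
  (.leaf 0)) (.leaf 0)) (.n1 619 (.n1 566 (.leaf 6) (.n2 2766 (.n0 1957 (.n0 1954 (.leaf 6) 
  (.n1 593 (.leaf 6) (.leaf 0))) (.leaf 0)) (.leaf 6))) (.n2 2766 (.n0 1957 (.n0 1954 (.n0 1952 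
  (.n1 672 (.n2 2743 (.leaf 0) (.n1 646 (.leaf 6) (.leaf 0))) (.leaf 0)) (.leaf 0)) (.leaf 0)) 
  (.leaf 0)) (.n0 1957 (.n1 672 (.leaf 6) (.n2 2790 (.leaf 0) (.leaf 6))) (.leaf 0))))) (.leaf 0))
   (.leaf 0))) (.leaf 9)))
  _ (by decide +kernel)

theorem csE2_P3 : Chk (csEopts p c2) {({({({(csEBox p c2) with l2 := 1500}) with l2 := 2250}) with h1 := 1150}) with l1 := 725} :=
  chk_of_checkP [⟨591, 7, 19, 23⟩, ⟨382, 4, 12, 15⟩, ⟨591, 7, 19, 23⟩, ⟨1, 1, 1, 1⟩, ⟨1, 1, 1, 1⟩, ⟨1, 1, 1, 1⟩, ⟨41, 2, 2, 3⟩, ⟨1, 1, 1, 1⟩, ⟨40, 1, 2, 3⟩, ⟨40, 1, 2, 3⟩, ⟨1, 1, 1, 1⟩] (csEopts p c2)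
  (.n2 2625 (.n0 1975 (.n1 938 (.leaf 0) (.n2 2438 (.n2 2344 (.n1 1044 (.n0 1963 (.n0 1957 
  (.n0 1954 (.n1 991 (.leaf 0) (.n2 2297 (.leaf 8) (.leaf 0))) (.leaf 0)) (.leaf 0)) (.leaf 0)) 
  (.leaf 8)) (.leaf 0)) (.leaf 0))) (.leaf 0)) (.n2 2813 (.leaf 0) (.n1 938 (.n2 2907 (.n0 1975 
  (.n1 832 (.n0 1963 (.n2 2860 (.n1 779 (.n2 2837 (.n1 752 (.leaf 6) (.leaf 0)) (.leaf 6)) 
  (.leaf 0)) (.leaf 6)) (.leaf 0)) (.leaf 0)) (.leaf 0)) (.n1 832 (.leaf 9) (.n0 1975 (.n0 1963 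
  (.n0 1957 (.n1 885 (.leaf 6) (.n2 2954 (.leaf 0) (.leaf 6))) (.leaf 0)) (.leaf 0)) (.leaf 0)))) 
  (.leaf 0))))
  _ (by decide +kernel)


end Pool.Agent.T2H40.BR.Q3
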