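import Pool.Agent.T2H40.BR.D.Q3

set_option autoImplicit false
set_option maxRecDepth 1000000
set_option exponentiation.threshold 1000000000

namespace Pool.Agent.T2H40.BR.Q3

theorem csE2_P4 : Chk (csEopts p c2) {({({(csEBox p c2) with l2 := 1500}) with l2 := 2250}) with l1 := 1150} :=
  chk_of_checkP [⟨591, 7, 19, 23⟩, ⟨382, 4, 12, 15⟩, ⟨591, 7, 19, 23⟩, ⟨1, 1, 1, 1⟩, ⟨1, 1, 1, 1⟩, ⟨1, 1, 1, 1⟩, ⟨41, 2, 2, 3⟩, ⟨1, 1, 1, 1⟩, ⟨40, 1, 2, 3⟩, ⟨40, 1, 2, 3⟩, ⟨1, 1, 1, 1⟩] (csEopts p c2)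
  (.n1 1575 (.n2 2625 (.n2 2438 (.n1 1363 (.n1 1257 (.n1 1204 (.n2 2344 (.leaf 8) (.leaf 0)) 
  (.leaf 8)) (.leaf 8)) (.leaf 8)) (.n1 1363 (.leaf 0) (.n1 1469 (.n2 2532 (.leaf 8) (.n0 1975 
  (.leaf 0) (.n0 1988 (.leaf 0) (.n0 1994 (.leaf 0) (.leaf 2))))) (.leaf 8)))) (.n1 1363 (.leaf 0)
   (.n2 2813 (.n1 1469 (.leaf 0) (.n0 1975 (.n0 1963 (.leaf 0) (.n0 1969 (.leaf 0) (.n1 1522 
  (.leaf 0) (.leaf 1)))) (.leaf 2))) (.leaf 0)))) (.n2 2625 (.leaf 8) (.n1 1788 (.n2 2813 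
  (.n1 1682 (.n2 2719 (.leaf 8) (.n1 1628 (.leaf 1) (.n2 2766 (.leaf 8) (.leaf 1)))) (.leaf 8)) 
  (.n1 1682 (.leaf 2) (.n2 2907 (.n1 1735 (.n2 2860 (.leaf 8) (.leaf 1)) (.leaf 8)) (.n0 1975 
  (.n1 1735 (.leaf 1) (.n1 1761 (.leaf 1) (.n2 2954 (.n1 1774 (.n2 2931 (.leaf 8) (.leaf 1)) 
  (.leaf 8)) (.leaf 1)))) (.leaf 1))))) (.n2 2813 (.leaf 8) (.n1 1894 (.n1 1841 (.n2 2907 
  (.leaf 8) (.n1 1815 (.n0 1975 (.n2 2954 (.leaf 8) (.n1 1802 (.n2 2977 (.leaf 8) (.leaf 1)) 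
  (.leaf 8))) (.leaf 1)) (.leaf 8))) (.leaf 8)) (.leaf 8))))))
  _ (by decide +kernel)


end Pool.Agent.T2H40.BR.Q3
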