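import Pool.Agent.T2H40.BR.D.Q3

set_option autoImplicit false
set_option maxRecDepth 1000000
set_option exponentiation.threshold 1000000000

namespace Pool.Agent.T2H40.BR.Q3

theorem csEu2_P3 : Chk (csEuopts p c2) {({({({({({({({({(csEuBox p) with l2 := 1800}) with l2 := 2400}) with h2 := 2700}) with h0 := 1975}) with h2 := 2550}) with h0 := 1963}) with h2 := 2475}) with h1 := 150}) with l2 := 2438} :=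
  chk_of_checkP [⟨577, 7, 19, 23⟩, ⟨1, 1, 1, 1⟩, ⟨1, 1, 1, 1⟩, ⟨1, 1, 1, 1⟩, ⟨1, 1, 1, 1⟩, ⟨1, 1, 1, 1⟩, ⟨41, 2, 2, 3⟩, ⟨40, 1, 2, 3⟩, ⟨40, 1, 2, 3⟩] (csEuopts p c2)
  (.n0 1957 (.n2 2457 (.n1 75 (.n1 38 (.n0 1954 (.leaf 6) (.n1 19 (.leaf 6) (.n1 29 (.leaf 6) 
  (.n2 2448 (.leaf 0) (.leaf 6))))) (.n0 1954 (.n2 2448 (.n1 57 (.n2 2443 (.n0 1952 (.n1 47 
  (.n1 43 (.leaf 6) (.n2 2441 (.leaf 0) (.leaf 6))) (.leaf 0)) (.leaf 0)) (.n1 47 (.leaf 6) 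
  (.n0 1952 (.n0 1951 (.leaf 6) (.n1 52 (.leaf 6) (.leaf 0))) (.leaf 0)))) (.n0 1952 (.n1 66 
  (.n0 1951 (.n1 61 (.n1 59 (.n1 58 (.n2 2443 (.leaf 0) (.n2 2446 (.leaf 0) (.leaf 6))) (.leaf 0))
   (.leaf 0)) (.leaf 0)) (.leaf 0)) (.leaf 0)) (.leaf 0))) (.n1 57 (.leaf 6) (.n2 2452 (.n1 66 
  (.n0 1952 (.leaf 6) (.leaf 0)) (.n0 1952 (.n0 1951 (.n2 2450 (.leaf 0) (.n1 71 (.leaf 6) 
  (.leaf 0))) (.leaf 0)) (.leaf 0))) (.n0 1952 (.leaf 6) (.n1 66 (.leaf 6) (.leaf 0)))))) (.n1 57 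
  (.n2 2448 (.leaf 0) (.leaf 6)) (.leaf 0)))) (.n1 113 (.n0 1954 (.n1 94 (.n0 1952 (.n1 85 
  (.n0 1951 (.n1 80 (.n1 78 (.n2 2448 (.leaf 0) (.n2 2452 (.leaf 0) (.leaf 6))) (.leaf 0)) 
  (.leaf 0)) (.leaf 0)) (.leaf 0)) (.leaf 0)) (.leaf 0)) (.leaf 0)) (.leaf 0))) (.n1 75 (.leaf 6) 
  (.n1 113 (.n2 2466 (.n0 1954 (.n1 94 (.n1 85 (.leaf 6) (.n2 2462 (.n2 2460 (.leaf 0) (.n0 1952 
  (.leaf 6) (.leaf 0))) (.leaf 6))) (.n0 1952 (.n1 104 (.n0 1951 (.n2 2462 (.leaf 0) (.n1 99 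
  (.leaf 6) (.leaf 0))) (.leaf 0)) (.leaf 0)) (.leaf 0))) (.leaf 0)) (.n1 94 (.leaf 6) (.n0 1954 
  (.n1 104 (.leaf 6) (.n2 2470 (.n2 2468 (.leaf 0) (.n0 1952 (.leaf 6) (.leaf 0))) (.leaf 6))) 
  (.leaf 0)))) (.n0 1954 (.n1 132 (.n0 1952 (.n1 123 (.n0 1951 (.n1 118 (.n2 2466 (.leaf 0) 
  (.n2 2470 (.leaf 0) (.leaf 6))) (.leaf 0)) (.leaf 0)) (.leaf 0)) (.leaf 0)) (.leaf 0)) 
  (.leaf 0))))) (.n1 75 (.n2 2457 (.n1 38 (.n1 19 (.leaf 6) (.leaf 0)) (.leaf 0)) (.n0 1960 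
  (.leaf 6) (.n1 38 (.leaf 6) (.leaf 0)))) (.leaf 0)))
  _ (by decide +kernel)

theorem csEu2_P4 : Chk (csEuopts p c2) {({({({({({({({(csEuBox p) with l2 := 1800}) with l2 := 2400}) with h2 := 2700}) with h0 := 1975}) with h2 := 2550}) with h0 := 1963}) with h2 := 2475}) with l1 := 150} :=
  chk_of_checkP [⟨577, 7, 19, 23⟩, ⟨1, 1, 1, 1⟩, ⟨1, 1, 1, 1⟩, ⟨1, 1, 1, 1⟩, ⟨1, 1, 1, 1⟩, ⟨1, 1, 1, 1⟩, ⟨41, 2, 2, 3⟩, ⟨40, 1, 2, 3⟩, ⟨40, 1, 2, 3⟩] (csEuopts p c2)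
  (.leaf 0)
  _ (by decide +kernel)


end Pool.Agent.T2H40.BR.Q3
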