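import Pool.Agent.T2H40.BR.D.Q3

set_option autoImplicit false
set_option maxRecDepth 1000000
set_option exponentiation.threshold 1000000000

namespace Pool.Agent.T2H40.BR.Q3

theorem csEu2_P5 : Chk (csEuopts p c2) {({({({({({({(csEuBox p) with l2 := 1800}) with l2 := 2400}) with h2 := 2700}) with h0 := 1975}) with h2 := 2550}) with h0 := 1963}) with l2 := 2475} :=
  chk_of_checkP [⟨577, 7, 19, 23⟩, ⟨1, 1, 1, 1⟩, ⟨1, 1, 1, 1⟩, ⟨1, 1, 1, 1⟩, ⟨1, 1, 1, 1⟩, ⟨1, 1, 1, 1⟩, ⟨41, 2, 2, 3⟩, ⟨40, 1, 2, 3⟩, ⟨40, 1, 2, 3⟩] (csEuopts p c2)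
  (.n1 150 (.n1 75 (.leaf 6) (.n1 113 (.leaf 6) (.n2 2512 (.n2 2494 (.n0 1957 (.n2 2485 (.n0 1954 
  (.n1 132 (.n0 1952 (.leaf 6) (.n1 123 (.leaf 6) (.leaf 0))) (.n0 1952 (.n1 141 (.n2 2480 
  (.leaf 0) (.leaf 6)) (.leaf 0)) (.leaf 0))) (.leaf 0)) (.n0 1954 (.leaf 6) (.n1 132 (.leaf 6) 
  (.leaf 0)))) (.leaf 0)) (.leaf 6)) (.leaf 6)))) (.n0 1957 (.n2 2512 (.n1 225 (.n0 1954 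
  (.n2 2494 (.n1 188 (.n1 169 (.n0 1952 (.n1 160 (.n0 1951 (.n2 2485 (.leaf 0) (.n2 2490 (.leaf 0)
   (.leaf 6))) (.leaf 0)) (.leaf 0)) (.leaf 0)) (.leaf 0)) (.leaf 0)) (.n1 188 (.n1 169 (.leaf 6) 
  (.n2 2503 (.n0 1952 (.n2 2499 (.leaf 0) (.n1 179 (.leaf 6) (.leaf 0))) (.leaf 0)) (.leaf 6))) 
  (.n1 207 (.n0 1952 (.n1 197 (.n2 2503 (.leaf 0) (.n0 1951 (.leaf 6) (.leaf 0))) (.leaf 0)) 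
  (.leaf 0)) (.leaf 0)))) (.n1 188 (.n1 169 (.n2 2494 (.leaf 0) (.n1 160 (.leaf 6) (.leaf 0))) 
  (.leaf 0)) (.leaf 0))) (.leaf 0)) (.n1 225 (.n1 188 (.leaf 6) (.n1 207 (.leaf 6) (.n2 2531 
  (.n2 2522 (.n0 1954 (.n2 2517 (.leaf 0) (.n0 1952 (.leaf 6) (.leaf 0))) (.leaf 0)) (.leaf 6)) 
  (.leaf 6)))) (.n0 1954 (.n2 2531 (.n1 263 (.n1 244 (.n0 1952 (.n1 235 (.n2 2522 (.leaf 0) 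
  (.leaf 6)) (.leaf 0)) (.leaf 0)) (.leaf 0)) (.leaf 0)) (.n1 263 (.n1 244 (.leaf 6) (.n1 253 
  (.leaf 6) (.n2 2541 (.leaf 0) (.leaf 6)))) (.n1 282 (.n0 1952 (.n2 2541 (.leaf 0) (.n1 273 
  (.leaf 6) (.leaf 0))) (.leaf 0)) (.leaf 0)))) (.n1 263 (.n1 244 (.n2 2531 (.leaf 0) (.leaf 6)) 
  (.leaf 0)) (.leaf 0))))) (.n1 225 (.n2 2512 (.leaf 0) (.n1 188 (.leaf 6) (.n2 2531 (.leaf 0) 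
  (.leaf 6)))) (.leaf 0))))
  _ (by decide +kernel)

theorem csEu2_P6 : Chk (csEuopts p c2) {({({({({({(csEuBox p) with l2 := 1800}) with l2 := 2400}) with h2 := 2700}) with h0 := 1975}) with h2 := 2550}) with l0 := 1963} :=
  chk_of_checkP [⟨577, 7, 19, 23⟩, ⟨1, 1, 1, 1⟩, ⟨1, 1, 1, 1⟩, ⟨1, 1, 1, 1⟩, ⟨1, 1, 1, 1⟩, ⟨1, 1, 1, 1⟩, ⟨41, 2, 2, 3⟩, ⟨40, 1, 2, 3⟩, ⟨40, 1, 2, 3⟩] (csEuopts p c2)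
  (.n1 150 (.n1 75 (.n2 2475 (.leaf 0) (.leaf 6)) (.leaf 0)) (.leaf 0))
  _ (by decide +kernel)

theorem csEu2_P7 : Chk (csEuopts p c2) {({({({({(csEuBox p) with l2 := 1800}) with l2 := 2400}) with h2 := 2700}) with h0 := 1975}) with l2 := 2550} :=
  chk_of_checkP [⟨577, 7, 19, 23⟩, ⟨1, 1, 1, 1⟩, ⟨1, 1, 1, 1⟩, ⟨1, 1, 1, 1⟩, ⟨1, 1, 1, 1⟩, ⟨1, 1, 1, 1⟩, ⟨41, 2, 2, 3⟩, ⟨40, 1, 2, 3⟩, ⟨40, 1, 2, 3⟩] (csEuopts p c2)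
  (.n1 150 (.leaf 6) (.n1 225 (.leaf 6) (.n1 263 (.leaf 6) (.n0 1963 (.n1 282 (.leaf 6) (.n2 2625 
  (.n2 2588 (.n0 1957 (.n1 291 (.leaf 6) (.n2 2569 (.n2 2560 (.leaf 0) (.leaf 6)) (.leaf 6))) 
  (.leaf 0)) (.leaf 6)) (.leaf 6))) (.leaf 0)))))
  _ (by decide +kernel)

theorem csEu2_P8 : Chk (csEuopts p c2) {({({({(csEuBox p) with l2 := 1800}) with l2 := 2400}) with h2 := 2700}) with l0 := 1975} :=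
  chk_of_checkP [⟨577, 7, 19, 23⟩, ⟨1, 1, 1, 1⟩, ⟨1, 1, 1, 1⟩, ⟨1, 1, 1, 1⟩, ⟨1, 1, 1, 1⟩, ⟨1, 1, 1, 1⟩, ⟨41, 2, 2, 3⟩, ⟨40, 1, 2, 3⟩, ⟨40, 1, 2, 3⟩] (csEuopts p c2)
  (.leaf 0)
  _ (by decide +kernel)

theorem csEu2_P9 : Chk (csEuopts p c2) {({({(csEuBox p) with l2 := 1800}) with l2 := 2400}) with l2 := 2700} :=
  chk_of_checkP [⟨577, 7, 19, 23⟩, ⟨1, 1, 1, 1⟩, ⟨1, 1, 1, 1⟩, ⟨1, 1, 1, 1⟩, ⟨1, 1, 1, 1⟩, ⟨1, 1, 1, 1⟩, ⟨41, 2, 2, 3⟩, ⟨40, 1, 2, 3⟩, ⟨40, 1, 2, 3⟩] (csEuopts p c2)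
  (.leaf 8)
  _ (by decide +kernel)


end Pool.Agent.T2H40.BR.Q3
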