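import Pool.Agent.T2H40.BR.D.Q3

set_option autoImplicit false
set_option maxRecDepth 1000000
set_option exponentiation.threshold 1000000000

namespace Pool.Agent.T2H40.BR.Q3

theorem chk_csEs0 : Chk (csEsopts p c0) (csEsBox p) :=
  chk_of_checkP [⟨507, 4, 22, 15⟩, ⟨800, 7, 35, 23⟩] (csEsopts p c0)
  (.n2 3000 (.leaf 0) (.n2 4500 (.n2 3750 (.n2 3375 (.n2 3188 (.n1 150 (.n1 75 (.n0 1975 (.leaf 1) 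
  (.n2 3094 (.n2 3047 (.n1 38 (.n2 3024 (.n1 19 (.n0 1988 (.leaf 1) (.n0 1994 (.leaf 1) (.n0 1997 
  (.leaf 1) (.n1 10 (.leaf 1) (.n2 3012 (.leaf 0) (.leaf 1)))))) (.leaf 0)) (.leaf 1)) (.leaf 0)) 
  (.leaf 1)) (.leaf 1))) (.n2 3094 (.leaf 0) (.n1 113 (.leaf 1) (.n2 3141 (.leaf 0) (.leaf 1))))) 
  (.leaf 0)) (.n0 1975 (.leaf 1) (.n1 150 (.leaf 1) (.n1 225 (.n0 1988 (.leaf 1) (.n1 188 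
  (.leaf 1) (.n2 3282 (.leaf 0) (.leaf 1)))) (.n2 3282 (.leaf 0) (.leaf 1)))))) (.leaf 1)) 
  (.leaf 1)) (.leaf 1)))
  _ (by decide +kernel)

theorem chk_csEu0 : Chk (csEuopts p c0) (csEuBox p) :=
  chk_of_checkP [⟨572, 7, 19, 23⟩, ⟨1, 1, 1, 1⟩, ⟨1, 1, 1, 1⟩, ⟨1, 1, 1, 1⟩, ⟨1, 1, 1, 1⟩, ⟨1, 1, 1, 1⟩, ⟨1, 1, 1, 1⟩, ⟨1, 1, 1, 1⟩, ⟨40, 1, 2, 3⟩] (csEuopts p c0)
  (.n2 1800 (.n2 1200 (.leaf 0) (.n2 1500 (.leaf 0) (.leaf 0))) (.leaf 8))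
  _ (by decide +kernel)

theorem chk_csN0 : Chk (csNopts p c0) (csNBox p c0) :=
  chk_of_checkP [⟨373, 7, 15, 11⟩, ⟨1, 1, 1, 1⟩, ⟨1, 1, 1, 1⟩, ⟨1, 1, 1, 1⟩, ⟨1, 1, 1, 1⟩] (csNopts p c0)
  (.n2 450 (.leaf 0) (.leaf 0))
  _ (by decide +kernel)

theorem chk_ssE21 : Chk (ssEopts p c2 c1) (ssEBox p) :=
  chk_of_checkP [⟨57, 3, 3, 3⟩, ⟨1, 1, 1, 1⟩, ⟨1, 1, 1, 1⟩, ⟨1, 1, 1, 1⟩, ⟨1, 1, 1, 1⟩, ⟨1, 1, 1, 1⟩, ⟨40, 2, 2, 2⟩, ⟨1, 1, 1, 1⟩, ⟨40, 2, 2, 2⟩, ⟨1, 1, 1, 1⟩, ⟨1, 1, 1, 1⟩, ⟨1, 1, 1, 1⟩] (ssEopts p c2 c1)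
  (.n1 1000 (.n2 1000 (.n2 500 (.n2 250 (.leaf 6) (.leaf 8)) (.leaf 8)) (.leaf 8)) (.leaf 0))
  _ (by decide +kernel)

theorem chk_vC : Chk (vCopts p) (vCBox p) :=
  chk_of_checkP [⟨85, 2, 5, 1⟩] (vCopts p)
  (.leaf 0)
  _ (by decide +kernel)

theorem chk_vS1 : Chk (vSopts p c1) (vSBox p c1) :=
  chk_of_checkP [⟨85, 2, 5, 1⟩] (vSopts p c1)
  (.leaf 0)
  _ (by decide +kernel)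

theorem chk_vS2 : Chk (vSopts p c2) (vSBox p c2) :=
  chk_of_checkP [⟨74, 2, 4, 1⟩] (vSopts p c2)
  (.leaf 0)
  _ (by decide +kernel)

theorem chk_vS0 : Chk (vSopts p c0) (vSBox p c0) :=
  chk_of_checkP [⟨69, 2, 4, 1⟩] (vSopts p c0)
  (.leaf 0)
  _ (by decide +kernel)

theorem chk_ssN21 : Chk (ssNopts p c2 c1) (ssNBox p c2 c1) :=
  chk_of_checkP [⟨1, 1, 1, 1⟩, ⟨1, 1, 1, 1⟩, ⟨40, 2, 2, 2⟩, ⟨1, 1, 1, 1⟩] (ssNopts p c2 c1)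
  (.leaf 2)
  _ (by decide +kernel)

theorem chk_ssN22 : Chk (ssNopts p c2 c2) (ssNBox p c2 c2) :=
  chk_of_checkP [⟨1, 1, 1, 1⟩, ⟨1, 1, 1, 1⟩, ⟨40, 2, 2, 2⟩, ⟨1, 1, 1, 1⟩] (ssNopts p c2 c2)
  (.leaf 2)
  _ (by decide +kernel)

theorem chk_ssE22 : Chk (ssEopts p c2 c2) (ssEBox p) :=
  chk_of_checkP [⟨1, 1, 1, 1⟩, ⟨1, 1, 1, 1⟩, ⟨1, 1, 1, 1⟩, ⟨1, 1, 1, 1⟩, ⟨1, 1, 1, 1⟩, ⟨1, 1, 1, 1⟩, ⟨1, 1, 1, 1⟩, ⟨1, 1, 1, 1⟩, ⟨40, 2, 2, 2⟩, ⟨1, 1, 1, 1⟩, ⟨1, 1, 1, 1⟩, ⟨1, 1, 1, 1⟩] (ssEopts p c2 c2)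
  (.leaf 8)
  _ (by decide +kernel)


end Pool.Agent.T2H40.BR.Q3
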