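import Pool.Agent.T2H40.BR.D.Q3

set_option autoImplicit false
set_option maxRecDepth 1000000
set_option exponentiation.threshold 1000000000

namespace Pool.Agent.T2H40.BR.Q3

theorem chk_ccE : Chk (ccEopts p) (ccBox p) :=
  chk_of_checkP [⟨823, 5, 26, 27⟩, ⟨1, 1, 1, 1⟩, ⟨823, 5, 26, 27⟩, ⟨39, 2, 2, 1⟩] (ccEopts p)
  (.n1 1000 (.leaf 2) (.n1 1500 (.leaf 2) (.n1 1750 (.leaf 2) (.n1 1875 (.leaf 2) (.n1 1937 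
  (.leaf 2) (.n1 1969 (.n0 1975 (.n0 1963 (.n1 1953 (.leaf 2) (.n1 1961 (.n2 750 (.n2 375 
  (.n0 1957 (.n1 1957 (.leaf 0) (.n0 1954 (.leaf 3) (.leaf 0))) (.leaf 0)) (.leaf 0)) (.leaf 0)) 
  (.n0 1957 (.leaf 3) (.n1 1965 (.n2 750 (.leaf 0) (.leaf 0)) (.leaf 3))))) (.leaf 0)) (.leaf 0)) 
  (.n0 1975 (.n0 1963 (.leaf 3) (.n1 1985 (.n1 1977 (.n0 1969 (.n2 750 (.n1 1973 (.leaf 0) 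
  (.leaf 3)) (.leaf 0)) (.leaf 0)) (.leaf 3)) (.leaf 3))) (.n0 1988 (.n1 1985 (.leaf 0) (.n0 1982 
  (.leaf 3) (.n1 1992 (.leaf 0) (.leaf 3)))) (.leaf 0)))))))))
  _ (by decide +kernel)

theorem chk_ssE11 : Chk (ssEopts p c1 c1) (ssEBox p) :=
  chk_of_checkP [⟨57, 3, 3, 3⟩, ⟨1, 1, 1, 1⟩, ⟨1, 1, 1, 1⟩, ⟨1, 1, 1, 1⟩, ⟨812, 33, 25, 25⟩, ⟨1, 1, 1, 1⟩, ⟨1, 1, 1, 1⟩, ⟨1, 1, 1, 1⟩, ⟨40, 2, 2, 2⟩, ⟨1, 1, 1, 1⟩, ⟨1, 1, 1, 1⟩, ⟨1, 1, 1, 1⟩] (ssEopts p c1 c1)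
  (.n1 1000 (.n2 1000 (.n1 500 (.leaf 4) (.leaf 8)) (.leaf 8)) (.leaf 0))
  _ (by decide +kernel)

theorem chk_ssE20 : Chk (ssEopts p c2 c0) (ssEBox p) :=
  chk_of_checkP [⟨57, 3, 3, 3⟩, ⟨1, 1, 1, 1⟩, ⟨1, 1, 1, 1⟩, ⟨1, 1, 1, 1⟩, ⟨614, 25, 17, 17⟩, ⟨1, 1, 1, 1⟩, ⟨40, 2, 2, 2⟩, ⟨1, 1, 1, 1⟩, ⟨1, 1, 1, 1⟩, ⟨1, 1, 1, 1⟩, ⟨1, 1, 1, 1⟩, ⟨1, 1, 1, 1⟩] (ssEopts p c2 c0)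
  (.n1 1000 (.n1 500 (.n2 1000 (.n2 500 (.n2 250 (.leaf 6) (.n2 375 (.leaf 6) (.leaf 4))) (.leaf 4))
   (.leaf 4)) (.leaf 4)) (.leaf 0))
  _ (by decide +kernel)

theorem chk_ssN20 : Chk (ssNopts p c2 c0) (ssNBox p c2 c0) :=
  chk_of_checkP [⟨340, 9, 11, 11⟩, ⟨1, 1, 1, 1⟩, ⟨40, 2, 2, 2⟩, ⟨1, 1, 1, 1⟩] (ssNopts p c2 c0)
  (.n1 1600 (.n2 450 (.n1 1400 (.leaf 0) (.leaf 0)) (.n2 675 (.leaf 0) (.n2 788 (.leaf 0) (.n2 844 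
  (.leaf 0) (.leaf 2))))) (.n2 450 (.n0 1975 (.leaf 0) (.n0 1988 (.leaf 0) (.n1 1800 (.leaf 0) 
  (.n2 225 (.n1 1900 (.leaf 0) (.n2 113 (.n0 1994 (.leaf 0) (.n2 57 (.leaf 0) (.n1 1950 (.leaf 0) 
  (.leaf 2)))) (.leaf 2))) (.leaf 2))))) (.leaf 2)))
  _ (by decide +kernel)

theorem chk_ccN : Chk (ccNopts p) (ccBox p) :=
  chk_of_checkP [⟨674, 5, 22, 23⟩, ⟨1, 1, 1, 1⟩] (ccNopts p)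
  (.leaf 0)
  _ (by decide +kernel)

theorem chk_ssN00 : Chk (ssNopts p c0 c0) (ssNBox p c0 c0) :=
  chk_of_checkP [⟨328, 9, 11, 11⟩, ⟨1, 1, 1, 1⟩, ⟨1, 1, 1, 1⟩, ⟨1, 1, 1, 1⟩] (ssNopts p c0 c0)
  (.leaf 0)
  _ (by decide +kernel)


end Pool.Agent.T2H40.BR.Q3
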