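import Pool.Agent.T2H40.BR.D.Q3

set_option autoImplicit false
set_option maxRecDepth 1000000
set_option exponentiation.threshold 1000000000

namespace Pool.Agent.T2H40.BR.Q3

theorem chk_ssE00 : Chk (ssEopts p c0 c0) (ssEBox p) :=
  chk_of_checkP [⟨57, 3, 3, 3⟩, ⟨1, 1, 1, 1⟩, ⟨1, 1, 1, 1⟩, ⟨460, 20, 13, 13⟩, ⟨608, 25, 17, 17⟩, ⟨1, 1, 1, 1⟩, ⟨1, 1, 1, 1⟩, ⟨40, 2, 2, 2⟩, ⟨1, 1, 1, 1⟩, ⟨1, 1, 1, 1⟩, ⟨1, 1, 1, 1⟩, ⟨1, 1, 1, 1⟩] (ssEopts p c0 c0)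
  (.n1 1000 (.n2 1000 (.n1 500 (.n2 500 (.n1 250 (.n2 250 (.n1 125 (.leaf 7) (.leaf 4)) (.leaf 7)) 
  (.leaf 3)) (.leaf 7)) (.leaf 4)) (.leaf 7)) (.leaf 0))
  _ (by decide +kernel)

theorem chk_csEu1 : Chk (csEuopts p c1) (csEuBox p) :=
  chk_of_checkP [⟨712, 7, 23, 29⟩, ⟨1, 1, 1, 1⟩, ⟨1, 1, 1, 1⟩, ⟨1, 1, 1, 1⟩, ⟨1, 1, 1, 1⟩, ⟨1, 1, 1, 1⟩, ⟨1, 1, 1, 1⟩, ⟨40, 1, 2, 3⟩, ⟨40, 1, 2, 3⟩] (csEuopts p c1)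
  (.n2 1800 (.n2 1200 (.leaf 7) (.leaf 0)) (.n2 2400 (.n2 2100 (.leaf 0) (.leaf 8)) (.leaf 8)))
  _ (by decide +kernel)

theorem chk_csEt0 : Chk (csEtopts p c0) (csEtBox p) :=
  chk_of_checkP [⟨570, 7, 37, 23⟩, ⟨1, 1, 1, 1⟩, ⟨1, 1, 1, 1⟩, ⟨1, 1, 1, 1⟩, ⟨1, 1, 1, 1⟩, ⟨1, 1, 1, 1⟩, ⟨1, 1, 1, 1⟩, ⟨1, 1, 1, 1⟩, ⟨1, 1, 1, 1⟩, ⟨1, 1, 1, 1⟩] (csEtopts p c0)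
  (.leaf 0)
  _ (by decide +kernel)

theorem chk_csN2 : Chk (csNopts p c2) (csNBox p c2) :=
  chk_of_checkP [⟨384, 7, 15, 11⟩, ⟨1, 1, 1, 1⟩, ⟨1, 1, 1, 1⟩, ⟨39, 1, 2, 2⟩, ⟨1, 1, 1, 1⟩] (csNopts p c2)
  (.n1 1000 (.leaf 0) (.n1 1500 (.leaf 0) (.n1 1750 (.leaf 0) (.n2 1600 (.n1 1875 (.leaf 0) 
  (.leaf 3)) (.leaf 3)))))
  _ (by decide +kernel)

theorem chk_ssN11 : Chk (ssNopts p c1 c1) (ssNBox p c1 c1) :=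
  chk_of_checkP [⟨434, 9, 14, 14⟩, ⟨1, 1, 1, 1⟩, ⟨1, 1, 1, 1⟩, ⟨1, 1, 1, 1⟩] (ssNopts p c1 c1)
  (.leaf 0)
  _ (by decide +kernel)

theorem chk_csN1 : Chk (csNopts p c1) (csNBox p c1) :=
  chk_of_checkP [⟨426, 7, 15, 14⟩, ⟨1, 1, 1, 1⟩, ⟨1, 1, 1, 1⟩, ⟨1, 1, 1, 1⟩, ⟨1, 1, 1, 1⟩] (csNopts p c1)
  (.leaf 0)
  _ (by decide +kernel)

theorem chk_ssN10 : Chk (ssNopts p c1 c0) (ssNBox p c1 c0) :=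
  chk_of_checkP [⟨381, 9, 14, 11⟩, ⟨1, 1, 1, 1⟩, ⟨1, 1, 1, 1⟩, ⟨1, 1, 1, 1⟩] (ssNopts p c1 c0)
  (.leaf 0)
  _ (by decide +kernel)


end Pool.Agent.T2H40.BR.Q3
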