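import Pool.Agent.T2H40.BR.D.Q3

set_option autoImplicit false
set_option maxRecDepth 1000000
set_option exponentiation.threshold 1000000000

namespace Pool.Agent.T2H40.BR.Q3

theorem ssE10_P1 : Chk (ssEopts p c1 c0) {({({({({({({({({(ssEBox p) with h1 := 1000}) with h1 := 500}) with h2 := 1000}) with h1 := 250}) with h1 := 125}) with h2 := 500}) with h1 := 63}) with h1 := 32}) with l2 := 250} :=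
  chk_of_checkP [⟨57, 3, 3, 3⟩, ⟨1, 1, 1, 1⟩, ⟨567, 24, 17, 17⟩, ⟨567, 24, 17, 17⟩, ⟨769, 31, 23, 23⟩, ⟨1, 1, 1, 1⟩, ⟨1, 1, 1, 1⟩, ⟨40, 2, 2, 2⟩, ⟨1, 1, 1, 1⟩, ⟨40, 2, 2, 2⟩, ⟨1, 1, 1, 1⟩, ⟨1, 1, 1, 1⟩] (ssEopts p c1 c0)
  (.n0 1975 (.leaf 4) (.n2 375 (.leaf 4) (.n2 437 (.leaf 4) (.n1 16 (.n1 8 (.leaf 7) (.leaf 4)) 
  (.leaf 4)))))
  _ (by decide +kernel)

theorem ssE10_P2 : Chk (ssEopts p c1 c0) {({({({({({({({(ssEBox p) with h1 := 1000}) with h1 := 500}) with h2 := 1000}) with h1 := 250}) with h1 := 125}) with h2 := 500}) with h1 := 63}) with l1 := 32} :=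
  chk_of_checkP [⟨57, 3, 3, 3⟩, ⟨1, 1, 1, 1⟩, ⟨567, 24, 17, 17⟩, ⟨567, 24, 17, 17⟩, ⟨769, 31, 23, 23⟩, ⟨1, 1, 1, 1⟩, ⟨1, 1, 1, 1⟩, ⟨40, 2, 2, 2⟩, ⟨1, 1, 1, 1⟩, ⟨40, 2, 2, 2⟩, ⟨1, 1, 1, 1⟩, ⟨1, 1, 1, 1⟩] (ssEopts p c1 c0)
  (.leaf 2)
  _ (by decide +kernel)

theorem ssE10_P3 : Chk (ssEopts p c1 c0) {({({({({({({(ssEBox p) with h1 := 1000}) with h1 := 500}) with h2 := 1000}) with h1 := 250}) with h1 := 125}) with h2 := 500}) with l1 := 63} :=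
  chk_of_checkP [⟨57, 3, 3, 3⟩, ⟨1, 1, 1, 1⟩, ⟨567, 24, 17, 17⟩, ⟨567, 24, 17, 17⟩, ⟨769, 31, 23, 23⟩, ⟨1, 1, 1, 1⟩, ⟨1, 1, 1, 1⟩, ⟨40, 2, 2, 2⟩, ⟨1, 1, 1, 1⟩, ⟨40, 2, 2, 2⟩, ⟨1, 1, 1, 1⟩, ⟨1, 1, 1, 1⟩] (ssEopts p c1 c0)
  (.leaf 2)
  _ (by decide +kernel)

theorem ssE10_P4 : Chk (ssEopts p c1 c0) {({({({({({(ssEBox p) with h1 := 1000}) with h1 := 500}) with h2 := 1000}) with h1 := 250}) with h1 := 125}) with l2 := 500} :=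
  chk_of_checkP [⟨57, 3, 3, 3⟩, ⟨1, 1, 1, 1⟩, ⟨567, 24, 17, 17⟩, ⟨567, 24, 17, 17⟩, ⟨769, 31, 23, 23⟩, ⟨1, 1, 1, 1⟩, ⟨1, 1, 1, 1⟩, ⟨40, 2, 2, 2⟩, ⟨1, 1, 1, 1⟩, ⟨40, 2, 2, 2⟩, ⟨1, 1, 1, 1⟩, ⟨1, 1, 1, 1⟩] (ssEopts p c1 c0)
  (.n2 750 (.n1 63 (.n0 1975 (.n1 32 (.leaf 7) (.leaf 4)) (.leaf 7)) (.leaf 4)) (.leaf 7))
  _ (by decide +kernel)

theorem ssE10_P5 : Chk (ssEopts p c1 c0) {({({({({(ssEBox p) with h1 := 1000}) with h1 := 500}) with h2 := 1000}) with h1 := 250}) with l1 := 125} :=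
  chk_of_checkP [⟨57, 3, 3, 3⟩, ⟨1, 1, 1, 1⟩, ⟨567, 24, 17, 17⟩, ⟨567, 24, 17, 17⟩, ⟨769, 31, 23, 23⟩, ⟨1, 1, 1, 1⟩, ⟨1, 1, 1, 1⟩, ⟨40, 2, 2, 2⟩, ⟨1, 1, 1, 1⟩, ⟨40, 2, 2, 2⟩, ⟨1, 1, 1, 1⟩, ⟨1, 1, 1, 1⟩] (ssEopts p c1 c0)
  (.leaf 4)
  _ (by decide +kernel)

theorem ssE10_P6 : Chk (ssEopts p c1 c0) {({({({(ssEBox p) with h1 := 1000}) with h1 := 500}) with h2 := 1000}) with l1 := 250} :=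
  chk_of_checkP [⟨57, 3, 3, 3⟩, ⟨1, 1, 1, 1⟩, ⟨567, 24, 17, 17⟩, ⟨567, 24, 17, 17⟩, ⟨769, 31, 23, 23⟩, ⟨1, 1, 1, 1⟩, ⟨1, 1, 1, 1⟩, ⟨40, 2, 2, 2⟩, ⟨1, 1, 1, 1⟩, ⟨40, 2, 2, 2⟩, ⟨1, 1, 1, 1⟩, ⟨1, 1, 1, 1⟩] (ssEopts p c1 c0)
  (.leaf 3)
  _ (by decide +kernel)

theorem ssE10_P7 : Chk (ssEopts p c1 c0) {({({(ssEBox p) with h1 := 1000}) with h1 := 500}) with l2 := 1000} :=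
  chk_of_checkP [⟨57, 3, 3, 3⟩, ⟨1, 1, 1, 1⟩, ⟨567, 24, 17, 17⟩, ⟨567, 24, 17, 17⟩, ⟨769, 31, 23, 23⟩, ⟨1, 1, 1, 1⟩, ⟨1, 1, 1, 1⟩, ⟨40, 2, 2, 2⟩, ⟨1, 1, 1, 1⟩, ⟨40, 2, 2, 2⟩, ⟨1, 1, 1, 1⟩, ⟨1, 1, 1, 1⟩] (ssEopts p c1 c0)
  (.leaf 7)
  _ (by decide +kernel)


end Pool.Agent.T2H40.BR.Q3
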