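import Pool.Agent.T2H40.BR.D.Q3

set_option autoImplicit false
set_option maxRecDepth 1000000
set_option exponentiation.threshold 1000000000

namespace Pool.Agent.T2H40.BR.Q3

theorem ssE10_P8 : Chk (ssEopts p c1 c0) {({(ssEBox p) with h1 := 1000}) with l1 := 500} :=
  chk_of_checkP [⟨57, 3, 3, 3⟩, ⟨1, 1, 1, 1⟩, ⟨567, 24, 17, 17⟩, ⟨567, 24, 17, 17⟩, ⟨769, 31, 23, 23⟩, ⟨1, 1, 1, 1⟩, ⟨1, 1, 1, 1⟩, ⟨40, 2, 2, 2⟩, ⟨1, 1, 1, 1⟩, ⟨40, 2, 2, 2⟩, ⟨1, 1, 1, 1⟩, ⟨1, 1, 1, 1⟩] (ssEopts p c1 c0)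
  (.leaf 4)
  _ (by decide +kernel)

theorem ssE10_P9 : Chk (ssEopts p c1 c0) {(ssEBox p) with l1 := 1000} :=
  chk_of_checkP [⟨57, 3, 3, 3⟩, ⟨1, 1, 1, 1⟩, ⟨567, 24, 17, 17⟩, ⟨567, 24, 17, 17⟩, ⟨769, 31, 23, 23⟩, ⟨1, 1, 1, 1⟩, ⟨1, 1, 1, 1⟩, ⟨40, 2, 2, 2⟩, ⟨1, 1, 1, 1⟩, ⟨40, 2, 2, 2⟩, ⟨1, 1, 1, 1⟩, ⟨1, 1, 1, 1⟩] (ssEopts p c1 c0)
  (.leaf 0)
  _ (by decide +kernel)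


end Pool.Agent.T2H40.BR.Q3
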