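import Pool.Agent.T2H40.BR.D.Q3_ssE10_0
import Pool.Agent.T2H40.BR.D.Q3_ssE10_1
import Pool.Agent.T2H40.BR.D.Q3_ssE10_2

set_option autoImplicit false
set_option maxRecDepth 1000000
set_option exponentiation.threshold 1000000000

namespace Pool.Agent.T2H40.BR.Q3

theorem chk_ssE10 : Chk (ssEopts p c1 c0) (ssEBox p) :=
  (Chk.n1 (opts := ssEopts p c1 c0) 1000 (Chk.n1 (opts := ssEopts p c1 c0) 500 (Chk.n2 
  (opts := ssEopts p c1 c0) 1000 (Chk.n1 (opts := ssEopts p c1 c0) 250 (Chk.n1 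
  (opts := ssEopts p c1 c0) 125 (Chk.n2 (opts := ssEopts p c1 c0) 500 (Chk.n1 
  (opts := ssEopts p c1 c0) 63 (Chk.n1 (opts := ssEopts p c1 c0) 32 (Chk.n2 
  (opts := ssEopts p c1 c0) 250 ssE10_P0 ssE10_P1) ssE10_P2) ssE10_P3) ssE10_P4) ssE10_P5) ssE10_P6) ssE10_P7) ssE10_P8) ssE10_P9)

end Pool.Agent.T2H40.BR.Q3
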