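import Pool.Agent.T2H40.BR.D.Q4_csE2_0

set_option autoImplicit false
set_option maxRecDepth 1000000
set_option exponentiation.threshold 1000000000

namespace Pool.Agent.T2H40.BR.Q4

theorem chk_csE2 : Chk (csEopts p c2) (csEBox p c2) :=
  (Chk.n2 (opts := csEopts p c2) 1500 csE2_P0 (Chk.n1 (opts := csEopts p c2) 1125 csE2_P1 csE2_P2))

end Pool.Agent.T2H40.BR.Q4
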