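import Pool.Agent.T2H40.BR.D.Q4

set_option autoImplicit false
set_option maxRecDepth 1000000
set_option exponentiation.threshold 1000000000

namespace Pool.Agent.T2H40.BR.Q4

theorem csEu2_P3 : Chk (csEuopts p c2) {({({({({({({(csEuBox p) with l2 := 1800}) with l2 := 2400}) with h2 := 2700}) with h2 := 2550}) with h2 := 2475}) with h1 := 150}) with l2 := 2438} :=
  chk_of_checkP [⟨453, 7, 15, 17⟩, ⟨1, 1, 1, 1⟩, ⟨1, 1, 1, 1⟩, ⟨1, 1, 1, 1⟩, ⟨1, 1, 1, 1⟩, ⟨1, 1, 1, 1⟩, ⟨41, 2, 2, 3⟩, ⟨40, 1, 2, 3⟩, ⟨40, 1, 2, 3⟩] (csEuopts p c2)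
  (.n1 75 (.n0 1920 (.leaf 6) (.n1 38 (.leaf 8) (.n2 2457 (.n2 2448 (.n0 1935 (.n0 1928 (.leaf 6) 
  (.n1 57 (.leaf 6) (.n2 2443 (.n1 66 (.leaf 6) (.leaf 0)) (.leaf 6)))) (.n1 57 (.n0 1943 
  (.leaf 6) (.n1 47 (.leaf 8) (.leaf 0))) (.leaf 0))) (.n0 1935 (.leaf 6) (.n0 1943 (.leaf 6) 
  (.n1 57 (.leaf 8) (.leaf 0))))) (.leaf 8)))) (.n0 1920 (.n2 2457 (.n1 113 (.n0 1905 (.leaf 6) 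
  (.n2 2448 (.n1 94 (.n0 1912 (.leaf 6) (.n0 1916 (.leaf 6) (.n0 1918 (.leaf 6) (.n1 85 (.leaf 6) 
  (.leaf 0))))) (.n0 1912 (.n2 2443 (.n1 104 (.leaf 6) (.leaf 0)) (.leaf 6)) (.leaf 0))) 
  (.leaf 6))) (.n0 1905 (.n2 2448 (.n1 132 (.n0 1898 (.n2 2443 (.n0 1894 (.leaf 6) (.leaf 0)) 
  (.leaf 6)) (.n0 1902 (.n2 2443 (.leaf 0) (.n0 1900 (.leaf 6) (.leaf 0))) (.leaf 0))) (.leaf 0)) 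
  (.n1 132 (.leaf 6) (.n0 1898 (.n0 1894 (.leaf 6) (.n1 141 (.leaf 6) (.leaf 0))) (.n2 2452 
  (.leaf 0) (.n0 1902 (.leaf 6) (.leaf 0)))))) (.n0 1912 (.n1 132 (.n2 2448 (.leaf 0) (.n2 2452 
  (.leaf 0) (.leaf 6))) (.leaf 0)) (.leaf 0)))) (.n0 1905 (.leaf 6) (.n1 113 (.leaf 6) (.n1 132 
  (.leaf 6) (.n2 2466 (.n0 1912 (.n0 1909 (.leaf 6) (.n1 141 (.leaf 6) (.leaf 0))) (.leaf 0)) 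
  (.leaf 6)))))) (.n0 1935 (.n2 2457 (.n1 113 (.n1 94 (.n2 2448 (.n0 1928 (.n2 2443 (.leaf 0) 
  (.n0 1924 (.leaf 6) (.leaf 0))) (.leaf 0)) (.n0 1928 (.leaf 6) (.n1 85 (.leaf 6) (.leaf 0)))) 
  (.n0 1928 (.n0 1924 (.n2 2448 (.leaf 0) (.n1 104 (.leaf 6) (.leaf 0))) (.leaf 0)) (.leaf 0))) 
  (.leaf 0)) (.n1 113 (.leaf 6) (.n2 2466 (.n0 1928 (.n0 1924 (.n1 132 (.n0 1922 (.leaf 6) 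
  (.leaf 0)) (.leaf 0)) (.leaf 0)) (.leaf 0)) (.n1 132 (.leaf 6) (.n0 1928 (.n0 1924 (.leaf 6) 
  (.leaf 0)) (.leaf 0)))))) (.n1 113 (.n2 2457 (.leaf 0) (.n2 2466 (.n1 94 (.n0 1943 (.leaf 6) 
  (.leaf 0)) (.leaf 0)) (.leaf 8))) (.leaf 0)))))
  _ (by decide +kernel)

theorem csEu2_P4 : Chk (csEuopts p c2) {({({({({({(csEuBox p) with l2 := 1800}) with l2 := 2400}) with h2 := 2700}) with h2 := 2550}) with h2 := 2475}) with l1 := 150} :=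
  chk_of_checkP [⟨453, 7, 15, 17⟩, ⟨1, 1, 1, 1⟩, ⟨1, 1, 1, 1⟩, ⟨1, 1, 1, 1⟩, ⟨1, 1, 1, 1⟩, ⟨1, 1, 1, 1⟩, ⟨41, 2, 2, 3⟩, ⟨40, 1, 2, 3⟩, ⟨40, 1, 2, 3⟩] (csEuopts p c2)
  (.n0 1920 (.n1 225 (.n1 188 (.n2 2438 (.leaf 0) (.n2 2457 (.leaf 0) (.n0 1905 (.n2 2466 (.n1 169 
  (.n0 1898 (.leaf 6) (.n2 2462 (.leaf 0) (.leaf 6))) (.leaf 0)) (.n0 1898 (.leaf 6) (.n1 169 
  (.leaf 6) (.n1 179 (.leaf 6) (.leaf 0))))) (.n0 1912 (.n1 169 (.n2 2466 (.leaf 0) (.leaf 6)) 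
  (.leaf 0)) (.leaf 0))))) (.leaf 0)) (.leaf 0)) (.leaf 0))
  _ (by decide +kernel)

theorem csEu2_P5 : Chk (csEuopts p c2) {({({({({(csEuBox p) with l2 := 1800}) with l2 := 2400}) with h2 := 2700}) with h2 := 2550}) with l2 := 2475} :=
  chk_of_checkP [⟨453, 7, 15, 17⟩, ⟨1, 1, 1, 1⟩, ⟨1, 1, 1, 1⟩, ⟨1, 1, 1, 1⟩, ⟨1, 1, 1, 1⟩, ⟨1, 1, 1, 1⟩, ⟨41, 2, 2, 3⟩, ⟨40, 1, 2, 3⟩, ⟨40, 1, 2, 3⟩] (csEuopts p c2)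
  (.n1 150 (.n0 1920 (.leaf 6) (.n0 1935 (.leaf 6) (.n1 75 (.leaf 8) (.n1 113 (.leaf 8) (.n1 132 
  (.leaf 8) (.n2 2512 (.n2 2494 (.n2 2485 (.leaf 0) (.leaf 8)) (.leaf 8)) (.leaf 8))))))) 
  (.n2 2512 (.n1 225 (.n0 1920 (.n2 2494 (.n1 188 (.n0 1905 (.leaf 6) (.n0 1912 (.leaf 6) 
  (.n1 169 (.leaf 6) (.n2 2485 (.leaf 0) (.leaf 6))))) (.n0 1905 (.n2 2485 (.n1 207 (.n0 1898 
  (.leaf 6) (.n1 197 (.leaf 6) (.leaf 0))) (.leaf 0)) (.n0 1898 (.leaf 6) (.n1 207 (.leaf 6) 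
  (.n0 1902 (.leaf 6) (.leaf 0))))) (.n0 1912 (.n1 207 (.n2 2485 (.leaf 0) (.leaf 6)) (.leaf 0)) 
  (.leaf 0)))) (.n0 1905 (.leaf 6) (.n0 1912 (.leaf 6) (.n1 188 (.leaf 6) (.n0 1916 (.leaf 6) 
  (.n1 207 (.leaf 6) (.n1 216 (.leaf 6) (.leaf 0)))))))) (.n2 2494 (.n0 1935 (.n1 188 (.n1 169 
  (.n2 2485 (.n2 2480 (.leaf 0) (.n0 1928 (.leaf 6) (.leaf 0))) (.leaf 6)) (.leaf 0)) (.leaf 0)) 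
  (.leaf 0)) (.n1 188 (.n0 1935 (.leaf 6) (.n0 1943 (.leaf 6) (.leaf 0))) (.n0 1935 (.n2 2503 
  (.leaf 0) (.n0 1928 (.leaf 6) (.leaf 0))) (.leaf 0))))) (.n0 1920 (.n1 263 (.n2 2494 (.leaf 0) 
  (.n0 1905 (.n2 2503 (.n1 244 (.n0 1898 (.leaf 6) (.n0 1902 (.leaf 6) (.leaf 0))) (.leaf 0)) 
  (.leaf 6)) (.n0 1912 (.n1 244 (.n2 2503 (.leaf 0) (.leaf 6)) (.leaf 0)) (.leaf 0)))) (.leaf 0)) 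
  (.leaf 0))) (.n1 225 (.n0 1920 (.leaf 6) (.n0 1935 (.leaf 6) (.n0 1943 (.leaf 6) (.n1 188 
  (.leaf 8) (.n1 207 (.leaf 8) (.leaf 0)))))) (.n0 1920 (.n2 2531 (.n1 263 (.n0 1905 (.leaf 6) 
  (.n0 1912 (.leaf 6) (.n0 1916 (.leaf 6) (.n1 244 (.leaf 6) (.n0 1918 (.leaf 6) (.leaf 0)))))) 
  (.n0 1905 (.n1 282 (.leaf 6) (.n2 2522 (.leaf 0) (.leaf 6))) (.n0 1912 (.n1 282 (.n2 2522 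
  (.leaf 0) (.leaf 6)) (.leaf 0)) (.leaf 0)))) (.leaf 6)) (.n2 2531 (.n0 1935 (.n0 1928 (.n1 263 
  (.n1 244 (.leaf 6) (.leaf 0)) (.leaf 0)) (.leaf 0)) (.leaf 0)) (.n1 263 (.n0 1935 (.leaf 6) 
  (.n0 1943 (.leaf 6) (.leaf 0))) (.n0 1935 (.n2 2541 (.leaf 0) (.leaf 6)) (.leaf 0))))))))
  _ (by decide +kernel)

theorem csEu2_P6 : Chk (csEuopts p c2) {({({({(csEuBox p) with l2 := 1800}) with l2 := 2400}) with h2 := 2700}) with l2 := 2550} :=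
  chk_of_checkP [⟨453, 7, 15, 17⟩, ⟨1, 1, 1, 1⟩, ⟨1, 1, 1, 1⟩, ⟨1, 1, 1, 1⟩, ⟨1, 1, 1, 1⟩, ⟨1, 1, 1, 1⟩, ⟨41, 2, 2, 3⟩, ⟨40, 1, 2, 3⟩, ⟨40, 1, 2, 3⟩] (csEuopts p c2)
  (.leaf 8)
  _ (by decide +kernel)

theorem csEu2_P7 : Chk (csEuopts p c2) {({({(csEuBox p) with l2 := 1800}) with l2 := 2400}) with l2 := 2700} :=
  chk_of_checkP [⟨453, 7, 15, 17⟩, ⟨1, 1, 1, 1⟩, ⟨1, 1, 1, 1⟩, ⟨1, 1, 1, 1⟩, ⟨1, 1, 1, 1⟩, ⟨1, 1, 1, 1⟩, ⟨41, 2, 2, 3⟩, ⟨40, 1, 2, 3⟩, ⟨40, 1, 2, 3⟩] (csEuopts p c2)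
  (.leaf 8)
  _ (by decide +kernel)


end Pool.Agent.T2H40.BR.Q4
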