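import Pool.Agent.T2H40.BR.D.Q4

set_option autoImplicit false
set_option maxRecDepth 1000000
set_option exponentiation.threshold 1000000000

namespace Pool.Agent.T2H40.BR.Q4

theorem chk_csE1 : Chk (csEopts p c1) (csEBox p c1) :=
  chk_of_checkP [⟨637, 25, 19, 23⟩, ⟨422, 14, 11, 17⟩, ⟨637, 25, 19, 23⟩, ⟨1, 1, 1, 1⟩, ⟨1, 1, 1, 1⟩, ⟨422, 14, 11, 17⟩, ⟨1, 1, 1, 1⟩, ⟨1, 1, 1, 1⟩, ⟨41, 2, 2, 3⟩, ⟨42, 2, 2, 3⟩, ⟨1, 1, 1, 1⟩] (csEopts p c1)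
  (.n2 1500 (.leaf 8) (.n2 2250 (.n1 825 (.n2 1875 (.leaf 8) (.n1 413 (.n0 1920 (.leaf 5) (.leaf 8))
   (.n1 619 (.n2 2063 (.leaf 8) (.n0 1920 (.leaf 0) (.n1 516 (.n1 464 (.leaf 2) (.leaf 0)) 
  (.leaf 0)))) (.leaf 0)))) (.leaf 0)) (.n1 825 (.n1 413 (.n1 207 (.leaf 1) (.n1 310 (.leaf 1) 
  (.n2 2625 (.n2 2438 (.leaf 1) (.leaf 2)) (.leaf 2)))) (.n2 2625 (.leaf 0) (.n1 619 (.leaf 0) 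
  (.leaf 9)))) (.n2 2625 (.n1 1238 (.leaf 0) (.leaf 9)) (.leaf 9)))))
  _ (by decide +kernel)

theorem chk_ssE20 : Chk (ssEopts p c2 c0) (ssEBox p) :=
  chk_of_checkP [⟨57, 3, 3, 3⟩, ⟨1, 1, 1, 1⟩, ⟨1, 1, 1, 1⟩, ⟨377, 17, 10, 10⟩, ⟨495, 21, 13, 13⟩, ⟨1, 1, 1, 1⟩, ⟨40, 2, 2, 2⟩, ⟨1, 1, 1, 1⟩, ⟨1, 1, 1, 1⟩, ⟨1, 1, 1, 1⟩, ⟨1, 1, 1, 1⟩, ⟨1, 1, 1, 1⟩] (ssEopts p c2 c0)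
  (.n1 975 (.n2 975 (.n2 488 (.leaf 6) (.n0 1920 (.leaf 4) (.n1 488 (.n1 244 (.n2 732 (.n1 122 
  (.n2 610 (.n2 549 (.leaf 6) (.n0 1935 (.leaf 4) (.n0 1943 (.leaf 4) (.n1 61 (.n1 30 (.n2 580 
  (.n2 565 (.leaf 6) (.leaf 3)) (.leaf 3)) (.leaf 3)) (.leaf 3))))) (.leaf 4)) (.leaf 3)) 
  (.leaf 4)) (.leaf 4)) (.leaf 4)))) (.leaf 4)) (.leaf 0))
  _ (by decide +kernel)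

theorem chk_csEt0 : Chk (csEtopts p c0) (csEtBox p) :=
  chk_of_checkP [⟨449, 7, 28, 17⟩, ⟨1, 1, 1, 1⟩, ⟨1, 1, 1, 1⟩, ⟨1, 1, 1, 1⟩, ⟨1, 1, 1, 1⟩, ⟨1, 1, 1, 1⟩, ⟨1, 1, 1, 1⟩, ⟨1, 1, 1, 1⟩, ⟨1, 1, 1, 1⟩, ⟨1, 1, 1, 1⟩] (csEtopts p c0)
  (.leaf 0)
  _ (by decide +kernel)

theorem chk_ssN00 : Chk (ssNopts p c0 c0) (ssNBox p c0 c0) :=
  chk_of_checkP [⟨273, 9, 8, 8⟩, ⟨1, 1, 1, 1⟩, ⟨1, 1, 1, 1⟩, ⟨1, 1, 1, 1⟩] (ssNopts p c0 c0)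
  (.leaf 0)
  _ (by decide +kernel)


end Pool.Agent.T2H40.BR.Q4
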