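import Pool.Agent.T2H40.BR.D.Q4

set_option autoImplicit false
set_option maxRecDepth 1000000
set_option exponentiation.threshold 1000000000

namespace Pool.Agent.T2H40.BR.Q4

theorem chk_ssE10 : Chk (ssEopts p c1 c0) (ssEBox p) :=
  chk_of_checkP [⟨57, 3, 3, 3⟩, ⟨1, 1, 1, 1⟩, ⟨479, 21, 14, 14⟩, ⟨479, 21, 14, 14⟩, ⟨651, 27, 19, 19⟩, ⟨1, 1, 1, 1⟩, ⟨1, 1, 1, 1⟩, ⟨40, 2, 2, 2⟩, ⟨1, 1, 1, 1⟩, ⟨1, 1, 1, 1⟩, ⟨1, 1, 1, 1⟩, ⟨1, 1, 1, 1⟩] (ssEopts p c1 c0)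
  (.n1 975 (.n0 1920 (.leaf 4) (.n1 488 (.n1 244 (.n2 975 (.n0 1935 (.leaf 4) (.n2 488 (.leaf 4) 
  (.n1 122 (.n2 732 (.n0 1943 (.leaf 4) (.n2 610 (.leaf 4) (.n1 61 (.n1 30 (.leaf 7) (.leaf 4)) 
  (.leaf 4)))) (.leaf 7)) (.leaf 3)))) (.leaf 7)) (.leaf 4)) (.leaf 2))) (.leaf 0))
  _ (by decide +kernel)

theorem chk_csE0 : Chk (csEopts p c0) (csEBox p c0) :=
  chk_of_checkP [⟨461, 7, 15, 17⟩, ⟨297, 4, 10, 11⟩, ⟨461, 7, 15, 17⟩, ⟨461, 7, 15, 17⟩, ⟨461, 7, 15, 17⟩, ⟨1, 1, 1, 1⟩, ⟨1, 1, 1, 1⟩, ⟨1, 1, 1, 1⟩, ⟨1, 1, 1, 1⟩, ⟨40, 1, 2, 3⟩, ⟨39, 2, 2, 1⟩] (csEopts p c0)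
  (.n2 1500 (.n1 1125 (.n2 750 (.n2 375 (.n2 188 (.leaf 4) (.leaf 2)) (.n2 563 (.n2 469 (.n1 713 
  (.n1 507 (.n1 404 (.leaf 0) (.leaf 2)) (.leaf 2)) (.leaf 3)) (.leaf 0)) (.leaf 0))) (.leaf 0)) 
  (.leaf 1)) (.n2 2250 (.n1 1125 (.n2 1875 (.leaf 0) (.n1 713 (.leaf 9) (.leaf 0))) (.n1 1537 
  (.n1 1331 (.n2 1875 (.n1 1228 (.leaf 0) (.n2 1688 (.leaf 1) (.n0 1920 (.n1 1280 (.n0 1905 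
  (.n0 1898 (.n0 1894 (.n0 1892 (.n2 1782 (.n1 1254 (.leaf 0) (.leaf 1)) (.leaf 0)) (.leaf 0)) 
  (.leaf 0)) (.leaf 0)) (.leaf 0)) (.n2 1782 (.leaf 1) (.n1 1306 (.leaf 0) (.n0 1905 (.leaf 1) 
  (.leaf 0))))) (.n0 1935 (.n0 1928 (.n0 1924 (.n0 1922 (.n1 1280 (.leaf 0) (.n2 1782 (.leaf 1) 
  (.leaf 0))) (.leaf 0)) (.leaf 0)) (.leaf 0)) (.leaf 0))))) (.leaf 0)) (.n2 1875 (.leaf 1) 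
  (.n1 1434 (.n2 2063 (.n1 1383 (.n0 1920 (.n0 1905 (.n2 1969 (.n1 1357 (.leaf 0) (.leaf 1)) 
  (.leaf 0)) (.leaf 0)) (.leaf 0)) (.n2 1969 (.leaf 1) (.n1 1409 (.leaf 0) (.leaf 1)))) (.leaf 0))
   (.n2 2063 (.leaf 1) (.n1 1486 (.n1 1460 (.leaf 0) (.leaf 2)) (.leaf 2)))))) (.leaf 1))) 
  (.n1 1125 (.leaf 9) (.n1 1537 (.n2 2625 (.leaf 0) (.leaf 9)) (.n1 1743 (.n2 2625 (.n1 1640 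
  (.leaf 2) (.leaf 1)) (.leaf 9)) (.n2 2625 (.n2 2438 (.leaf 1) (.n2 2532 (.leaf 1) (.n1 1846 
  (.n2 2579 (.n1 1794 (.leaf 9) (.leaf 1)) (.leaf 9)) (.n1 1898 (.n2 2579 (.leaf 1) (.n1 1872 
  (.n2 2602 (.n1 1859 (.leaf 9) (.leaf 1)) (.leaf 9)) (.n1 1885 (.n2 2602 (.leaf 1) (.n1 1879 
  (.leaf 9) (.leaf 1))) (.leaf 1)))) (.leaf 1))))) (.n1 1846 (.leaf 9) (.n2 2813 (.n1 1898 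
  (.leaf 9) (.n2 2719 (.n2 2672 (.n1 1924 (.n2 2649 (.n1 1911 (.n2 2637 (.leaf 1) (.leaf 9)) 
  (.leaf 1)) (.n1 1911 (.leaf 9) (.n1 1918 (.leaf 9) (.n2 2661 (.leaf 1) (.leaf 9))))) (.n0 1920 
  (.leaf 10) (.n0 1935 (.n0 1928 (.n0 1924 (.n0 1922 (.leaf 10) (.n0 1923 (.leaf 10) (.n1 1937 
  (.n2 2649 (.leaf 1) (.n1 1930 (.n2 2661 (.leaf 1) (.leaf 9)) (.leaf 10))) (.leaf 10)))) 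
  (.n0 1926 (.n0 1925 (.n1 1937 (.n2 2649 (.leaf 1) (.n1 1930 (.n2 2661 (.leaf 1) (.leaf 9)) 
  (.leaf 10))) (.leaf 10)) (.leaf 1)) (.leaf 1))) (.leaf 1)) (.leaf 1)))) (.n1 1924 (.leaf 9) 
  (.n0 1920 (.leaf 10) (.n1 1937 (.leaf 9) (.n0 1935 (.leaf 10) (.n2 2696 (.n2 2684 (.leaf 1) 
  (.leaf 9)) (.leaf 9))))))) (.leaf 9))) (.leaf 9)))))))))
  _ (by decide +kernel)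

theorem chk_ssE11 : Chk (ssEopts p c1 c1) (ssEBox p) :=
  chk_of_checkP [⟨57, 3, 3, 3⟩, ⟨1, 1, 1, 1⟩, ⟨1, 1, 1, 1⟩, ⟨1, 1, 1, 1⟩, ⟨703, 29, 21, 21⟩, ⟨1, 1, 1, 1⟩, ⟨1, 1, 1, 1⟩, ⟨1, 1, 1, 1⟩, ⟨39, 2, 2, 2⟩, ⟨1, 1, 1, 1⟩, ⟨1, 1, 1, 1⟩, ⟨1, 1, 1, 1⟩] (ssEopts p c1 c1)
  (.n2 975 (.n1 975 (.n1 488 (.leaf 4) (.leaf 8)) (.leaf 0)) (.leaf 8))
  _ (by decide +kernel)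

theorem chk_csEu1 : Chk (csEuopts p c1) (csEuBox p) :=
  chk_of_checkP [⟨600, 7, 19, 23⟩, ⟨1, 1, 1, 1⟩, ⟨1, 1, 1, 1⟩, ⟨1, 1, 1, 1⟩, ⟨1, 1, 1, 1⟩, ⟨1, 1, 1, 1⟩, ⟨1, 1, 1, 1⟩, ⟨40, 1, 2, 3⟩, ⟨40, 1, 2, 3⟩] (csEuopts p c1)
  (.n2 1800 (.n2 1200 (.leaf 7) (.leaf 0)) (.n2 2400 (.n2 2100 (.leaf 0) (.leaf 8)) (.leaf 8)))
  _ (by decide +kernel)

theorem chk_ssN20 : Chk (ssNopts p c2 c0) (ssNBox p c2 c0) :=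
  chk_of_checkP [⟨280, 9, 8, 8⟩, ⟨143, 5, 5, 5⟩, ⟨40, 2, 2, 2⟩, ⟨1, 1, 1, 1⟩] (ssNopts p c2 c0)
  (.n2 420 (.n1 1605 (.n1 1433 (.leaf 0) (.n1 1519 (.leaf 0) (.n0 1920 (.n0 1905 (.n2 210 (.leaf 0) 
  (.leaf 1)) (.leaf 0)) (.leaf 0)))) (.leaf 0)) (.n1 1605 (.n2 630 (.n1 1433 (.leaf 0) (.n0 1920 
  (.n0 1905 (.leaf 1) (.leaf 0)) (.leaf 0))) (.n1 1433 (.n2 735 (.n1 1347 (.leaf 0) (.leaf 2)) 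
  (.leaf 2)) (.leaf 2))) (.leaf 2)))
  _ (by decide +kernel)

theorem chk_ssE21 : Chk (ssEopts p c2 c1) (ssEBox p) :=
  chk_of_checkP [⟨57, 3, 3, 3⟩, ⟨1, 1, 1, 1⟩, ⟨1, 1, 1, 1⟩, ⟨1, 1, 1, 1⟩, ⟨1, 1, 1, 1⟩, ⟨1, 1, 1, 1⟩, ⟨40, 2, 2, 2⟩, ⟨1, 1, 1, 1⟩, ⟨39, 2, 2, 2⟩, ⟨1, 1, 1, 1⟩, ⟨1, 1, 1, 1⟩, ⟨1, 1, 1, 1⟩] (ssEopts p c2 c1)
  (.n1 975 (.n2 975 (.n2 488 (.leaf 6) (.leaf 8)) (.leaf 8)) (.leaf 0))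
  _ (by decide +kernel)

theorem chk_vS1 : Chk (vSopts p c1) (vSBox p c1) :=
  chk_of_checkP [⟨69, 2, 4, 1⟩] (vSopts p c1)
  (.leaf 0)
  _ (by decide +kernel)

theorem chk_vC : Chk (vCopts p) (vCBox p) :=
  chk_of_checkP [⟨68, 2, 4, 1⟩] (vCopts p)
  (.leaf 0)
  _ (by decide +kernel)

theorem chk_vS2 : Chk (vSopts p c2) (vSBox p c2) :=
  chk_of_checkP [⟨58, 2, 3, 1⟩] (vSopts p c2)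
  (.leaf 0)
  _ (by decide +kernel)

theorem chk_vS0 : Chk (vSopts p c0) (vSBox p c0) :=
  chk_of_checkP [⟨56, 2, 3, 1⟩] (vSopts p c0)
  (.leaf 0)
  _ (by decide +kernel)

theorem chk_ssN21 : Chk (ssNopts p c2 c1) (ssNBox p c2 c1) :=
  chk_of_checkP [⟨1, 1, 1, 1⟩, ⟨1, 1, 1, 1⟩, ⟨40, 2, 2, 2⟩, ⟨1, 1, 1, 1⟩] (ssNopts p c2 c1)
  (.leaf 2)
  _ (by decide +kernel)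

theorem chk_ssN22 : Chk (ssNopts p c2 c2) (ssNBox p c2 c2) :=
  chk_of_checkP [⟨1, 1, 1, 1⟩, ⟨1, 1, 1, 1⟩, ⟨40, 2, 2, 2⟩, ⟨1, 1, 1, 1⟩] (ssNopts p c2 c2)
  (.leaf 2)
  _ (by decide +kernel)

theorem chk_ssE22 : Chk (ssEopts p c2 c2) (ssEBox p) :=
  chk_of_checkP [⟨1, 1, 1, 1⟩, ⟨1, 1, 1, 1⟩, ⟨1, 1, 1, 1⟩, ⟨1, 1, 1, 1⟩, ⟨1, 1, 1, 1⟩, ⟨1, 1, 1, 1⟩, ⟨1, 1, 1, 1⟩, ⟨1, 1, 1, 1⟩, ⟨40, 2, 2, 2⟩, ⟨1, 1, 1, 1⟩, ⟨1, 1, 1, 1⟩, ⟨1, 1, 1, 1⟩] (ssEopts p c2 c2)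
  (.leaf 8)
  _ (by decide +kernel)


end Pool.Agent.T2H40.BR.Q4
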