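import Pool.Agent.T2H40.BR.D.Q4

set_option autoImplicit false
set_option maxRecDepth 1000000
set_option exponentiation.threshold 1000000000

namespace Pool.Agent.T2H40.BR.Q4

theorem chk_ccE : Chk (ccEopts p) (ccBox p) :=
  chk_of_checkP [⟨708, 5, 22, 23⟩, ⟨1, 1, 1, 1⟩, ⟨708, 5, 22, 23⟩, ⟨39, 2, 2, 1⟩] (ccEopts p)
  (.n1 975 (.leaf 2) (.n1 1463 (.leaf 2) (.n1 1707 (.leaf 2) (.n1 1828 (.leaf 2) (.n1 1889 (.leaf 0)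
   (.n1 1920 (.n0 1920 (.n1 1905 (.n2 750 (.n2 375 (.n0 1905 (.n0 1898 (.n1 1897 (.leaf 0) 
  (.n0 1894 (.leaf 3) (.leaf 0))) (.leaf 0)) (.leaf 0)) (.leaf 0)) (.leaf 0)) (.n0 1905 (.n0 1898 
  (.leaf 3) (.n0 1902 (.leaf 3) (.n1 1912 (.leaf 0) (.leaf 3)))) (.n2 750 (.n2 375 (.n0 1912 
  (.n1 1912 (.leaf 0) (.n1 1916 (.leaf 0) (.leaf 3))) (.leaf 0)) (.leaf 0)) (.leaf 0)))) 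
  (.leaf 0)) (.n0 1920 (.n0 1905 (.leaf 3) (.n0 1912 (.leaf 3) (.n0 1916 (.leaf 3) (.n0 1918 
  (.leaf 3) (.n0 1919 (.leaf 3) (.n1 1935 (.n1 1928 (.leaf 0) (.leaf 3)) (.leaf 3))))))) 
  (.n1 1935 (.n2 750 (.n2 375 (.n0 1935 (.n0 1928 (.n1 1928 (.leaf 0) (.n0 1924 (.leaf 3) 
  (.n0 1926 (.leaf 3) (.leaf 0)))) (.leaf 0)) (.leaf 0)) (.leaf 0)) (.leaf 0)) (.n0 1935 
  (.n0 1928 (.leaf 3) (.n0 1932 (.leaf 3) (.n0 1934 (.leaf 3) (.n2 750 (.n1 1943 (.n2 375 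
  (.leaf 0) (.leaf 0)) (.leaf 3)) (.leaf 0))))) (.n2 750 (.n0 1943 (.n1 1943 (.leaf 0) (.n0 1939 
  (.leaf 3) (.n1 1947 (.leaf 0) (.leaf 3)))) (.leaf 0)) (.leaf 0)))))))))))
  _ (by decide +kernel)

theorem chk_csEu0 : Chk (csEuopts p c0) (csEuBox p) :=
  chk_of_checkP [⟨450, 7, 15, 17⟩, ⟨1, 1, 1, 1⟩, ⟨1, 1, 1, 1⟩, ⟨1, 1, 1, 1⟩, ⟨1, 1, 1, 1⟩, ⟨1, 1, 1, 1⟩, ⟨1, 1, 1, 1⟩, ⟨1, 1, 1, 1⟩, ⟨40, 1, 2, 3⟩] (csEuopts p c0)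
  (.n2 1800 (.n2 1200 (.leaf 0) (.n2 1500 (.leaf 0) (.n2 1650 (.n1 150 (.n1 75 (.n0 1920 (.n2 1575 
  (.leaf 0) (.n2 1613 (.leaf 0) (.leaf 8))) (.leaf 0)) (.leaf 0)) (.leaf 0)) (.n2 1725 (.n1 150 
  (.leaf 8) (.n2 1688 (.leaf 0) (.leaf 8))) (.leaf 8))))) (.leaf 8))
  _ (by decide +kernel)

theorem chk_ssE00 : Chk (ssEopts p c0 c0) (ssEBox p) :=
  chk_of_checkP [⟨57, 3, 3, 3⟩, ⟨374, 17, 10, 10⟩, ⟨374, 17, 10, 10⟩, ⟨1, 1, 1, 1⟩, ⟨495, 21, 13, 13⟩, ⟨1, 1, 1, 1⟩, ⟨1, 1, 1, 1⟩, ⟨39, 2, 2, 2⟩, ⟨1, 1, 1, 1⟩, ⟨1, 1, 1, 1⟩, ⟨1, 1, 1, 1⟩, ⟨1, 1, 1, 1⟩] (ssEopts p c0 c0)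
  (.n1 975 (.n2 975 (.n1 488 (.n2 488 (.n0 1920 (.n2 244 (.leaf 1) (.n1 244 (.leaf 7) (.leaf 2))) 
  (.leaf 1)) (.leaf 7)) (.leaf 4)) (.leaf 7)) (.leaf 0))
  _ (by decide +kernel)

theorem chk_csEs0 : Chk (csEsopts p c0) (csEsBox p) :=
  chk_of_checkP [⟨380, 4, 16, 11⟩, ⟨609, 7, 26, 17⟩] (csEsopts p c0)
  (.n2 3000 (.leaf 0) (.leaf 1))
  _ (by decide +kernel)

theorem chk_ssN10 : Chk (ssNopts p c1 c0) (ssNBox p c1 c0) :=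
  chk_of_checkP [⟨322, 9, 11, 8⟩, ⟨1, 1, 1, 1⟩, ⟨40, 2, 2, 2⟩, ⟨1, 1, 1, 1⟩] (ssNopts p c1 c0)
  (.n0 1920 (.n1 1050 (.leaf 0) (.n2 420 (.leaf 0) (.n0 1905 (.n1 1155 (.leaf 0) (.n2 630 (.leaf 0) 
  (.n0 1898 (.n1 1208 (.leaf 0) (.n2 735 (.leaf 0) (.leaf 2))) (.leaf 0)))) (.leaf 0)))) 
  (.leaf 0))
  _ (by decide +kernel)

theorem chk_ssN11 : Chk (ssNopts p c1 c1) (ssNBox p c1 c1) :=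
  chk_of_checkP [⟨370, 9, 11, 11⟩, ⟨1, 1, 1, 1⟩, ⟨40, 2, 2, 2⟩, ⟨38, 1, 2, 2⟩] (ssNopts p c1 c1)
  (.n1 1050 (.n2 1050 (.leaf 0) (.n1 945 (.leaf 3) (.leaf 0))) (.n1 1155 (.n2 1050 (.leaf 0) 
  (.leaf 2)) (.leaf 2)))
  _ (by decide +kernel)

theorem chk_csN2 : Chk (csNopts p c2) (csNBox p c2) :=
  chk_of_checkP [⟨318, 7, 13, 8⟩, ⟨1, 1, 1, 1⟩, ⟨1, 1, 1, 1⟩, ⟨39, 1, 2, 2⟩, ⟨1, 1, 1, 1⟩] (csNopts p c2)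
  (.n1 975 (.leaf 0) (.n1 1463 (.leaf 0) (.n1 1707 (.n2 1605 (.n2 1433 (.leaf 0) (.leaf 0)) 
  (.leaf 3)) (.n2 1605 (.n2 1433 (.n2 1347 (.n2 1304 (.n1 1828 (.n1 1767 (.leaf 0) (.leaf 3)) 
  (.leaf 3)) (.leaf 3)) (.leaf 3)) (.leaf 3)) (.leaf 3)))))
  _ (by decide +kernel)

theorem chk_ccN : Chk (ccNopts p) (ccBox p) :=
  chk_of_checkP [⟨560, 5, 18, 19⟩, ⟨1, 1, 1, 1⟩] (ccNopts p)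
  (.leaf 0)
  _ (by decide +kernel)

theorem chk_csN0 : Chk (csNopts p c0) (csNBox p c0) :=
  chk_of_checkP [⟨313, 7, 13, 8⟩, ⟨1, 1, 1, 1⟩, ⟨1, 1, 1, 1⟩, ⟨1, 1, 1, 1⟩, ⟨1, 1, 1, 1⟩] (csNopts p c0)
  (.n1 975 (.leaf 0) (.leaf 0))
  _ (by decide +kernel)

theorem chk_csN1 : Chk (csNopts p c1) (csNBox p c1) :=
  chk_of_checkP [⟨362, 7, 13, 11⟩, ⟨1, 1, 1, 1⟩, ⟨1, 1, 1, 1⟩, ⟨1, 1, 1, 1⟩, ⟨1, 1, 1, 1⟩] (csNopts p c1)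
  (.leaf 0)
  _ (by decide +kernel)


end Pool.Agent.T2H40.BR.Q4
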