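import Pool.Agent.T2H40.BR.D.Q5

set_option autoImplicit false
set_option maxRecDepth 1000000
set_option exponentiation.threshold 1000000000

namespace Pool.Agent.T2H40.BR.Q5

theorem chk_csE0 : Chk (csEopts p c0) (csEBox p c0) :=
  chk_of_checkP [⟨462, 7, 15, 17⟩, ⟨297, 4, 10, 11⟩, ⟨462, 7, 15, 17⟩, ⟨462, 7, 15, 17⟩, ⟨462, 7, 15, 17⟩, ⟨297, 4, 10, 11⟩, ⟨1, 1, 1, 1⟩, ⟨1, 1, 1, 1⟩, ⟨1, 1, 1, 1⟩, ⟨40, 1, 2, 3⟩, ⟨1, 1, 1, 1⟩] (csEopts p c0)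
  (.n2 1500 (.n1 1350 (.n2 750 (.n1 825 (.n1 563 (.n2 375 (.n1 432 (.n2 188 (.leaf 4) (.n1 366 
  (.n2 282 (.leaf 3) (.n2 329 (.leaf 1) (.leaf 2))) (.leaf 3))) (.leaf 4)) (.n2 563 (.n1 432 
  (.n2 469 (.n1 366 (.n1 333 (.leaf 0) (.n2 422 (.leaf 2) (.leaf 0))) (.leaf 2)) (.n1 366 
  (.leaf 0) (.n1 399 (.leaf 0) (.n2 516 (.leaf 2) (.leaf 0))))) (.leaf 2)) (.n1 432 (.leaf 0) 
  (.n2 657 (.n1 498 (.n1 465 (.leaf 0) (.n2 610 (.leaf 2) (.leaf 0))) (.n0 2295 (.leaf 2) 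
  (.n0 2348 (.leaf 2) (.n0 2374 (.leaf 2) (.n0 2387 (.leaf 2) (.n0 2394 (.leaf 2) (.n2 610 
  (.leaf 2) (.n1 531 (.n1 515 (.n2 634 (.leaf 2) (.leaf 0)) (.leaf 2)) (.leaf 2))))))))) 
  (.n0 2295 (.leaf 0) (.n1 498 (.leaf 0) (.n2 704 (.n1 531 (.leaf 0) (.leaf 2)) (.leaf 0)))))))) 
  (.n2 375 (.leaf 4) (.leaf 2))) (.leaf 4)) (.n2 1125 (.n1 825 (.n1 563 (.leaf 0) (.n2 938 
  (.n1 694 (.n2 844 (.n1 629 (.n0 2295 (.leaf 0) (.n0 2348 (.leaf 0) (.n1 596 (.leaf 0) (.n2 797 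
  (.leaf 2) (.leaf 0))))) (.leaf 2)) (.n0 2295 (.leaf 0) (.n0 2348 (.leaf 0) (.n0 2374 (.leaf 0) 
  (.n1 629 (.leaf 0) (.n1 662 (.leaf 0) (.n2 891 (.leaf 2) (.leaf 0)))))))) (.leaf 2)) (.n0 2295 
  (.leaf 0) (.n0 2348 (.leaf 0) (.n1 694 (.leaf 0) (.n1 760 (.leaf 0) (.n2 1032 (.leaf 2) 
  (.leaf 0)))))))) (.leaf 2)) (.n1 825 (.leaf 0) (.leaf 0)))) (.leaf 5)) (.n2 2250 (.n1 1350 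
  (.n2 1875 (.n0 2295 (.leaf 0) (.n1 825 (.n2 1688 (.leaf 0) (.n2 1782 (.leaf 0) (.n1 563 
  (.leaf 9) (.n2 1828 (.leaf 0) (.n1 694 (.leaf 9) (.n1 760 (.n1 727 (.leaf 9) (.leaf 0)) 
  (.leaf 0))))))) (.leaf 0))) (.n1 825 (.leaf 9) (.n2 2063 (.n1 1088 (.n2 1969 (.n1 957 (.n2 1922 
  (.n0 2295 (.leaf 0) (.n0 2348 (.leaf 0) (.n0 2374 (.leaf 0) (.n1 891 (.n2 1899 (.leaf 0) 
  (.leaf 9)) (.leaf 0))))) (.n0 2295 (.leaf 0) (.n1 891 (.leaf 9) (.n2 1946 (.leaf 0) 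
  (.leaf 9))))) (.leaf 0)) (.n1 957 (.leaf 9) (.n1 1023 (.leaf 9) (.n2 2016 (.leaf 0) 
  (.leaf 9))))) (.leaf 0)) (.n1 1088 (.leaf 9) (.n1 1219 (.leaf 9) (.n2 2157 (.leaf 0) 
  (.leaf 9))))))) (.n1 1875 (.n1 1613 (.leaf 0) (.leaf 2)) (.leaf 5))) (.n1 1350 (.leaf 9) 
  (.n1 1875 (.n2 2625 (.n1 1613 (.n1 1482 (.leaf 9) (.n2 2438 (.n2 2344 (.n1 1548 (.n2 2297 
  (.n1 1515 (.n2 2274 (.leaf 0) (.leaf 9)) (.leaf 2)) (.leaf 9)) (.leaf 2)) (.leaf 9)) (.leaf 9)))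
   (.n2 2438 (.leaf 2) (.n1 1744 (.n1 1679 (.leaf 9) (.n2 2532 (.n2 2485 (.leaf 2) (.leaf 9)) 
  (.leaf 9))) (.n1 1810 (.n2 2532 (.leaf 1) (.leaf 9)) (.leaf 1))))) (.leaf 9)) (.n1 2138 
  (.n2 2625 (.leaf 1) (.n2 2813 (.n1 2007 (.n1 1941 (.n2 2719 (.leaf 1) (.leaf 9)) (.leaf 1)) 
  (.leaf 1)) (.n1 2007 (.leaf 9) (.n1 2073 (.n2 2907 (.leaf 1) (.leaf 9)) (.leaf 1))))) 
  (.leaf 5))))))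
  _ (by decide +kernel)

theorem chk_ccE : Chk (ccEopts p) (ccBox p) :=
  chk_of_checkP [⟨707, 5, 22, 23⟩, ⟨1, 1, 1, 1⟩, ⟨707, 5, 22, 23⟩, ⟨39, 2, 2, 1⟩] (ccEopts p)
  (.n1 1200 (.leaf 2) (.n1 1800 (.leaf 2) (.n1 2100 (.leaf 2) (.n1 2250 (.n0 2295 (.n0 2243 
  (.n1 2175 (.leaf 0) (.n1 2213 (.leaf 0) (.n0 2217 (.n1 2232 (.n0 2204 (.leaf 3) (.leaf 0)) 
  (.leaf 3)) (.n2 750 (.leaf 0) (.leaf 0))))) (.leaf 0)) (.leaf 2)) (.n0 2295 (.n0 2243 (.leaf 3) 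
  (.n1 2325 (.n1 2288 (.n0 2269 (.n1 2269 (.leaf 0) (.n0 2256 (.leaf 3) (.n2 750 (.leaf 0) 
  (.leaf 0)))) (.leaf 0)) (.n0 2269 (.leaf 3) (.n1 2307 (.n0 2282 (.leaf 3) (.leaf 0)) 
  (.leaf 3)))) (.leaf 3))) (.n1 2325 (.leaf 0) (.n0 2348 (.n1 2363 (.n0 2322 (.leaf 3) (.n2 750 
  (.leaf 0) (.n1 2344 (.leaf 0) (.n0 2335 (.leaf 3) (.leaf 0))))) (.leaf 3)) (.n0 2374 (.n1 2363 
  (.leaf 0) (.n1 2382 (.n0 2361 (.leaf 3) (.leaf 0)) (.leaf 3))) (.leaf 0)))))))))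
  _ (by decide +kernel)

theorem chk_csEu0 : Chk (csEuopts p c0) (csEuBox p) :=
  chk_of_checkP [⟨451, 7, 15, 17⟩, ⟨1, 1, 1, 1⟩, ⟨1, 1, 1, 1⟩, ⟨1, 1, 1, 1⟩, ⟨1, 1, 1, 1⟩, ⟨1, 1, 1, 1⟩, ⟨1, 1, 1, 1⟩, ⟨1, 1, 1, 1⟩, ⟨40, 1, 2, 3⟩] (csEuopts p c0)
  (.n2 1800 (.n0 2295 (.leaf 0) (.n2 1200 (.leaf 0) (.n2 1500 (.leaf 0) (.n2 1650 (.leaf 0) 
  (.n2 1725 (.leaf 0) (.leaf 8)))))) (.leaf 8))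
  _ (by decide +kernel)

theorem chk_vS1 : Chk (vSopts p c1) (vSBox p c1) :=
  chk_of_checkP [⟨68, 2, 4, 1⟩] (vSopts p c1)
  (.leaf 0)
  _ (by decide +kernel)

theorem chk_vC : Chk (vCopts p) (vCBox p) :=
  chk_of_checkP [⟨67, 2, 4, 1⟩] (vCopts p)
  (.leaf 0)
  _ (by decide +kernel)

theorem chk_vS0 : Chk (vSopts p c0) (vSBox p c0) :=
  chk_of_checkP [⟨56, 2, 3, 1⟩] (vSopts p c0)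
  (.leaf 0)
  _ (by decide +kernel)


end Pool.Agent.T2H40.BR.Q5
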