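import Pool.Agent.T2H40.BR.D.Q5

set_option autoImplicit false
set_option maxRecDepth 1000000
set_option exponentiation.threshold 1000000000

namespace Pool.Agent.T2H40.BR.Q5

theorem chk_csEs0 : Chk (csEsopts p c0) (csEsBox p) :=
  chk_of_checkP [⟨381, 4, 16, 11⟩, ⟨610, 7, 26, 17⟩] (csEsopts p c0)
  (.n2 3000 (.leaf 0) (.n2 4500 (.n2 3750 (.n2 3375 (.n2 3188 (.n1 150 (.n0 2295 (.n1 75 (.leaf 1) 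
  (.n2 3094 (.leaf 0) (.n0 2243 (.n1 113 (.leaf 1) (.n2 3141 (.leaf 0) (.leaf 1))) (.leaf 1)))) 
  (.leaf 1)) (.leaf 0)) (.n1 150 (.leaf 1) (.n1 225 (.n0 2295 (.n2 3282 (.n1 188 (.n2 3235 
  (.leaf 0) (.leaf 1)) (.leaf 0)) (.leaf 1)) (.leaf 1)) (.n1 263 (.n2 3282 (.leaf 0) (.n1 244 
  (.leaf 1) (.leaf 0))) (.leaf 0))))) (.leaf 1)) (.leaf 1)) (.leaf 1)))
  _ (by decide +kernel)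

theorem chk_csE1 : Chk (csEopts p c1) (csEBox p c1) :=
  chk_of_checkP [⟨572, 7, 17, 23⟩, ⟨1, 1, 1, 1⟩, ⟨572, 7, 17, 23⟩, ⟨572, 7, 17, 23⟩, ⟨1, 1, 1, 1⟩, ⟨368, 4, 10, 15⟩, ⟨1, 1, 1, 1⟩, ⟨1, 1, 1, 1⟩, ⟨40, 1, 2, 3⟩, ⟨1, 1, 1, 1⟩, ⟨1, 1, 1, 1⟩] (csEopts p c1)
  (.n2 1500 (.leaf 8) (.n1 1350 (.n2 2250 (.n2 1875 (.n2 1688 (.n1 825 (.n1 563 (.n1 432 (.leaf 0) 
  (.leaf 8)) (.leaf 8)) (.leaf 8)) (.n2 1782 (.n1 825 (.n1 563 (.leaf 0) (.n1 694 (.leaf 0) 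
  (.leaf 8))) (.leaf 8)) (.leaf 0))) (.leaf 0)) (.leaf 0)) (.n1 1875 (.n2 2250 (.n2 1875 (.leaf 8)
   (.n1 1613 (.n1 1482 (.leaf 0) (.leaf 2)) (.leaf 3))) (.n1 1613 (.leaf 0) (.n2 2625 (.leaf 2) 
  (.leaf 0)))) (.leaf 5))))
  _ (by decide +kernel)

theorem chk_ssE10 : Chk (ssEopts p c1 c0) (ssEBox p) :=
  chk_of_checkP [⟨1, 1, 1, 1⟩, ⟨1, 1, 1, 1⟩, ⟨455, 20, 13, 13⟩, ⟨455, 20, 13, 13⟩, ⟨600, 25, 17, 17⟩, ⟨1, 1, 1, 1⟩, ⟨1, 1, 1, 1⟩, ⟨1, 1, 1, 1⟩, ⟨1, 1, 1, 1⟩, ⟨1, 1, 1, 1⟩, ⟨1, 1, 1, 1⟩, ⟨1, 1, 1, 1⟩] (ssEopts p c1 c0)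
  (.n1 1200 (.n2 1200 (.n0 2295 (.leaf 3) (.leaf 2)) (.n2 1800 (.leaf 4) (.leaf 4))) (.leaf 4))
  _ (by decide +kernel)

theorem chk_ssE11 : Chk (ssEopts p c1 c1) (ssEBox p) :=
  chk_of_checkP [⟨1, 1, 1, 1⟩, ⟨453, 20, 13, 13⟩, ⟨453, 20, 13, 13⟩, ⟨453, 20, 13, 13⟩, ⟨596, 25, 17, 17⟩, ⟨1, 1, 1, 1⟩, ⟨1, 1, 1, 1⟩, ⟨1, 1, 1, 1⟩, ⟨40, 2, 2, 2⟩, ⟨1, 1, 1, 1⟩, ⟨1, 1, 1, 1⟩, ⟨1, 1, 1, 1⟩] (ssEopts p c1 c1)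
  (.n2 1200 (.n1 1200 (.n2 600 (.n1 600 (.leaf 1) (.leaf 3)) (.n1 600 (.n2 900 (.n2 750 (.leaf 2) 
  (.leaf 8)) (.leaf 8)) (.leaf 4))) (.leaf 8)) (.leaf 8))
  _ (by decide +kernel)

theorem chk_ccN : Chk (ccNopts p) (ccBox p) :=
  chk_of_checkP [⟨559, 5, 18, 19⟩, ⟨39, 2, 2, 1⟩] (ccNopts p)
  (.n1 1200 (.leaf 0) (.n2 750 (.leaf 0) (.n1 1800 (.leaf 0) (.n2 1125 (.leaf 0) (.n1 2100 (.leaf 0)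
   (.n1 2250 (.leaf 0) (.n1 2325 (.leaf 0) (.n0 2295 (.leaf 1) (.n0 2348 (.n0 2322 (.leaf 1) 
  (.leaf 0)) (.leaf 0))))))))))
  _ (by decide +kernel)

theorem chk_csN0 : Chk (csNopts p c0) (csNBox p c0) :=
  chk_of_checkP [⟨312, 7, 13, 8⟩, ⟨178, 4, 9, 5⟩, ⟨39, 2, 2, 1⟩, ⟨39, 1, 2, 2⟩, ⟨1, 1, 1, 1⟩] (csNopts p c0)
  (.n1 1200 (.leaf 0) (.n1 1800 (.leaf 0) (.n1 2100 (.leaf 0) (.n1 2250 (.n2 420 (.leaf 0) 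
  (.n0 2295 (.n1 2175 (.n0 2243 (.n2 630 (.leaf 0) (.n2 735 (.n0 2217 (.n0 2204 (.n2 682 (.leaf 0)
   (.n1 2137 (.leaf 0) (.leaf 1))) (.leaf 0)) (.leaf 0)) (.n0 2217 (.n2 788 (.n1 2137 (.leaf 0) 
  (.leaf 1)) (.leaf 1)) (.n1 2137 (.leaf 0) (.n2 788 (.leaf 0) (.leaf 1)))))) (.leaf 0)) 
  (.n1 2213 (.n2 630 (.leaf 0) (.n0 2243 (.leaf 1) (.n2 735 (.leaf 0) (.n0 2269 (.leaf 1) 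
  (.leaf 0))))) (.n2 630 (.n2 525 (.n1 2232 (.leaf 0) (.leaf 1)) (.leaf 1)) (.leaf 1)))) 
  (.leaf 0))) (.n1 2325 (.n2 420 (.n2 210 (.n0 2295 (.n0 2243 (.leaf 2) (.n2 105 (.leaf 0) 
  (.n0 2269 (.n1 2288 (.leaf 0) (.leaf 2)) (.leaf 0)))) (.leaf 0)) (.n1 2288 (.n2 315 (.n0 2295 
  (.n0 2243 (.leaf 2) (.leaf 0)) (.leaf 0)) (.n0 2295 (.leaf 1) (.leaf 1))) (.n0 2295 (.n0 2243 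
  (.leaf 2) (.leaf 1)) (.leaf 1)))) (.n0 2295 (.n0 2243 (.leaf 2) (.leaf 1)) (.n2 630 (.leaf 1) 
  (.n2 735 (.n1 2288 (.n0 2348 (.leaf 1) (.leaf 0)) (.leaf 1)) (.n1 2288 (.n1 2269 (.leaf 0) 
  (.leaf 3)) (.leaf 3)))))) (.n0 2295 (.leaf 2) (.n1 2363 (.n0 2348 (.n2 420 (.n2 210 (.n2 105 
  (.n0 2322 (.leaf 2) (.leaf 0)) (.leaf 1)) (.leaf 1)) (.leaf 1)) (.n1 2344 (.n2 420 (.n2 210 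
  (.n2 105 (.leaf 0) (.leaf 1)) (.leaf 1)) (.n2 630 (.leaf 1) (.n2 735 (.leaf 1) (.leaf 3)))) 
  (.n0 2374 (.n2 420 (.n2 210 (.n2 105 (.leaf 0) (.leaf 1)) (.leaf 1)) (.n2 630 (.leaf 1) 
  (.n2 735 (.leaf 1) (.leaf 3)))) (.n2 420 (.n2 210 (.n2 105 (.leaf 0) (.leaf 1)) (.leaf 1)) 
  (.n2 630 (.leaf 1) (.n2 735 (.leaf 1) (.leaf 3))))))) (.n0 2348 (.leaf 2) (.n1 2382 (.n0 2374 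
  (.n2 420 (.n2 210 (.n2 105 (.n2 53 (.leaf 0) (.leaf 1)) (.leaf 1)) (.leaf 1)) (.leaf 1)) 
  (.n2 420 (.n2 210 (.n2 105 (.leaf 0) (.leaf 1)) (.leaf 1)) (.n2 630 (.leaf 1) (.n2 735 (.leaf 1)
   (.leaf 3))))) (.n0 2374 (.leaf 2) (.n2 420 (.n2 210 (.n2 105 (.n2 53 (.leaf 0) (.leaf 1)) 
  (.leaf 1)) (.leaf 1)) (.n2 630 (.leaf 1) (.leaf 3)))))))))))))
  _ (by decide +kernel)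

theorem chk_ssE00 : Chk (ssEopts p c0 c0) (ssEBox p) :=
  chk_of_checkP [⟨58, 3, 3, 3⟩, ⟨1, 1, 1, 1⟩, ⟨1, 1, 1, 1⟩, ⟨377, 17, 10, 10⟩, ⟨498, 21, 13, 13⟩, ⟨1, 1, 1, 1⟩, ⟨1, 1, 1, 1⟩, ⟨40, 2, 2, 2⟩, ⟨1, 1, 1, 1⟩, ⟨1, 1, 1, 1⟩, ⟨1, 1, 1, 1⟩, ⟨1, 1, 1, 1⟩] (ssEopts p c0 c0)
  (.n1 1200 (.n2 1200 (.n1 600 (.n0 2295 (.n1 300 (.leaf 7) (.leaf 4)) (.leaf 7)) (.n0 2295 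
  (.leaf 4) (.leaf 3))) (.leaf 7)) (.leaf 0))
  _ (by decide +kernel)

theorem chk_csEu1 : Chk (csEuopts p c1) (csEuBox p) :=
  chk_of_checkP [⟨560, 7, 17, 23⟩, ⟨1, 1, 1, 1⟩, ⟨1, 1, 1, 1⟩, ⟨1, 1, 1, 1⟩, ⟨1, 1, 1, 1⟩, ⟨1, 1, 1, 1⟩, ⟨1, 1, 1, 1⟩, ⟨40, 1, 2, 3⟩, ⟨1, 1, 1, 1⟩] (csEuopts p c1)
  (.n2 1800 (.n2 1200 (.leaf 7) (.n2 1500 (.leaf 7) (.leaf 0))) (.leaf 0))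
  _ (by decide +kernel)

theorem chk_ssN10 : Chk (ssNopts p c1 c0) (ssNBox p c1 c0) :=
  chk_of_checkP [⟨302, 9, 11, 8⟩, ⟨166, 5, 7, 5⟩, ⟨40, 2, 2, 2⟩, ⟨1, 1, 1, 1⟩] (ssNopts p c1 c0)
  (.n1 1620 (.n0 2295 (.n2 420 (.leaf 0) (.n0 2243 (.n1 1230 (.leaf 0) (.n2 630 (.leaf 0) (.n1 1425 
  (.leaf 0) (.n2 735 (.leaf 0) (.n0 2217 (.leaf 1) (.leaf 0)))))) (.leaf 0))) (.leaf 0)) 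
  (.n0 2295 (.n2 420 (.leaf 0) (.n1 2010 (.n0 2243 (.n2 630 (.n1 1815 (.leaf 0) (.leaf 1)) 
  (.leaf 1)) (.leaf 0)) (.leaf 2))) (.leaf 0)))
  _ (by decide +kernel)

theorem chk_csN1 : Chk (csNopts p c1) (csNBox p c1) :=
  chk_of_checkP [⟨341, 7, 13, 11⟩, ⟨1, 1, 1, 1⟩, ⟨1, 1, 1, 1⟩, ⟨40, 1, 2, 2⟩, ⟨1, 1, 1, 1⟩] (csNopts p c1)
  (.n1 1200 (.n2 1620 (.leaf 0) (.leaf 0)) (.n1 1800 (.n2 1620 (.leaf 0) (.leaf 0)) (.n2 1620 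
  (.n1 2100 (.leaf 0) (.n2 1230 (.n1 2250 (.leaf 0) (.leaf 3)) (.leaf 3))) (.leaf 3))))
  _ (by decide +kernel)

theorem chk_ssN00 : Chk (ssNopts p c0 c0) (ssNBox p c0 c0) :=
  chk_of_checkP [⟨273, 9, 8, 8⟩, ⟨140, 5, 5, 5⟩, ⟨1, 1, 1, 1⟩, ⟨1, 1, 1, 1⟩] (ssNopts p c0 c0)
  (.n1 420 (.n2 420 (.leaf 0) (.leaf 0)) (.n0 2295 (.n2 420 (.leaf 0) (.n0 2243 (.n1 630 (.leaf 0) 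
  (.n2 630 (.leaf 0) (.n0 2217 (.n1 735 (.leaf 0) (.n2 735 (.leaf 0) (.n1 788 (.leaf 0) (.n0 2204 
  (.leaf 1) (.leaf 0))))) (.leaf 0)))) (.leaf 0))) (.leaf 0)))
  _ (by decide +kernel)

theorem chk_csEt0 : Chk (csEtopts p c0) (csEtBox p) :=
  chk_of_checkP [⟨449, 7, 28, 17⟩, ⟨1, 1, 1, 1⟩, ⟨1, 1, 1, 1⟩, ⟨1, 1, 1, 1⟩, ⟨1, 1, 1, 1⟩, ⟨1, 1, 1, 1⟩, ⟨1, 1, 1, 1⟩, ⟨1, 1, 1, 1⟩, ⟨1, 1, 1, 1⟩, ⟨1, 1, 1, 1⟩] (csEtopts p c0)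
  (.leaf 0)
  _ (by decide +kernel)

theorem chk_ssN11 : Chk (ssNopts p c1 c1) (ssNBox p c1 c1) :=
  chk_of_checkP [⟨330, 9, 11, 11⟩, ⟨1, 1, 1, 1⟩, ⟨40, 2, 2, 2⟩, ⟨1, 1, 1, 1⟩] (ssNopts p c1 c1)
  (.n1 1620 (.n2 1620 (.n0 2295 (.n1 1230 (.leaf 0) (.n2 1230 (.leaf 0) (.leaf 2))) (.leaf 0)) 
  (.leaf 2)) (.leaf 2))
  _ (by decide +kernel)


end Pool.Agent.T2H40.BR.Q5
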