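import Pool.Agent.T2H40.BR.D.Q8

set_option autoImplicit false
set_option maxRecDepth 1000000
set_option exponentiation.threshold 1000000000

namespace Pool.Agent.T2H40.BR.Q8

theorem csE2_P3 : Chk (csEopts p c2) {({({({({({({(csEBox p c2) with l2 := 1500}) with l2 := 2250}) with h1 := 1050}) with h2 := 2625}) with h1 := 675}) with l2 := 2438}) with h2 := 2532} :=
  chk_of_checkP [⟨461, 7, 15, 17⟩, ⟨296, 4, 10, 11⟩, ⟨461, 7, 15, 17⟩, ⟨461, 7, 15, 17⟩, ⟨1, 1, 1, 1⟩, ⟨1, 1, 1, 1⟩, ⟨41, 2, 2, 3⟩, ⟨1, 1, 1, 1⟩, ⟨40, 1, 2, 3⟩, ⟨40, 1, 2, 3⟩, ⟨1, 1, 1, 1⟩] (csEopts p c2)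
  (.n1 488 (.n0 1725 (.n2 2485 (.n1 394 (.n0 1688 (.leaf 6) (.n0 1707 (.leaf 6) (.n0 1716 (.leaf 6) 
  (.n1 347 (.leaf 6) (.n0 1720 (.leaf 6) (.n1 371 (.leaf 6) (.n2 2462 (.n2 2450 (.leaf 0) 
  (.leaf 6)) (.leaf 6)))))))) (.n0 1688 (.n1 441 (.leaf 6) (.n2 2462 (.n0 1669 (.n1 464 (.leaf 6) 
  (.n2 2450 (.leaf 0) (.leaf 6))) (.n2 2450 (.leaf 0) (.n1 464 (.leaf 6) (.leaf 0)))) (.leaf 6))) 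
  (.n2 2462 (.n1 441 (.n0 1707 (.n2 2450 (.n1 418 (.n0 1698 (.leaf 6) (.n0 1702 (.leaf 6) 
  (.leaf 0))) (.leaf 0)) (.n0 1698 (.leaf 6) (.n0 1702 (.leaf 6) (.n1 418 (.leaf 6) (.leaf 0))))) 
  (.n1 418 (.n2 2450 (.leaf 0) (.n0 1716 (.leaf 6) (.n0 1720 (.leaf 6) (.leaf 0)))) (.leaf 0))) 
  (.leaf 0)) (.n1 441 (.n0 1707 (.leaf 6) (.n0 1716 (.leaf 6) (.n0 1720 (.leaf 6) (.n0 1723 
  (.leaf 6) (.n1 418 (.leaf 6) (.n2 2474 (.leaf 0) (.leaf 6))))))) (.n0 1707 (.n1 464 (.leaf 6) 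
  (.n2 2474 (.leaf 0) (.leaf 6))) (.n1 464 (.n2 2474 (.leaf 0) (.n0 1716 (.leaf 6) (.n0 1720 
  (.leaf 6) (.leaf 0)))) (.leaf 0))))))) (.n0 1688 (.leaf 6) (.n0 1707 (.leaf 6) (.n1 394 
  (.leaf 6) (.n0 1716 (.leaf 6) (.n1 441 (.leaf 6) (.n0 1720 (.leaf 6) (.n0 1723 (.leaf 6) 
  (.n1 464 (.leaf 6) (.n1 476 (.leaf 6) (.n2 2509 (.n1 482 (.leaf 6) (.leaf 0)) 
  (.leaf 6)))))))))))) (.n2 2485 (.n1 394 (.n0 1762 (.n2 2462 (.n1 347 (.n0 1743 (.leaf 6) 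
  (.n1 324 (.leaf 6) (.n2 2450 (.n0 1753 (.n1 336 (.leaf 6) (.leaf 0)) (.leaf 0)) (.leaf 6)))) 
  (.n0 1743 (.n2 2450 (.n1 371 (.n0 1734 (.leaf 6) (.leaf 0)) (.leaf 0)) (.n0 1734 (.leaf 6) 
  (.n1 371 (.leaf 6) (.leaf 0)))) (.n0 1753 (.n1 371 (.n2 2450 (.leaf 0) (.leaf 6)) (.leaf 0)) 
  (.leaf 0)))) (.n0 1743 (.leaf 6) (.n0 1753 (.leaf 6) (.n1 347 (.leaf 6) (.n1 371 (.leaf 6) 
  (.n2 2474 (.leaf 0) (.leaf 6))))))) (.n2 2462 (.n0 1781 (.n1 347 (.n2 2450 (.n0 1772 (.n0 1767 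
  (.n1 324 (.leaf 6) (.leaf 0)) (.leaf 0)) (.leaf 0)) (.n1 324 (.leaf 6) (.n0 1772 (.n0 1767 
  (.leaf 6) (.leaf 0)) (.leaf 0)))) (.leaf 0)) (.leaf 0)) (.n1 347 (.n0 1781 (.leaf 6) (.n1 324 
  (.leaf 9) (.n2 2474 (.n0 1791 (.n0 1786 (.leaf 6) (.leaf 0)) (.leaf 0)) (.leaf 9)))) (.n0 1781 
  (.n2 2474 (.n0 1772 (.n1 371 (.n0 1767 (.leaf 6) (.leaf 0)) (.leaf 0)) (.leaf 0)) (.n1 371 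
  (.leaf 6) (.n0 1772 (.leaf 6) (.leaf 0)))) (.n0 1791 (.n0 1786 (.n0 1784 (.n1 371 (.n2 2474 
  (.leaf 0) (.leaf 6)) (.leaf 0)) (.leaf 0)) (.leaf 0)) (.leaf 0)))))) (.n0 1762 (.n1 441 
  (.n2 2462 (.leaf 0) (.n0 1743 (.n2 2474 (.n1 418 (.n0 1734 (.leaf 6) (.n0 1738 (.leaf 6) 
  (.leaf 0))) (.leaf 0)) (.n0 1734 (.leaf 6) (.n1 418 (.leaf 6) (.leaf 0)))) (.n0 1753 (.n1 418 
  (.n2 2474 (.leaf 0) (.leaf 6)) (.leaf 0)) (.leaf 0)))) (.leaf 0)) (.leaf 0))) (.n1 394 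
  (.n0 1762 (.leaf 6) (.n0 1781 (.leaf 6) (.n1 347 (.leaf 9) (.n1 371 (.leaf 9) (.n2 2509 
  (.n2 2497 (.n0 1791 (.n0 1786 (.leaf 6) (.leaf 0)) (.leaf 0)) (.leaf 9)) (.leaf 9)))))) 
  (.n0 1762 (.n2 2509 (.n1 441 (.n0 1743 (.leaf 6) (.n0 1753 (.leaf 6) (.n1 418 (.leaf 6) 
  (.n2 2497 (.leaf 0) (.leaf 6))))) (.n0 1743 (.n2 2497 (.n1 464 (.n0 1734 (.leaf 6) (.n0 1738 
  (.leaf 6) (.leaf 0))) (.leaf 0)) (.n0 1734 (.leaf 6) (.n1 464 (.leaf 6) (.n0 1738 (.leaf 6) 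
  (.leaf 0))))) (.n0 1753 (.n1 464 (.n2 2497 (.leaf 0) (.leaf 6)) (.leaf 0)) (.leaf 0)))) 
  (.n0 1743 (.leaf 6) (.n0 1753 (.leaf 6) (.n1 441 (.leaf 6) (.n1 464 (.leaf 6) (.n2 2521 
  (.leaf 0) (.leaf 6))))))) (.n2 2509 (.n1 441 (.n0 1781 (.n2 2497 (.n0 1772 (.n1 418 (.n0 1767 
  (.leaf 6) (.leaf 0)) (.leaf 0)) (.leaf 0)) (.n1 418 (.leaf 6) (.n0 1772 (.leaf 6) (.leaf 0)))) 
  (.n0 1791 (.n0 1786 (.n0 1784 (.n1 418 (.n2 2497 (.leaf 0) (.leaf 6)) (.leaf 0)) (.leaf 0)) 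
  (.leaf 0)) (.leaf 0))) (.leaf 0)) (.n1 441 (.n0 1781 (.leaf 6) (.n1 418 (.leaf 9) (.n2 2521 
  (.n0 1791 (.n0 1786 (.leaf 6) (.leaf 0)) (.leaf 0)) (.leaf 9)))) (.n0 1781 (.n1 464 (.n0 1772 
  (.leaf 6) (.n2 2521 (.leaf 0) (.leaf 6))) (.n0 1772 (.n2 2521 (.leaf 0) (.leaf 6)) (.leaf 0))) 
  (.n0 1791 (.n0 1786 (.n0 1784 (.n1 464 (.n2 2521 (.leaf 0) (.leaf 6)) (.leaf 0)) (.leaf 0)) 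
  (.leaf 0)) (.leaf 0))))))))) (.n0 1725 (.n1 582 (.n2 2485 (.n0 1688 (.n1 535 (.n2 2462 
  (.n0 1669 (.n0 1660 (.n0 1655 (.n0 1652 (.n1 511 (.n2 2450 (.leaf 0) (.leaf 6)) (.leaf 0)) 
  (.leaf 0)) (.leaf 0)) (.leaf 0)) (.leaf 0)) (.n0 1669 (.n0 1660 (.leaf 6) (.n1 511 (.leaf 6) 
  (.n2 2474 (.leaf 0) (.leaf 6)))) (.n2 2474 (.leaf 0) (.n1 511 (.leaf 6) (.leaf 0))))) (.n0 1669 
  (.n0 1660 (.n0 1655 (.n0 1652 (.n1 559 (.n1 547 (.n2 2462 (.leaf 0) (.leaf 6)) (.leaf 0)) 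
  (.leaf 0)) (.leaf 0)) (.leaf 0)) (.leaf 0)) (.leaf 0))) (.leaf 0)) (.n0 1688 (.n1 535 (.leaf 6) 
  (.n2 2509 (.n0 1669 (.n1 559 (.leaf 6) (.n2 2497 (.leaf 0) (.leaf 6))) (.n2 2497 (.leaf 0) 
  (.n1 559 (.leaf 6) (.leaf 0)))) (.leaf 6))) (.n1 535 (.n2 2509 (.n0 1707 (.n1 511 (.leaf 6) 
  (.n2 2497 (.leaf 0) (.leaf 6))) (.n1 511 (.n2 2497 (.leaf 0) (.n0 1716 (.leaf 6) (.n0 1720 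
  (.leaf 6) (.leaf 0)))) (.leaf 0))) (.n0 1707 (.leaf 6) (.n0 1716 (.leaf 6) (.n0 1720 (.leaf 6) 
  (.n0 1723 (.leaf 6) (.n1 511 (.leaf 6) (.n2 2521 (.leaf 0) (.leaf 6)))))))) (.n2 2509 (.leaf 0) 
  (.n0 1707 (.n1 559 (.leaf 6) (.n2 2521 (.leaf 0) (.leaf 6))) (.n0 1716 (.n1 559 (.n2 2521 
  (.leaf 0) (.leaf 6)) (.leaf 0)) (.leaf 0))))))) (.n0 1688 (.n1 629 (.n2 2485 (.leaf 0) 
  (.n2 2509 (.leaf 0) (.n0 1669 (.n1 606 (.leaf 6) (.n2 2521 (.leaf 0) (.leaf 6))) (.n1 606 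
  (.n2 2521 (.leaf 0) (.leaf 6)) (.leaf 0))))) (.leaf 0)) (.leaf 0))) (.n0 1762 (.n1 582 (.n1 535 
  (.n2 2485 (.leaf 0) (.n2 2509 (.leaf 0) (.n0 1743 (.n1 511 (.n0 1734 (.leaf 6) (.n2 2521 
  (.leaf 0) (.leaf 6))) (.n2 2521 (.leaf 0) (.n0 1734 (.leaf 6) (.leaf 0)))) (.n0 1753 (.n1 511 
  (.n2 2521 (.leaf 0) (.leaf 6)) (.leaf 0)) (.leaf 0))))) (.leaf 0)) (.leaf 0)) (.leaf 0))))
  _ (by decide +kernel)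


end Pool.Agent.T2H40.BR.Q8
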