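import Pool.Agent.T2H40.BR.D.Q8

set_option autoImplicit false
set_option maxRecDepth 1000000
set_option exponentiation.threshold 1000000000

namespace Pool.Agent.T2H40.BR.Q8

theorem csE2_P4 : Chk (csEopts p c2) {({({({({({({(csEBox p c2) with l2 := 1500}) with l2 := 2250}) with h1 := 1050}) with h2 := 2625}) with h1 := 675}) with l2 := 2438}) with l2 := 2532} :=
  chk_of_checkP [⟨461, 7, 15, 17⟩, ⟨296, 4, 10, 11⟩, ⟨461, 7, 15, 17⟩, ⟨461, 7, 15, 17⟩, ⟨1, 1, 1, 1⟩, ⟨1, 1, 1, 1⟩, ⟨41, 2, 2, 3⟩, ⟨1, 1, 1, 1⟩, ⟨40, 1, 2, 3⟩, ⟨40, 1, 2, 3⟩, ⟨1, 1, 1, 1⟩] (csEopts p c2)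
  (.n1 488 (.n0 1725 (.leaf 6) (.n0 1762 (.leaf 6) (.n0 1781 (.leaf 6) (.n1 394 (.leaf 9) (.n1 441 
  (.leaf 9) (.n1 464 (.leaf 9) (.n2 2579 (.n2 2556 (.n2 2544 (.n0 1791 (.n0 1786 (.leaf 6) 
  (.leaf 0)) (.leaf 0)) (.leaf 9)) (.leaf 9)) (.leaf 9)))))))) (.n0 1725 (.n1 582 (.n0 1688 
  (.leaf 6) (.n0 1707 (.leaf 6) (.n0 1716 (.leaf 6) (.n1 535 (.leaf 6) (.n0 1720 (.leaf 6) 
  (.n1 559 (.leaf 6) (.n2 2579 (.n2 2556 (.n1 571 (.leaf 6) (.leaf 0)) (.leaf 6)) (.leaf 6))))))))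
   (.n2 2579 (.n0 1688 (.n1 629 (.leaf 6) (.n2 2556 (.n0 1669 (.n1 652 (.leaf 6) (.n2 2544 
  (.leaf 0) (.leaf 6))) (.n0 1679 (.n1 652 (.n1 641 (.leaf 6) (.leaf 0)) (.leaf 0)) (.leaf 0))) 
  (.n0 1669 (.leaf 6) (.n0 1679 (.leaf 6) (.n0 1683 (.leaf 6) (.n0 1686 (.leaf 6) (.n1 652 
  (.leaf 6) (.n1 664 (.leaf 6) (.leaf 0))))))))) (.n1 629 (.n2 2556 (.n0 1707 (.n1 606 (.n0 1698 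
  (.leaf 6) (.n2 2544 (.leaf 0) (.leaf 6))) (.n2 2544 (.leaf 0) (.n0 1698 (.leaf 6) (.leaf 0)))) 
  (.n0 1716 (.n0 1712 (.n1 606 (.n1 594 (.leaf 6) (.leaf 0)) (.leaf 0)) (.leaf 0)) (.leaf 0))) 
  (.n0 1707 (.leaf 6) (.n0 1716 (.leaf 6) (.n0 1720 (.leaf 6) (.n1 606 (.leaf 6) (.n1 618 
  (.leaf 6) (.leaf 0))))))) (.n0 1707 (.n2 2556 (.leaf 0) (.n1 652 (.n0 1698 (.leaf 6) (.n1 641 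
  (.leaf 6) (.leaf 0))) (.n0 1698 (.n2 2568 (.leaf 0) (.leaf 6)) (.leaf 0)))) (.leaf 0)))) 
  (.n0 1688 (.leaf 6) (.n0 1707 (.leaf 6) (.n0 1716 (.leaf 6) (.n1 629 (.leaf 6) (.n1 652 
  (.leaf 6) (.n2 2602 (.n1 664 (.leaf 6) (.leaf 0)) (.leaf 6))))))))) (.n1 582 (.n2 2579 
  (.n0 1762 (.n1 535 (.n0 1743 (.leaf 6) (.n0 1753 (.leaf 6) (.n1 511 (.leaf 6) (.n1 523 (.leaf 6)
   (.n2 2556 (.n2 2544 (.leaf 0) (.leaf 6)) (.leaf 6)))))) (.n2 2556 (.n0 1743 (.n1 559 (.n0 1734 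
  (.leaf 6) (.n2 2544 (.leaf 0) (.leaf 6))) (.n0 1734 (.n2 2544 (.leaf 0) (.leaf 6)) (.leaf 0))) 
  (.n0 1753 (.n0 1748 (.n1 559 (.n2 2544 (.leaf 0) (.leaf 6)) (.leaf 0)) (.leaf 0)) (.leaf 0))) 
  (.n0 1743 (.leaf 6) (.n0 1753 (.leaf 6) (.n1 559 (.leaf 6) (.n1 571 (.leaf 6) (.leaf 0))))))) 
  (.n1 535 (.n2 2556 (.n0 1781 (.n1 511 (.n2 2544 (.n0 1772 (.leaf 6) (.leaf 0)) (.leaf 6)) 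
  (.n0 1772 (.n2 2544 (.leaf 0) (.leaf 6)) (.leaf 0))) (.leaf 0)) (.n0 1781 (.leaf 6) (.n1 511 
  (.leaf 9) (.n2 2568 (.leaf 0) (.leaf 9))))) (.n0 1781 (.n1 559 (.n2 2556 (.leaf 0) (.n2 2568 
  (.n0 1772 (.n0 1767 (.leaf 6) (.leaf 0)) (.leaf 0)) (.leaf 6))) (.leaf 0)) (.leaf 0)))) 
  (.n0 1762 (.leaf 6) (.n0 1781 (.leaf 6) (.n1 535 (.leaf 9) (.n1 559 (.leaf 9) (.n2 2602 
  (.n2 2591 (.leaf 0) (.leaf 9)) (.leaf 9))))))) (.n2 2579 (.n0 1762 (.n0 1743 (.n1 629 (.n1 606 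
  (.n2 2556 (.leaf 0) (.n2 2568 (.n0 1734 (.leaf 6) (.leaf 0)) (.leaf 6))) (.leaf 0)) (.leaf 0)) 
  (.leaf 0)) (.leaf 0)) (.n0 1762 (.n1 629 (.n0 1743 (.leaf 6) (.n1 606 (.leaf 6) (.n2 2602 
  (.n2 2591 (.leaf 0) (.leaf 6)) (.leaf 6)))) (.n2 2602 (.n0 1743 (.n1 652 (.n2 2591 (.leaf 0) 
  (.leaf 6)) (.leaf 0)) (.leaf 0)) (.n0 1743 (.leaf 6) (.n1 652 (.leaf 6) (.n2 2614 (.leaf 0) 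
  (.leaf 6)))))) (.n1 629 (.n2 2602 (.n0 1781 (.n0 1772 (.n1 606 (.n1 594 (.leaf 6) (.leaf 0)) 
  (.leaf 0)) (.leaf 0)) (.leaf 0)) (.n0 1781 (.leaf 6) (.n1 606 (.leaf 9) (.leaf 0)))) (.n0 1781 
  (.n0 1772 (.n0 1767 (.n0 1765 (.n1 652 (.n2 2602 (.leaf 0) (.leaf 6)) (.leaf 0)) (.leaf 0)) 
  (.leaf 0)) (.leaf 0)) (.leaf 0))))))))
  _ (by decide +kernel)

theorem csE2_P5 : Chk (csEopts p c2) {({({({({(csEBox p c2) with l2 := 1500}) with l2 := 2250}) with h1 := 1050}) with h2 := 2625}) with l1 := 675} :=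
  chk_of_checkP [⟨461, 7, 15, 17⟩, ⟨296, 4, 10, 11⟩, ⟨461, 7, 15, 17⟩, ⟨461, 7, 15, 17⟩, ⟨1, 1, 1, 1⟩, ⟨1, 1, 1, 1⟩, ⟨41, 2, 2, 3⟩, ⟨1, 1, 1, 1⟩, ⟨40, 1, 2, 3⟩, ⟨40, 1, 2, 3⟩, ⟨1, 1, 1, 1⟩] (csEopts p c2)
  (.n2 2438 (.n2 2344 (.n1 862 (.n2 2297 (.n1 769 (.n1 722 (.n2 2274 (.leaf 8) (.leaf 0)) (.leaf 8))
   (.leaf 8)) (.n1 769 (.leaf 0) (.n1 816 (.n2 2321 (.leaf 8) (.leaf 0)) (.leaf 8)))) (.leaf 8)) 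
  (.n1 862 (.leaf 0) (.n1 956 (.n2 2391 (.n1 909 (.n2 2368 (.leaf 8) (.leaf 0)) (.leaf 8)) 
  (.leaf 0)) (.leaf 8)))) (.n1 862 (.n2 2532 (.leaf 0) (.n0 1725 (.n1 769 (.n2 2579 (.n0 1688 
  (.n1 722 (.n2 2556 (.leaf 0) (.n0 1669 (.n1 699 (.leaf 6) (.n2 2568 (.leaf 0) (.leaf 6))) 
  (.n0 1679 (.n0 1674 (.n0 1672 (.n1 699 (.n1 687 (.leaf 6) (.leaf 0)) (.leaf 0)) (.leaf 0)) 
  (.leaf 0)) (.leaf 0)))) (.leaf 0)) (.leaf 0)) (.n1 722 (.n0 1688 (.n0 1669 (.leaf 6) (.n0 1679 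
  (.leaf 6) (.n0 1683 (.leaf 6) (.n1 699 (.leaf 6) (.n2 2602 (.leaf 0) (.leaf 6)))))) (.n2 2602 
  (.n0 1707 (.n1 699 (.n2 2591 (.leaf 0) (.leaf 6)) (.leaf 0)) (.leaf 0)) (.n0 1707 (.leaf 6) 
  (.n1 699 (.leaf 6) (.n2 2614 (.leaf 0) (.leaf 6)))))) (.n0 1688 (.n2 2602 (.n0 1669 (.n1 746 
  (.n2 2591 (.leaf 0) (.leaf 6)) (.leaf 0)) (.leaf 0)) (.n0 1669 (.leaf 6) (.n1 746 (.leaf 6) 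
  (.n2 2614 (.leaf 0) (.leaf 6))))) (.n0 1707 (.n0 1698 (.n0 1693 (.n0 1691 (.n1 746 (.n2 2602 
  (.leaf 0) (.leaf 6)) (.leaf 0)) (.leaf 0)) (.leaf 0)) (.leaf 0)) (.leaf 0))))) (.n0 1688 
  (.n0 1669 (.n0 1660 (.n0 1655 (.n1 816 (.n1 793 (.n2 2579 (.leaf 0) (.n2 2602 (.leaf 0) 
  (.leaf 6))) (.leaf 0)) (.leaf 0)) (.leaf 0)) (.leaf 0)) (.leaf 0)) (.leaf 0))) (.n0 1762 
  (.n0 1743 (.n1 769 (.n0 1734 (.n1 722 (.n0 1730 (.n1 699 (.n2 2579 (.leaf 0) (.n2 2602 (.leaf 0)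
   (.leaf 6))) (.leaf 0)) (.leaf 0)) (.leaf 0)) (.leaf 0)) (.leaf 0)) (.leaf 0)) (.leaf 0)))) 
  (.leaf 0)))
  _ (by decide +kernel)

theorem csE2_P6 : Chk (csEopts p c2) {({({({(csEBox p c2) with l2 := 1500}) with l2 := 2250}) with h1 := 1050}) with l2 := 2625} :=
  chk_of_checkP [⟨461, 7, 15, 17⟩, ⟨296, 4, 10, 11⟩, ⟨461, 7, 15, 17⟩, ⟨461, 7, 15, 17⟩, ⟨1, 1, 1, 1⟩, ⟨1, 1, 1, 1⟩, ⟨41, 2, 2, 3⟩, ⟨1, 1, 1, 1⟩, ⟨40, 1, 2, 3⟩, ⟨40, 1, 2, 3⟩, ⟨1, 1, 1, 1⟩] (csEopts p c2)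
  (.n1 675 (.n0 1725 (.leaf 6) (.n0 1762 (.leaf 6) (.n1 488 (.leaf 9) (.n2 2813 (.n1 582 (.leaf 9) 
  (.n2 2719 (.n1 629 (.leaf 9) (.n2 2672 (.n2 2649 (.n0 1781 (.n0 1772 (.leaf 6) (.n0 1777 
  (.leaf 6) (.n1 652 (.leaf 6) (.leaf 0)))) (.n1 652 (.n2 2637 (.leaf 0) (.leaf 9)) (.leaf 0))) 
  (.leaf 9)) (.leaf 9))) (.leaf 9))) (.leaf 9))))) (.n2 2813 (.n1 862 (.n2 2719 (.n1 769 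
  (.n0 1725 (.n0 1688 (.leaf 6) (.n0 1707 (.leaf 6) (.n1 722 (.leaf 6) (.n1 746 (.leaf 6) 
  (.n2 2672 (.n2 2649 (.leaf 0) (.leaf 6)) (.leaf 6)))))) (.n2 2672 (.n1 722 (.n0 1762 (.n0 1743 
  (.leaf 6) (.n2 2649 (.n1 699 (.n2 2637 (.n0 1753 (.leaf 6) (.leaf 0)) (.leaf 6)) (.leaf 0)) 
  (.leaf 6))) (.n2 2649 (.leaf 0) (.n0 1781 (.n0 1772 (.leaf 6) (.n1 699 (.leaf 6) (.leaf 0))) 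
  (.n0 1791 (.n1 699 (.leaf 6) (.leaf 0)) (.leaf 0))))) (.n0 1762 (.n2 2649 (.leaf 0) (.n1 746 
  (.n0 1743 (.leaf 6) (.n0 1753 (.leaf 6) (.leaf 0))) (.n0 1743 (.n0 1734 (.leaf 6) (.leaf 0)) 
  (.leaf 0)))) (.leaf 0))) (.n0 1762 (.leaf 6) (.n1 722 (.leaf 9) (.n2 2696 (.n0 1781 (.n1 746 
  (.leaf 6) (.leaf 0)) (.leaf 0)) (.leaf 9)))))) (.n0 1725 (.n2 2672 (.n1 816 (.n0 1688 (.n0 1669 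
  (.leaf 6) (.n1 793 (.leaf 6) (.n2 2649 (.leaf 0) (.leaf 6)))) (.n2 2649 (.leaf 0) (.n1 793 
  (.n0 1707 (.leaf 6) (.n0 1716 (.leaf 6) (.leaf 0))) (.leaf 0)))) (.n0 1688 (.n0 1669 (.n2 2649 
  (.leaf 0) (.n1 839 (.leaf 6) (.leaf 0))) (.leaf 0)) (.leaf 0))) (.n0 1688 (.leaf 6) (.n1 816 
  (.leaf 6) (.n2 2696 (.n0 1707 (.n1 839 (.leaf 6) (.leaf 0)) (.leaf 0)) (.leaf 6))))) (.n1 816 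
  (.n2 2672 (.leaf 0) (.n0 1762 (.n2 2696 (.n0 1743 (.n1 793 (.leaf 6) (.leaf 0)) (.leaf 0)) 
  (.leaf 6)) (.n0 1781 (.n0 1772 (.n0 1767 (.n0 1765 (.n2 2696 (.leaf 0) (.n1 793 (.leaf 6) 
  (.leaf 0))) (.leaf 0)) (.leaf 0)) (.leaf 0)) (.leaf 0)))) (.leaf 0)))) (.n0 1725 (.leaf 6) 
  (.n1 769 (.leaf 9) (.n2 2766 (.n0 1762 (.n0 1743 (.leaf 6) (.n0 1753 (.leaf 6) (.n1 816 
  (.leaf 6) (.n2 2743 (.leaf 0) (.leaf 6))))) (.n1 816 (.n0 1781 (.leaf 6) (.n0 1791 (.leaf 6) 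
  (.n2 2743 (.leaf 0) (.leaf 9)))) (.n2 2743 (.leaf 0) (.n0 1781 (.leaf 6) (.leaf 0))))) 
  (.leaf 9))))) (.n2 2719 (.n0 1725 (.n0 1688 (.n1 956 (.n1 909 (.n2 2672 (.leaf 0) (.n2 2696 
  (.n0 1669 (.n1 886 (.leaf 6) (.leaf 0)) (.leaf 0)) (.leaf 6))) (.leaf 0)) (.leaf 0)) (.leaf 0)) 
  (.leaf 0)) (.n1 956 (.n0 1725 (.n2 2766 (.n1 909 (.n0 1688 (.leaf 6) (.n0 1707 (.leaf 6) 
  (.n2 2743 (.n0 1716 (.leaf 6) (.leaf 0)) (.leaf 6)))) (.n0 1688 (.n0 1669 (.leaf 6) (.n1 932 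
  (.leaf 6) (.leaf 0))) (.n0 1707 (.n2 2743 (.leaf 0) (.leaf 6)) (.leaf 0)))) (.leaf 6)) 
  (.n2 2766 (.n0 1762 (.n0 1743 (.n1 909 (.n2 2743 (.leaf 0) (.leaf 6)) (.leaf 0)) (.leaf 0)) 
  (.leaf 0)) (.n1 909 (.n0 1762 (.leaf 6) (.n2 2790 (.n0 1781 (.n0 1772 (.leaf 6) (.leaf 0)) 
  (.leaf 0)) (.leaf 9))) (.n0 1762 (.n2 2790 (.leaf 0) (.leaf 6)) (.leaf 0))))) (.n0 1725 
  (.n2 2766 (.leaf 0) (.n1 1003 (.n0 1688 (.leaf 6) (.n2 2790 (.leaf 0) (.leaf 6))) (.leaf 0))) 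
  (.leaf 0))))) (.n1 862 (.leaf 9) (.n2 2907 (.n1 956 (.n0 1725 (.leaf 6) (.n0 1762 (.leaf 6) 
  (.n0 1781 (.leaf 6) (.n0 1791 (.leaf 6) (.n1 909 (.leaf 9) (.n0 1796 (.leaf 6) (.n2 2860 
  (.n1 932 (.leaf 9) (.leaf 0)) (.leaf 9)))))))) (.n0 1725 (.n0 1688 (.leaf 6) (.n0 1707 (.leaf 6)
   (.n1 1003 (.leaf 6) (.n2 2860 (.leaf 0) (.leaf 6))))) (.n2 2860 (.n0 1762 (.n1 1003 (.n1 980 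
  (.leaf 6) (.leaf 0)) (.leaf 0)) (.leaf 0)) (.n0 1762 (.leaf 6) (.n1 1003 (.leaf 9) 
  (.leaf 0)))))) (.leaf 9)))))
  _ (by decide +kernel)


end Pool.Agent.T2H40.BR.Q8
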