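import Pool.Agent.T2H40.BR.D.Q8

set_option autoImplicit false
set_option maxRecDepth 1000000
set_option exponentiation.threshold 1000000000

namespace Pool.Agent.T2H40.BR.Q8

theorem csE2_P7 : Chk (csEopts p c2) {({({(csEBox p c2) with l2 := 1500}) with l2 := 2250}) with l1 := 1050} :=
  chk_of_checkP [⟨461, 7, 15, 17⟩, ⟨296, 4, 10, 11⟩, ⟨461, 7, 15, 17⟩, ⟨461, 7, 15, 17⟩, ⟨1, 1, 1, 1⟩, ⟨1, 1, 1, 1⟩, ⟨41, 2, 2, 3⟩, ⟨1, 1, 1, 1⟩, ⟨40, 1, 2, 3⟩, ⟨40, 1, 2, 3⟩, ⟨1, 1, 1, 1⟩] (csEopts p c2)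
  (.n2 2625 (.n1 1425 (.n1 1238 (.n2 2438 (.leaf 8) (.n2 2532 (.n1 1144 (.n2 2485 (.leaf 8) 
  (.leaf 0)) (.leaf 8)) (.leaf 0))) (.leaf 8)) (.leaf 8)) (.n1 1425 (.n2 2813 (.n1 1238 (.leaf 0) 
  (.n1 1332 (.leaf 0) (.n2 2719 (.n1 1379 (.leaf 0) (.leaf 8)) (.leaf 2)))) (.n1 1238 (.n2 2907 
  (.n0 1725 (.n1 1144 (.n2 2860 (.leaf 0) (.n1 1097 (.leaf 6) (.leaf 0))) (.leaf 0)) (.leaf 0)) 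
  (.n1 1144 (.n0 1725 (.leaf 6) (.n2 2954 (.n1 1097 (.n0 1762 (.leaf 6) (.leaf 0)) (.leaf 0)) 
  (.n0 1762 (.leaf 6) (.n1 1097 (.leaf 9) (.leaf 0))))) (.n0 1725 (.n2 2954 (.leaf 0) (.n1 1191 
  (.leaf 6) (.leaf 0))) (.leaf 0)))) (.n1 1332 (.n2 2907 (.n1 1285 (.leaf 0) (.leaf 2)) (.leaf 0))
   (.leaf 2)))) (.n1 1613 (.n2 2813 (.n1 1519 (.n1 1472 (.n2 2719 (.leaf 8) (.leaf 1)) (.leaf 8)) 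
  (.leaf 8)) (.n1 1519 (.leaf 1) (.n2 2907 (.n1 1566 (.n2 2860 (.leaf 8) (.leaf 1)) (.leaf 8)) 
  (.n0 1725 (.n0 1688 (.n1 1566 (.leaf 3) (.n1 1590 (.leaf 1) (.n2 2954 (.n2 2931 (.leaf 8) 
  (.n0 1669 (.n0 1660 (.n0 1655 (.n0 1652 (.n1 1602 (.leaf 1) (.n2 2943 (.leaf 8) (.leaf 1))) 
  (.leaf 1)) (.leaf 1)) (.leaf 1)) (.leaf 1))) (.leaf 1)))) (.leaf 3)) (.leaf 3))))) (.n2 2813 
  (.leaf 8) (.n1 1707 (.n1 1660 (.n2 2907 (.leaf 8) (.n2 2954 (.leaf 8) (.n0 1725 (.n1 1637 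
  (.n0 1688 (.n0 1669 (.n1 1625 (.leaf 1) (.n2 2977 (.n2 2966 (.leaf 8) (.n1 1631 (.leaf 1) 
  (.leaf 8))) (.leaf 1))) (.leaf 1)) (.leaf 1)) (.n2 2977 (.leaf 8) (.n1 1649 (.n0 1688 (.n0 1669 
  (.n2 2989 (.n1 1643 (.n2 2983 (.leaf 8) (.leaf 1)) (.leaf 8)) (.n0 1660 (.n0 1655 (.n0 1652 
  (.n0 1651 (.n1 1643 (.leaf 1) (.n1 1646 (.leaf 1) (.n2 2995 (.leaf 8) (.leaf 1)))) (.leaf 1)) 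
  (.leaf 1)) (.leaf 1)) (.leaf 1))) (.leaf 1)) (.leaf 1)) (.n0 1688 (.n2 2989 (.leaf 8) (.n0 1669 
  (.n1 1655 (.n1 1652 (.n2 2995 (.leaf 8) (.leaf 1)) (.leaf 8)) (.leaf 8)) (.leaf 1))) 
  (.leaf 1))))) (.leaf 1)))) (.leaf 8)) (.leaf 8))))))
  _ (by decide +kernel)


end Pool.Agent.T2H40.BR.Q8
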