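import Pool.Agent.T2H40.BR.D.Q8_csE2_0
import Pool.Agent.T2H40.BR.D.Q8_csE2_1
import Pool.Agent.T2H40.BR.D.Q8_csE2_2
import Pool.Agent.T2H40.BR.D.Q8_csE2_3

set_option autoImplicit false
set_option maxRecDepth 1000000
set_option exponentiation.threshold 1000000000

namespace Pool.Agent.T2H40.BR.Q8

theorem chk_csE2 : Chk (csEopts p c2) (csEBox p c2) :=
  (Chk.n2 (opts := csEopts p c2) 1500 csE2_P0 (Chk.n2 (opts := csEopts p c2) 2250 csE2_P1 (Chk.n1 
  (opts := csEopts p c2) 1050 (Chk.n2 (opts := csEopts p c2) 2625 (Chk.n1 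
  (opts := csEopts p c2) 675 (Chk.n2 (opts := csEopts p c2) 2438 csE2_P2 (Chk.n2 
  (opts := csEopts p c2) 2532 csE2_P3 csE2_P4)) csE2_P5) csE2_P6) csE2_P7)))

end Pool.Agent.T2H40.BR.Q8
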