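import Pool.Agent.T2H40.BR.D.Q8

set_option autoImplicit false
set_option maxRecDepth 1000000
set_option exponentiation.threshold 1000000000

namespace Pool.Agent.T2H40.BR.Q8

theorem csEu2_P4 : Chk (csEuopts p c2) {({({({({(csEuBox p) with l2 := 1800}) with h2 := 2400}) with l2 := 2100}) with l2 := 2250}) with l2 := 2325} :=
  chk_of_checkP [⟨452, 7, 15, 17⟩, ⟨1, 1, 1, 1⟩, ⟨1, 1, 1, 1⟩, ⟨1, 1, 1, 1⟩, ⟨1, 1, 1, 1⟩, ⟨1, 1, 1, 1⟩, ⟨41, 2, 2, 3⟩, ⟨40, 1, 2, 3⟩, ⟨40, 1, 2, 3⟩] (csEuopts p c2)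
  (.n0 1725 (.n1 150 (.n0 1688 (.leaf 6) (.n1 75 (.leaf 6) (.n1 113 (.leaf 6) (.n0 1707 (.leaf 6) 
  (.n2 2363 (.n2 2344 (.n2 2335 (.n1 132 (.n0 1716 (.leaf 6) (.n1 123 (.leaf 6) (.leaf 0))) 
  (.leaf 0)) (.leaf 6)) (.leaf 6)) (.leaf 6)))))) (.n2 2363 (.n1 225 (.n0 1688 (.n1 188 (.leaf 6) 
  (.n2 2344 (.n0 1669 (.n0 1660 (.leaf 6) (.n1 207 (.leaf 6) (.n1 216 (.leaf 6) (.leaf 0)))) 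
  (.n2 2335 (.leaf 0) (.n0 1679 (.leaf 6) (.leaf 0)))) (.leaf 6))) (.n2 2344 (.n1 188 (.n0 1707 
  (.n2 2335 (.n0 1698 (.n1 169 (.leaf 6) (.leaf 0)) (.leaf 0)) (.n0 1698 (.leaf 6) (.n1 169 
  (.leaf 6) (.leaf 0)))) (.leaf 0)) (.leaf 0)) (.n1 188 (.n0 1707 (.leaf 6) (.n1 169 (.leaf 6) 
  (.n2 2354 (.n0 1716 (.leaf 6) (.leaf 0)) (.leaf 6)))) (.n0 1707 (.n2 2354 (.n1 207 (.n0 1698 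
  (.leaf 6) (.leaf 0)) (.leaf 0)) (.leaf 6)) (.n1 207 (.n0 1716 (.n2 2354 (.leaf 0) (.leaf 6)) 
  (.leaf 0)) (.leaf 0)))))) (.n0 1688 (.n2 2344 (.n0 1669 (.n1 263 (.n0 1660 (.n1 244 (.n0 1655 
  (.leaf 6) (.leaf 0)) (.leaf 0)) (.leaf 0)) (.leaf 0)) (.leaf 0)) (.n1 263 (.n0 1669 (.leaf 6) 
  (.n2 2354 (.leaf 0) (.n1 244 (.leaf 6) (.n0 1679 (.leaf 6) (.leaf 0))))) (.n0 1669 (.n0 1660 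
  (.n2 2354 (.leaf 0) (.leaf 6)) (.leaf 0)) (.leaf 0)))) (.leaf 0))) (.n1 225 (.n0 1688 (.leaf 6) 
  (.n1 188 (.leaf 6) (.n0 1707 (.leaf 6) (.n1 207 (.leaf 6) (.n0 1716 (.leaf 6) (.n0 1720 
  (.leaf 6) (.n1 216 (.leaf 6) (.n2 2382 (.n2 2373 (.leaf 0) (.leaf 6)) (.leaf 6))))))))) 
  (.n0 1688 (.n0 1669 (.leaf 6) (.n1 263 (.leaf 6) (.n2 2382 (.n2 2373 (.n1 282 (.n0 1679 
  (.leaf 6) (.leaf 0)) (.leaf 0)) (.leaf 6)) (.leaf 6)))) (.n2 2382 (.n1 263 (.n0 1707 (.n0 1698 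
  (.leaf 6) (.n2 2373 (.n1 244 (.leaf 6) (.leaf 0)) (.leaf 6))) (.n1 244 (.n2 2373 (.leaf 0) 
  (.n0 1716 (.leaf 6) (.leaf 0))) (.leaf 0))) (.leaf 0)) (.n1 263 (.leaf 6) (.n0 1707 (.n0 1698 
  (.leaf 6) (.n1 282 (.leaf 6) (.n1 291 (.leaf 6) (.leaf 0)))) (.n1 282 (.n2 2391 (.leaf 0) 
  (.leaf 6)) (.leaf 0))))))))) (.n2 2363 (.n1 150 (.n0 1762 (.n1 75 (.n1 38 (.leaf 6) (.n0 1743 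
  (.leaf 6) (.n0 1753 (.leaf 6) (.n1 57 (.leaf 6) (.n1 66 (.leaf 6) (.n2 2344 (.n2 2335 (.leaf 0) 
  (.leaf 6)) (.leaf 6))))))) (.n2 2344 (.n1 113 (.n0 1743 (.n1 94 (.leaf 6) (.n2 2335 (.n0 1734 
  (.leaf 6) (.leaf 0)) (.leaf 6))) (.n0 1753 (.n2 2335 (.leaf 0) (.n1 94 (.leaf 6) (.leaf 0))) 
  (.leaf 0))) (.n0 1743 (.n1 132 (.n0 1734 (.n2 2335 (.leaf 0) (.leaf 6)) (.leaf 0)) (.leaf 0)) 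
  (.leaf 0))) (.n1 113 (.leaf 6) (.n0 1743 (.n1 132 (.leaf 6) (.n0 1734 (.leaf 6) (.n2 2354 
  (.leaf 0) (.leaf 6)))) (.n2 2354 (.n0 1753 (.n1 132 (.n0 1748 (.leaf 6) (.leaf 0)) (.leaf 0)) 
  (.leaf 0)) (.n1 132 (.leaf 6) (.n0 1753 (.leaf 6) (.leaf 0)))))))) (.n2 2344 (.n1 75 (.n0 1781 
  (.n1 38 (.n0 1772 (.leaf 6) (.n2 2335 (.n1 19 (.leaf 6) (.leaf 0)) (.leaf 6))) (.n0 1772 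
  (.n2 2335 (.leaf 0) (.n1 57 (.leaf 6) (.leaf 0))) (.leaf 0))) (.n1 38 (.n1 19 (.n2 2335 
  (.leaf 0) (.leaf 8)) (.leaf 0)) (.leaf 0))) (.leaf 0)) (.n0 1781 (.n1 75 (.leaf 6) (.n1 113 
  (.n2 2354 (.n0 1772 (.n1 94 (.leaf 6) (.leaf 0)) (.leaf 0)) (.n0 1772 (.leaf 6) (.n1 94 
  (.leaf 6) (.leaf 0)))) (.leaf 0))) (.n1 75 (.n2 2354 (.n1 38 (.leaf 8) (.leaf 0)) (.leaf 8)) 
  (.leaf 0))))) (.n0 1762 (.n1 225 (.n1 188 (.n0 1743 (.n1 169 (.n2 2344 (.leaf 0) (.n2 2354 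
  (.leaf 0) (.leaf 6))) (.leaf 0)) (.leaf 0)) (.leaf 0)) (.leaf 0)) (.leaf 0))) (.n1 150 
  (.n0 1762 (.leaf 6) (.n1 75 (.leaf 8) (.n2 2382 (.n0 1781 (.n1 113 (.leaf 6) (.n2 2373 (.n1 132 
  (.n0 1772 (.leaf 6) (.leaf 0)) (.leaf 0)) (.leaf 6))) (.n1 113 (.n2 2373 (.n0 1791 (.leaf 6) 
  (.leaf 0)) (.leaf 8)) (.leaf 0))) (.n0 1781 (.leaf 6) (.n1 113 (.leaf 8) (.n0 1791 (.leaf 6) 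
  (.n2 2391 (.leaf 0) (.leaf 8)))))))) (.n1 225 (.n0 1762 (.n2 2382 (.n1 188 (.n0 1743 (.leaf 6) 
  (.n2 2373 (.n0 1753 (.n1 169 (.leaf 6) (.leaf 0)) (.leaf 0)) (.n0 1753 (.leaf 6) (.n1 169 
  (.leaf 6) (.leaf 0))))) (.n0 1743 (.n2 2373 (.n1 207 (.n0 1734 (.n1 197 (.leaf 6) (.leaf 0)) 
  (.leaf 0)) (.leaf 0)) (.n1 207 (.leaf 6) (.n0 1734 (.leaf 6) (.leaf 0)))) (.leaf 0))) (.n1 188 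
  (.leaf 6) (.n0 1743 (.leaf 6) (.n2 2391 (.n1 207 (.n0 1753 (.leaf 6) (.leaf 0)) (.leaf 0)) 
  (.leaf 6))))) (.n2 2382 (.leaf 0) (.n1 188 (.n0 1781 (.n0 1772 (.leaf 6) (.n2 2391 (.n1 169 
  (.leaf 6) (.leaf 0)) (.leaf 6))) (.n0 1791 (.n1 169 (.n2 2391 (.leaf 0) (.leaf 6)) (.leaf 0)) 
  (.leaf 0))) (.n0 1781 (.n0 1772 (.n1 207 (.n2 2391 (.leaf 0) (.leaf 6)) (.leaf 0)) (.leaf 0)) 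
  (.leaf 0))))) (.n0 1762 (.n1 263 (.n0 1743 (.n2 2382 (.leaf 0) (.n2 2391 (.n1 244 (.n0 1734 
  (.leaf 6) (.leaf 0)) (.leaf 0)) (.n1 244 (.leaf 6) (.n0 1734 (.leaf 6) (.leaf 0))))) (.leaf 0)) 
  (.leaf 0)) (.leaf 0))))))
  _ (by decide +kernel)

theorem csEu2_P5 : Chk (csEuopts p c2) {({(csEuBox p) with l2 := 1800}) with l2 := 2400} :=
  chk_of_checkP [⟨452, 7, 15, 17⟩, ⟨1, 1, 1, 1⟩, ⟨1, 1, 1, 1⟩, ⟨1, 1, 1, 1⟩, ⟨1, 1, 1, 1⟩, ⟨1, 1, 1, 1⟩, ⟨41, 2, 2, 3⟩, ⟨40, 1, 2, 3⟩, ⟨40, 1, 2, 3⟩] (csEuopts p c2)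
  (.n0 1725 (.leaf 6) (.n1 150 (.leaf 8) (.n2 2700 (.n2 2550 (.n2 2475 (.n2 2438 (.n1 225 (.n0 1762 
  (.leaf 6) (.n2 2419 (.n1 188 (.n0 1781 (.leaf 6) (.n0 1791 (.leaf 6) (.n1 169 (.leaf 8) 
  (.n2 2410 (.leaf 0) (.leaf 8))))) (.n0 1781 (.n0 1772 (.leaf 6) (.n1 207 (.leaf 6) (.n2 2410 
  (.leaf 0) (.leaf 6)))) (.n0 1791 (.n2 2410 (.leaf 0) (.n1 207 (.leaf 6) (.leaf 0))) (.leaf 0))))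
   (.leaf 8))) (.n0 1762 (.n2 2419 (.n1 263 (.n0 1743 (.leaf 6) (.n1 244 (.leaf 6) (.n2 2410 
  (.n0 1753 (.n0 1748 (.leaf 6) (.leaf 0)) (.leaf 0)) (.leaf 6)))) (.n0 1743 (.n2 2410 (.n1 282 
  (.n0 1734 (.leaf 6) (.leaf 0)) (.leaf 0)) (.n1 282 (.leaf 6) (.n0 1734 (.leaf 6) (.leaf 0)))) 
  (.n0 1753 (.n1 282 (.n2 2410 (.leaf 0) (.leaf 6)) (.leaf 0)) (.leaf 0)))) (.n1 263 (.leaf 6) 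
  (.n0 1743 (.leaf 6) (.n0 1753 (.leaf 6) (.n1 282 (.leaf 6) (.n2 2429 (.leaf 0) (.leaf 6))))))) 
  (.n2 2419 (.n0 1781 (.n1 263 (.n0 1772 (.n1 244 (.n2 2410 (.leaf 0) (.leaf 6)) (.leaf 0)) 
  (.leaf 0)) (.leaf 0)) (.leaf 0)) (.n1 263 (.n0 1781 (.n0 1772 (.leaf 6) (.n1 244 (.leaf 6) 
  (.n2 2429 (.leaf 0) (.leaf 6)))) (.n2 2429 (.n0 1791 (.n1 244 (.leaf 6) (.leaf 0)) (.leaf 0)) 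
  (.n1 244 (.leaf 8) (.n0 1791 (.leaf 6) (.leaf 0))))) (.n0 1781 (.n0 1772 (.n2 2429 (.leaf 0) 
  (.n1 282 (.leaf 6) (.leaf 0))) (.leaf 0)) (.leaf 0)))))) (.n0 1762 (.leaf 6) (.n1 225 (.leaf 8) 
  (.n0 1781 (.leaf 6) (.n1 263 (.leaf 8) (.n2 2457 (.n2 2448 (.n0 1791 (.n1 282 (.leaf 6) 
  (.leaf 0)) (.leaf 0)) (.n0 1791 (.leaf 6) (.n1 282 (.leaf 8) (.leaf 0)))) (.leaf 8))))))) 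
  (.leaf 8)) (.leaf 8)) (.leaf 8))))
  _ (by decide +kernel)


end Pool.Agent.T2H40.BR.Q8
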