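import Pool.Agent.T2H40.BR.D.Q8_csEu2_0
import Pool.Agent.T2H40.BR.D.Q8_csEu2_1

set_option autoImplicit false
set_option maxRecDepth 1000000
set_option exponentiation.threshold 1000000000

namespace Pool.Agent.T2H40.BR.Q8

theorem chk_csEu2 : Chk (csEuopts p c2) (csEuBox p) :=
  (Chk.n2 (opts := csEuopts p c2) 1800 csEu2_P0 (Chk.n2 (opts := csEuopts p c2) 2400 (Chk.n2 
  (opts := csEuopts p c2) 2100 csEu2_P1 (Chk.n2 (opts := csEuopts p c2) 2250 csEu2_P2 (Chk.n2 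
  (opts := csEuopts p c2) 2325 csEu2_P3 csEu2_P4))) csEu2_P5))

end Pool.Agent.T2H40.BR.Q8
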