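import Pool.Agent.T2H40.BR.D.Q8

set_option autoImplicit false
set_option maxRecDepth 1000000
set_option exponentiation.threshold 1000000000

namespace Pool.Agent.T2H40.BR.Q8

theorem chk_ssE10 : Chk (ssEopts p c1 c0) (ssEBox p) :=
  chk_of_checkP [⟨57, 3, 3, 3⟩, ⟨1, 1, 1, 1⟩, ⟨1, 1, 1, 1⟩, ⟨1, 1, 1, 1⟩, ⟨646, 27, 19, 19⟩, ⟨1, 1, 1, 1⟩, ⟨1, 1, 1, 1⟩, ⟨1, 1, 1, 1⟩, ⟨1, 1, 1, 1⟩, ⟨39, 2, 2, 2⟩, ⟨1, 1, 1, 1⟩, ⟨1, 1, 1, 1⟩] (ssEopts p c1 c0)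
  (.n1 900 (.n0 1725 (.n2 900 (.n1 450 (.n2 450 (.n1 225 (.n2 225 (.n1 113 (.n2 113 (.n1 57 (.n2 57 
  (.n1 29 (.leaf 9) (.leaf 4)) (.leaf 4)) (.leaf 4)) (.leaf 4)) (.leaf 4)) (.leaf 4)) (.leaf 4)) 
  (.leaf 4)) (.leaf 0)) (.leaf 4)) (.leaf 4)) (.leaf 0))
  _ (by decide +kernel)

theorem chk_csEs0 : Chk (csEsopts p c0) (csEsBox p) :=
  chk_of_checkP [⟨381, 4, 16, 11⟩, ⟨609, 7, 26, 17⟩] (csEsopts p c0)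
  (.n2 3000 (.leaf 0) (.n2 4500 (.n2 3750 (.n2 3375 (.n2 3188 (.n1 150 (.n1 75 (.n2 3094 (.n1 38 
  (.n1 19 (.leaf 1) (.n2 3047 (.n2 3024 (.leaf 0) (.leaf 1)) (.leaf 1))) (.n2 3047 (.leaf 0) 
  (.n1 57 (.leaf 1) (.n2 3071 (.leaf 0) (.leaf 1))))) (.leaf 1)) (.n2 3094 (.leaf 0) (.n1 113 
  (.n1 94 (.leaf 1) (.n2 3141 (.leaf 0) (.leaf 1))) (.n0 1725 (.leaf 0) (.n1 132 (.n2 3141 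
  (.leaf 0) (.leaf 1)) (.leaf 0)))))) (.leaf 0)) (.n1 150 (.leaf 1) (.n2 3282 (.n2 3235 (.leaf 0) 
  (.n1 225 (.leaf 1) (.leaf 0))) (.leaf 1)))) (.leaf 1)) (.leaf 1)) (.leaf 1)))
  _ (by decide +kernel)

theorem chk_ssE20 : Chk (ssEopts p c2 c0) (ssEBox p) :=
  chk_of_checkP [⟨57, 3, 3, 3⟩, ⟨1, 1, 1, 1⟩, ⟨1, 1, 1, 1⟩, ⟨1, 1, 1, 1⟩, ⟨493, 21, 13, 13⟩, ⟨1, 1, 1, 1⟩, ⟨40, 2, 2, 2⟩, ⟨1, 1, 1, 1⟩, ⟨1, 1, 1, 1⟩, ⟨1, 1, 1, 1⟩, ⟨1, 1, 1, 1⟩, ⟨1, 1, 1, 1⟩] (ssEopts p c2 c0)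
  (.n2 900 (.n0 1725 (.leaf 6) (.n1 900 (.n0 1762 (.leaf 6) (.n1 450 (.n2 450 (.leaf 6) (.n0 1781 
  (.leaf 6) (.n1 225 (.n2 675 (.leaf 6) (.n0 1791 (.leaf 6) (.n1 113 (.n2 788 (.leaf 6) (.n2 844 
  (.leaf 6) (.leaf 4))) (.leaf 4)))) (.leaf 6)))) (.leaf 6))) (.leaf 0))) (.leaf 4))
  _ (by decide +kernel)

theorem chk_ssN20 : Chk (ssNopts p c2 c0) (ssNBox p c2 c0) :=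
  chk_of_checkP [⟨278, 9, 8, 8⟩, ⟨143, 5, 5, 5⟩, ⟨40, 2, 2, 2⟩, ⟨1, 1, 1, 1⟩] (ssNopts p c2 c0)
  (.n2 390 (.n1 1575 (.n1 1463 (.n1 1407 (.n0 1725 (.n0 1688 (.n2 195 (.leaf 0) (.n0 1669 (.n2 293 
  (.leaf 0) (.n1 1379 (.leaf 0) (.leaf 1))) (.leaf 0))) (.leaf 0)) (.leaf 0)) (.n0 1725 (.n0 1688 
  (.n2 195 (.n1 1435 (.n2 98 (.leaf 0) (.leaf 1)) (.leaf 1)) (.leaf 1)) (.leaf 1)) (.leaf 1))) 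
  (.leaf 1)) (.n1 1688 (.n0 1725 (.n2 195 (.n0 1688 (.leaf 0) (.n1 1632 (.leaf 1) (.leaf 0))) 
  (.leaf 2)) (.n0 1762 (.n1 1632 (.leaf 1) (.n2 195 (.leaf 0) (.leaf 2))) (.leaf 1))) (.leaf 0))) 
  (.n0 1725 (.leaf 2) (.n1 1575 (.n1 1463 (.n2 585 (.n2 488 (.n1 1407 (.n1 1379 (.leaf 0) 
  (.leaf 1)) (.leaf 1)) (.leaf 2)) (.leaf 2)) (.leaf 2)) (.leaf 2))))
  _ (by decide +kernel)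

theorem chk_csN1 : Chk (csNopts p c1) (csNBox p c1) :=
  chk_of_checkP [⟨358, 7, 13, 11⟩, ⟨1, 1, 1, 1⟩, ⟨1, 1, 1, 1⟩, ⟨1, 1, 1, 1⟩, ⟨1, 1, 1, 1⟩] (csNopts p c1)
  (.leaf 0)
  _ (by decide +kernel)

theorem chk_csN0 : Chk (csNopts p c0) (csNBox p c0) :=
  chk_of_checkP [⟨310, 7, 13, 8⟩, ⟨1, 1, 1, 1⟩, ⟨1, 1, 1, 1⟩, ⟨1, 1, 1, 1⟩, ⟨1, 1, 1, 1⟩] (csNopts p c0)
  (.leaf 0)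
  _ (by decide +kernel)

theorem chk_ssN00 : Chk (ssNopts p c0 c0) (ssNBox p c0 c0) :=
  chk_of_checkP [⟨270, 9, 8, 8⟩, ⟨1, 1, 1, 1⟩, ⟨1, 1, 1, 1⟩, ⟨1, 1, 1, 1⟩] (ssNopts p c0 c0)
  (.leaf 0)
  _ (by decide +kernel)

theorem chk_ssE21 : Chk (ssEopts p c2 c1) (ssEBox p) :=
  chk_of_checkP [⟨1, 1, 1, 1⟩, ⟨1, 1, 1, 1⟩, ⟨1, 1, 1, 1⟩, ⟨1, 1, 1, 1⟩, ⟨1, 1, 1, 1⟩, ⟨1, 1, 1, 1⟩, ⟨40, 2, 2, 2⟩, ⟨1, 1, 1, 1⟩, ⟨39, 2, 2, 2⟩, ⟨1, 1, 1, 1⟩, ⟨1, 1, 1, 1⟩, ⟨1, 1, 1, 1⟩] (ssEopts p c2 c1)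
  (.n2 900 (.n2 450 (.leaf 6) (.leaf 8)) (.leaf 8))
  _ (by decide +kernel)

theorem chk_vC : Chk (vCopts p) (vCBox p) :=
  chk_of_checkP [⟨68, 2, 4, 1⟩] (vCopts p)
  (.leaf 0)
  _ (by decide +kernel)

theorem chk_vS1 : Chk (vSopts p c1) (vSBox p c1) :=
  chk_of_checkP [⟨68, 2, 4, 1⟩] (vSopts p c1)
  (.leaf 0)
  _ (by decide +kernel)

theorem chk_vS2 : Chk (vSopts p c2) (vSBox p c2) :=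
  chk_of_checkP [⟨58, 2, 3, 1⟩] (vSopts p c2)
  (.leaf 0)
  _ (by decide +kernel)

theorem chk_vS0 : Chk (vSopts p c0) (vSBox p c0) :=
  chk_of_checkP [⟨55, 2, 3, 1⟩] (vSopts p c0)
  (.leaf 0)
  _ (by decide +kernel)

theorem chk_ssN21 : Chk (ssNopts p c2 c1) (ssNBox p c2 c1) :=
  chk_of_checkP [⟨1, 1, 1, 1⟩, ⟨1, 1, 1, 1⟩, ⟨40, 2, 2, 2⟩, ⟨1, 1, 1, 1⟩] (ssNopts p c2 c1)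
  (.leaf 2)
  _ (by decide +kernel)

theorem chk_ssN22 : Chk (ssNopts p c2 c2) (ssNBox p c2 c2) :=
  chk_of_checkP [⟨1, 1, 1, 1⟩, ⟨1, 1, 1, 1⟩, ⟨40, 2, 2, 2⟩, ⟨1, 1, 1, 1⟩] (ssNopts p c2 c2)
  (.leaf 2)
  _ (by decide +kernel)

theorem chk_ssE22 : Chk (ssEopts p c2 c2) (ssEBox p) :=
  chk_of_checkP [⟨1, 1, 1, 1⟩, ⟨1, 1, 1, 1⟩, ⟨1, 1, 1, 1⟩, ⟨1, 1, 1, 1⟩, ⟨1, 1, 1, 1⟩, ⟨1, 1, 1, 1⟩, ⟨1, 1, 1, 1⟩, ⟨1, 1, 1, 1⟩, ⟨40, 2, 2, 2⟩, ⟨1, 1, 1, 1⟩, ⟨1, 1, 1, 1⟩, ⟨1, 1, 1, 1⟩] (ssEopts p c2 c2)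
  (.leaf 8)
  _ (by decide +kernel)


end Pool.Agent.T2H40.BR.Q8
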