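import Pool.Agent.T2H40.BR.D.Q8

set_option autoImplicit false
set_option maxRecDepth 1000000
set_option exponentiation.threshold 1000000000

namespace Pool.Agent.T2H40.BR.Q8

theorem chk_csE1 : Chk (csEopts p c1) (csEBox p c1) :=
  chk_of_checkP [⟨632, 25, 19, 23⟩, ⟨420, 14, 11, 17⟩, ⟨632, 25, 19, 23⟩, ⟨1, 1, 1, 1⟩, ⟨1, 1, 1, 1⟩, ⟨1, 1, 1, 1⟩, ⟨1, 1, 1, 1⟩, ⟨1, 1, 1, 1⟩, ⟨41, 2, 2, 3⟩, ⟨42, 2, 2, 3⟩, ⟨1, 1, 1, 1⟩] (csEopts p c1)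
  (.n2 1500 (.leaf 8) (.n2 2250 (.n1 750 (.n1 375 (.leaf 1) (.n1 563 (.n2 1875 (.leaf 8) (.leaf 0)) 
  (.leaf 0))) (.leaf 0)) (.n1 750 (.n1 375 (.n1 188 (.leaf 1) (.leaf 2)) (.leaf 0)) (.n2 2625 
  (.n1 1125 (.leaf 0) (.n2 2438 (.leaf 0) (.leaf 9))) (.leaf 9)))))
  _ (by decide +kernel)

theorem chk_ccE : Chk (ccEopts p) (ccBox p) :=
  chk_of_checkP [⟨707, 5, 22, 23⟩, ⟨1, 1, 1, 1⟩, ⟨707, 5, 22, 23⟩, ⟨38, 2, 2, 1⟩] (ccEopts p)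
  (.n1 900 (.leaf 2) (.n1 1350 (.leaf 2) (.n1 1575 (.leaf 2) (.n1 1688 (.n0 1725 (.n0 1688 
  (.n0 1669 (.n1 1632 (.leaf 2) (.n1 1660 (.leaf 2) (.n1 1674 (.n0 1660 (.n0 1655 (.leaf 3) 
  (.leaf 0)) (.leaf 0)) (.leaf 3)))) (.leaf 2)) (.leaf 2)) (.leaf 2)) (.n0 1725 (.n1 1744 
  (.n0 1688 (.n0 1669 (.leaf 3) (.n0 1679 (.leaf 3) (.n0 1683 (.leaf 3) (.n0 1686 (.leaf 3) 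
  (.n1 1716 (.n1 1702 (.leaf 0) (.leaf 3)) (.leaf 3)))))) (.n1 1716 (.n2 750 (.leaf 0) (.n2 1125 
  (.leaf 0) (.n0 1707 (.n0 1698 (.n1 1702 (.leaf 0) (.leaf 3)) (.leaf 0)) (.leaf 2)))) (.n0 1707 
  (.leaf 3) (.n1 1730 (.leaf 0) (.leaf 3))))) (.leaf 3)) (.n1 1744 (.leaf 2) (.n0 1762 (.n0 1743 
  (.leaf 3) (.n1 1772 (.n2 750 (.leaf 0) (.n2 1125 (.leaf 0) (.n0 1753 (.n1 1758 (.leaf 2) 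
  (.leaf 3)) (.leaf 2)))) (.leaf 3))) (.n0 1781 (.n1 1772 (.leaf 2) (.n1 1786 (.leaf 2) 
  (.leaf 3))) (.leaf 2)))))))))
  _ (by decide +kernel)

theorem chk_csEu1 : Chk (csEuopts p c1) (csEuBox p) :=
  chk_of_checkP [⟨594, 7, 19, 23⟩, ⟨1, 1, 1, 1⟩, ⟨1, 1, 1, 1⟩, ⟨1, 1, 1, 1⟩, ⟨1, 1, 1, 1⟩, ⟨1, 1, 1, 1⟩, ⟨1, 1, 1, 1⟩, ⟨40, 1, 2, 3⟩, ⟨40, 1, 2, 3⟩] (csEuopts p c1)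
  (.n2 1800 (.n2 1200 (.leaf 7) (.leaf 0)) (.n2 2400 (.leaf 0) (.leaf 8)))
  _ (by decide +kernel)

theorem chk_csEt0 : Chk (csEtopts p c0) (csEtBox p) :=
  chk_of_checkP [⟨447, 7, 28, 17⟩, ⟨1, 1, 1, 1⟩, ⟨1, 1, 1, 1⟩, ⟨1, 1, 1, 1⟩, ⟨1, 1, 1, 1⟩, ⟨1, 1, 1, 1⟩, ⟨1, 1, 1, 1⟩, ⟨1, 1, 1, 1⟩, ⟨1, 1, 1, 1⟩, ⟨1, 1, 1, 1⟩] (csEtopts p c0)
  (.leaf 0)
  _ (by decide +kernel)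

theorem chk_ssN11 : Chk (ssNopts p c1 c1) (ssNBox p c1 c1) :=
  chk_of_checkP [⟨365, 9, 11, 11⟩, ⟨1, 1, 1, 1⟩, ⟨40, 2, 2, 2⟩, ⟨38, 1, 2, 2⟩] (ssNopts p c1 c1)
  (.n1 1065 (.n2 1065 (.n1 923 (.n2 923 (.leaf 0) (.n1 852 (.leaf 3) (.n1 887 (.leaf 3) (.leaf 2))))
   (.n2 923 (.n2 852 (.n0 1725 (.n0 1688 (.leaf 2) (.leaf 0)) (.leaf 0)) (.n1 994 (.n0 1725 
  (.leaf 2) (.leaf 0)) (.leaf 2))) (.leaf 2))) (.leaf 2)) (.leaf 2))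
  _ (by decide +kernel)

theorem chk_ssN10 : Chk (ssNopts p c1 c0) (ssNBox p c1 c0) :=
  chk_of_checkP [⟨317, 9, 11, 8⟩, ⟨1, 1, 1, 1⟩, ⟨40, 2, 2, 2⟩, ⟨1, 1, 1, 1⟩] (ssNopts p c1 c0)
  (.n0 1725 (.n1 1065 (.leaf 0) (.n2 390 (.leaf 0) (.n2 585 (.leaf 0) (.n1 1208 (.leaf 0) 
  (.leaf 2))))) (.leaf 0))
  _ (by decide +kernel)


end Pool.Agent.T2H40.BR.Q8
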