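import Pool.Agent.T2H40.BR.D.Q8

set_option autoImplicit false
set_option maxRecDepth 1000000
set_option exponentiation.threshold 1000000000

namespace Pool.Agent.T2H40.BR.Q8

theorem chk_csE0 : Chk (csEopts p c0) (csEBox p c0) :=
  chk_of_checkP [⟨459, 7, 15, 17⟩, ⟨296, 4, 10, 11⟩, ⟨459, 7, 15, 17⟩, ⟨459, 7, 15, 17⟩, ⟨459, 7, 15, 17⟩, ⟨1, 1, 1, 1⟩, ⟨1, 1, 1, 1⟩, ⟨1, 1, 1, 1⟩, ⟨1, 1, 1, 1⟩, ⟨40, 1, 2, 3⟩, ⟨1, 1, 1, 1⟩] (csEopts p c0)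
  (.n2 1500 (.n1 1050 (.n2 750 (.n1 675 (.n2 375 (.n1 488 (.n1 394 (.n2 188 (.leaf 4) (.n1 347 
  (.n2 282 (.leaf 3) (.n1 324 (.leaf 2) (.leaf 1))) (.leaf 3))) (.leaf 4)) (.leaf 4)) (.n2 563 
  (.n1 488 (.n1 394 (.n2 469 (.n1 347 (.n1 324 (.leaf 0) (.n2 422 (.leaf 2) (.leaf 0))) (.n2 422 
  (.leaf 2) (.n1 371 (.leaf 0) (.leaf 2)))) (.leaf 0)) (.n2 469 (.leaf 2) (.n2 516 (.leaf 2) 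
  (.leaf 0)))) (.leaf 2)) (.n1 488 (.leaf 0) (.n1 582 (.leaf 0) (.leaf 2))))) (.leaf 3)) 
  (.leaf 0)) (.n1 1425 (.leaf 2) (.leaf 4))) (.n2 2250 (.n1 1050 (.n2 1875 (.n0 1725 (.n0 1688 
  (.n2 1688 (.leaf 0) (.n2 1782 (.leaf 0) (.n1 675 (.leaf 9) (.n0 1669 (.n1 862 (.n1 769 (.leaf 9)
   (.leaf 0)) (.leaf 0)) (.leaf 0))))) (.leaf 0)) (.leaf 0)) (.n1 675 (.leaf 9) (.n1 862 (.leaf 9)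
   (.n1 956 (.leaf 9) (.n0 1725 (.n2 2063 (.n1 1003 (.leaf 9) (.leaf 0)) (.leaf 9)) (.leaf 0))))))
   (.n1 1425 (.n2 1875 (.n1 1238 (.leaf 0) (.leaf 2)) (.n2 2063 (.n1 1238 (.leaf 0) (.n0 1725 
  (.leaf 2) (.leaf 0))) (.n1 1238 (.leaf 9) (.n1 1332 (.leaf 9) (.leaf 2))))) (.leaf 1))) 
  (.n1 1050 (.leaf 9) (.n1 1425 (.leaf 9) (.n2 2625 (.n2 2438 (.n1 1613 (.leaf 1) (.n1 1707 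
  (.n2 2344 (.leaf 1) (.leaf 9)) (.leaf 1))) (.leaf 9)) (.leaf 9))))))
  _ (by decide +kernel)

theorem chk_ssE11 : Chk (ssEopts p c1 c1) (ssEBox p) :=
  chk_of_checkP [⟨57, 3, 3, 3⟩, ⟨1, 1, 1, 1⟩, ⟨1, 1, 1, 1⟩, ⟨1, 1, 1, 1⟩, ⟨696, 29, 21, 21⟩, ⟨1, 1, 1, 1⟩, ⟨1, 1, 1, 1⟩, ⟨1, 1, 1, 1⟩, ⟨39, 2, 2, 2⟩, ⟨1, 1, 1, 1⟩, ⟨1, 1, 1, 1⟩, ⟨1, 1, 1, 1⟩] (ssEopts p c1 c1)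
  (.n1 900 (.n2 900 (.n1 450 (.leaf 4) (.leaf 0)) (.leaf 8)) (.leaf 0))
  _ (by decide +kernel)

theorem chk_ssE00 : Chk (ssEopts p c0 c0) (ssEBox p) :=
  chk_of_checkP [⟨1, 1, 1, 1⟩, ⟨1, 1, 1, 1⟩, ⟨1, 1, 1, 1⟩, ⟨1, 1, 1, 1⟩, ⟨491, 21, 13, 13⟩, ⟨1, 1, 1, 1⟩, ⟨1, 1, 1, 1⟩, ⟨39, 2, 2, 2⟩, ⟨1, 1, 1, 1⟩, ⟨1, 1, 1, 1⟩, ⟨1, 1, 1, 1⟩, ⟨1, 1, 1, 1⟩] (ssEopts p c0 c0)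
  (.n1 900 (.n2 900 (.n1 450 (.n2 450 (.n1 225 (.n1 113 (.n1 57 (.leaf 7) (.leaf 4)) (.leaf 4)) 
  (.leaf 4)) (.leaf 7)) (.leaf 4)) (.leaf 7)) (.leaf 4))
  _ (by decide +kernel)

theorem chk_ccN : Chk (ccNopts p) (ccBox p) :=
  chk_of_checkP [⟨559, 5, 18, 19⟩, ⟨1, 1, 1, 1⟩] (ccNopts p)
  (.leaf 0)
  _ (by decide +kernel)

theorem chk_csN2 : Chk (csNopts p c2) (csNBox p c2) :=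
  chk_of_checkP [⟨317, 7, 13, 8⟩, ⟨1, 1, 1, 1⟩, ⟨1, 1, 1, 1⟩, ⟨39, 1, 2, 2⟩, ⟨1, 1, 1, 1⟩] (csNopts p c2)
  (.n1 900 (.leaf 0) (.n1 1350 (.leaf 0) (.n1 1575 (.leaf 0) (.n1 1688 (.leaf 0) (.leaf 3)))))
  _ (by decide +kernel)

theorem chk_csEu0 : Chk (csEuopts p c0) (csEuBox p) :=
  chk_of_checkP [⟨448, 7, 15, 17⟩, ⟨1, 1, 1, 1⟩, ⟨1, 1, 1, 1⟩, ⟨1, 1, 1, 1⟩, ⟨1, 1, 1, 1⟩, ⟨1, 1, 1, 1⟩, ⟨1, 1, 1, 1⟩, ⟨1, 1, 1, 1⟩, ⟨40, 1, 2, 3⟩] (csEuopts p c0)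
  (.n2 1800 (.leaf 0) (.leaf 8))
  _ (by decide +kernel)


end Pool.Agent.T2H40.BR.Q8
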