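import Pool.Agent.T2H40.BR.D.Q9

set_option autoImplicit false
set_option maxRecDepth 1000000
set_option exponentiation.threshold 1000000000

namespace Pool.Agent.T2H40.BR.Q9

theorem csE0_P25 : Chk (csEopts p c0) {({({({({({({({({({({(csEBox p c0) with l1 := 675}) with h2 := 1500}) with h2 := 750}) with l2 := 375}) with l1 := 1013}) with h2 := 563}) with h1 := 1182}) with l1 := 1098}) with l0 := 1575}) with l2 := 469}) with h1 := 1140} :=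
  chk_of_checkP [⟨585, 23, 17, 23⟩, ⟨375, 13, 10, 15⟩, ⟨585, 23, 17, 23⟩, ⟨585, 23, 17, 23⟩, ⟨585, 23, 17, 23⟩, ⟨375, 13, 10, 15⟩, ⟨1, 1, 1, 1⟩, ⟨38, 2, 2, 1⟩, ⟨1, 1, 1, 1⟩, ⟨1, 1, 1, 1⟩, ⟨1, 1, 1, 1⟩] (csEopts p c0)
  (.n0 1613 (.n0 1594 (.n2 516 (.leaf 2) (.n1 1119 (.leaf 2) (.n2 540 (.leaf 2) (.n0 1585 (.leaf 0) 
  (.n0 1590 (.leaf 0) (.leaf 2)))))) (.leaf 2)) (.leaf 2))
  _ (by decide +kernel)

theorem csE0_P26 : Chk (csEopts p c0) {({({({({({({({({({({({({(csEBox p c0) with l1 := 675}) with h2 := 1500}) with h2 := 750}) with l2 := 375}) with l1 := 1013}) with h2 := 563}) with h1 := 1182}) with l1 := 1098}) with l0 := 1575}) with l2 := 469}) with l1 := 1140}) with h0 := 1613}) with h2 := 516} :=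
  chk_of_checkP [⟨585, 23, 17, 23⟩, ⟨375, 13, 10, 15⟩, ⟨585, 23, 17, 23⟩, ⟨585, 23, 17, 23⟩, ⟨585, 23, 17, 23⟩, ⟨375, 13, 10, 15⟩, ⟨1, 1, 1, 1⟩, ⟨38, 2, 2, 1⟩, ⟨1, 1, 1, 1⟩, ⟨1, 1, 1, 1⟩, ⟨1, 1, 1, 1⟩] (csEopts p c0)
  (.n0 1594 (.n1 1161 (.leaf 2) (.n2 492 (.leaf 2) (.n0 1585 (.leaf 0) (.n1 1172 (.leaf 2) 
  (.leaf 0))))) (.leaf 2))
  _ (by decide +kernel)


end Pool.Agent.T2H40.BR.Q9
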