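import Pool.Agent.T2H40.BR.D.Q9

set_option autoImplicit false
set_option maxRecDepth 1000000
set_option exponentiation.threshold 1000000000

namespace Pool.Agent.T2H40.BR.Q9

theorem csE0_P31 : Chk (csEopts p c0) {({({({({({({({({({({({({(csEBox p c0) with l1 := 675}) with h2 := 1500}) with h2 := 750}) with l2 := 375}) with l1 := 1013}) with h2 := 563}) with l1 := 1182}) with h0 := 1575}) with h1 := 1266}) with h2 := 469}) with l0 := 1537}) with h2 := 422}) with l1 := 1224} :=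
  chk_of_checkP [⟨585, 23, 17, 23⟩, ⟨375, 13, 10, 15⟩, ⟨585, 23, 17, 23⟩, ⟨585, 23, 17, 23⟩, ⟨585, 23, 17, 23⟩, ⟨375, 13, 10, 15⟩, ⟨1, 1, 1, 1⟩, ⟨38, 2, 2, 1⟩, ⟨1, 1, 1, 1⟩, ⟨1, 1, 1, 1⟩, ⟨1, 1, 1, 1⟩] (csEopts p c0)
  (.n0 1556 (.leaf 0) (.n1 1245 (.n2 399 (.n0 1566 (.n0 1561 (.leaf 0) (.leaf 2)) (.leaf 2)) 
  (.leaf 0)) (.leaf 0)))
  _ (by decide +kernel)

theorem csE0_P32 : Chk (csEopts p c0) {({({({({({({({({({({({(csEBox p c0) with l1 := 675}) with h2 := 1500}) with h2 := 750}) with l2 := 375}) with l1 := 1013}) with h2 := 563}) with l1 := 1182}) with h0 := 1575}) with h1 := 1266}) with h2 := 469}) with l0 := 1537}) with l2 := 422} :=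
  chk_of_checkP [⟨585, 23, 17, 23⟩, ⟨375, 13, 10, 15⟩, ⟨585, 23, 17, 23⟩, ⟨585, 23, 17, 23⟩, ⟨585, 23, 17, 23⟩, ⟨375, 13, 10, 15⟩, ⟨1, 1, 1, 1⟩, ⟨38, 2, 2, 1⟩, ⟨1, 1, 1, 1⟩, ⟨1, 1, 1, 1⟩, ⟨1, 1, 1, 1⟩] (csEopts p c0)
  (.n0 1556 (.leaf 0) (.n1 1224 (.n1 1203 (.n2 446 (.n0 1566 (.n1 1193 (.leaf 2) (.leaf 0)) 
  (.leaf 2)) (.leaf 0)) (.leaf 0)) (.leaf 0)))
  _ (by decide +kernel)

theorem csE0_P33 : Chk (csEopts p c0) {({({({({({({({({({(csEBox p c0) with l1 := 675}) with h2 := 1500}) with h2 := 750}) with l2 := 375}) with l1 := 1013}) with h2 := 563}) with l1 := 1182}) with h0 := 1575}) with h1 := 1266}) with l2 := 469} :=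
  chk_of_checkP [⟨585, 23, 17, 23⟩, ⟨375, 13, 10, 15⟩, ⟨585, 23, 17, 23⟩, ⟨585, 23, 17, 23⟩, ⟨585, 23, 17, 23⟩, ⟨375, 13, 10, 15⟩, ⟨1, 1, 1, 1⟩, ⟨38, 2, 2, 1⟩, ⟨1, 1, 1, 1⟩, ⟨1, 1, 1, 1⟩, ⟨1, 1, 1, 1⟩] (csEopts p c0)
  (.leaf 0)
  _ (by decide +kernel)

theorem csE0_P34 : Chk (csEopts p c0) {({({({({({({({({(csEBox p c0) with l1 := 675}) with h2 := 1500}) with h2 := 750}) with l2 := 375}) with l1 := 1013}) with h2 := 563}) with l1 := 1182}) with h0 := 1575}) with l1 := 1266} :=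
  chk_of_checkP [⟨585, 23, 17, 23⟩, ⟨375, 13, 10, 15⟩, ⟨585, 23, 17, 23⟩, ⟨585, 23, 17, 23⟩, ⟨585, 23, 17, 23⟩, ⟨375, 13, 10, 15⟩, ⟨1, 1, 1, 1⟩, ⟨38, 2, 2, 1⟩, ⟨1, 1, 1, 1⟩, ⟨1, 1, 1, 1⟩, ⟨1, 1, 1, 1⟩] (csEopts p c0)
  (.leaf 0)
  _ (by decide +kernel)


end Pool.Agent.T2H40.BR.Q9
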