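import Pool.Agent.T2H40.BR.D.Q9

set_option autoImplicit false
set_option maxRecDepth 1000000
set_option exponentiation.threshold 1000000000

namespace Pool.Agent.T2H40.BR.Q9

theorem csE0_P35 : Chk (csEopts p c0) {({({({({({({({({({({(csEBox p c0) with l1 := 675}) with h2 := 1500}) with h2 := 750}) with l2 := 375}) with l1 := 1013}) with h2 := 563}) with l1 := 1182}) with l0 := 1575}) with h2 := 469}) with h1 := 1266}) with h1 := 1224} :=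
  chk_of_checkP [⟨585, 23, 17, 23⟩, ⟨375, 13, 10, 15⟩, ⟨585, 23, 17, 23⟩, ⟨585, 23, 17, 23⟩, ⟨585, 23, 17, 23⟩, ⟨375, 13, 10, 15⟩, ⟨1, 1, 1, 1⟩, ⟨38, 2, 2, 1⟩, ⟨1, 1, 1, 1⟩, ⟨1, 1, 1, 1⟩, ⟨1, 1, 1, 1⟩] (csEopts p c0)
  (.n0 1613 (.n2 422 (.leaf 2) (.n1 1203 (.n0 1594 (.n0 1585 (.n0 1580 (.n0 1578 (.n2 446 (.leaf 2) 
  (.leaf 0)) (.leaf 2)) (.leaf 2)) (.leaf 2)) (.leaf 2)) (.n0 1594 (.n2 446 (.n0 1585 (.n1 1214 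
  (.leaf 2) (.leaf 0)) (.leaf 2)) (.leaf 0)) (.n0 1604 (.n0 1599 (.n0 1597 (.n2 446 (.leaf 2) 
  (.n0 1596 (.leaf 0) (.leaf 2))) (.leaf 2)) (.leaf 2)) (.leaf 2))))) (.leaf 2))
  _ (by decide +kernel)


end Pool.Agent.T2H40.BR.Q9
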