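import Pool.Agent.T2H40.BR.D.Q9

set_option autoImplicit false
set_option maxRecDepth 1000000
set_option exponentiation.threshold 1000000000

namespace Pool.Agent.T2H40.BR.Q9

theorem csE0_P5 : Chk (csEopts p c0) {({({({({({(csEBox p c0) with l1 := 675}) with h2 := 1500}) with h2 := 750}) with h2 := 375}) with l1 := 1013}) with h1 := 1182} :=
  chk_of_checkP [⟨585, 23, 17, 23⟩, ⟨375, 13, 10, 15⟩, ⟨585, 23, 17, 23⟩, ⟨585, 23, 17, 23⟩, ⟨585, 23, 17, 23⟩, ⟨375, 13, 10, 15⟩, ⟨1, 1, 1, 1⟩, ⟨38, 2, 2, 1⟩, ⟨1, 1, 1, 1⟩, ⟨1, 1, 1, 1⟩, ⟨1, 1, 1, 1⟩] (csEopts p c0)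
  (.n0 1575 (.n0 1537 (.n0 1519 (.n0 1510 (.n1 1098 (.leaf 4) (.n2 188 (.leaf 4) (.n2 282 (.leaf 3) 
  (.leaf 2)))) (.leaf 1)) (.leaf 1)) (.leaf 1)) (.leaf 4))
  _ (by decide +kernel)

theorem csE0_P6 : Chk (csEopts p c0) {({({({({({({(csEBox p c0) with l1 := 675}) with h2 := 1500}) with h2 := 750}) with h2 := 375}) with l1 := 1013}) with l1 := 1182}) with h2 := 188} :=
  chk_of_checkP [⟨585, 23, 17, 23⟩, ⟨375, 13, 10, 15⟩, ⟨585, 23, 17, 23⟩, ⟨585, 23, 17, 23⟩, ⟨585, 23, 17, 23⟩, ⟨375, 13, 10, 15⟩, ⟨1, 1, 1, 1⟩, ⟨38, 2, 2, 1⟩, ⟨1, 1, 1, 1⟩, ⟨1, 1, 1, 1⟩, ⟨1, 1, 1, 1⟩] (csEopts p c0)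
  (.n0 1575 (.n0 1537 (.n1 1266 (.leaf 4) (.leaf 7)) (.leaf 4)) (.leaf 4))
  _ (by decide +kernel)

theorem csE0_P7 : Chk (csEopts p c0) {({({({({({({({({({(csEBox p c0) with l1 := 675}) with h2 := 1500}) with h2 := 750}) with h2 := 375}) with l1 := 1013}) with l1 := 1182}) with l2 := 188}) with h0 := 1575}) with h1 := 1266}) with h2 := 282} :=
  chk_of_checkP [⟨585, 23, 17, 23⟩, ⟨375, 13, 10, 15⟩, ⟨585, 23, 17, 23⟩, ⟨585, 23, 17, 23⟩, ⟨585, 23, 17, 23⟩, ⟨375, 13, 10, 15⟩, ⟨1, 1, 1, 1⟩, ⟨38, 2, 2, 1⟩, ⟨1, 1, 1, 1⟩, ⟨1, 1, 1, 1⟩, ⟨1, 1, 1, 1⟩] (csEopts p c0)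
  (.n0 1537 (.n0 1519 (.n1 1224 (.leaf 3) (.leaf 7)) (.leaf 1)) (.leaf 3))
  _ (by decide +kernel)


end Pool.Agent.T2H40.BR.Q9
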