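import Pool.Agent.T2H40.BR.D.Q9_csE0_0
import Pool.Agent.T2H40.BR.D.Q9_csE0_1
import Pool.Agent.T2H40.BR.D.Q9_csE0_2
import Pool.Agent.T2H40.BR.D.Q9_csE0_3
import Pool.Agent.T2H40.BR.D.Q9_csE0_4
import Pool.Agent.T2H40.BR.D.Q9_csE0_5
import Pool.Agent.T2H40.BR.D.Q9_csE0_6
import Pool.Agent.T2H40.BR.D.Q9_csE0_7
import Pool.Agent.T2H40.BR.D.Q9_csE0_8
import Pool.Agent.T2H40.BR.D.Q9_csE0_9
import Pool.Agent.T2H40.BR.D.Q9_csE0_10
import Pool.Agent.T2H40.BR.D.Q9_csE0_11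
import Pool.Agent.T2H40.BR.D.Q9_csE0_12
import Pool.Agent.T2H40.BR.D.Q9_csE0_13
import Pool.Agent.T2H40.BR.D.Q9_csE0_14
import Pool.Agent.T2H40.BR.D.Q9_csE0_15
import Pool.Agent.T2H40.BR.D.Q9_csE0_16
import Pool.Agent.T2H40.BR.D.Q9_csE0_17
import Pool.Agent.T2H40.BR.D.Q9_csE0_18
import Pool.Agent.T2H40.BR.D.Q9_csE0_19
import Pool.Agent.T2H40.BR.D.Q9_csE0_20
import Pool.Agent.T2H40.BR.D.Q9_csE0_21
import Pool.Agent.T2H40.BR.D.Q9_csE0_22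
import Pool.Agent.T2H40.BR.D.Q9_csE0_23
import Pool.Agent.T2H40.BR.D.Q9_csE0_24
import Pool.Agent.T2H40.BR.D.Q9_csE0_25
import Pool.Agent.T2H40.BR.D.Q9_csE0_26
import Pool.Agent.T2H40.BR.D.Q9_csE0_27
import Pool.Agent.T2H40.BR.D.Q9_csE0_28
import Pool.Agent.T2H40.BR.D.Q9_csE0_29
import Pool.Agent.T2H40.BR.D.Q9_csE0_30
import Pool.Agent.T2H40.BR.D.Q9_csE0_31
import Pool.Agent.T2H40.BR.D.Q9_csE0_32
import Pool.Agent.T2H40.BR.D.Q9_csE0_33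

set_option autoImplicit false
set_option maxRecDepth 1000000
set_option exponentiation.threshold 1000000000

namespace Pool.Agent.T2H40.BR.Q9

theorem chk_csE0 : Chk (csEopts p c0) (csEBox p c0) :=
  (Chk.n1 (opts := csEopts p c0) 675 (Chk.n1 (opts := csEopts p c0) 338 csE0_P0 (Chk.n2 
  (opts := csEopts p c0) 1500 csE0_P1 (Chk.n1 (opts := csEopts p c0) 507 csE0_P2 csE0_P3))) 
  (Chk.n2 (opts := csEopts p c0) 1500 (Chk.n2 (opts := csEopts p c0) 750 (Chk.n2 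
  (opts := csEopts p c0) 375 (Chk.n1 (opts := csEopts p c0) 1013 csE0_P4 (Chk.n1 
  (opts := csEopts p c0) 1182 csE0_P5 (Chk.n2 (opts := csEopts p c0) 188 csE0_P6 (Chk.n0 
  (opts := csEopts p c0) 1575 (Chk.n1 (opts := csEopts p c0) 1266 (Chk.n2 
  (opts := csEopts p c0) 282 csE0_P7 (Chk.n1 
  (opts := csEopts p c0) 1224 csE0_P8 csE0_P9)) csE0_P10) (Chk.n1 
  (opts := csEopts p c0) 1266 csE0_P11 csE0_P12))))) (Chk.n1 (opts := csEopts p c0) 1013 (Chk.n1 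
  (opts := csEopts p c0) 844 csE0_P13 (Chk.n2 (opts := csEopts p c0) 563 csE0_P14 csE0_P15)) 
  (Chk.n2 (opts := csEopts p c0) 563 (Chk.n1 (opts := csEopts p c0) 1182 (Chk.n1 
  (opts := csEopts p c0) 1098 (Chk.n0 (opts := csEopts p c0) 1575 (Chk.n2 
  (opts := csEopts p c0) 469 csE0_P16 (Chk.n1 
  (opts := csEopts p c0) 1056 csE0_P17 csE0_P18)) csE0_P19) (Chk.n0 (opts := csEopts p c0) 1575 
  (Chk.n2 (opts := csEopts p c0) 469 (Chk.n1 (opts := csEopts p c0) 1140 csE0_P20 csE0_P21) 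
  (Chk.n0 (opts := csEopts p c0) 1537 csE0_P22 csE0_P23)) (Chk.n2 
  (opts := csEopts p c0) 469 csE0_P24 (Chk.n1 (opts := csEopts p c0) 1140 csE0_P25 (Chk.n0 
  (opts := csEopts p c0) 1613 (Chk.n2 (opts := csEopts p c0) 516 csE0_P26 csE0_P27) csE0_P28))))) 
  (Chk.n0 (opts := csEopts p c0) 1575 (Chk.n1 (opts := csEopts p c0) 1266 (Chk.n2 
  (opts := csEopts p c0) 469 (Chk.n0 (opts := csEopts p c0) 1537 csE0_P29 (Chk.n2 
  (opts := csEopts p c0) 422 (Chk.n1 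
  (opts := csEopts p c0) 1224 csE0_P30 csE0_P31) csE0_P32)) csE0_P33) csE0_P34) (Chk.n2 
  (opts := csEopts p c0) 469 (Chk.n1 (opts := csEopts p c0) 1266 (Chk.n1 
  (opts := csEopts p c0) 1224 csE0_P35 (Chk.n0 (opts := csEopts p c0) 1613 csE0_P36 csE0_P37)) 
  (Chk.n1 (opts := csEopts p c0) 1308 csE0_P38 csE0_P39)) (Chk.n1 (opts := csEopts p c0) 1266 
  (Chk.n0 (opts := csEopts p c0) 1613 csE0_P40 (Chk.n2 (opts := csEopts p c0) 516 (Chk.n1 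
  (opts := csEopts p c0) 1224 (Chk.n2 (opts := csEopts p c0) 492 csE0_P41 csE0_P42) (Chk.n1 
  (opts := csEopts p c0) 1245 csE0_P43 csE0_P44)) (Chk.n1 (opts := csEopts p c0) 1224 (Chk.n0 
  (opts := csEopts p c0) 1632 csE0_P45 (Chk.n1 
  (opts := csEopts p c0) 1203 csE0_P46 csE0_P47)) csE0_P48))) csE0_P49)))) (Chk.n1 
  (opts := csEopts p c0) 1182 (Chk.n0 (opts := csEopts p c0) 1575 (Chk.n1 
  (opts := csEopts p c0) 1098 (Chk.n2 (opts := csEopts p c0) 657 (Chk.n0 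
  (opts := csEopts p c0) 1537 csE0_P50 csE0_P51) csE0_P52) csE0_P53) (Chk.n2 
  (opts := csEopts p c0) 657 (Chk.n1 (opts := csEopts p c0) 1098 csE0_P54 (Chk.n0 
  (opts := csEopts p c0) 1613 csE0_P55 (Chk.n1 (opts := csEopts p c0) 1140 csE0_P56 (Chk.n2 
  (opts := csEopts p c0) 610 csE0_P57 csE0_P58)))) (Chk.n1 
  (opts := csEopts p c0) 1098 csE0_P59 csE0_P60))) csE0_P61)))) (Chk.n2 
  (opts := csEopts p c0) 1125 (Chk.n0 (opts := csEopts p c0) 1575 csE0_P62 (Chk.n1 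
  (opts := csEopts p c0) 1013 csE0_P63 csE0_P64)) csE0_P65)) csE0_P66))

end Pool.Agent.T2H40.BR.Q9
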