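import Pool.Agent.T2H40.BR.D.Q9_csEs0_0

set_option autoImplicit false
set_option maxRecDepth 1000000
set_option exponentiation.threshold 1000000000

namespace Pool.Agent.T2H40.BR.Q9

theorem chk_csEs0 : Chk (csEsopts p c0) (csEsBox p) :=
  (Chk.n2 (opts := csEsopts p c0) 3000 csEs0_P0 (Chk.n2 (opts := csEsopts p c0) 4500 (Chk.n2 
  (opts := csEsopts p c0) 3750 (Chk.n2 (opts := csEsopts p c0) 3375 (Chk.n2 
  (opts := csEsopts p c0) 3188 csEs0_P1 csEs0_P2) csEs0_P3) csEs0_P4) csEs0_P5))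

end Pool.Agent.T2H40.BR.Q9
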