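import Pool.Agent.T2H40.BR.D.Q9

set_option autoImplicit false
set_option maxRecDepth 1000000
set_option exponentiation.threshold 1000000000

namespace Pool.Agent.T2H40.BR.Q9

theorem chk_ccE : Chk (ccEopts p) (ccBox p) :=
  chk_of_checkP [⟨704, 5, 22, 23⟩, ⟨1, 1, 1, 1⟩, ⟨704, 5, 22, 23⟩, ⟨38, 2, 2, 1⟩] (ccEopts p)
  (.n1 825 (.leaf 2) (.n1 1238 (.leaf 2) (.n1 1444 (.leaf 0) (.n1 1547 (.n0 1575 (.n0 1537 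
  (.n1 1496 (.leaf 0) (.n1 1522 (.n0 1519 (.n1 1509 (.leaf 0) (.n0 1510 (.n0 1505 (.leaf 3) 
  (.n1 1516 (.leaf 0) (.leaf 3))) (.n2 750 (.leaf 0) (.leaf 0)))) (.leaf 0)) (.n0 1519 (.leaf 3) 
  (.n1 1535 (.n0 1528 (.n1 1529 (.leaf 0) (.leaf 3)) (.leaf 0)) (.n0 1528 (.leaf 3) (.n1 1541 
  (.n2 750 (.leaf 0) (.leaf 0)) (.leaf 3))))))) (.leaf 0)) (.leaf 0)) (.n0 1575 (.n0 1537 
  (.leaf 3) (.n1 1599 (.n1 1573 (.n0 1556 (.n1 1560 (.n0 1547 (.n0 1542 (.leaf 3) (.n1 1554 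
  (.leaf 0) (.leaf 3))) (.n2 750 (.leaf 0) (.leaf 0))) (.leaf 3)) (.n2 750 (.n0 1566 (.n0 1561 
  (.n1 1560 (.leaf 0) (.n1 1567 (.leaf 0) (.leaf 3))) (.leaf 0)) (.leaf 0)) (.leaf 0))) (.n0 1556 
  (.leaf 3) (.n0 1566 (.leaf 3) (.n0 1571 (.leaf 3) (.n1 1586 (.n1 1580 (.leaf 0) (.leaf 3)) 
  (.leaf 3)))))) (.leaf 3))) (.n1 1599 (.n0 1613 (.n0 1594 (.n1 1573 (.leaf 0) (.n1 1586 (.leaf 0)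
   (.n0 1585 (.leaf 3) (.n2 750 (.n0 1590 (.n1 1592 (.leaf 0) (.leaf 3)) (.leaf 0)) (.leaf 0))))) 
  (.leaf 0)) (.leaf 0)) (.n0 1613 (.n0 1594 (.leaf 3) (.n1 1625 (.n1 1612 (.n2 750 (.n0 1604 
  (.n1 1606 (.leaf 0) (.leaf 3)) (.leaf 0)) (.leaf 0)) (.n0 1604 (.leaf 3) (.n2 750 (.n0 1609 
  (.leaf 3) (.n1 1619 (.leaf 0) (.leaf 3))) (.leaf 0)))) (.leaf 3))) (.n1 1625 (.leaf 0) 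
  (.n0 1632 (.n0 1622 (.leaf 3) (.n1 1638 (.n1 1632 (.leaf 0) (.n0 1627 (.leaf 3) (.leaf 0))) 
  (.leaf 3))) (.n2 750 (.n0 1641 (.n0 1637 (.n1 1638 (.leaf 0) (.leaf 3)) (.leaf 0)) (.leaf 0)) 
  (.leaf 0)))))))))))
  _ (by decide +kernel)

theorem chk_ssN00 : Chk (ssNopts p c0 c0) (ssNBox p c0 c0) :=
  chk_of_checkP [⟨321, 9, 11, 11⟩, ⟨164, 5, 7, 7⟩, ⟨40, 2, 2, 2⟩, ⟨38, 1, 2, 2⟩] (ssNopts p c0 c0)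
  (.n1 825 (.n2 825 (.n0 1575 (.n0 1537 (.n1 413 (.leaf 0) (.n2 413 (.leaf 0) (.n1 619 (.leaf 0) 
  (.n2 619 (.leaf 0) (.n1 722 (.leaf 0) (.n2 722 (.leaf 0) (.n1 774 (.leaf 0) (.n2 774 (.leaf 0) 
  (.leaf 2))))))))) (.leaf 0)) (.leaf 0)) (.n1 413 (.leaf 3) (.n2 1238 (.n2 1032 (.n1 619 
  (.leaf 3) (.n2 929 (.n1 722 (.leaf 3) (.n2 877 (.n0 1575 (.n1 774 (.leaf 3) (.leaf 2)) 
  (.leaf 0)) (.leaf 3))) (.leaf 3))) (.leaf 3)) (.leaf 3)))) (.n2 825 (.n1 1238 (.n2 413 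
  (.n0 1575 (.n1 1032 (.leaf 0) (.n2 207 (.leaf 0) (.n1 1135 (.leaf 0) (.n1 1187 (.n0 1537 
  (.n2 310 (.leaf 0) (.n0 1519 (.leaf 1) (.n0 1528 (.leaf 1) (.leaf 0)))) (.leaf 0)) (.n0 1537 
  (.leaf 1) (.n0 1556 (.leaf 1) (.leaf 0))))))) (.leaf 0)) (.n1 1032 (.n2 619 (.n0 1575 (.n0 1537 
  (.n1 929 (.leaf 0) (.n2 516 (.leaf 0) (.n1 980 (.leaf 0) (.n2 568 (.n0 1519 (.n1 1006 (.leaf 0) 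
  (.leaf 2)) (.leaf 0)) (.leaf 2))))) (.leaf 0)) (.leaf 0)) (.n1 929 (.n0 1575 (.n2 722 (.n0 1537 
  (.n1 877 (.leaf 0) (.n2 671 (.leaf 0) (.leaf 2))) (.leaf 0)) (.n0 1537 (.leaf 2) (.n1 877 
  (.n2 774 (.leaf 0) (.leaf 2)) (.leaf 2)))) (.n0 1613 (.n2 722 (.leaf 0) (.n1 877 (.leaf 0) 
  (.n2 774 (.leaf 0) (.leaf 2)))) (.leaf 0))) (.n2 722 (.n0 1575 (.n0 1537 (.leaf 2) (.n1 980 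
  (.n2 671 (.leaf 0) (.leaf 2)) (.leaf 2))) (.n0 1613 (.n2 671 (.leaf 0) (.n1 980 (.leaf 0) 
  (.leaf 2))) (.leaf 0))) (.leaf 2)))) (.n2 619 (.n1 1135 (.n0 1575 (.n2 516 (.n0 1537 (.n1 1084 
  (.n0 1519 (.n0 1510 (.n2 464 (.leaf 0) (.n1 1058 (.leaf 0) (.leaf 2))) (.leaf 0)) (.leaf 0)) 
  (.n2 464 (.n0 1519 (.leaf 1) (.leaf 0)) (.leaf 2))) (.leaf 0)) (.n0 1537 (.leaf 2) (.n1 1084 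
  (.n2 568 (.leaf 0) (.leaf 2)) (.leaf 2)))) (.n0 1613 (.n0 1594 (.n2 516 (.leaf 0) (.n1 1084 
  (.leaf 0) (.leaf 2))) (.leaf 0)) (.leaf 0))) (.n2 516 (.n0 1575 (.n0 1537 (.leaf 2) (.n0 1556 
  (.leaf 1) (.n0 1566 (.leaf 1) (.n1 1187 (.leaf 0) (.leaf 1))))) (.n0 1613 (.n1 1187 (.leaf 0) 
  (.n0 1594 (.leaf 1) (.leaf 0))) (.leaf 0))) (.leaf 2))) (.leaf 2)))) (.n2 413 (.n1 1444 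
  (.n0 1575 (.n0 1537 (.n2 207 (.leaf 1) (.n2 310 (.leaf 1) (.leaf 2))) (.leaf 1)) (.n0 1613 
  (.n0 1594 (.leaf 1) (.n1 1341 (.leaf 0) (.leaf 1))) (.leaf 0))) (.n2 207 (.leaf 1) (.leaf 2))) 
  (.leaf 2))) (.n0 1575 (.leaf 2) (.n0 1613 (.leaf 2) (.n1 1238 (.n2 1238 (.n1 1032 (.n2 1032 
  (.n0 1632 (.leaf 2) (.n1 929 (.n2 929 (.n0 1641 (.leaf 2) (.n1 877 (.n2 877 (.n1 851 (.leaf 0) 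
  (.leaf 2)) (.leaf 2)) (.leaf 2))) (.leaf 2)) (.leaf 2))) (.leaf 2)) (.leaf 2)) (.leaf 2)) 
  (.leaf 2))))))
  _ (by decide +kernel)

theorem chk_csEu0 : Chk (csEuopts p c0) (csEuBox p) :=
  chk_of_checkP [⟨555, 7, 17, 23⟩, ⟨1, 1, 1, 1⟩, ⟨1, 1, 1, 1⟩, ⟨1, 1, 1, 1⟩, ⟨1, 1, 1, 1⟩, ⟨1, 1, 1, 1⟩, ⟨1, 1, 1, 1⟩, ⟨1, 1, 1, 1⟩, ⟨40, 1, 2, 3⟩] (csEuopts p c0)
  (.n2 1800 (.leaf 0) (.n2 2400 (.n1 150 (.n1 75 (.n0 1575 (.leaf 0) (.n0 1613 (.leaf 0) (.n2 2100 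
  (.leaf 0) (.n2 2250 (.leaf 0) (.n2 2325 (.n1 38 (.leaf 8) (.leaf 0)) (.leaf 8)))))) (.leaf 0)) 
  (.leaf 0)) (.leaf 8)))
  _ (by decide +kernel)

theorem chk_csEt0 : Chk (csEtopts p c0) (csEtBox p) :=
  chk_of_checkP [⟨564, 7, 37, 23⟩, ⟨1, 1, 1, 1⟩, ⟨1, 1, 1, 1⟩, ⟨1, 1, 1, 1⟩, ⟨1, 1, 1, 1⟩, ⟨1, 1, 1, 1⟩, ⟨1, 1, 1, 1⟩, ⟨1, 1, 1, 1⟩, ⟨1, 1, 1, 1⟩, ⟨1, 1, 1, 1⟩] (csEtopts p c0)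
  (.leaf 0)
  _ (by decide +kernel)

theorem chk_vC : Chk (vCopts p) (vCBox p) :=
  chk_of_checkP [⟨67, 2, 4, 1⟩] (vCopts p)
  (.leaf 0)
  _ (by decide +kernel)

theorem chk_vS0 : Chk (vSopts p c0) (vSBox p c0) :=
  chk_of_checkP [⟨66, 2, 4, 1⟩] (vSopts p c0)
  (.leaf 0)
  _ (by decide +kernel)


end Pool.Agent.T2H40.BR.Q9
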