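import Pool.Agent.T2H40.BR.D.T0

set_option autoImplicit false
set_option maxRecDepth 1000000
set_option exponentiation.threshold 1000000000

namespace Pool.Agent.T2H40.BR.T0

theorem csE0_P1 : Chk (acsEuopts p c0) {({({({(acsEBox p) with h1 := 1650}) with h2 := 1500}) with h1 := 975}) with l2 := 750} :=
  chk_of_checkP [⟨742, 5, 23, 31⟩, ⟨480, 3, 13, 21⟩, ⟨742, 5, 23, 31⟩, ⟨742, 5, 23, 31⟩, ⟨742, 5, 23, 31⟩, ⟨480, 3, 13, 21⟩, ⟨1, 1, 1, 1⟩, ⟨1, 1, 1, 1⟩, ⟨40, 1, 2, 3⟩, ⟨1, 1, 1, 1⟩] (acsEuopts p c0)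
  (.n1 638 (.n2 1125 (.n1 469 (.leaf 0) (.n2 938 (.n2 844 (.n1 554 (.leaf 0) (.n1 596 (.leaf 0) 
  (.n2 797 (.leaf 2) (.leaf 0)))) (.leaf 0)) (.leaf 0))) (.leaf 0)) (.n2 1125 (.n1 807 (.n2 938 
  (.n2 844 (.leaf 2) (.n1 723 (.n1 681 (.leaf 0) (.leaf 2)) (.leaf 2))) (.n1 723 (.leaf 0) 
  (.n2 1032 (.n0 2550 (.n2 985 (.leaf 2) (.leaf 0)) (.leaf 2)) (.leaf 0)))) (.leaf 2)) (.n2 1313 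
  (.n1 807 (.leaf 0) (.n1 891 (.n0 2550 (.leaf 0) (.n0 2625 (.leaf 0) (.n0 2663 (.leaf 0) 
  (.n0 2682 (.leaf 0) (.n2 1219 (.n2 1172 (.leaf 2) (.leaf 0)) (.leaf 0)))))) (.n2 1219 (.leaf 2) 
  (.n2 1266 (.leaf 1) (.leaf 0))))) (.leaf 0))))
  _ (by decide +kernel)

theorem csE0_P2 : Chk (acsEuopts p c0) {({({(acsEBox p) with h1 := 1650}) with h2 := 1500}) with l1 := 975} :=
  chk_of_checkP [⟨742, 5, 23, 31⟩, ⟨480, 3, 13, 21⟩, ⟨742, 5, 23, 31⟩, ⟨742, 5, 23, 31⟩, ⟨742, 5, 23, 31⟩, ⟨480, 3, 13, 21⟩, ⟨1, 1, 1, 1⟩, ⟨1, 1, 1, 1⟩, ⟨40, 1, 2, 3⟩, ⟨1, 1, 1, 1⟩] (acsEuopts p c0)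
  (.n2 750 (.leaf 4) (.n1 1313 (.n2 1125 (.leaf 2) (.n1 1144 (.n2 1313 (.leaf 2) (.n0 2550 (.leaf 0)
   (.n1 1060 (.n2 1407 (.leaf 2) (.leaf 0)) (.leaf 2)))) (.leaf 2))) (.leaf 2)))
  _ (by decide +kernel)

theorem csE0_P3 : Chk (acsEuopts p c0) {({(acsEBox p) with h1 := 1650}) with l2 := 1500} :=
  chk_of_checkP [⟨742, 5, 23, 31⟩, ⟨480, 3, 13, 21⟩, ⟨742, 5, 23, 31⟩, ⟨742, 5, 23, 31⟩, ⟨742, 5, 23, 31⟩, ⟨480, 3, 13, 21⟩, ⟨1, 1, 1, 1⟩, ⟨1, 1, 1, 1⟩, ⟨40, 1, 2, 3⟩, ⟨1, 1, 1, 1⟩] (acsEuopts p c0)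
  (.n2 2250 (.n1 975 (.n2 1875 (.leaf 0) (.leaf 8)) (.n0 2550 (.leaf 0) (.n1 1313 (.n2 1875 
  (.n1 1144 (.leaf 0) (.n2 1688 (.leaf 2) (.leaf 0))) (.leaf 0)) (.n2 1875 (.leaf 2) (.n1 1482 
  (.n2 2063 (.leaf 2) (.leaf 0)) (.leaf 2)))))) (.leaf 8))
  _ (by decide +kernel)

theorem csE0_P4 : Chk (acsEuopts p c0) {(acsEBox p) with l1 := 1650} :=
  chk_of_checkP [⟨742, 5, 23, 31⟩, ⟨480, 3, 13, 21⟩, ⟨742, 5, 23, 31⟩, ⟨742, 5, 23, 31⟩, ⟨742, 5, 23, 31⟩, ⟨480, 3, 13, 21⟩, ⟨1, 1, 1, 1⟩, ⟨1, 1, 1, 1⟩, ⟨40, 1, 2, 3⟩, ⟨1, 1, 1, 1⟩] (acsEuopts p c0)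
  (.n1 2325 (.n1 1988 (.leaf 2) (.leaf 1)) (.leaf 5))
  _ (by decide +kernel)


end Pool.Agent.T2H40.BR.T0
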