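import Pool.Agent.T2H40.BR.D.T0_csE1_0

set_option autoImplicit false
set_option maxRecDepth 1000000
set_option exponentiation.threshold 1000000000

namespace Pool.Agent.T2H40.BR.T0

theorem chk_csE1 : Chk (acsEuopts p c1) (acsEBox p) :=
  (Chk.n2 (opts := acsEuopts p c1) 1500 csE1_P0 (Chk.n1 
  (opts := acsEuopts p c1) 1650 csE1_P1 csE1_P2))

end Pool.Agent.T2H40.BR.T0
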