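import Pool.Agent.T2H40.BR.D.T0

set_option autoImplicit false
set_option maxRecDepth 1000000
set_option exponentiation.threshold 1000000000

namespace Pool.Agent.T2H40.BR.T0

theorem chk_ccN : Chk (accNopts p) (accBox p) :=
  chk_of_checkP [⟨422, 5, 16, 16⟩, ⟨39, 1, 2, 2⟩, ⟨41, 2, 2, 2⟩] (accNopts p)
  (.n1 1500 (.n2 1500 (.n1 750 (.leaf 0) (.n2 750 (.leaf 0) (.n2 1125 (.n0 2550 (.n1 1125 (.leaf 0) 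
  (.n1 1313 (.leaf 0) (.n2 938 (.leaf 0) (.n2 1032 (.leaf 0) (.n1 1407 (.n0 2475 (.n2 1079 
  (.leaf 0) (.n1 1360 (.n0 2438 (.n0 2419 (.n0 2410 (.n1 1337 (.leaf 0) (.leaf 2)) (.leaf 0)) 
  (.leaf 0)) (.leaf 0)) (.n0 2438 (.leaf 2) (.n0 2457 (.n1 1383 (.leaf 0) (.leaf 2)) (.leaf 0)))))
   (.leaf 0)) (.n0 2475 (.n0 2438 (.leaf 2) (.n2 1079 (.n1 1454 (.leaf 0) (.leaf 2)) (.leaf 2))) 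
  (.n2 1079 (.leaf 0) (.n1 1454 (.n0 2512 (.n1 1431 (.leaf 0) (.n0 2494 (.leaf 2) (.leaf 0))) 
  (.leaf 0)) (.n0 2512 (.leaf 2) (.n2 1102 (.leaf 0) (.leaf 2))))))))))) (.leaf 0)) (.n1 1125 
  (.n2 1313 (.leaf 0) (.leaf 1)) (.n1 1313 (.n2 1313 (.n0 2550 (.n2 1219 (.n0 2475 (.n1 1219 
  (.leaf 0) (.n2 1172 (.n0 2438 (.n0 2419 (.n1 1266 (.leaf 0) (.n2 1149 (.leaf 0) (.n1 1289 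
  (.leaf 0) (.leaf 2)))) (.leaf 0)) (.leaf 0)) (.n1 1266 (.n0 2438 (.n1 1243 (.leaf 0) (.n2 1196 
  (.leaf 0) (.leaf 2))) (.leaf 0)) (.n0 2438 (.n0 2419 (.leaf 2) (.n0 2429 (.leaf 2) (.n0 2434 
  (.leaf 2) (.n1 1289 (.n2 1196 (.leaf 0) (.leaf 2)) (.leaf 2))))) (.n2 1196 (.n0 2457 (.n1 1289 
  (.leaf 0) (.leaf 2)) (.leaf 0)) (.n1 1289 (.n0 2457 (.leaf 2) (.leaf 0)) (.leaf 2))))))) 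
  (.leaf 0)) (.n1 1219 (.n0 2475 (.n1 1172 (.leaf 1) (.n2 1266 (.n2 1243 (.leaf 0) (.leaf 1)) 
  (.leaf 1))) (.leaf 0)) (.n0 2475 (.n1 1266 (.n2 1266 (.n0 2438 (.n0 2419 (.leaf 2) (.n0 2429 
  (.leaf 2) (.n0 2434 (.leaf 2) (.n1 1243 (.n2 1243 (.leaf 0) (.leaf 2)) (.leaf 2))))) (.n1 1243 
  (.n2 1243 (.leaf 0) (.n0 2457 (.leaf 2) (.leaf 0))) (.n2 1243 (.n0 2457 (.leaf 2) (.leaf 0)) 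
  (.leaf 2)))) (.leaf 2)) (.leaf 2)) (.n1 1266 (.n2 1266 (.leaf 0) (.n1 1243 (.leaf 1) (.n2 1289 
  (.n0 2512 (.n1 1255 (.leaf 1) (.leaf 2)) (.leaf 0)) (.leaf 1)))) (.n2 1266 (.n0 2512 (.n2 1243 
  (.n1 1289 (.leaf 0) (.n0 2494 (.leaf 2) (.n0 2503 (.leaf 2) (.leaf 0)))) (.n0 2494 (.leaf 2) 
  (.n0 2503 (.leaf 2) (.n1 1289 (.leaf 0) (.leaf 2))))) (.n0 2531 (.n1 1289 (.leaf 0) (.n2 1243 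
  (.leaf 0) (.leaf 2))) (.leaf 0))) (.n0 2512 (.leaf 2) (.n0 2531 (.leaf 2) (.n1 1289 (.n2 1289 
  (.leaf 0) (.leaf 2)) (.leaf 2))))))))) (.n0 2625 (.n0 2588 (.n1 1219 (.leaf 0) (.n2 1219 
  (.leaf 0) (.n1 1266 (.leaf 0) (.n2 1266 (.leaf 0) (.n1 1289 (.leaf 0) (.n2 1289 (.leaf 0) 
  (.n0 2569 (.leaf 2) (.n1 1301 (.leaf 0) (.leaf 2))))))))) (.leaf 0)) (.leaf 0))) (.n1 1219 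
  (.leaf 1) (.n2 1407 (.n1 1266 (.leaf 1) (.n0 2550 (.leaf 2) (.n2 1360 (.n0 2625 (.n1 1289 
  (.leaf 1) (.n0 2588 (.leaf 2) (.n2 1337 (.n2 1325 (.leaf 0) (.leaf 1)) (.leaf 1)))) (.leaf 0)) 
  (.leaf 1)))) (.leaf 1)))) (.n2 1313 (.n0 2550 (.n2 1219 (.n1 1407 (.n0 2475 (.n1 1360 (.n2 1172 
  (.n0 2438 (.n0 2419 (.leaf 2) (.n0 2429 (.leaf 2) (.n0 2434 (.leaf 2) (.n2 1149 (.leaf 0) 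
  (.leaf 2))))) (.n2 1149 (.leaf 0) (.n1 1337 (.n0 2457 (.leaf 2) (.leaf 0)) (.leaf 2)))) 
  (.leaf 2)) (.leaf 2)) (.n2 1172 (.n0 2512 (.n1 1360 (.leaf 0) (.n2 1149 (.n0 2494 (.n1 1383 
  (.leaf 0) (.leaf 2)) (.leaf 0)) (.n0 2494 (.leaf 2) (.n1 1383 (.leaf 0) (.leaf 2))))) (.leaf 0))
   (.n1 1360 (.n0 2512 (.n2 1196 (.n1 1337 (.leaf 0) (.n0 2494 (.leaf 2) (.leaf 0))) (.n0 2494 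
  (.leaf 2) (.n1 1337 (.n0 2503 (.leaf 2) (.leaf 0)) (.leaf 2)))) (.n0 2531 (.n0 2522 (.n1 1337 
  (.leaf 0) (.n2 1196 (.leaf 0) (.leaf 2))) (.leaf 0)) (.leaf 0))) (.n0 2512 (.leaf 2) (.n0 2531 
  (.leaf 2) (.n2 1196 (.n1 1383 (.leaf 0) (.leaf 2)) (.leaf 2))))))) (.n0 2475 (.leaf 2) 
  (.n0 2512 (.leaf 2) (.n0 2531 (.leaf 2) (.n2 1172 (.n1 1454 (.n1 1431 (.leaf 0) (.leaf 2)) 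
  (.leaf 2)) (.leaf 2)))))) (.n0 2475 (.leaf 2) (.n0 2512 (.leaf 2) (.n0 2531 (.leaf 2) (.n1 1407 
  (.n1 1360 (.n2 1266 (.n2 1243 (.n1 1337 (.leaf 0) (.leaf 2)) (.leaf 2)) (.leaf 2)) (.leaf 2)) 
  (.leaf 2)))))) (.n2 1219 (.n1 1407 (.n0 2625 (.n0 2588 (.n0 2569 (.n1 1360 (.leaf 0) (.n2 1172 
  (.leaf 0) (.n1 1383 (.leaf 0) (.n2 1196 (.leaf 0) (.leaf 2))))) (.leaf 0)) (.leaf 0)) (.leaf 0))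
   (.n0 2625 (.n2 1172 (.n1 1454 (.n0 2588 (.n0 2569 (.n0 2560 (.n0 2555 (.n1 1431 (.leaf 0) 
  (.leaf 2)) (.leaf 0)) (.leaf 0)) (.leaf 0)) (.leaf 0)) (.n0 2588 (.n0 2569 (.leaf 2) (.n2 1149 
  (.leaf 0) (.leaf 2))) (.n0 2607 (.n2 1149 (.leaf 0) (.n0 2598 (.leaf 2) (.leaf 0))) (.leaf 0))))
   (.n1 1454 (.n0 2588 (.n0 2569 (.leaf 2) (.n1 1431 (.n2 1196 (.leaf 0) (.leaf 2)) (.leaf 2))) 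
  (.n1 1431 (.leaf 0) (.n2 1196 (.leaf 0) (.leaf 2)))) (.leaf 2))) (.n0 2663 (.n2 1172 (.leaf 0) 
  (.n1 1454 (.leaf 0) (.n2 1196 (.n0 2644 (.n1 1477 (.leaf 0) (.leaf 2)) (.leaf 0)) (.n1 1477 
  (.n0 2644 (.leaf 2) (.leaf 0)) (.leaf 2))))) (.leaf 0)))) (.n1 1407 (.n0 2625 (.n2 1266 
  (.n1 1360 (.n0 2588 (.n1 1337 (.leaf 0) (.n2 1243 (.leaf 0) (.n0 2569 (.leaf 2) (.n0 2579 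
  (.leaf 2) (.leaf 0))))) (.leaf 0)) (.n0 2588 (.n0 2569 (.leaf 2) (.n1 1383 (.n2 1243 (.leaf 0) 
  (.leaf 2)) (.leaf 2))) (.n2 1243 (.n0 2607 (.n0 2598 (.n1 1383 (.leaf 0) (.leaf 2)) (.leaf 0)) 
  (.leaf 0)) (.n1 1383 (.n0 2607 (.n0 2598 (.leaf 2) (.leaf 0)) (.leaf 0)) (.leaf 2))))) 
  (.n1 1360 (.n0 2588 (.n0 2569 (.leaf 2) (.n1 1337 (.n2 1289 (.n1 1325 (.leaf 0) (.leaf 2)) 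
  (.leaf 2)) (.leaf 2))) (.n2 1289 (.n0 2607 (.n1 1337 (.leaf 0) (.n0 2598 (.leaf 2) (.leaf 0))) 
  (.leaf 0)) (.n1 1337 (.n0 2607 (.n0 2598 (.leaf 2) (.leaf 0)) (.leaf 0)) (.leaf 2)))) 
  (.leaf 2))) (.n1 1360 (.leaf 0) (.n2 1266 (.leaf 0) (.n0 2663 (.n2 1289 (.n1 1383 (.leaf 0) 
  (.n0 2644 (.leaf 2) (.leaf 0))) (.n0 2644 (.leaf 2) (.n1 1383 (.n0 2654 (.n2 1301 (.leaf 0) 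
  (.leaf 2)) (.leaf 0)) (.leaf 2)))) (.n0 2682 (.n0 2673 (.n1 1383 (.leaf 0) (.n2 1289 (.leaf 0) 
  (.n1 1395 (.leaf 0) (.leaf 2)))) (.leaf 0)) (.leaf 0)))))) (.n0 2625 (.leaf 2) (.n2 1266 
  (.n1 1454 (.n0 2663 (.n2 1243 (.n0 2644 (.n1 1431 (.leaf 0) (.leaf 2)) (.leaf 0)) (.n0 2644 
  (.leaf 2) (.n1 1431 (.leaf 0) (.leaf 2)))) (.n0 2682 (.n0 2673 (.n0 2668 (.n0 2666 (.n1 1431 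
  (.leaf 0) (.n2 1243 (.leaf 0) (.leaf 2))) (.leaf 0)) (.leaf 0)) (.leaf 0)) (.leaf 0))) 
  (.n0 2663 (.leaf 2) (.n2 1243 (.n1 1477 (.leaf 0) (.n0 2682 (.leaf 2) (.n0 2691 (.leaf 2) 
  (.leaf 0)))) (.n0 2682 (.leaf 2) (.n0 2691 (.leaf 2) (.n1 1477 (.leaf 0) (.leaf 2))))))) 
  (.n0 2663 (.leaf 2) (.n1 1454 (.n1 1431 (.n2 1289 (.n0 2682 (.n1 1419 (.leaf 0) (.leaf 2)) 
  (.leaf 0)) (.n0 2682 (.leaf 2) (.n1 1419 (.leaf 0) (.leaf 2)))) (.n0 2682 (.leaf 2) (.n0 2691 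
  (.leaf 2) (.n2 1289 (.leaf 0) (.leaf 2))))) (.leaf 2)))))))) (.n0 2550 (.leaf 2) (.n0 2625 
  (.leaf 2) (.n1 1407 (.n2 1407 (.n1 1360 (.n2 1360 (.n0 2663 (.n1 1337 (.n2 1337 (.leaf 0) 
  (.n0 2644 (.leaf 2) (.n2 1349 (.leaf 0) (.leaf 1)))) (.n0 2644 (.leaf 2) (.n2 1337 (.n2 1325 
  (.leaf 0) (.n0 2654 (.leaf 2) (.leaf 0))) (.leaf 2)))) (.n0 2682 (.n0 2673 (.n1 1337 (.leaf 0) 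
  (.n2 1337 (.leaf 0) (.leaf 2))) (.leaf 0)) (.leaf 0))) (.n0 2663 (.leaf 2) (.n1 1337 (.leaf 1) 
  (.n1 1349 (.leaf 1) (.leaf 2))))) (.n0 2663 (.leaf 2) (.n2 1360 (.n2 1337 (.n1 1383 (.n0 2682 
  (.n2 1325 (.leaf 0) (.leaf 2)) (.leaf 0)) (.n0 2682 (.leaf 2) (.n1 1395 (.leaf 0) (.leaf 2)))) 
  (.n0 2682 (.leaf 2) (.n0 2691 (.leaf 2) (.n0 2696 (.leaf 2) (.n1 1383 (.leaf 0) (.leaf 2)))))) 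
  (.leaf 2)))) (.leaf 2)) (.leaf 2)))))))))) (.n1 750 (.leaf 1) (.n2 2250 (.n1 1125 (.leaf 1) 
  (.n1 1313 (.leaf 1) (.leaf 2))) (.leaf 1)))) (.n2 1500 (.n2 750 (.n1 2250 (.leaf 0) (.leaf 0)) 
  (.n1 2250 (.n1 1875 (.n2 1125 (.n2 938 (.n0 2550 (.n1 1688 (.leaf 0) (.n2 844 (.leaf 0) 
  (.n2 891 (.leaf 0) (.leaf 2)))) (.leaf 0)) (.n1 1688 (.n0 2550 (.n1 1594 (.n2 1032 (.n2 985 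
  (.leaf 0) (.n0 2475 (.leaf 2) (.n0 2512 (.n1 1547 (.leaf 0) (.leaf 2)) (.leaf 0)))) (.n0 2475 
  (.leaf 2) (.n0 2512 (.leaf 2) (.n0 2531 (.leaf 2) (.n1 1547 (.n2 1079 (.leaf 0) (.leaf 2)) 
  (.leaf 2)))))) (.n0 2475 (.leaf 2) (.n0 2512 (.leaf 2) (.n0 2531 (.leaf 2) (.n2 1032 (.n1 1641 
  (.leaf 0) (.leaf 2)) (.leaf 2)))))) (.n2 1032 (.n0 2625 (.n0 2588 (.n0 2569 (.n1 1594 (.leaf 0) 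
  (.n1 1641 (.leaf 0) (.leaf 2))) (.leaf 0)) (.leaf 0)) (.leaf 0)) (.n1 1594 (.n0 2625 (.n2 1079 
  (.n0 2588 (.n0 2569 (.n1 1547 (.leaf 0) (.leaf 2)) (.leaf 0)) (.leaf 0)) (.n1 1547 (.n0 2588 
  (.n2 1102 (.leaf 0) (.leaf 2)) (.leaf 0)) (.leaf 2))) (.leaf 0)) (.n0 2625 (.leaf 2) (.n2 1079 
  (.n0 2663 (.n1 1641 (.leaf 0) (.leaf 2)) (.leaf 0)) (.n0 2663 (.leaf 2) (.n1 1641 (.n1 1618 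
  (.leaf 0) (.n0 2682 (.leaf 2) (.leaf 0))) (.leaf 2)))))))) (.n0 2550 (.leaf 2) (.n0 2625 
  (.leaf 2) (.n1 1782 (.n2 1032 (.n0 2663 (.n1 1735 (.leaf 0) (.leaf 2)) (.leaf 0)) (.leaf 2)) 
  (.leaf 2)))))) (.n0 2550 (.leaf 2) (.n1 1688 (.n2 1313 (.n1 1594 (.n2 1219 (.n0 2625 (.n0 2588 
  (.leaf 2) (.n0 2607 (.leaf 2) (.n0 2616 (.leaf 2) (.n1 1547 (.n2 1172 (.n2 1149 (.leaf 0) 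
  (.leaf 2)) (.leaf 2)) (.leaf 2))))) (.n2 1172 (.n1 1547 (.n0 2663 (.n0 2644 (.n1 1524 (.leaf 0) 
  (.leaf 2)) (.leaf 0)) (.leaf 0)) (.n0 2663 (.leaf 2) (.n2 1149 (.leaf 0) (.n1 1571 (.n0 2682 
  (.leaf 2) (.leaf 0)) (.leaf 2))))) (.n0 2663 (.leaf 2) (.n1 1547 (.n2 1196 (.n1 1524 (.leaf 0) 
  (.n0 2682 (.leaf 2) (.leaf 0))) (.n0 2682 (.leaf 2) (.n1 1524 (.leaf 0) (.leaf 2)))) 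
  (.leaf 2))))) (.leaf 2)) (.leaf 2)) (.leaf 2)) (.leaf 2)))) (.n0 2550 (.leaf 2) (.n2 1125 
  (.n2 938 (.leaf 0) (.leaf 2)) (.leaf 2)))) (.leaf 2))) (.leaf 2)))
  _ (by decide +kernel)

theorem chk_csN0 : Chk (acsNopts p c0) (acsNBox p c0) :=
  chk_of_checkP [⟨399, 5, 16, 15⟩, ⟨215, 3, 11, 10⟩, ⟨39, 1, 2, 2⟩, ⟨39, 2, 2, 1⟩, ⟨1, 1, 1, 1⟩] (acsNopts p c0)
  (.n1 1500 (.leaf 0) (.n1 2250 (.leaf 0) (.n1 2625 (.n1 2438 (.leaf 0) (.n1 2532 (.n0 2550 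
  (.n1 2485 (.n0 2475 (.n0 2438 (.n0 2419 (.leaf 3) (.n1 2462 (.leaf 0) (.leaf 3))) (.n2 375 
  (.n2 188 (.n2 94 (.n2 47 (.n1 2462 (.leaf 0) (.n1 2474 (.leaf 0) (.leaf 1))) (.leaf 0)) 
  (.leaf 0)) (.leaf 0)) (.leaf 0))) (.leaf 0)) (.n0 2475 (.leaf 3) (.n2 375 (.n1 2509 (.n2 188 
  (.n2 94 (.n2 47 (.leaf 1) (.n1 2497 (.leaf 0) (.leaf 1))) (.leaf 0)) (.leaf 0)) (.n2 188 
  (.leaf 1) (.leaf 1))) (.n2 563 (.n2 469 (.n1 2509 (.leaf 0) (.leaf 1)) (.leaf 1)) (.leaf 2))))) 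
  (.n0 2625 (.n0 2588 (.n1 2485 (.leaf 0) (.n1 2509 (.leaf 0) (.n2 375 (.n2 188 (.n2 94 (.leaf 1) 
  (.leaf 0)) (.leaf 0)) (.leaf 1)))) (.leaf 0)) (.leaf 0))) (.n0 2550 (.n0 2475 (.leaf 3) 
  (.n1 2579 (.n0 2512 (.leaf 3) (.leaf 1)) (.leaf 3))) (.n0 2625 (.n2 375 (.leaf 1) (.leaf 1)) 
  (.n1 2579 (.n0 2663 (.n1 2556 (.leaf 0) (.n2 375 (.leaf 1) (.leaf 1))) (.leaf 0)) (.n0 2663 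
  (.leaf 1) (.n1 2602 (.n0 2682 (.leaf 1) (.leaf 0)) (.leaf 1)))))))) (.n0 2550 (.leaf 3) 
  (.n1 2813 (.n1 2719 (.n0 2625 (.n0 2588 (.leaf 3) (.n0 2607 (.leaf 3) (.n1 2672 (.leaf 1) 
  (.leaf 3)))) (.n1 2672 (.leaf 1) (.n0 2663 (.leaf 3) (.n2 375 (.n0 2682 (.n1 2696 (.leaf 1) 
  (.leaf 3)) (.leaf 1)) (.leaf 2))))) (.leaf 3)) (.leaf 3))))))
  _ (by decide +kernel)

theorem chk_ssE21 : Chk (assEopts p c2 c1) (assBox p c2 c1) :=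
  chk_of_checkP [⟨1, 1, 1, 1⟩, ⟨1, 1, 1, 1⟩, ⟨1, 1, 1, 1⟩, ⟨1, 1, 1, 1⟩, ⟨1, 1, 1, 1⟩, ⟨358, 5, 16, 16⟩, ⟨1, 1, 1, 1⟩, ⟨1, 1, 1, 1⟩, ⟨1, 1, 1, 1⟩, ⟨1, 1, 1, 1⟩, ⟨1, 1, 1, 1⟩, ⟨1, 1, 1, 1⟩, ⟨1, 1, 1, 1⟩, ⟨1, 1, 1, 1⟩, ⟨1, 1, 1, 1⟩, ⟨1, 1, 1, 1⟩, ⟨1, 1, 1, 1⟩, ⟨1, 1, 1, 1⟩, ⟨1, 1, 1, 1⟩, ⟨1, 1, 1, 1⟩, ⟨1, 1, 1, 1⟩, ⟨1, 1, 1, 1⟩, ⟨1, 1, 1, 1⟩, ⟨1, 1, 1, 1⟩, ⟨40, 2, 2, 2⟩] (assEopts p c2 c1)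
  (.n1 2175 (.n1 1763 (.leaf 5) (.n1 1969 (.leaf 5) (.leaf 24))) (.leaf 24))
  _ (by decide +kernel)

theorem chk_vC : Chk (avCopts p) (aCBox p) :=
  chk_of_checkP [⟨85, 2, 5, 1⟩, ⟨39, 2, 2, 1⟩] (avCopts p)
  (.n1 1500 (.leaf 0) (.n1 2250 (.leaf 0) (.n1 2625 (.n0 2550 (.n1 2438 (.leaf 0) (.n1 2532 
  (.n0 2475 (.n1 2485 (.leaf 0) (.leaf 1)) (.leaf 0)) (.n0 2475 (.leaf 1) (.n1 2579 (.n0 2512 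
  (.leaf 1) (.leaf 0)) (.leaf 1))))) (.leaf 0)) (.n0 2550 (.leaf 1) (.n1 2813 (.n1 2719 (.n0 2625 
  (.n0 2588 (.leaf 1) (.n0 2607 (.leaf 1) (.n1 2672 (.leaf 0) (.leaf 1)))) (.n1 2672 (.leaf 0) 
  (.n0 2663 (.leaf 1) (.n0 2682 (.n1 2696 (.leaf 0) (.leaf 1)) (.leaf 0))))) (.leaf 1)) 
  (.leaf 1))))))
  _ (by decide +kernel)

theorem chk_vS2 : Chk (avSopts p c2) (aSBox p c2) :=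
  chk_of_checkP [⟨85, 2, 5, 1⟩, ⟨39, 2, 2, 1⟩] (avSopts p c2)
  (.n1 2175 (.leaf 0) (.n1 2588 (.leaf 0) (.n1 2794 (.leaf 0) (.leaf 1))))
  _ (by decide +kernel)

theorem chk_vS1 : Chk (avSopts p c1) (aSBox p c1) :=
  chk_of_checkP [⟨83, 2, 5, 1⟩, ⟨1, 1, 1, 1⟩] (avSopts p c1)
  (.leaf 0)
  _ (by decide +kernel)

theorem chk_vS0 : Chk (avSopts p c0) (aSBox p c0) :=
  chk_of_checkP [⟨79, 2, 5, 1⟩, ⟨1, 1, 1, 1⟩] (avSopts p c0)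
  (.leaf 0)
  _ (by decide +kernel)


end Pool.Agent.T2H40.BR.T0
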