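import Pool.Agent.T2H40.BR.D.T0

set_option autoImplicit false
set_option maxRecDepth 1000000
set_option exponentiation.threshold 1000000000

namespace Pool.Agent.T2H40.BR.T0

theorem chk_csEs0 : Chk (acsEsopts p c0) (acsEsBox p) :=
  chk_of_checkP [⟨682, 3, 31, 21⟩, ⟨1048, 5, 47, 31⟩] (acsEsopts p c0)
  (.n2 3000 (.leaf 0) (.n2 4500 (.n2 3750 (.n2 3375 (.n1 150 (.n0 2550 (.n1 75 (.leaf 1) (.n2 3188 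
  (.n2 3094 (.leaf 0) (.leaf 1)) (.leaf 1))) (.leaf 1)) (.n2 3188 (.leaf 0) (.n1 225 (.leaf 1) 
  (.n2 3282 (.leaf 0) (.leaf 1))))) (.leaf 1)) (.leaf 1)) (.leaf 1)))
  _ (by decide +kernel)

theorem chk_ssE20 : Chk (assEopts p c2 c0) (assBox p c2 c0) :=
  chk_of_checkP [⟨1, 1, 1, 1⟩, ⟨356, 5, 16, 16⟩, ⟨356, 5, 16, 16⟩, ⟨356, 5, 16, 16⟩, ⟨451, 5, 21, 21⟩, ⟨1, 1, 1, 1⟩, ⟨1, 1, 1, 1⟩, ⟨1, 1, 1, 1⟩, ⟨1, 1, 1, 1⟩, ⟨1, 1, 1, 1⟩, ⟨1, 1, 1, 1⟩, ⟨1, 1, 1, 1⟩, ⟨1, 1, 1, 1⟩, ⟨1, 1, 1, 1⟩, ⟨1, 1, 1, 1⟩, ⟨1, 1, 1, 1⟩, ⟨1, 1, 1, 1⟩, ⟨1, 1, 1, 1⟩, ⟨1, 1, 1, 1⟩, ⟨1, 1, 1, 1⟩, ⟨1, 1, 1, 1⟩, ⟨1, 1, 1, 1⟩, ⟨1, 1, 1, 1⟩, ⟨1, 1, 1, 1⟩, ⟨40, 2, 2, 2⟩] (assEopts p c2 c0)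
  (.n1 2175 (.n2 375 (.leaf 4) (.n2 563 (.leaf 4) (.n1 1763 (.n0 2550 (.leaf 2) (.leaf 1)) 
  (.n0 2550 (.leaf 4) (.n2 657 (.leaf 2) (.n0 2625 (.leaf 2) (.leaf 1))))))) (.n1 2588 (.n1 2382 
  (.n2 375 (.leaf 4) (.n2 563 (.leaf 4) (.leaf 24))) (.n2 375 (.n2 188 (.n1 2485 (.leaf 4) 
  (.n2 94 (.n0 2550 (.n0 2475 (.leaf 24) (.n2 47 (.leaf 4) (.n1 2537 (.leaf 4) (.leaf 24)))) 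
  (.leaf 4)) (.n0 2550 (.leaf 24) (.n0 2625 (.n1 2537 (.leaf 4) (.leaf 3)) (.leaf 4))))) 
  (.n0 2550 (.leaf 24) (.n1 2485 (.leaf 4) (.n0 2625 (.leaf 24) (.n0 2663 (.leaf 24) 
  (.leaf 4)))))) (.leaf 24))) (.n0 2550 (.leaf 24) (.n2 375 (.n2 188 (.n1 2794 (.n2 94 (.n1 2691 
  (.n0 2625 (.n2 47 (.n1 2640 (.n0 2588 (.n0 2569 (.leaf 24) (.leaf 4)) (.leaf 4)) (.leaf 24)) 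
  (.leaf 3)) (.n1 2640 (.leaf 4) (.n2 47 (.n0 2663 (.n2 24 (.leaf 4) (.leaf 24)) (.leaf 4)) 
  (.n0 2663 (.leaf 24) (.n0 2682 (.leaf 24) (.leaf 4)))))) (.n0 2625 (.leaf 24) (.n0 2663 
  (.leaf 24) (.n2 47 (.n0 2682 (.leaf 24) (.n1 2743 (.leaf 4) (.leaf 24))) (.leaf 24))))) 
  (.n0 2625 (.leaf 24) (.n0 2663 (.leaf 24) (.n2 141 (.n1 2691 (.n0 2682 (.leaf 3) (.leaf 4)) 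
  (.leaf 24)) (.leaf 24))))) (.leaf 24)) (.leaf 24)) (.leaf 24)))))
  _ (by decide +kernel)

theorem chk_csEu0 : Chk (acsEuopts p c0) (acsEuBox p) :=
  chk_of_checkP [⟨720, 5, 23, 31⟩, ⟨1, 1, 1, 1⟩, ⟨1, 1, 1, 1⟩, ⟨1, 1, 1, 1⟩, ⟨1, 1, 1, 1⟩, ⟨1, 1, 1, 1⟩, ⟨1, 1, 1, 1⟩, ⟨1, 1, 1, 1⟩, ⟨40, 1, 2, 3⟩, ⟨1, 1, 1, 1⟩] (acsEuopts p c0)
  (.n2 1800 (.leaf 0) (.leaf 8))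
  _ (by decide +kernel)


end Pool.Agent.T2H40.BR.T0
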