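import Pool.Agent.T2H40.BR.D.T0

set_option autoImplicit false
set_option maxRecDepth 1000000
set_option exponentiation.threshold 1000000000

namespace Pool.Agent.T2H40.BR.T0

theorem chk_csEu2 : Chk (acsEuopts p c2) (acsEuBox p) :=
  chk_of_checkP [⟨721, 5, 23, 31⟩, ⟨1, 1, 1, 1⟩, ⟨1, 1, 1, 1⟩, ⟨1, 1, 1, 1⟩, ⟨1, 1, 1, 1⟩, ⟨1, 1, 1, 1⟩, ⟨41, 2, 2, 3⟩, ⟨40, 1, 2, 3⟩, ⟨1, 1, 1, 1⟩, ⟨1, 1, 1, 1⟩] (acsEuopts p c2)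
  (.n2 1800 (.leaf 7) (.n2 2400 (.leaf 0) (.n2 2700 (.leaf 0) (.n2 2850 (.n1 150 (.n1 75 (.n2 2775 
  (.leaf 0) (.n2 2813 (.leaf 0) (.n0 2550 (.leaf 6) (.n1 38 (.n1 19 (.n1 10 (.n0 2625 (.leaf 6) 
  (.leaf 0)) (.leaf 0)) (.leaf 0)) (.leaf 0))))) (.leaf 0)) (.leaf 0)) (.n0 2550 (.n2 2925 
  (.n1 150 (.leaf 6) (.n1 225 (.n2 2887 (.leaf 0) (.leaf 6)) (.leaf 0))) (.leaf 6)) (.n0 2625 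
  (.n0 2588 (.n2 2925 (.n1 150 (.n2 2887 (.n1 75 (.leaf 6) (.leaf 0)) (.leaf 6)) (.leaf 0)) 
  (.n1 150 (.leaf 6) (.n1 225 (.leaf 6) (.n2 2963 (.leaf 0) (.leaf 6))))) (.n1 150 (.n2 2925 
  (.n2 2887 (.n1 75 (.leaf 6) (.leaf 0)) (.leaf 6)) (.leaf 6)) (.n1 225 (.n2 2925 (.leaf 0) 
  (.leaf 6)) (.leaf 0)))) (.n1 150 (.n2 2925 (.n1 75 (.n2 2887 (.n1 38 (.n0 2663 (.leaf 6) 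
  (.leaf 0)) (.leaf 0)) (.leaf 6)) (.leaf 0)) (.leaf 6)) (.leaf 0))))))))
  _ (by decide +kernel)

theorem chk_csE2 : Chk (acsEuopts p c2) (acsEBox p) :=
  chk_of_checkP [⟨742, 5, 23, 31⟩, ⟨1, 1, 1, 1⟩, ⟨1, 1, 1, 1⟩, ⟨1, 1, 1, 1⟩, ⟨1, 1, 1, 1⟩, ⟨1, 1, 1, 1⟩, ⟨1, 1, 1, 1⟩, ⟨40, 1, 2, 3⟩, ⟨1, 1, 1, 1⟩, ⟨1, 1, 1, 1⟩] (acsEuopts p c2)
  (.n1 1650 (.n2 1500 (.leaf 7) (.n0 2550 (.n0 2475 (.n2 2250 (.n1 975 (.n1 638 (.n2 1875 (.leaf 7) 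
  (.leaf 0)) (.leaf 7)) (.leaf 7)) (.n1 975 (.leaf 0) (.n2 2625 (.n1 1313 (.n2 2438 (.leaf 7) 
  (.leaf 0)) (.leaf 7)) (.n1 1313 (.leaf 0) (.n2 2813 (.n1 1482 (.leaf 0) (.leaf 7)) 
  (.leaf 0)))))) (.n1 975 (.leaf 0) (.n2 2250 (.leaf 7) (.n2 2625 (.n1 1313 (.leaf 0) (.leaf 7)) 
  (.leaf 0))))) (.leaf 0))) (.n2 1500 (.leaf 7) (.n1 2325 (.n2 2250 (.leaf 7) (.n1 1988 (.n2 2625 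
  (.leaf 7) (.n1 1819 (.n0 2550 (.n2 2813 (.leaf 7) (.n1 1735 (.n2 2907 (.leaf 7) (.n1 1693 
  (.leaf 0) (.leaf 7))) (.leaf 7))) (.leaf 0)) (.leaf 7))) (.leaf 7))) (.leaf 7))))
  _ (by decide +kernel)

theorem chk_ssN20 : Chk (assNopts p c2 c0) (assBox p c2 c0) :=
  chk_of_checkP [⟨391, 5, 15, 15⟩, ⟨203, 3, 10, 10⟩, ⟨1, 1, 1, 1⟩, ⟨40, 2, 2, 2⟩] (assNopts p c2 c0)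
  (.n1 2175 (.n1 1763 (.leaf 0) (.n1 1969 (.n0 2550 (.n2 375 (.n0 2475 (.n2 188 (.n2 94 (.n0 2438 
  (.n1 1866 (.leaf 0) (.leaf 1)) (.leaf 0)) (.leaf 0)) (.leaf 0)) (.leaf 0)) (.leaf 0)) (.leaf 0))
   (.n2 375 (.n0 2550 (.leaf 1) (.n0 2625 (.leaf 1) (.n1 2072 (.leaf 0) (.leaf 1)))) (.leaf 1)))) 
  (.n1 2588 (.n1 2382 (.n0 2550 (.n0 2475 (.n2 375 (.n1 2279 (.leaf 1) (.n1 2331 (.leaf 1) 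
  (.n1 2357 (.leaf 1) (.n0 2438 (.leaf 0) (.n1 2370 (.leaf 1) (.leaf 0)))))) (.leaf 3)) (.leaf 1))
   (.leaf 1)) (.n2 375 (.n0 2550 (.n0 2475 (.leaf 0) (.n2 188 (.n0 2512 (.leaf 0) (.n1 2485 
  (.n1 2434 (.n1 2408 (.leaf 1) (.leaf 0)) (.leaf 0)) (.leaf 0))) (.leaf 3))) (.n0 2625 (.n1 2485 
  (.n1 2434 (.n0 2588 (.n0 2569 (.n1 2408 (.leaf 1) (.leaf 0)) (.leaf 1)) (.leaf 1)) (.n0 2588 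
  (.leaf 0) (.n0 2607 (.leaf 0) (.n1 2460 (.leaf 1) (.leaf 0))))) (.leaf 0)) (.n1 2485 (.n0 2663 
  (.n0 2644 (.n0 2635 (.n1 2434 (.leaf 1) (.n1 2460 (.leaf 1) (.leaf 0))) (.leaf 1)) (.leaf 1)) 
  (.leaf 1)) (.n0 2663 (.n2 188 (.n2 94 (.n0 2644 (.leaf 0) (.n0 2654 (.leaf 0) (.n1 2537 
  (.n1 2511 (.leaf 1) (.leaf 0)) (.leaf 0)))) (.leaf 0)) (.leaf 3)) (.n1 2537 (.n0 2682 (.n1 2511 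
  (.leaf 1) (.n0 2673 (.leaf 0) (.leaf 1))) (.leaf 1)) (.n2 188 (.n0 2682 (.leaf 0) (.n0 2691 
  (.leaf 0) (.n1 2563 (.leaf 1) (.leaf 0)))) (.leaf 3))))))) (.leaf 3))) (.leaf 0)))
  _ (by decide +kernel)

theorem chk_csN1 : Chk (acsNopts p c1) (acsNBox p c1) :=
  chk_of_checkP [⟨404, 5, 16, 15⟩, ⟨1, 1, 1, 1⟩, ⟨39, 1, 2, 2⟩, ⟨1, 1, 1, 1⟩, ⟨1, 1, 1, 1⟩] (acsNopts p c1)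
  (.n1 1500 (.leaf 0) (.n1 2250 (.n2 1050 (.leaf 0) (.n0 2550 (.leaf 0) (.n0 2625 (.leaf 0) 
  (.n0 2663 (.leaf 0) (.n1 1875 (.leaf 0) (.n1 2063 (.leaf 0) (.leaf 2))))))) (.n2 1050 (.n2 900 
  (.n1 2625 (.n1 2438 (.leaf 0) (.leaf 2)) (.leaf 2)) (.leaf 2)) (.leaf 2))))
  _ (by decide +kernel)

theorem chk_ssN21 : Chk (assNopts p c2 c1) (assBox p c2 c1) :=
  chk_of_checkP [⟨393, 5, 15, 15⟩, ⟨1, 1, 1, 1⟩, ⟨1, 1, 1, 1⟩, ⟨40, 2, 2, 2⟩] (assNopts p c2 c1)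
  (.n1 2175 (.n1 1763 (.leaf 0) (.n1 1969 (.n2 1050 (.leaf 0) (.leaf 3)) (.leaf 3))) (.leaf 3))
  _ (by decide +kernel)

theorem chk_ssE11 : Chk (assEopts p c1 c1) (assBox p c1 c1) :=
  chk_of_checkP [⟨1, 1, 1, 1⟩, ⟨350, 5, 16, 16⟩, ⟨1, 1, 1, 1⟩, ⟨1, 1, 1, 1⟩, ⟨1, 1, 1, 1⟩, ⟨1, 1, 1, 1⟩, ⟨1, 1, 1, 1⟩, ⟨1, 1, 1, 1⟩, ⟨1, 1, 1, 1⟩, ⟨1, 1, 1, 1⟩, ⟨1, 1, 1, 1⟩, ⟨1, 1, 1, 1⟩, ⟨1, 1, 1, 1⟩, ⟨1, 1, 1, 1⟩, ⟨1, 1, 1, 1⟩, ⟨1, 1, 1, 1⟩, ⟨1, 1, 1, 1⟩, ⟨1, 1, 1, 1⟩, ⟨1, 1, 1, 1⟩, ⟨1, 1, 1, 1⟩, ⟨1, 1, 1, 1⟩, ⟨1, 1, 1, 1⟩, ⟨1, 1, 1, 1⟩, ⟨1, 1, 1, 1⟩, ⟨1, 1, 1, 1⟩] (assEopts p c1 c1)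
  (.leaf 1)
  _ (by decide +kernel)


end Pool.Agent.T2H40.BR.T0
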