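import Pool.Agent.T2H40.BR.D.T0

set_option autoImplicit false
set_option maxRecDepth 1000000
set_option exponentiation.threshold 1000000000

namespace Pool.Agent.T2H40.BR.T0

theorem chk_csN2 : Chk (acsNopts p c2) (acsNBox p c2) :=
  chk_of_checkP [⟨410, 5, 16, 15⟩, ⟨1, 1, 1, 1⟩, ⟨40, 1, 2, 2⟩, ⟨1, 1, 1, 1⟩, ⟨1, 1, 1, 1⟩] (acsNopts p c2)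
  (.n1 1500 (.n2 2175 (.n2 1763 (.leaf 0) (.n1 750 (.leaf 0) (.n1 1125 (.n2 1969 (.n1 938 (.leaf 0) 
  (.n2 1866 (.leaf 0) (.n2 1918 (.leaf 0) (.n1 1032 (.leaf 0) (.n1 1079 (.leaf 0) (.n2 1943 
  (.leaf 0) (.leaf 2))))))) (.n1 938 (.n2 2072 (.leaf 0) (.n1 844 (.leaf 0) (.n1 891 (.leaf 0) 
  (.n2 2124 (.n2 2098 (.leaf 0) (.n1 914 (.leaf 0) (.leaf 2))) (.leaf 2))))) (.n2 2072 (.n1 1032 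
  (.n2 2021 (.n2 1995 (.leaf 0) (.n1 985 (.leaf 0) (.n1 1008 (.leaf 0) (.leaf 2)))) (.n1 985 
  (.n2 2046 (.leaf 0) (.n1 962 (.leaf 0) (.leaf 2))) (.leaf 2))) (.leaf 2)) (.leaf 2)))) 
  (.n2 1969 (.n1 1313 (.n2 1866 (.n1 1219 (.leaf 0) (.n2 1815 (.leaf 0) (.leaf 2))) (.n1 1219 
  (.n2 1918 (.n1 1172 (.n2 1892 (.leaf 0) (.leaf 2)) (.leaf 2)) (.leaf 2)) (.leaf 2))) (.leaf 2)) 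
  (.leaf 2))))) (.n1 750 (.leaf 0) (.n2 2588 (.n2 2382 (.n1 1125 (.n1 938 (.n1 844 (.leaf 0) 
  (.leaf 2)) (.leaf 2)) (.leaf 2)) (.leaf 2)) (.leaf 2)))) (.n2 2175 (.n1 2250 (.n2 1763 
  (.n2 1557 (.leaf 0) (.leaf 2)) (.leaf 2)) (.leaf 2)) (.leaf 2)))
  _ (by decide +kernel)

theorem chk_csEt0 : Chk (acsEtopts p c0) (acsEtBox p) :=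
  chk_of_checkP [⟨725, 5, 49, 31⟩, ⟨1, 1, 1, 1⟩, ⟨1, 1, 1, 1⟩, ⟨1, 1, 1, 1⟩, ⟨1, 1, 1, 1⟩, ⟨1, 1, 1, 1⟩, ⟨1, 1, 1, 1⟩, ⟨1, 1, 1, 1⟩, ⟨1, 1, 1, 1⟩, ⟨1, 1, 1, 1⟩] (acsEtopts p c0)
  (.leaf 0)
  _ (by decide +kernel)

theorem chk_csEu1 : Chk (acsEuopts p c1) (acsEuBox p) :=
  chk_of_checkP [⟨721, 5, 23, 31⟩, ⟨1, 1, 1, 1⟩, ⟨1, 1, 1, 1⟩, ⟨1, 1, 1, 1⟩, ⟨1, 1, 1, 1⟩, ⟨1, 1, 1, 1⟩, ⟨1, 1, 1, 1⟩, ⟨40, 1, 2, 3⟩, ⟨40, 1, 2, 3⟩, ⟨1, 1, 1, 1⟩] (acsEuopts p c1)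
  (.n2 1800 (.n2 1200 (.leaf 7) (.leaf 0)) (.n2 2400 (.leaf 0) (.leaf 8)))
  _ (by decide +kernel)

theorem chk_ssE22 : Chk (assEopts p c2 c2) (assBox p c2 c2) :=
  chk_of_checkP [⟨1, 1, 1, 1⟩, ⟨1, 1, 1, 1⟩, ⟨1, 1, 1, 1⟩, ⟨1, 1, 1, 1⟩, ⟨1, 1, 1, 1⟩, ⟨362, 5, 16, 16⟩, ⟨1, 1, 1, 1⟩, ⟨1, 1, 1, 1⟩, ⟨1, 1, 1, 1⟩, ⟨1, 1, 1, 1⟩, ⟨1, 1, 1, 1⟩, ⟨1, 1, 1, 1⟩, ⟨1, 1, 1, 1⟩, ⟨1, 1, 1, 1⟩, ⟨1, 1, 1, 1⟩, ⟨1, 1, 1, 1⟩, ⟨1, 1, 1, 1⟩, ⟨1, 1, 1, 1⟩, ⟨1, 1, 1, 1⟩, ⟨1, 1, 1, 1⟩, ⟨1, 1, 1, 1⟩, ⟨1, 1, 1, 1⟩, ⟨1, 1, 1, 1⟩, ⟨1, 1, 1, 1⟩, ⟨41, 2, 2, 2⟩] (assEopts p c2 c2)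
  (.n0 2550 (.leaf 24) (.n1 2175 (.n2 2175 (.n0 2625 (.leaf 24) (.n1 1763 (.n2 1763 (.leaf 5) 
  (.leaf 24)) (.leaf 24))) (.leaf 24)) (.leaf 24)))
  _ (by decide +kernel)

theorem chk_ssN22 : Chk (assNopts p c2 c2) (assBox p c2 c2) :=
  chk_of_checkP [⟨398, 5, 15, 15⟩, ⟨1, 1, 1, 1⟩, ⟨1, 1, 1, 1⟩, ⟨41, 2, 2, 2⟩] (assNopts p c2 c2)
  (.n0 2550 (.leaf 3) (.n1 2175 (.n2 2175 (.n0 2625 (.leaf 3) (.n1 1763 (.n2 1763 (.leaf 0) 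
  (.leaf 3)) (.leaf 3))) (.leaf 3)) (.leaf 3)))
  _ (by decide +kernel)

theorem chk_ssE10 : Chk (assEopts p c1 c0) (assBox p c1 c0) :=
  chk_of_checkP [⟨1, 1, 1, 1⟩, ⟨346, 5, 16, 16⟩, ⟨1, 1, 1, 1⟩, ⟨1, 1, 1, 1⟩, ⟨1, 1, 1, 1⟩, ⟨1, 1, 1, 1⟩, ⟨1, 1, 1, 1⟩, ⟨1, 1, 1, 1⟩, ⟨1, 1, 1, 1⟩, ⟨1, 1, 1, 1⟩, ⟨1, 1, 1, 1⟩, ⟨1, 1, 1, 1⟩, ⟨1, 1, 1, 1⟩, ⟨1, 1, 1, 1⟩, ⟨1, 1, 1, 1⟩, ⟨1, 1, 1, 1⟩, ⟨1, 1, 1, 1⟩, ⟨1, 1, 1, 1⟩, ⟨1, 1, 1, 1⟩, ⟨1, 1, 1, 1⟩, ⟨1, 1, 1, 1⟩, ⟨1, 1, 1, 1⟩, ⟨1, 1, 1, 1⟩, ⟨1, 1, 1, 1⟩, ⟨1, 1, 1, 1⟩] (assEopts p c1 c0)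
  (.leaf 1)
  _ (by decide +kernel)

theorem chk_ssN11 : Chk (assNopts p c1 c1) (assBox p c1 c1) :=
  chk_of_checkP [⟨386, 5, 15, 15⟩, ⟨1, 1, 1, 1⟩, ⟨1, 1, 1, 1⟩, ⟨1, 1, 1, 1⟩] (assNopts p c1 c1)
  (.leaf 0)
  _ (by decide +kernel)

theorem chk_ssE00 : Chk (assEopts p c0 c0) (assBox p c0 c0) :=
  chk_of_checkP [⟨1, 1, 1, 1⟩, ⟨339, 5, 16, 16⟩, ⟨1, 1, 1, 1⟩, ⟨1, 1, 1, 1⟩, ⟨1, 1, 1, 1⟩, ⟨1, 1, 1, 1⟩, ⟨1, 1, 1, 1⟩, ⟨1, 1, 1, 1⟩, ⟨1, 1, 1, 1⟩, ⟨1, 1, 1, 1⟩, ⟨1, 1, 1, 1⟩, ⟨1, 1, 1, 1⟩, ⟨1, 1, 1, 1⟩, ⟨1, 1, 1, 1⟩, ⟨1, 1, 1, 1⟩, ⟨1, 1, 1, 1⟩, ⟨1, 1, 1, 1⟩, ⟨1, 1, 1, 1⟩, ⟨1, 1, 1, 1⟩, ⟨1, 1, 1, 1⟩, ⟨1, 1, 1, 1⟩, ⟨1, 1, 1, 1⟩, ⟨1, 1, 1, 1⟩, ⟨1, 1, 1, 1⟩, ⟨1, 1, 1, 1⟩]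 (assEopts p c0 c0)
  (.leaf 1)
  _ (by decide +kernel)

theorem chk_ssN10 : Chk (assNopts p c1 c0) (assBox p c1 c0) :=
  chk_of_checkP [⟨382, 5, 15, 15⟩, ⟨1, 1, 1, 1⟩, ⟨1, 1, 1, 1⟩, ⟨1, 1, 1, 1⟩] (assNopts p c1 c0)
  (.leaf 0)
  _ (by decide +kernel)

theorem chk_ssN00 : Chk (assNopts p c0 c0) (assBox p c0 c0) :=
  chk_of_checkP [⟨375, 5, 15, 15⟩, ⟨1, 1, 1, 1⟩, ⟨1, 1, 1, 1⟩, ⟨1, 1, 1, 1⟩] (assNopts p c0 c0)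
  (.leaf 0)
  _ (by decide +kernel)


end Pool.Agent.T2H40.BR.T0
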