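import Pool.Agent.T2H40.BR.Pkg.LA4
import Pool.Agent.T2H40.BR.D.T0_s0
import Pool.Agent.T2H40.BR.D.T0_s1
import Pool.Agent.T2H40.BR.D.T0_s2
import Pool.Agent.T2H40.BR.D.T0_s3
import Pool.Agent.T2H40.BR.D.T0_ccE
import Pool.Agent.T2H40.BR.D.T0_csE0
import Pool.Agent.T2H40.BR.D.T0_csE1

set_option autoImplicit false
set_option maxRecDepth 1000000
set_option exponentiation.threshold 1000000000

namespace Pool.Agent.T2H40.BR.T0

theorem piece : AChk p where
  ok := by decide
  cok := by decide
  cov := by decide
  ccN := chk_ccN
  ccE := chk_ccE
  vC := chk_vC
  vS := by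
    intro c hc
    simp only [p, List.mem_cons, List.not_mem_nil, or_false] at hc
    rcases hc with rfl | rfl | rfl
    · exact chk_vS0
    · exact chk_vS1
    · exact chk_vS2
  csN := by
    intro c hc
    simp only [p, List.mem_cons, List.not_mem_nil, or_false] at hc
    rcases hc with rfl | rfl | rfl
    · exact chk_csN0
    · exact chk_csN1
    · exact chk_csN2
  csE := by
    intro c hc
    simp only [p, List.mem_cons, List.not_mem_nil, or_false] at hc
    rcases hc with rfl | rfl | rfl
    · exact chk_csE0
    · exact chk_csE1
    · exact chk_csE2
  csEu := by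
    intro c hc
    simp only [p, List.mem_cons, List.not_mem_nil, or_false] at hc
    rcases hc with rfl | rfl | rfl
    · exact chk_csEu0
    · exact chk_csEu1
    · exact chk_csEu2
  csEs := by
    intro c hc
    simp only [p, List.mem_cons, List.not_mem_nil, or_false] at hc
    rcases hc with rfl | rfl | rfl
    · exact .inr chk_csEs0
    · exact .inl (by decide)
    · exact .inl (by decide)
  csEt := by
    intro c hc
    simp only [p, List.mem_cons, List.not_mem_nil, or_false] at hc
    rcases hc with rfl | rfl | rfl
    · exact .inr chk_csEt0
    · exact .inl (by decide)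
    · exact .inl (by decide)
  ssN := by
    intro i j hi hj hij
    have hi2 : i < 3 := hi
    interval_cases i
    · interval_cases j
      · exact chk_ssN00
    · interval_cases j
      · exact chk_ssN10
      · exact chk_ssN11
    · interval_cases j
      · exact chk_ssN20
      · exact chk_ssN21
      · exact chk_ssN22
  ssE := by
    intro i j hi hj hij
    have hi2 : i < 3 := hi
    interval_cases i
    · interval_cases j
      · exact chk_ssE00
    · interval_cases j
      · exact chk_ssE10
      · exact chk_ssE11
    · interval_cases j
      · exact chk_ssE20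
      · exact chk_ssE21
      · exact chk_ssE22

end Pool.Agent.T2H40.BR.T0
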