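import Pool.Agent.T2H40.BR.D.T1

set_option autoImplicit false
set_option maxRecDepth 1000000
set_option exponentiation.threshold 1000000000

namespace Pool.Agent.T2H40.BR.T1

theorem ccE_P3 : Chk (accEopts p) {({({({({(accBox p) with l1 := 1500}) with h2 := 1500}) with h1 := 2250}) with l2 := 750}) with l2 := 1125} :=
  chk_of_checkP [⟨506, 5, 15, 15⟩, ⟨1, 1, 1, 1⟩, ⟨1, 1, 1, 1⟩, ⟨506, 5, 15, 15⟩, ⟨1, 1, 1, 1⟩, ⟨1, 1, 1, 1⟩, ⟨506, 5, 15, 15⟩, ⟨1, 1, 1, 1⟩, ⟨506, 5, 15, 15⟩, ⟨506, 5, 15, 15⟩, ⟨1, 1, 1, 1⟩, ⟨1, 1, 1, 1⟩, ⟨506, 5, 15, 15⟩, ⟨1, 1, 1, 1⟩, ⟨1, 1, 1, 1⟩, ⟨506, 5, 15, 15⟩, ⟨1, 1, 1, 1⟩, ⟨1, 1, 1, 1⟩, ⟨1, 1, 1, 1⟩, ⟨1, 1, 1, 1⟩, ⟨1, 1, 1, 1⟩, ⟨507, 5, 15, 15⟩, ⟨1, 1, 1, 1⟩, ⟨1, 1, 1, 1⟩, ⟨1, 1, 1, 1⟩, ⟨1, 1, 1, 1⟩,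 ⟨1, 1, 1, 1⟩, ⟨1, 1, 1, 1⟩, ⟨1, 1, 1, 1⟩, ⟨1, 1, 1, 1⟩, ⟨1, 1, 1, 1⟩, ⟨1, 1, 1, 1⟩, ⟨1, 1, 1, 1⟩, ⟨314, 4, 15, 15⟩, ⟨39, 1, 2, 2⟩, ⟨41, 2, 2, 2⟩] (accEopts p)
  (.n1 1875 (.n1 1688 (.n2 1313 (.n0 2850 (.n1 1594 (.n2 1219 (.n0 2775 (.n1 1547 (.leaf 3) 
  (.n2 1172 (.leaf 6) (.n0 2738 (.n1 1571 (.n2 1196 (.leaf 6) (.leaf 35)) (.leaf 35)) (.n0 2757 
  (.n0 2748 (.n1 1571 (.leaf 6) (.n2 1196 (.leaf 6) (.leaf 35))) (.leaf 6)) (.leaf 6))))) 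
  (.leaf 6)) (.n0 2775 (.n1 1547 (.n2 1266 (.n0 2738 (.n1 1524 (.leaf 3) (.leaf 35)) (.leaf 3)) 
  (.n0 2738 (.leaf 35) (.n0 2757 (.leaf 35) (.n2 1289 (.leaf 3) (.leaf 35))))) (.n0 2738 
  (.leaf 35) (.n0 2757 (.leaf 35) (.n2 1266 (.n1 1571 (.n2 1243 (.leaf 6) (.leaf 35)) (.leaf 35)) 
  (.leaf 35))))) (.n1 1547 (.n0 2813 (.n0 2794 (.n2 1266 (.leaf 3) (.n1 1524 (.leaf 3) (.n2 1289 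
  (.leaf 3) (.leaf 35)))) (.leaf 3)) (.leaf 3)) (.n2 1266 (.n0 2813 (.n2 1243 (.n0 2794 (.n0 2785 
  (.n1 1571 (.leaf 6) (.leaf 35)) (.leaf 6)) (.leaf 6)) (.n1 1571 (.n0 2794 (.n0 2785 (.leaf 35) 
  (.leaf 6)) (.leaf 6)) (.leaf 35))) (.leaf 6)) (.n0 2813 (.n0 2794 (.leaf 35) (.n0 2804 
  (.leaf 35) (.n0 2809 (.leaf 35) (.n1 1571 (.n2 1289 (.leaf 6) (.leaf 35)) (.leaf 35))))) 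
  (.n1 1571 (.n2 1289 (.leaf 6) (.n0 2832 (.leaf 35) (.n0 2841 (.n1 1559 (.leaf 3) (.leaf 35)) 
  (.leaf 6)))) (.n0 2832 (.leaf 35) (.n2 1289 (.leaf 6) (.leaf 35))))))))) (.n2 1219 (.n0 2775 
  (.n1 1641 (.n2 1172 (.n0 2738 (.n2 1149 (.n1 1618 (.leaf 6) (.leaf 35)) (.leaf 35)) (.n0 2757 
  (.n0 2748 (.n1 1618 (.leaf 6) (.n2 1149 (.leaf 6) (.leaf 35))) (.leaf 6)) (.leaf 6))) (.n0 2738 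
  (.leaf 35) (.n0 2757 (.leaf 35) (.n1 1618 (.n2 1196 (.leaf 6) (.leaf 35)) (.leaf 35))))) 
  (.n0 2738 (.leaf 35) (.n0 2757 (.leaf 35) (.n2 1172 (.n1 1664 (.n2 1149 (.leaf 6) (.leaf 35)) 
  (.leaf 35)) (.leaf 35))))) (.n2 1172 (.n0 2813 (.n1 1641 (.leaf 6) (.n1 1664 (.leaf 6) 
  (.n2 1149 (.leaf 6) (.n0 2794 (.leaf 35) (.n0 2804 (.leaf 35) (.leaf 6)))))) (.leaf 6)) 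
  (.n1 1641 (.n0 2813 (.n2 1196 (.n0 2794 (.n0 2785 (.n1 1618 (.leaf 6) (.leaf 35)) (.leaf 6)) 
  (.leaf 6)) (.n1 1618 (.n0 2794 (.n0 2785 (.leaf 35) (.leaf 6)) (.leaf 6)) (.leaf 35))) 
  (.leaf 6)) (.n0 2813 (.n0 2794 (.leaf 35) (.n0 2804 (.leaf 35) (.n0 2809 (.leaf 35) (.n1 1664 
  (.n2 1196 (.leaf 6) (.leaf 35)) (.leaf 35))))) (.n2 1196 (.n0 2832 (.n1 1664 (.leaf 6) 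
  (.leaf 35)) (.leaf 6)) (.n0 2832 (.leaf 35) (.n1 1664 (.leaf 6) (.leaf 35)))))))) (.n0 2775 
  (.leaf 35) (.n1 1641 (.n2 1266 (.n0 2813 (.n0 2794 (.leaf 35) (.n0 2804 (.leaf 35) (.n0 2809 
  (.leaf 35) (.n1 1618 (.n2 1243 (.leaf 6) (.leaf 35)) (.leaf 35))))) (.n2 1243 (.n1 1618 
  (.leaf 6) (.n0 2832 (.leaf 35) (.leaf 6))) (.n0 2832 (.leaf 35) (.n1 1618 (.n0 2841 (.n1 1606 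
  (.leaf 6) (.leaf 35)) (.leaf 6)) (.leaf 35))))) (.leaf 35)) (.leaf 35))))) (.n2 1219 (.n0 2925 
  (.n0 2887 (.n0 2869 (.n0 2860 (.n1 1594 (.leaf 6) (.n0 2855 (.n1 1641 (.leaf 6) (.n2 1172 
  (.leaf 6) (.n1 1664 (.leaf 6) (.n2 1196 (.leaf 6) (.leaf 35))))) (.leaf 6))) (.leaf 6)) 
  (.leaf 6)) (.leaf 6)) (.leaf 6)) (.n1 1594 (.n0 2925 (.n0 2887 (.n0 2869 (.n0 2860 (.n1 1547 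
  (.leaf 3) (.n2 1266 (.leaf 6) (.n1 1571 (.leaf 6) (.n2 1289 (.leaf 6) (.n2 1301 (.leaf 6) 
  (.leaf 35)))))) (.leaf 6)) (.leaf 6)) (.leaf 6)) (.leaf 6)) (.n0 2925 (.n2 1266 (.n1 1641 
  (.n0 2887 (.n0 2869 (.n0 2860 (.n1 1618 (.leaf 6) (.n2 1243 (.leaf 6) (.leaf 35))) (.leaf 6)) 
  (.leaf 6)) (.leaf 6)) (.n0 2887 (.n2 1243 (.n1 1664 (.n0 2869 (.n2 1231 (.leaf 6) (.leaf 35)) 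
  (.leaf 6)) (.n0 2869 (.leaf 35) (.n0 2878 (.leaf 35) (.leaf 6)))) (.n0 2869 (.leaf 35) 
  (.n0 2878 (.leaf 35) (.n1 1664 (.leaf 6) (.leaf 35))))) (.n0 2906 (.n1 1664 (.leaf 6) (.n2 1243 
  (.leaf 6) (.leaf 35))) (.leaf 6)))) (.n1 1641 (.n0 2887 (.n1 1618 (.n2 1289 (.n0 2869 (.n1 1606 
  (.leaf 6) (.leaf 35)) (.leaf 6)) (.n0 2869 (.leaf 35) (.n1 1606 (.leaf 6) (.leaf 35)))) 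
  (.n0 2869 (.leaf 35) (.n0 2878 (.leaf 35) (.n2 1289 (.n0 2883 (.leaf 35) (.leaf 6)) 
  (.leaf 35))))) (.n0 2906 (.n1 1618 (.leaf 6) (.n2 1289 (.leaf 6) (.leaf 35))) (.leaf 6))) 
  (.n0 2887 (.leaf 35) (.n0 2906 (.leaf 35) (.n1 1664 (.n2 1289 (.leaf 6) (.leaf 35)) 
  (.leaf 35)))))) (.n0 2963 (.n0 2944 (.n1 1641 (.leaf 6) (.n2 1266 (.leaf 6) (.n1 1664 (.leaf 6) 
  (.n2 1289 (.leaf 6) (.leaf 35))))) (.leaf 6)) (.leaf 6)))))) (.n0 2850 (.n0 2775 (.leaf 35) 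
  (.n1 1594 (.n2 1407 (.n1 1547 (.n2 1360 (.n0 2813 (.n0 2794 (.leaf 35) (.n0 2804 (.leaf 35) 
  (.n0 2809 (.leaf 35) (.n1 1524 (.n2 1337 (.leaf 3) (.leaf 35)) (.leaf 35))))) (.n2 1337 
  (.n0 2832 (.n1 1524 (.leaf 3) (.leaf 35)) (.leaf 3)) (.n1 1524 (.n0 2832 (.leaf 35) (.leaf 3)) 
  (.leaf 35)))) (.leaf 35)) (.leaf 35)) (.leaf 35)) (.leaf 35))) (.n1 1594 (.n2 1407 (.n0 2925 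
  (.n1 1547 (.n0 2887 (.n2 1360 (.leaf 3) (.n2 1383 (.n1 1524 (.leaf 3) (.n0 2869 (.leaf 35) 
  (.leaf 3))) (.n0 2869 (.leaf 35) (.n1 1524 (.leaf 3) (.leaf 35))))) (.leaf 3)) (.n2 1360 
  (.n0 2887 (.n1 1571 (.n1 1559 (.leaf 3) (.n0 2869 (.leaf 35) (.n2 1337 (.leaf 6) (.leaf 35)))) 
  (.n0 2869 (.leaf 35) (.n0 2878 (.leaf 35) (.n0 2883 (.leaf 35) (.n2 1337 (.leaf 6) 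
  (.leaf 35)))))) (.n0 2906 (.n1 1571 (.leaf 6) (.n2 1337 (.leaf 6) (.leaf 35))) (.leaf 6))) 
  (.n0 2887 (.leaf 35) (.n0 2906 (.leaf 35) (.n1 1571 (.n2 1383 (.leaf 6) (.leaf 35)) 
  (.leaf 35)))))) (.n0 2963 (.n0 2944 (.n1 1547 (.leaf 3) (.n2 1360 (.leaf 6) (.n1 1571 (.leaf 6) 
  (.n2 1383 (.leaf 6) (.leaf 35))))) (.leaf 6)) (.leaf 6))) (.n0 2925 (.n0 2887 (.leaf 35) 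
  (.n0 2906 (.leaf 35) (.n1 1547 (.n2 1454 (.n1 1524 (.leaf 3) (.leaf 35)) (.leaf 35)) 
  (.leaf 35)))) (.n1 1547 (.n0 2963 (.n2 1454 (.leaf 3) (.n0 2944 (.leaf 35) (.n1 1524 (.leaf 3) 
  (.leaf 35)))) (.leaf 3)) (.n2 1454 (.n0 2963 (.n0 2944 (.leaf 35) (.n1 1571 (.n2 1431 (.leaf 6) 
  (.leaf 35)) (.leaf 35))) (.n0 2982 (.n1 1571 (.leaf 6) (.n2 1431 (.leaf 6) (.leaf 35))) 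
  (.leaf 6))) (.leaf 35))))) (.n2 1407 (.n0 2925 (.n0 2887 (.leaf 35) (.n0 2906 (.leaf 35) 
  (.n1 1641 (.n2 1360 (.n1 1618 (.n2 1337 (.leaf 6) (.leaf 35)) (.leaf 35)) (.leaf 35)) 
  (.leaf 35)))) (.n2 1360 (.n0 2963 (.n1 1641 (.n0 2944 (.n1 1618 (.leaf 6) (.n2 1337 (.leaf 6) 
  (.leaf 35))) (.leaf 6)) (.n0 2944 (.leaf 35) (.n1 1664 (.n2 1337 (.leaf 6) (.leaf 35)) 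
  (.leaf 35)))) (.n0 2982 (.n1 1641 (.leaf 6) (.n2 1337 (.leaf 6) (.n1 1664 (.leaf 6) 
  (.leaf 35)))) (.leaf 6))) (.n1 1641 (.n0 2963 (.n0 2944 (.leaf 35) (.n1 1618 (.n2 1383 (.leaf 6)
   (.leaf 35)) (.leaf 35))) (.n0 2982 (.n1 1618 (.leaf 6) (.n2 1383 (.leaf 6) (.leaf 35))) 
  (.leaf 6))) (.leaf 35)))) (.leaf 35))))) (.n2 1313 (.n0 2850 (.n0 2775 (.leaf 35) (.n2 1219 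
  (.n1 1782 (.n1 1735 (.n2 1172 (.n0 2813 (.n0 2794 (.leaf 35) (.n0 2804 (.leaf 35) (.n0 2809 
  (.leaf 35) (.n1 1712 (.n2 1149 (.leaf 6) (.leaf 35)) (.leaf 35))))) (.n2 1149 (.n0 2832 
  (.n1 1712 (.leaf 6) (.leaf 35)) (.leaf 6)) (.n0 2832 (.leaf 35) (.n1 1712 (.leaf 6) 
  (.leaf 35))))) (.leaf 35)) (.leaf 35)) (.leaf 35)) (.leaf 35))) (.n2 1219 (.n1 1782 (.n0 2925 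
  (.n2 1172 (.n1 1735 (.n0 2887 (.n0 2869 (.n0 2860 (.n0 2855 (.n0 2853 (.n1 1712 (.leaf 6) 
  (.n2 1149 (.leaf 6) (.leaf 35))) (.leaf 6)) (.leaf 6)) (.leaf 6)) (.leaf 6)) (.leaf 6)) 
  (.n0 2887 (.n2 1149 (.n1 1759 (.leaf 6) (.n0 2869 (.leaf 35) (.n0 2878 (.leaf 35) (.leaf 6)))) 
  (.n0 2869 (.leaf 35) (.n0 2878 (.leaf 35) (.n1 1759 (.leaf 6) (.leaf 35))))) (.n0 2906 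
  (.n0 2897 (.n1 1759 (.leaf 6) (.n2 1149 (.leaf 6) (.leaf 35))) (.leaf 6)) (.leaf 6)))) 
  (.n1 1735 (.n0 2887 (.n1 1712 (.n2 1196 (.n0 2869 (.n1 1700 (.leaf 6) (.leaf 35)) (.leaf 6)) 
  (.n0 2869 (.leaf 35) (.n0 2878 (.leaf 35) (.leaf 6)))) (.n0 2869 (.leaf 35) (.n0 2878 (.leaf 35)
   (.n2 1196 (.leaf 6) (.leaf 35))))) (.n0 2906 (.n0 2897 (.n1 1712 (.leaf 6) (.n2 1196 (.leaf 6) 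
  (.leaf 35))) (.leaf 6)) (.leaf 6))) (.n0 2887 (.leaf 35) (.n0 2906 (.leaf 35) (.n2 1196 
  (.n1 1759 (.leaf 6) (.leaf 35)) (.leaf 35)))))) (.n0 2963 (.n0 2944 (.n0 2935 (.n1 1735 
  (.leaf 6) (.n2 1172 (.leaf 6) (.n1 1759 (.leaf 6) (.n2 1196 (.leaf 6) (.leaf 35))))) (.leaf 6)) 
  (.leaf 6)) (.leaf 6))) (.n0 2925 (.n0 2887 (.leaf 35) (.n0 2906 (.leaf 35) (.n2 1172 (.n1 1828 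
  (.n2 1149 (.n1 1805 (.leaf 6) (.leaf 35)) (.leaf 35)) (.leaf 35)) (.leaf 35)))) (.n2 1172 
  (.n0 2963 (.n1 1828 (.n0 2944 (.n0 2935 (.n0 2930 (.n2 1149 (.leaf 6) (.leaf 35)) (.leaf 6)) 
  (.leaf 6)) (.leaf 6)) (.n0 2944 (.leaf 35) (.n2 1149 (.leaf 6) (.leaf 35)))) (.n0 2982 
  (.n0 2973 (.n0 2968 (.n1 1828 (.leaf 6) (.n1 1852 (.leaf 6) (.leaf 35))) (.leaf 6)) (.leaf 6)) 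
  (.leaf 6))) (.n1 1828 (.n0 2963 (.n0 2944 (.leaf 35) (.n2 1196 (.n1 1805 (.leaf 6) (.leaf 35)) 
  (.leaf 35))) (.n0 2982 (.n2 1196 (.leaf 6) (.n0 2973 (.leaf 35) (.leaf 6))) (.leaf 6))) 
  (.n0 2963 (.leaf 35) (.n0 2982 (.leaf 35) (.n0 2991 (.leaf 35) (.n1 1852 (.leaf 6) 
  (.leaf 35))))))))) (.n1 1782 (.n0 2925 (.n0 2887 (.leaf 35) (.n0 2906 (.leaf 35) (.n1 1735 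
  (.n2 1266 (.n2 1243 (.n1 1712 (.leaf 6) (.leaf 35)) (.leaf 35)) (.leaf 35)) (.leaf 35)))) 
  (.n2 1266 (.n0 2963 (.n1 1735 (.n0 2944 (.n1 1712 (.leaf 6) (.n2 1243 (.leaf 6) (.leaf 35))) 
  (.leaf 6)) (.n0 2944 (.leaf 35) (.n1 1759 (.n2 1243 (.leaf 6) (.leaf 35)) (.leaf 35)))) 
  (.n0 2982 (.n0 2973 (.n1 1735 (.leaf 6) (.n1 1759 (.leaf 6) (.leaf 35))) (.leaf 6)) (.leaf 6))) 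
  (.n1 1735 (.n0 2963 (.n0 2944 (.leaf 35) (.n1 1712 (.n2 1289 (.leaf 6) (.leaf 35)) (.leaf 35))) 
  (.n0 2982 (.n1 1712 (.leaf 6) (.n0 2973 (.leaf 35) (.leaf 6))) (.leaf 6))) (.leaf 35)))) 
  (.leaf 35)))) (.leaf 35))) (.n0 2850 (.leaf 35) (.n0 2925 (.leaf 35) (.n0 2963 (.leaf 35) 
  (.n1 2063 (.n2 1313 (.n0 2982 (.leaf 35) (.n1 1969 (.n2 1219 (.n0 2991 (.leaf 35) (.n1 1922 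
  (.n2 1172 (.n0 2996 (.leaf 35) (.leaf 6)) (.leaf 35)) (.leaf 35))) (.leaf 35)) (.leaf 35))) 
  (.leaf 35)) (.leaf 35))))))
  _ (by decide +kernel)

theorem ccE_P4 : Chk (accEopts p) {({({(accBox p) with l1 := 1500}) with h2 := 1500}) with l1 := 2250} :=
  chk_of_checkP [⟨506, 5, 15, 15⟩, ⟨1, 1, 1, 1⟩, ⟨1, 1, 1, 1⟩, ⟨506, 5, 15, 15⟩, ⟨1, 1, 1, 1⟩, ⟨1, 1, 1, 1⟩, ⟨506, 5, 15, 15⟩, ⟨1, 1, 1, 1⟩, ⟨506, 5, 15, 15⟩, ⟨506, 5, 15, 15⟩, ⟨1, 1, 1, 1⟩, ⟨1, 1, 1, 1⟩, ⟨506, 5, 15, 15⟩, ⟨1, 1, 1, 1⟩, ⟨1, 1, 1, 1⟩, ⟨506, 5, 15, 15⟩, ⟨1, 1, 1, 1⟩, ⟨1, 1, 1, 1⟩, ⟨1, 1, 1, 1⟩, ⟨1, 1, 1, 1⟩, ⟨1, 1, 1, 1⟩, ⟨507, 5, 15, 15⟩, ⟨1, 1, 1, 1⟩, ⟨1, 1, 1, 1⟩, ⟨1, 1, 1, 1⟩, ⟨1, 1, 1, 1⟩, ⟨1, 1, 1, 1⟩, ⟨1, 1, 1, 1⟩, ⟨1, 1, 1, 1⟩, ⟨1, 1, 1, 1⟩, ⟨1, 1, 1,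 1⟩, ⟨1, 1, 1, 1⟩, ⟨1, 1, 1, 1⟩, ⟨314, 4, 15, 15⟩, ⟨39, 1, 2, 2⟩, ⟨41, 2, 2, 2⟩] (accEopts p)
  (.n2 750 (.n1 2625 (.leaf 15) (.n1 2813 (.leaf 21) (.leaf 33))) (.n0 2850 (.leaf 35) (.n0 2925 
  (.leaf 35) (.n0 2963 (.leaf 35) (.n1 2625 (.n2 1125 (.n1 2438 (.n2 938 (.leaf 12) (.leaf 35)) 
  (.leaf 35)) (.leaf 35)) (.leaf 35))))))
  _ (by decide +kernel)

theorem ccE_P5 : Chk (accEopts p) {({(accBox p) with l1 := 1500}) with l2 := 1500} :=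
  chk_of_checkP [⟨506, 5, 15, 15⟩, ⟨1, 1, 1, 1⟩, ⟨1, 1, 1, 1⟩, ⟨506, 5, 15, 15⟩, ⟨1, 1, 1, 1⟩, ⟨1, 1, 1, 1⟩, ⟨506, 5, 15, 15⟩, ⟨1, 1, 1, 1⟩, ⟨506, 5, 15, 15⟩, ⟨506, 5, 15, 15⟩, ⟨1, 1, 1, 1⟩, ⟨1, 1, 1, 1⟩, ⟨506, 5, 15, 15⟩, ⟨1, 1, 1, 1⟩, ⟨1, 1, 1, 1⟩, ⟨506, 5, 15, 15⟩, ⟨1, 1, 1, 1⟩, ⟨1, 1, 1, 1⟩, ⟨1, 1, 1, 1⟩, ⟨1, 1, 1, 1⟩, ⟨1, 1, 1, 1⟩, ⟨507, 5, 15, 15⟩, ⟨1, 1, 1, 1⟩, ⟨1, 1, 1, 1⟩, ⟨1, 1, 1, 1⟩, ⟨1, 1, 1, 1⟩, ⟨1, 1, 1, 1⟩, ⟨1, 1, 1, 1⟩, ⟨1, 1, 1, 1⟩, ⟨1, 1, 1, 1⟩, ⟨1, 1, 1, 1⟩, ⟨1, 1, 1, 1⟩, ⟨1, 1, 1, 1⟩, ⟨314, 4, 15, 15⟩, ⟨39, 1, 2, 2⟩, ⟨41, 2, 2, 2⟩] (accEopts p)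
  (.n0 2850 (.leaf 35) (.n0 2925 (.leaf 35) (.n1 2250 (.n2 2250 (.n0 2963 (.leaf 35) (.n1 1875 
  (.n2 1875 (.n1 1688 (.n2 1688 (.n0 2982 (.leaf 35) (.n1 1594 (.n2 1594 (.n0 2991 (.leaf 35) 
  (.n1 1547 (.n2 1547 (.leaf 3) (.leaf 35)) (.leaf 35))) (.leaf 35)) (.leaf 35))) (.leaf 35)) 
  (.leaf 35)) (.leaf 35)) (.leaf 35))) (.leaf 35)) (.leaf 35))))
  _ (by decide +kernel)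


end Pool.Agent.T2H40.BR.T1
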