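import Pool.Agent.T2H40.BR.D.T1_ccE_0
import Pool.Agent.T2H40.BR.D.T1_ccE_1

set_option autoImplicit false
set_option maxRecDepth 1000000
set_option exponentiation.threshold 1000000000

namespace Pool.Agent.T2H40.BR.T1

theorem chk_ccE : Chk (accEopts p) (accBox p) :=
  (Chk.n1 (opts := accEopts p) 1500 ccE_P0 (Chk.n2 (opts := accEopts p) 1500 (Chk.n1 
  (opts := accEopts p) 2250 (Chk.n2 (opts := accEopts p) 750 ccE_P1 (Chk.n2 
  (opts := accEopts p) 1125 ccE_P2 ccE_P3)) ccE_P4) ccE_P5))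

end Pool.Agent.T2H40.BR.T1
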