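import Pool.Agent.T2H40.BR.D.T1

set_option autoImplicit false
set_option maxRecDepth 1000000
set_option exponentiation.threshold 1000000000

namespace Pool.Agent.T2H40.BR.T1

theorem csE0_P2 : Chk (acsEuopts p c0) {({({(acsEBox p) with h1 := 1650}) with h2 := 1500}) with l1 := 975} :=
  chk_of_checkP [⟨736, 5, 23, 31⟩, ⟨477, 3, 13, 21⟩, ⟨736, 5, 23, 31⟩, ⟨736, 5, 23, 31⟩, ⟨736, 5, 23, 31⟩, ⟨477, 3, 13, 21⟩, ⟨1, 1, 1, 1⟩, ⟨1, 1, 1, 1⟩, ⟨40, 1, 2, 3⟩, ⟨1, 1, 1, 1⟩] (acsEuopts p c0)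
  (.n2 750 (.leaf 4) (.n1 1313 (.n2 1125 (.leaf 3) (.n1 1144 (.n2 1313 (.leaf 2) (.n1 1060 
  (.n2 1407 (.leaf 1) (.n1 1018 (.leaf 0) (.leaf 1))) (.leaf 2))) (.leaf 2))) (.leaf 3)))
  _ (by decide +kernel)

theorem csE0_P3 : Chk (acsEuopts p c0) {({(acsEBox p) with h1 := 1650}) with l2 := 1500} :=
  chk_of_checkP [⟨736, 5, 23, 31⟩, ⟨477, 3, 13, 21⟩, ⟨736, 5, 23, 31⟩, ⟨736, 5, 23, 31⟩, ⟨736, 5, 23, 31⟩, ⟨477, 3, 13, 21⟩, ⟨1, 1, 1, 1⟩, ⟨1, 1, 1, 1⟩, ⟨40, 1, 2, 3⟩, ⟨1, 1, 1, 1⟩] (acsEuopts p c0)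
  (.n2 2250 (.n1 975 (.n2 1875 (.leaf 0) (.leaf 8)) (.n2 1875 (.n1 1313 (.n1 1144 (.n2 1688 
  (.n2 1594 (.n1 1060 (.leaf 0) (.leaf 1)) (.leaf 0)) (.leaf 0)) (.n2 1688 (.leaf 1) (.n1 1229 
  (.leaf 0) (.leaf 1)))) (.leaf 2)) (.leaf 0))) (.leaf 8))
  _ (by decide +kernel)

theorem csE0_P4 : Chk (acsEuopts p c0) {(acsEBox p) with l1 := 1650} :=
  chk_of_checkP [⟨736, 5, 23, 31⟩, ⟨477, 3, 13, 21⟩, ⟨736, 5, 23, 31⟩, ⟨736, 5, 23, 31⟩, ⟨736, 5, 23, 31⟩, ⟨477, 3, 13, 21⟩, ⟨1, 1, 1, 1⟩, ⟨1, 1, 1, 1⟩, ⟨40, 1, 2, 3⟩, ⟨1, 1, 1, 1⟩] (acsEuopts p c0)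
  (.n1 2325 (.n2 1500 (.leaf 3) (.n2 2250 (.leaf 2) (.n1 1988 (.n2 2625 (.n0 2850 (.leaf 1) 
  (.n0 2925 (.leaf 0) (.n1 1819 (.n2 2438 (.leaf 2) (.leaf 8)) (.leaf 2)))) (.leaf 8)) 
  (.leaf 3)))) (.leaf 5))
  _ (by decide +kernel)


end Pool.Agent.T2H40.BR.T1
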