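import Pool.Agent.T2H40.BR.D.T1_csE0_0
import Pool.Agent.T2H40.BR.D.T1_csE0_1

set_option autoImplicit false
set_option maxRecDepth 1000000
set_option exponentiation.threshold 1000000000

namespace Pool.Agent.T2H40.BR.T1

theorem chk_csE0 : Chk (acsEuopts p c0) (acsEBox p) :=
  (Chk.n1 (opts := acsEuopts p c0) 1650 (Chk.n2 (opts := acsEuopts p c0) 1500 (Chk.n1 
  (opts := acsEuopts p c0) 975 (Chk.n2 
  (opts := acsEuopts p c0) 750 csE0_P0 csE0_P1) csE0_P2) csE0_P3) csE0_P4)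

end Pool.Agent.T2H40.BR.T1
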