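import Pool.Agent.T2H40.BR.D.T1

set_option autoImplicit false
set_option maxRecDepth 1000000
set_option exponentiation.threshold 1000000000

namespace Pool.Agent.T2H40.BR.T1

theorem csN2_P1 : Chk (acsNopts p c2) {({(acsNBox p c2) with h1 := 1500}) with l2 := 2250} :=
  chk_of_checkP [⟨401, 5, 16, 15⟩, ⟨1, 1, 1, 1⟩, ⟨40, 1, 2, 2⟩, ⟨1, 1, 1, 1⟩, ⟨1, 1, 1, 1⟩] (acsNopts p c2)
  (.n1 750 (.n0 2850 (.n1 375 (.leaf 0) (.n2 2625 (.n0 2775 (.n1 563 (.n2 2438 (.leaf 0) (.n0 2738 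
  (.n0 2719 (.n1 469 (.leaf 0) (.n2 2532 (.n0 2710 (.n1 516 (.leaf 0) (.n2 2485 (.n0 2705 
  (.n2 2462 (.leaf 0) (.n1 540 (.leaf 0) (.leaf 2))) (.leaf 0)) (.leaf 2))) (.leaf 0)) (.leaf 2)))
   (.leaf 0)) (.leaf 0))) (.n2 2438 (.n0 2738 (.n1 657 (.n2 2344 (.leaf 0) (.n1 610 (.n0 2719 
  (.n2 2391 (.leaf 0) (.n1 587 (.n0 2710 (.n0 2705 (.n2 2415 (.leaf 0) (.n0 2703 (.n2 2427 
  (.leaf 0) (.n1 575 (.leaf 0) (.leaf 2))) (.leaf 0))) (.leaf 0)) (.leaf 0)) (.n2 2415 (.n0 2710 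
  (.n0 2705 (.n2 2403 (.leaf 0) (.n1 599 (.leaf 0) (.leaf 2))) (.leaf 0)) (.leaf 0)) (.leaf 2)))) 
  (.leaf 0)) (.n2 2391 (.n0 2719 (.n1 634 (.n0 2710 (.n2 2368 (.leaf 0) (.n1 622 (.n0 2705 
  (.n0 2703 (.n2 2380 (.leaf 0) (.n0 2702 (.n2 2386 (.leaf 0) (.n1 616 (.leaf 0) (.leaf 2))) 
  (.leaf 0))) (.leaf 0)) (.leaf 0)) (.n2 2380 (.n0 2705 (.n0 2703 (.n1 628 (.leaf 0) (.n2 2374 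
  (.n0 2702 (.n0 2701 (.n2 2371 (.leaf 0) (.n1 631 (.leaf 0) (.leaf 2))) (.leaf 0)) (.leaf 0)) 
  (.leaf 2))) (.leaf 0)) (.leaf 0)) (.leaf 2)))) (.leaf 0)) (.n2 2368 (.n0 2710 (.n1 646 
  (.n0 2705 (.n2 2356 (.leaf 0) (.n1 640 (.n0 2703 (.n0 2702 (.n2 2362 (.leaf 0) (.n0 2701 
  (.n2 2365 (.leaf 0) (.n1 637 (.leaf 0) (.leaf 2))) (.leaf 0))) (.leaf 0)) (.leaf 0)) (.n2 2362 
  (.n0 2703 (.n2 2359 (.leaf 0) (.n1 643 (.leaf 0) (.leaf 2))) (.leaf 0)) (.leaf 2)))) (.leaf 0)) 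
  (.n2 2356 (.n0 2705 (.n2 2350 (.n0 2703 (.n0 2702 (.n2 2347 (.leaf 0) (.n1 652 (.leaf 0) 
  (.n1 655 (.n2 2349 (.leaf 0) (.leaf 2)) (.leaf 2)))) (.leaf 0)) (.leaf 0)) (.n1 652 (.n1 649 
  (.leaf 0) (.n2 2353 (.n2 2352 (.leaf 0) (.leaf 2)) (.leaf 2))) (.leaf 2))) (.leaf 0)) 
  (.leaf 2))) (.leaf 0)) (.leaf 2))) (.leaf 0)) (.leaf 2)))) (.n2 2344 (.n1 704 (.n2 2297 
  (.leaf 0) (.n0 2719 (.n1 681 (.n2 2321 (.leaf 0) (.n0 2710 (.n1 669 (.n0 2705 (.n2 2333 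
  (.leaf 0) (.n1 663 (.n0 2703 (.n0 2702 (.n2 2339 (.leaf 0) (.n1 660 (.n0 2701 (.n2 2342 
  (.leaf 0) (.n1 659 (.leaf 0) (.leaf 2))) (.leaf 0)) (.n2 2342 (.n1 662 (.n2 2341 (.leaf 0) 
  (.leaf 2)) (.leaf 2)) (.leaf 2)))) (.leaf 0)) (.leaf 0)) (.n2 2339 (.n0 2703 (.n1 666 (.n0 2702 
  (.n0 2701 (.n2 2336 (.leaf 0) (.n2 2337 (.leaf 0) (.n2 2338 (.n1 665 (.leaf 0) (.leaf 2)) 
  (.leaf 2)))) (.leaf 0)) (.leaf 0)) (.n2 2336 (.n1 668 (.n2 2335 (.leaf 0) (.leaf 2)) (.leaf 2)) 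
  (.leaf 2))) (.leaf 0)) (.leaf 2)))) (.leaf 0)) (.n2 2333 (.n0 2705 (.n1 675 (.n0 2703 (.n2 2327 
  (.leaf 0) (.n1 672 (.n0 2702 (.n2 2330 (.leaf 0) (.n2 2331 (.n1 671 (.leaf 0) (.leaf 2)) 
  (.n2 2332 (.n0 2701 (.n1 671 (.n1 670 (.leaf 0) (.leaf 2)) (.leaf 2)) (.leaf 0)) (.leaf 2)))) 
  (.leaf 0)) (.n2 2330 (.n1 674 (.n2 2329 (.n2 2328 (.leaf 0) (.n1 673 (.leaf 0) (.leaf 2))) 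
  (.leaf 2)) (.leaf 2)) (.leaf 2)))) (.leaf 0)) (.n2 2327 (.n0 2703 (.n1 678 (.n0 2702 (.n2 2324 
  (.leaf 0) (.n2 2325 (.n1 677 (.leaf 0) (.leaf 2)) (.n2 2326 (.n0 2701 (.n1 677 (.n1 676 
  (.leaf 0) (.leaf 2)) (.leaf 2)) (.leaf 0)) (.leaf 2)))) (.leaf 0)) (.n2 2324 (.n1 680 (.n2 2323 
  (.n2 2322 (.leaf 0) (.n1 679 (.leaf 0) (.leaf 2))) (.leaf 2)) (.leaf 2)) (.leaf 2))) (.leaf 0)) 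
  (.leaf 2))) (.n0 2708 (.n0 2706 (.n2 2327 (.leaf 0) (.n1 675 (.leaf 0) (.leaf 2))) (.leaf 0)) 
  (.leaf 0))) (.leaf 2))) (.n0 2715 (.n0 2713 (.n2 2333 (.leaf 0) (.n1 669 (.leaf 0) (.leaf 2))) 
  (.leaf 0)) (.leaf 0)))) (.n2 2321 (.n0 2710 (.n2 2309 (.n1 693 (.leaf 0) (.n0 2705 (.n2 2303 
  (.n0 2703 (.n1 699 (.leaf 0) (.n2 2300 (.n0 2702 (.n0 2701 (.n1 702 (.leaf 0) (.n2 2299 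
  (.n2 2298 (.leaf 0) (.n1 703 (.leaf 0) (.leaf 2))) (.leaf 2))) (.leaf 0)) (.leaf 0)) (.n2 2302 
  (.n0 2702 (.n1 702 (.n1 701 (.n2 2301 (.leaf 0) (.n1 700 (.leaf 0) (.leaf 2))) (.leaf 2)) 
  (.leaf 2)) (.leaf 0)) (.leaf 2)))) (.leaf 0)) (.n1 699 (.n1 696 (.n0 2703 (.n2 2306 (.leaf 0) 
  (.n1 695 (.n2 2308 (.n2 2307 (.leaf 0) (.n1 694 (.leaf 0) (.leaf 2))) (.leaf 2)) (.leaf 2))) 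
  (.leaf 0)) (.n2 2306 (.n2 2305 (.n1 698 (.n2 2304 (.leaf 0) (.n1 697 (.leaf 0) (.leaf 2))) 
  (.leaf 2)) (.leaf 2)) (.leaf 2))) (.leaf 2))) (.n0 2708 (.n0 2706 (.n2 2303 (.leaf 0) (.n1 699 
  (.leaf 0) (.leaf 2))) (.leaf 0)) (.leaf 0)))) (.n1 693 (.n0 2705 (.n1 687 (.n0 2703 (.n2 2315 
  (.leaf 0) (.n1 684 (.n2 2318 (.leaf 0) (.n2 2319 (.n1 683 (.leaf 0) (.leaf 2)) (.n0 2702 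
  (.n2 2320 (.n0 2701 (.n1 683 (.n1 682 (.leaf 0) (.leaf 2)) (.leaf 2)) (.leaf 0)) (.leaf 2)) 
  (.leaf 0)))) (.n2 2318 (.n1 686 (.n2 2317 (.n2 2316 (.leaf 0) (.n1 685 (.leaf 0) (.leaf 2))) 
  (.leaf 2)) (.leaf 2)) (.leaf 2)))) (.leaf 0)) (.n2 2315 (.n1 690 (.n0 2703 (.n2 2312 (.leaf 0) 
  (.n1 689 (.n2 2314 (.n2 2313 (.leaf 0) (.n1 688 (.leaf 0) (.leaf 2))) (.leaf 2)) (.leaf 2))) 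
  (.leaf 0)) (.n2 2312 (.n1 692 (.n2 2311 (.n2 2310 (.leaf 0) (.n1 691 (.leaf 0) (.leaf 2))) 
  (.leaf 2)) (.leaf 2)) (.leaf 2))) (.leaf 2))) (.n0 2708 (.n2 2315 (.leaf 0) (.n1 687 (.leaf 0) 
  (.leaf 2))) (.leaf 0))) (.leaf 2))) (.n0 2715 (.n0 2713 (.n2 2309 (.leaf 0) (.n1 693 (.leaf 0) 
  (.leaf 2))) (.leaf 0)) (.leaf 0))) (.leaf 2))) (.n0 2729 (.n0 2724 (.n2 2321 (.leaf 0) (.n1 681 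
  (.leaf 0) (.leaf 2))) (.leaf 0)) (.leaf 0)))) (.n2 2297 (.n0 2719 (.n2 2274 (.n1 727 (.leaf 0) 
  (.n0 2710 (.n2 2262 (.n0 2705 (.n1 739 (.leaf 0) (.n2 2256 (.n0 2703 (.n0 2702 (.n0 2701 
  (.n2 2253 (.leaf 0) (.n1 744 (.leaf 0) (.n1 747 (.leaf 0) (.n2 2255 (.leaf 0) (.leaf 2))))) 
  (.leaf 0)) (.leaf 0)) (.leaf 0)) (.n1 744 (.n0 2703 (.n0 2702 (.n0 2701 (.n2 2259 (.leaf 0) 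
  (.n1 741 (.leaf 0) (.n2 2261 (.n2 2260 (.leaf 0) (.leaf 2)) (.leaf 2)))) (.leaf 0)) (.leaf 0)) 
  (.leaf 0)) (.n2 2259 (.n0 2703 (.n1 747 (.n0 2702 (.n0 2701 (.n2 2258 (.n2 2257 (.leaf 0) 
  (.leaf 2)) (.leaf 2)) (.leaf 0)) (.leaf 0)) (.leaf 2)) (.leaf 0)) (.leaf 2))))) (.leaf 0)) 
  (.n1 739 (.n0 2705 (.n2 2268 (.n0 2703 (.n0 2702 (.n1 733 (.leaf 0) (.n2 2265 (.leaf 0) 
  (.n1 736 (.n2 2267 (.leaf 0) (.n1 735 (.leaf 0) (.leaf 2))) (.leaf 2)))) (.leaf 0)) (.leaf 0)) 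
  (.n1 733 (.n0 2703 (.n0 2702 (.n2 2271 (.n0 2701 (.n1 730 (.leaf 0) (.n2 2270 (.leaf 0) 
  (.n1 732 (.leaf 0) (.leaf 2)))) (.leaf 0)) (.n1 730 (.n2 2273 (.leaf 0) (.n1 729 (.leaf 0) 
  (.leaf 2))) (.leaf 2))) (.leaf 0)) (.leaf 0)) (.leaf 2))) (.n0 2708 (.n0 2706 (.n2 2268 
  (.leaf 0) (.n1 733 (.leaf 0) (.leaf 2))) (.leaf 0)) (.leaf 0))) (.leaf 2))) (.n0 2715 (.n0 2713 
  (.n2 2262 (.leaf 0) (.n1 739 (.leaf 0) (.leaf 2))) (.leaf 0)) (.leaf 0)))) (.n1 727 (.n0 2710 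
  (.n2 2286 (.n1 716 (.leaf 0) (.n0 2705 (.n2 2280 (.n0 2703 (.n1 722 (.leaf 0) (.n2 2277 
  (.n0 2702 (.n0 2701 (.n2 2276 (.leaf 0) (.n1 725 (.leaf 0) (.leaf 2))) (.leaf 0)) (.leaf 0)) 
  (.n2 2279 (.n1 725 (.n1 724 (.leaf 0) (.leaf 2)) (.leaf 2)) (.leaf 2)))) (.leaf 0)) (.n1 722 
  (.n0 2703 (.n2 2283 (.n0 2702 (.n1 719 (.leaf 0) (.n2 2282 (.n1 721 (.n2 2281 (.leaf 0) 
  (.n1 720 (.leaf 0) (.leaf 2))) (.leaf 2)) (.leaf 2))) (.leaf 0)) (.n1 719 (.n2 2285 (.n1 718 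
  (.n2 2284 (.leaf 0) (.n1 717 (.leaf 0) (.leaf 2))) (.leaf 2)) (.leaf 2)) (.leaf 2))) (.leaf 0)) 
  (.leaf 2))) (.n0 2708 (.n0 2706 (.n2 2280 (.leaf 0) (.n1 722 (.leaf 0) (.leaf 2))) (.leaf 0)) 
  (.leaf 0)))) (.n1 716 (.n0 2705 (.n1 710 (.n0 2703 (.n2 2292 (.leaf 0) (.n1 707 (.n0 2702 
  (.n0 2701 (.n2 2295 (.leaf 0) (.n1 706 (.n2 2296 (.leaf 0) (.n1 705 (.leaf 0) (.leaf 2))) 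
  (.leaf 2))) (.leaf 0)) (.leaf 0)) (.n2 2295 (.n2 2294 (.n1 709 (.n2 2293 (.leaf 0) (.n1 708 
  (.leaf 0) (.leaf 2))) (.leaf 2)) (.leaf 2)) (.leaf 2)))) (.leaf 0)) (.n2 2292 (.n0 2703 
  (.n2 2289 (.n0 2702 (.n1 713 (.leaf 0) (.n2 2288 (.n1 715 (.n2 2287 (.leaf 0) (.n1 714 (.leaf 0)
   (.leaf 2))) (.leaf 2)) (.leaf 2))) (.leaf 0)) (.n1 713 (.n2 2291 (.n1 712 (.n2 2290 (.leaf 0) 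
  (.n1 711 (.leaf 0) (.leaf 2))) (.leaf 2)) (.leaf 2)) (.leaf 2))) (.leaf 0)) (.leaf 2))) 
  (.n0 2708 (.n0 2706 (.n2 2292 (.leaf 0) (.n1 710 (.leaf 0) (.leaf 2))) (.leaf 0)) (.leaf 0))) 
  (.leaf 2))) (.n0 2715 (.n0 2713 (.n2 2286 (.leaf 0) (.n1 716 (.leaf 0) (.leaf 2))) (.leaf 0)) 
  (.leaf 0))) (.leaf 2))) (.n0 2729 (.n0 2724 (.n2 2274 (.leaf 0) (.n1 727 (.leaf 0) (.leaf 2))) 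
  (.leaf 0)) (.leaf 0))) (.leaf 2))) (.leaf 2))) (.n1 657 (.leaf 0) (.n2 2344 (.n0 2757 (.n0 2748 
  (.n2 2297 (.leaf 0) (.n1 704 (.leaf 0) (.leaf 2))) (.leaf 0)) (.leaf 0)) (.leaf 2)))) 
  (.leaf 2))) (.leaf 0)) (.n0 2775 (.n2 2813 (.n2 2719 (.n1 563 (.n1 469 (.leaf 0) (.leaf 2)) 
  (.leaf 2)) (.leaf 2)) (.leaf 2)) (.leaf 0)))) (.leaf 0)) (.n2 2625 (.n1 1125 (.n0 2850 
  (.n2 2438 (.n2 2344 (.n1 938 (.n1 844 (.n0 2775 (.n2 2297 (.n1 797 (.n2 2274 (.n0 2738 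
  (.n2 2262 (.n1 774 (.n0 2719 (.n1 762 (.n2 2256 (.n0 2710 (.n1 756 (.n0 2705 (.n2 2253 
  (.n0 2703 (.n1 753 (.n2 2252 (.leaf 0) (.leaf 2)) (.leaf 2)) (.leaf 0)) (.leaf 2)) (.leaf 0)) 
  (.leaf 2)) (.leaf 0)) (.leaf 2)) (.leaf 2)) (.leaf 0)) (.leaf 2)) (.leaf 2)) (.leaf 0)) 
  (.leaf 2)) (.leaf 2)) (.leaf 2)) (.leaf 0)) (.leaf 2)) (.leaf 2)) (.leaf 2)) (.leaf 2)) 
  (.leaf 0)) (.leaf 2)) (.leaf 2)))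
  _ (by decide +kernel)

theorem csN2_P2 : Chk (acsNopts p c2) {(acsNBox p c2) with l1 := 1500} :=
  chk_of_checkP [⟨401, 5, 16, 15⟩, ⟨1, 1, 1, 1⟩, ⟨40, 1, 2, 2⟩, ⟨1, 1, 1, 1⟩, ⟨1, 1, 1, 1⟩] (acsNopts p c2)
  (.n2 2250 (.n1 2250 (.n2 1875 (.n1 1875 (.n2 1688 (.n2 1594 (.n1 1688 (.n1 1594 (.n0 2850 
  (.leaf 0) (.n2 1547 (.n1 1547 (.leaf 0) (.leaf 2)) (.leaf 2))) (.leaf 2)) (.leaf 2)) (.leaf 2)) 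
  (.leaf 2)) (.leaf 2)) (.leaf 2)) (.leaf 2)) (.leaf 2))
  _ (by decide +kernel)


end Pool.Agent.T2H40.BR.T1
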