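import Pool.Agent.T2H40.BR.D.T1_csN2_0
import Pool.Agent.T2H40.BR.D.T1_csN2_1

set_option autoImplicit false
set_option maxRecDepth 1000000
set_option exponentiation.threshold 1000000000

namespace Pool.Agent.T2H40.BR.T1

theorem chk_csN2 : Chk (acsNopts p c2) (acsNBox p c2) :=
  (Chk.n1 (opts := acsNopts p c2) 1500 (Chk.n2 
  (opts := acsNopts p c2) 2250 csN2_P0 csN2_P1) csN2_P2)

end Pool.Agent.T2H40.BR.T1
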