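import Pool.Agent.T2H40.BR.D.T1

set_option autoImplicit false
set_option maxRecDepth 1000000
set_option exponentiation.threshold 1000000000

namespace Pool.Agent.T2H40.BR.T1

theorem chk_ccN : Chk (accNopts p) (accBox p) :=
  chk_of_checkP [⟨415, 5, 16, 16⟩, ⟨39, 1, 2, 2⟩, ⟨41, 2, 2, 2⟩] (accNopts p)
  (.n1 1500 (.n2 1500 (.n1 750 (.leaf 0) (.n2 750 (.leaf 0) (.n1 1125 (.leaf 0) (.n2 1125 (.leaf 0) 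
  (.n1 1313 (.n2 1313 (.leaf 0) (.n2 1407 (.leaf 0) (.leaf 1))) (.n2 1313 (.n0 2850 (.n0 2775 
  (.n2 1219 (.leaf 0) (.n1 1407 (.leaf 0) (.n2 1266 (.leaf 0) (.n1 1454 (.n0 2738 (.n0 2719 
  (.n1 1431 (.leaf 0) (.n2 1289 (.leaf 0) (.leaf 2))) (.leaf 0)) (.leaf 0)) (.n0 2738 (.n0 2719 
  (.leaf 2) (.n2 1289 (.n1 1477 (.leaf 0) (.leaf 2)) (.leaf 2))) (.n0 2757 (.n2 1289 (.leaf 0) 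
  (.n1 1477 (.leaf 0) (.leaf 2))) (.leaf 0))))))) (.leaf 0)) (.leaf 0)) (.n0 2850 (.n1 1407 
  (.n2 1407 (.n0 2775 (.n1 1360 (.n2 1360 (.leaf 0) (.n2 1383 (.leaf 0) (.leaf 1))) (.n2 1360 
  (.n0 2738 (.n1 1383 (.leaf 0) (.n2 1337 (.leaf 0) (.n0 2719 (.leaf 2) (.n0 2729 (.n1 1395 
  (.leaf 0) (.leaf 2)) (.leaf 0))))) (.leaf 0)) (.n0 2738 (.n0 2719 (.leaf 2) (.n1 1383 (.n2 1383 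
  (.n0 2729 (.n1 1372 (.leaf 0) (.leaf 2)) (.leaf 0)) (.leaf 2)) (.leaf 2))) (.n1 1383 (.n2 1383 
  (.leaf 0) (.n2 1395 (.leaf 0) (.leaf 1))) (.n2 1383 (.n0 2757 (.n1 1395 (.leaf 0) (.n0 2748 
  (.leaf 2) (.leaf 0))) (.leaf 0)) (.n0 2757 (.leaf 2) (.n1 1395 (.n2 1395 (.leaf 0) (.leaf 2)) 
  (.leaf 2)))))))) (.leaf 0)) (.n1 1360 (.leaf 1) (.n2 1454 (.n1 1383 (.leaf 1) (.n0 2775 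
  (.leaf 2) (.n2 1431 (.n0 2813 (.n0 2794 (.n1 1395 (.leaf 1) (.leaf 2)) (.leaf 0)) (.leaf 0)) 
  (.leaf 1)))) (.leaf 1)))) (.n2 1407 (.n0 2775 (.n2 1360 (.n1 1454 (.n0 2738 (.n0 2719 (.leaf 2) 
  (.n1 1431 (.n2 1337 (.n0 2729 (.n1 1419 (.leaf 0) (.leaf 2)) (.leaf 0)) (.leaf 2)) (.leaf 2))) 
  (.n2 1337 (.n0 2757 (.n0 2748 (.n0 2743 (.n1 1431 (.leaf 0) (.leaf 2)) (.leaf 0)) (.leaf 0)) 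
  (.leaf 0)) (.n1 1431 (.n0 2757 (.n1 1419 (.leaf 0) (.n0 2748 (.leaf 2) (.leaf 0))) (.leaf 0)) 
  (.n0 2757 (.leaf 2) (.n0 2766 (.leaf 2) (.leaf 0)))))) (.n0 2738 (.leaf 2) (.n0 2757 (.leaf 2) 
  (.n0 2766 (.leaf 2) (.n2 1337 (.n1 1477 (.leaf 0) (.leaf 2)) (.leaf 2)))))) (.n0 2738 (.leaf 2) 
  (.n0 2757 (.leaf 2) (.n0 2766 (.leaf 2) (.n1 1454 (.n1 1431 (.n2 1383 (.n1 1419 (.leaf 0) 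
  (.leaf 2)) (.leaf 2)) (.leaf 2)) (.leaf 2)))))) (.n2 1360 (.n0 2813 (.n1 1454 (.leaf 0) 
  (.n2 1337 (.n0 2794 (.n1 1477 (.leaf 0) (.n0 2785 (.leaf 2) (.leaf 0))) (.leaf 0)) (.n1 1477 
  (.n0 2794 (.n2 1349 (.leaf 0) (.leaf 2)) (.leaf 0)) (.leaf 2)))) (.leaf 0)) (.n1 1454 (.n0 2813 
  (.n2 1383 (.n0 2794 (.n1 1431 (.leaf 0) (.n0 2785 (.leaf 2) (.n0 2790 (.leaf 2) (.leaf 0)))) 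
  (.leaf 0)) (.n1 1431 (.n0 2794 (.n0 2785 (.leaf 2) (.n1 1419 (.leaf 0) (.leaf 2))) (.leaf 0)) 
  (.leaf 2))) (.n0 2832 (.n0 2823 (.n0 2818 (.n0 2816 (.n1 1431 (.leaf 0) (.n2 1383 (.leaf 0) 
  (.n2 1395 (.leaf 0) (.leaf 2)))) (.leaf 0)) (.leaf 0)) (.leaf 0)) (.leaf 0))) (.n0 2813 
  (.leaf 2) (.n2 1383 (.n1 1477 (.leaf 0) (.n0 2832 (.leaf 2) (.leaf 0))) (.n0 2832 (.leaf 2) 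
  (.n1 1477 (.n2 1395 (.leaf 0) (.n0 2841 (.leaf 2) (.leaf 0))) (.leaf 2)))))))) (.n0 2775 
  (.leaf 2) (.n0 2813 (.leaf 2) (.n1 1454 (.n2 1454 (.n1 1431 (.n2 1431 (.n0 2832 (.n0 2823 
  (.n1 1419 (.leaf 0) (.leaf 2)) (.leaf 0)) (.leaf 0)) (.n1 1419 (.leaf 1) (.n1 1425 (.leaf 1) 
  (.leaf 2)))) (.n0 2832 (.leaf 2) (.n2 1431 (.n2 1419 (.leaf 0) (.n0 2841 (.leaf 2) (.leaf 0))) 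
  (.leaf 2)))) (.leaf 2)) (.leaf 2)))))) (.n1 1407 (.n2 1407 (.leaf 0) (.n2 1454 (.leaf 0) 
  (.leaf 1))) (.n2 1407 (.n0 2925 (.n0 2887 (.n0 2869 (.n0 2860 (.n0 2855 (.n2 1360 (.leaf 0) 
  (.n1 1454 (.leaf 0) (.n2 1383 (.leaf 0) (.n1 1477 (.leaf 0) (.leaf 2))))) (.leaf 0)) (.leaf 0)) 
  (.leaf 0)) (.leaf 0)) (.leaf 0)) (.n0 2925 (.n1 1454 (.n2 1454 (.n0 2887 (.n0 2869 (.n0 2860 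
  (.n1 1431 (.leaf 0) (.n2 1431 (.leaf 0) (.leaf 2))) (.leaf 0)) (.leaf 0)) (.leaf 0)) (.n1 1431 
  (.leaf 1) (.n2 1477 (.n0 2887 (.n1 1443 (.leaf 1) (.leaf 2)) (.leaf 0)) (.leaf 1)))) (.n2 1454 
  (.n0 2887 (.n2 1431 (.n1 1477 (.n0 2869 (.n0 2860 (.leaf 2) (.leaf 0)) (.leaf 0)) (.n0 2869 
  (.leaf 2) (.n2 1419 (.leaf 0) (.leaf 2)))) (.n0 2869 (.leaf 2) (.n0 2878 (.leaf 2) (.n0 2883 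
  (.leaf 2) (.n1 1477 (.leaf 0) (.leaf 2)))))) (.n0 2906 (.n2 1431 (.leaf 0) (.n1 1477 (.leaf 0) 
  (.leaf 2))) (.leaf 0))) (.n0 2887 (.leaf 2) (.n0 2906 (.leaf 2) (.n1 1477 (.n2 1477 (.leaf 0) 
  (.leaf 2)) (.leaf 2)))))) (.n0 2963 (.n0 2944 (.n1 1454 (.leaf 0) (.n2 1454 (.leaf 0) (.n1 1477 
  (.leaf 0) (.n2 1477 (.leaf 0) (.leaf 2))))) (.leaf 0)) (.leaf 0)))))))))))) (.n1 750 (.leaf 1) 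
  (.n2 2250 (.n1 1125 (.leaf 1) (.n2 1875 (.n1 1313 (.leaf 1) (.n2 1688 (.n2 1594 (.n1 1407 
  (.leaf 1) (.n0 2850 (.leaf 2) (.n2 1547 (.n1 1454 (.leaf 1) (.n0 2925 (.leaf 2) (.n2 1524 
  (.n0 2963 (.n1 1477 (.leaf 1) (.leaf 2)) (.leaf 0)) (.leaf 1)))) (.leaf 1)))) (.leaf 1)) 
  (.leaf 1))) (.leaf 1))) (.leaf 1)))) (.n2 1500 (.n2 750 (.leaf 0) (.n1 2250 (.n2 1125 (.leaf 0) 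
  (.n1 1875 (.n2 1313 (.n2 1219 (.n0 2850 (.n1 1688 (.n0 2775 (.n2 1172 (.leaf 0) (.n1 1594 
  (.n0 2738 (.n0 2719 (.n1 1547 (.leaf 0) (.n0 2710 (.leaf 2) (.leaf 0))) (.leaf 0)) (.leaf 0)) 
  (.n0 2738 (.leaf 2) (.n1 1641 (.leaf 0) (.leaf 2))))) (.leaf 0)) (.n0 2775 (.leaf 2) (.n2 1172 
  (.leaf 0) (.leaf 2)))) (.n0 2925 (.n0 2887 (.n1 1688 (.leaf 0) (.n1 1782 (.leaf 0) (.leaf 2))) 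
  (.leaf 0)) (.leaf 0))) (.n0 2850 (.n1 1688 (.n1 1594 (.n0 2775 (.n1 1547 (.n2 1266 (.n0 2738 
  (.n2 1243 (.n1 1524 (.leaf 0) (.leaf 2)) (.leaf 2)) (.leaf 0)) (.n0 2738 (.leaf 2) (.n0 2757 
  (.leaf 2) (.n2 1289 (.n1 1524 (.leaf 0) (.leaf 2)) (.leaf 2))))) (.n0 2738 (.leaf 2) (.n0 2757 
  (.leaf 2) (.n2 1266 (.n1 1571 (.leaf 0) (.leaf 2)) (.leaf 2))))) (.n2 1266 (.leaf 0) (.n1 1547 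
  (.n0 2813 (.n0 2794 (.n1 1524 (.leaf 0) (.n2 1289 (.leaf 0) (.leaf 2))) (.leaf 0)) (.leaf 0)) 
  (.n0 2813 (.n0 2794 (.leaf 2) (.n0 2804 (.leaf 2) (.n2 1289 (.leaf 0) (.leaf 2)))) (.n0 2832 
  (.n1 1571 (.leaf 0) (.leaf 2)) (.leaf 0)))))) (.n0 2775 (.leaf 2) (.n1 1641 (.n2 1266 (.n0 2813 
  (.n2 1243 (.leaf 0) (.leaf 2)) (.leaf 0)) (.leaf 2)) (.leaf 2)))) (.leaf 2)) (.n1 1688 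
  (.n0 2925 (.n1 1594 (.leaf 0) (.n2 1266 (.leaf 0) (.n1 1641 (.n0 2887 (.n1 1618 (.leaf 0) 
  (.n0 2869 (.leaf 2) (.leaf 0))) (.leaf 0)) (.n0 2887 (.leaf 2) (.n0 2906 (.leaf 2) 
  (.leaf 0)))))) (.leaf 0)) (.n1 1782 (.n0 2925 (.n0 2887 (.leaf 2) (.n2 1266 (.n0 2906 (.leaf 2) 
  (.leaf 0)) (.leaf 2))) (.n0 2963 (.n2 1266 (.leaf 0) (.n2 1289 (.n0 2944 (.leaf 2) (.leaf 0)) 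
  (.leaf 2))) (.leaf 0))) (.leaf 2))))) (.n1 1688 (.n0 2850 (.n0 2775 (.leaf 2) (.n1 1594 
  (.n2 1407 (.n1 1547 (.n2 1360 (.n0 2813 (.n0 2794 (.leaf 2) (.n0 2804 (.leaf 2) (.n0 2809 
  (.leaf 2) (.n1 1524 (.n2 1337 (.leaf 0) (.leaf 2)) (.leaf 2))))) (.n2 1337 (.n0 2832 (.n1 1524 
  (.leaf 0) (.leaf 2)) (.leaf 0)) (.n0 2832 (.leaf 2) (.n1 1524 (.leaf 0) (.leaf 2))))) (.leaf 2))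
   (.leaf 2)) (.leaf 2)) (.leaf 2))) (.n1 1594 (.n2 1407 (.n0 2925 (.n2 1360 (.n0 2887 (.n1 1547 
  (.leaf 0) (.n2 1337 (.n1 1571 (.leaf 0) (.n0 2869 (.leaf 2) (.leaf 0))) (.n0 2869 (.leaf 2) 
  (.n1 1571 (.leaf 0) (.leaf 2))))) (.leaf 0)) (.n1 1547 (.n0 2887 (.n2 1383 (.n1 1524 (.n0 2869 
  (.n1 1512 (.leaf 0) (.leaf 2)) (.leaf 0)) (.n0 2869 (.leaf 2) (.n0 2878 (.leaf 2) (.leaf 0)))) 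
  (.n0 2869 (.leaf 2) (.n0 2878 (.leaf 2) (.n1 1524 (.leaf 0) (.leaf 2))))) (.n0 2906 (.n0 2897 
  (.n1 1524 (.leaf 0) (.n2 1383 (.leaf 0) (.leaf 2))) (.leaf 0)) (.leaf 0))) (.n0 2887 (.leaf 2) 
  (.n0 2906 (.leaf 2) (.n2 1383 (.n1 1571 (.leaf 0) (.leaf 2)) (.leaf 2)))))) (.n0 2963 (.n0 2944 
  (.n0 2935 (.n1 1547 (.leaf 0) (.n2 1360 (.leaf 0) (.n1 1571 (.leaf 0) (.n2 1383 (.leaf 0) 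
  (.leaf 2))))) (.leaf 0)) (.leaf 0)) (.leaf 0))) (.n0 2925 (.n0 2887 (.leaf 2) (.n0 2906 
  (.leaf 2) (.n1 1547 (.n2 1454 (.n2 1431 (.n1 1524 (.leaf 0) (.leaf 2)) (.leaf 2)) (.leaf 2)) 
  (.leaf 2)))) (.n2 1454 (.n0 2963 (.n1 1547 (.n0 2944 (.n1 1524 (.leaf 0) (.n2 1431 (.leaf 0) 
  (.leaf 2))) (.leaf 0)) (.n0 2944 (.leaf 2) (.n1 1571 (.n2 1431 (.leaf 0) (.leaf 2)) (.leaf 2))))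
   (.n0 2982 (.n1 1547 (.leaf 0) (.n1 1571 (.leaf 0) (.n2 1431 (.leaf 0) (.leaf 2)))) (.leaf 0))) 
  (.n1 1547 (.n0 2963 (.n0 2944 (.leaf 2) (.n1 1524 (.n2 1477 (.leaf 0) (.leaf 2)) (.leaf 2))) 
  (.n1 1524 (.leaf 0) (.n2 1477 (.leaf 0) (.leaf 2)))) (.leaf 2))))) (.n2 1407 (.n0 2925 
  (.n0 2887 (.leaf 2) (.n0 2906 (.leaf 2) (.n1 1641 (.n2 1360 (.n1 1618 (.leaf 0) (.leaf 2)) 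
  (.leaf 2)) (.leaf 2)))) (.n2 1360 (.n0 2963 (.n1 1641 (.leaf 0) (.n2 1337 (.n0 2944 (.leaf 2) 
  (.leaf 0)) (.leaf 2))) (.leaf 0)) (.n1 1641 (.n0 2963 (.n0 2944 (.leaf 2) (.n2 1383 (.leaf 0) 
  (.leaf 2))) (.n0 2982 (.n1 1618 (.leaf 0) (.n0 2973 (.leaf 2) (.leaf 0))) (.leaf 0))) 
  (.leaf 2)))) (.leaf 2)))) (.leaf 2))) (.n0 2850 (.leaf 2) (.n0 2925 (.leaf 2) (.n0 2963 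
  (.leaf 2) (.n1 2063 (.n2 1313 (.n2 1219 (.leaf 0) (.leaf 2)) (.leaf 2)) (.leaf 2))))))) 
  (.n2 1125 (.leaf 0) (.leaf 2)))) (.n0 2850 (.leaf 2) (.n0 2925 (.leaf 2) (.n1 2250 (.n2 2250 
  (.n0 2963 (.leaf 2) (.n1 1875 (.n2 1875 (.n1 1688 (.n2 1688 (.n0 2982 (.leaf 2) (.n1 1594 
  (.n2 1594 (.n0 2991 (.leaf 2) (.n1 1547 (.n2 1547 (.n0 2996 (.leaf 2) (.n1 1524 (.n2 1524 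
  (.leaf 0) (.leaf 2)) (.leaf 2))) (.leaf 2)) (.leaf 2))) (.leaf 2)) (.leaf 2))) (.leaf 2)) 
  (.leaf 2)) (.leaf 2)) (.leaf 2))) (.leaf 2)) (.leaf 2))))))
  _ (by decide +kernel)

theorem chk_ssN20 : Chk (assNopts p c2 c0) (assBox p c2 c0) :=
  chk_of_checkP [⟨384, 5, 15, 15⟩, ⟨198, 3, 10, 10⟩, ⟨1, 1, 1, 1⟩, ⟨40, 2, 2, 2⟩] (assNopts p c2 c0)
  (.n1 2250 (.n0 2850 (.n1 1875 (.leaf 0) (.n1 2063 (.leaf 0) (.n0 2775 (.n2 375 (.leaf 1) 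
  (.n0 2738 (.leaf 1) (.n1 2157 (.n0 2757 (.leaf 1) (.leaf 0)) (.leaf 1)))) (.n0 2813 (.n1 2157 
  (.leaf 0) (.n0 2794 (.leaf 1) (.n2 375 (.leaf 1) (.leaf 0)))) (.leaf 0))))) (.leaf 0)) 
  (.n0 2850 (.n1 2625 (.n0 2775 (.leaf 1) (.n0 2813 (.n2 375 (.leaf 1) (.n2 563 (.leaf 1) 
  (.n1 2438 (.leaf 1) (.leaf 3)))) (.n0 2832 (.n1 2438 (.leaf 1) (.n1 2532 (.leaf 1) (.n1 2579 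
  (.n0 2823 (.leaf 1) (.leaf 0)) (.leaf 0)))) (.leaf 0)))) (.n2 375 (.n1 2813 (.n0 2775 (.n2 188 
  (.n1 2719 (.n0 2738 (.leaf 1) (.n0 2757 (.leaf 1) (.n1 2672 (.leaf 1) (.n1 2696 (.leaf 1) 
  (.n0 2766 (.n2 94 (.n0 2762 (.leaf 1) (.n1 2708 (.leaf 1) (.leaf 0))) (.leaf 3)) (.n2 94 
  (.n0 2771 (.n1 2708 (.leaf 1) (.leaf 0)) (.leaf 0)) (.leaf 3))))))) (.n2 94 (.n1 2766 (.n0 2738 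
  (.n1 2743 (.leaf 1) (.leaf 3)) (.n0 2757 (.n2 47 (.n1 2743 (.n1 2731 (.n0 2748 (.leaf 1) 
  (.n1 2725 (.leaf 1) (.leaf 0))) (.n0 2748 (.n1 2737 (.n0 2743 (.leaf 1) (.leaf 0)) (.leaf 0)) 
  (.leaf 0))) (.leaf 0)) (.leaf 3)) (.leaf 0))) (.leaf 0)) (.leaf 3))) (.leaf 3)) (.n0 2813 
  (.n1 2719 (.n1 2672 (.n0 2794 (.leaf 1) (.n0 2804 (.n1 2649 (.leaf 1) (.leaf 0)) (.leaf 0))) 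
  (.n2 188 (.n0 2794 (.n0 2785 (.n1 2696 (.n1 2684 (.leaf 1) (.leaf 0)) (.leaf 0)) (.leaf 0)) 
  (.leaf 0)) (.leaf 3))) (.leaf 0)) (.leaf 0))) (.leaf 0)) (.leaf 3))) (.leaf 0)))
  _ (by decide +kernel)

theorem chk_ssE21 : Chk (assEopts p c2 c1) (assBox p c2 c1) :=
  chk_of_checkP [⟨1, 1, 1, 1⟩, ⟨1, 1, 1, 1⟩, ⟨1, 1, 1, 1⟩, ⟨1, 1, 1, 1⟩, ⟨1, 1, 1, 1⟩, ⟨353, 5, 16, 16⟩, ⟨1, 1, 1, 1⟩, ⟨1, 1, 1, 1⟩, ⟨1, 1, 1, 1⟩, ⟨1, 1, 1, 1⟩, ⟨1, 1, 1, 1⟩, ⟨1, 1, 1, 1⟩, ⟨1, 1, 1, 1⟩, ⟨1, 1, 1, 1⟩, ⟨1, 1, 1, 1⟩, ⟨1, 1, 1, 1⟩, ⟨1, 1, 1, 1⟩, ⟨1, 1, 1, 1⟩, ⟨1, 1, 1, 1⟩, ⟨1, 1, 1, 1⟩, ⟨1, 1, 1, 1⟩, ⟨1, 1, 1, 1⟩, ⟨1, 1, 1, 1⟩, ⟨1, 1, 1, 1⟩, ⟨40, 2, 2, 2⟩] (assEopts p c2 c1)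
  (.n1 2250 (.n0 2850 (.n0 2775 (.n1 1875 (.leaf 5) (.n1 2063 (.leaf 5) (.leaf 24))) (.leaf 5)) 
  (.leaf 5)) (.n0 2850 (.leaf 24) (.leaf 5)))
  _ (by decide +kernel)

theorem chk_ssE22 : Chk (assEopts p c2 c2) (assBox p c2 c2) :=
  chk_of_checkP [⟨1, 1, 1, 1⟩, ⟨1, 1, 1, 1⟩, ⟨1, 1, 1, 1⟩, ⟨1, 1, 1, 1⟩, ⟨1, 1, 1, 1⟩, ⟨356, 5, 16, 16⟩, ⟨1, 1, 1, 1⟩, ⟨1, 1, 1, 1⟩, ⟨1, 1, 1, 1⟩, ⟨1, 1, 1, 1⟩, ⟨1, 1, 1, 1⟩, ⟨1, 1, 1, 1⟩, ⟨1, 1, 1, 1⟩, ⟨1, 1, 1, 1⟩, ⟨1, 1, 1, 1⟩, ⟨1, 1, 1, 1⟩, ⟨1, 1, 1, 1⟩, ⟨1, 1, 1, 1⟩, ⟨1, 1, 1, 1⟩, ⟨1, 1, 1, 1⟩, ⟨1, 1, 1, 1⟩, ⟨1, 1, 1, 1⟩, ⟨1, 1, 1, 1⟩, ⟨1, 1, 1, 1⟩, ⟨41, 2, 2, 2⟩] (assEopts p c2 c2)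
  (.n0 2850 (.leaf 24) (.n0 2925 (.leaf 24) (.leaf 5)))
  _ (by decide +kernel)

theorem chk_vS1 : Chk (avSopts p c1) (aSBox p c1) :=
  chk_of_checkP [⟨82, 2, 5, 1⟩, ⟨1, 1, 1, 1⟩] (avSopts p c1)
  (.leaf 0)
  _ (by decide +kernel)

theorem chk_vS2 : Chk (avSopts p c2) (aSBox p c2) :=
  chk_of_checkP [⟨82, 2, 5, 1⟩, ⟨1, 1, 1, 1⟩] (avSopts p c2)
  (.leaf 0)
  _ (by decide +kernel)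

theorem chk_vS0 : Chk (avSopts p c0) (aSBox p c0) :=
  chk_of_checkP [⟨78, 2, 5, 1⟩, ⟨1, 1, 1, 1⟩] (avSopts p c0)
  (.leaf 0)
  _ (by decide +kernel)


end Pool.Agent.T2H40.BR.T1
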