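import Pool.Agent.T2H40.BR.D.T1

set_option autoImplicit false
set_option maxRecDepth 1000000
set_option exponentiation.threshold 1000000000

namespace Pool.Agent.T2H40.BR.T1

theorem chk_csE1 : Chk (acsEuopts p c1) (acsEBox p) :=
  chk_of_checkP [⟨736, 5, 23, 31⟩, ⟨1, 1, 1, 1⟩, ⟨736, 5, 23, 31⟩, ⟨736, 5, 23, 31⟩, ⟨1, 1, 1, 1⟩, ⟨477, 3, 13, 21⟩, ⟨1, 1, 1, 1⟩, ⟨40, 1, 2, 3⟩, ⟨40, 1, 2, 3⟩, ⟨1, 1, 1, 1⟩] (acsEuopts p c1)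
  (.n2 1500 (.leaf 7) (.n1 1650 (.n2 2250 (.n1 975 (.n2 1875 (.n1 638 (.leaf 0) (.n2 1688 (.leaf 7) 
  (.n0 2850 (.n1 807 (.leaf 0) (.n2 1782 (.n1 891 (.leaf 0) (.leaf 7)) (.leaf 0))) (.leaf 0)))) 
  (.leaf 0)) (.n2 1875 (.n1 1313 (.n1 1144 (.n2 1688 (.leaf 7) (.n2 1782 (.leaf 7) (.n2 1828 
  (.n1 1060 (.leaf 0) (.leaf 7)) (.leaf 0)))) (.leaf 7)) (.leaf 7)) (.n1 1313 (.n1 1144 (.leaf 0) 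
  (.n2 2063 (.n2 1969 (.n2 1922 (.n1 1229 (.leaf 0) (.leaf 7)) (.leaf 0)) (.leaf 0)) (.leaf 0))) 
  (.n1 1482 (.n2 2063 (.n2 1969 (.leaf 7) (.n1 1398 (.leaf 0) (.leaf 2))) (.leaf 0)) (.leaf 2)))))
   (.n2 2625 (.n1 975 (.n2 2438 (.leaf 0) (.n1 638 (.leaf 8) (.leaf 0))) (.leaf 0)) (.n1 975 
  (.leaf 8) (.n1 1313 (.n2 2813 (.n0 2850 (.leaf 0) (.n0 2925 (.leaf 0) (.n1 1144 (.n2 2719 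
  (.leaf 0) (.leaf 8)) (.leaf 0)))) (.n1 1144 (.leaf 8) (.n2 2907 (.n1 1229 (.leaf 8) (.leaf 0)) 
  (.leaf 8)))) (.leaf 0))))) (.n1 2325 (.n2 2250 (.leaf 5) (.n1 1988 (.n2 2625 (.leaf 2) 
  (.leaf 0)) (.leaf 3))) (.leaf 5))))
  _ (by decide +kernel)

theorem chk_csEu2 : Chk (acsEuopts p c2) (acsEuBox p) :=
  chk_of_checkP [⟨715, 5, 23, 31⟩, ⟨1, 1, 1, 1⟩, ⟨1, 1, 1, 1⟩, ⟨1, 1, 1, 1⟩, ⟨1, 1, 1, 1⟩, ⟨1, 1, 1, 1⟩, ⟨1, 1, 1, 1⟩, ⟨40, 1, 2, 3⟩, ⟨1, 1, 1, 1⟩, ⟨1, 1, 1, 1⟩] (acsEuopts p c2)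
  (.n2 1800 (.leaf 7) (.n0 2850 (.leaf 0) (.n0 2925 (.leaf 0) (.n0 2963 (.leaf 0) (.leaf 0)))))
  _ (by decide +kernel)

theorem chk_csN1 : Chk (acsNopts p c1) (acsNBox p c1) :=
  chk_of_checkP [⟨399, 5, 16, 15⟩, ⟨1, 1, 1, 1⟩, ⟨39, 1, 2, 2⟩, ⟨1, 1, 1, 1⟩, ⟨1, 1, 1, 1⟩] (acsNopts p c1)
  (.n1 1500 (.leaf 0) (.n1 2250 (.n0 2850 (.n1 1875 (.n2 1125 (.leaf 0) (.n0 2775 (.leaf 0) 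
  (.n2 1313 (.leaf 0) (.n1 1688 (.leaf 0) (.leaf 2))))) (.n2 1125 (.n2 938 (.leaf 0) (.n1 2063 
  (.leaf 0) (.leaf 2))) (.n2 1313 (.n2 1219 (.n1 2063 (.leaf 0) (.leaf 2)) (.leaf 2)) (.leaf 2))))
   (.n2 1125 (.n2 938 (.leaf 0) (.n1 1875 (.leaf 0) (.n1 2063 (.leaf 0) (.leaf 2)))) (.n1 1875 
  (.n2 1313 (.leaf 0) (.n1 1688 (.n0 2925 (.leaf 0) (.n2 1407 (.leaf 0) (.n1 1594 (.leaf 0) 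
  (.leaf 2)))) (.leaf 2))) (.n2 1313 (.n2 1219 (.n2 1172 (.n1 2063 (.leaf 0) (.leaf 2)) (.leaf 2))
   (.leaf 2)) (.leaf 2))))) (.n2 1125 (.n2 938 (.n2 844 (.n1 2625 (.n2 797 (.n1 2438 (.leaf 0) 
  (.leaf 2)) (.leaf 2)) (.leaf 2)) (.leaf 2)) (.leaf 2)) (.leaf 2))))
  _ (by decide +kernel)

theorem chk_csEt0 : Chk (acsEtopts p c0) (acsEtBox p) :=
  chk_of_checkP [⟨722, 5, 49, 31⟩, ⟨1, 1, 1, 1⟩, ⟨1, 1, 1, 1⟩, ⟨1, 1, 1, 1⟩, ⟨1, 1, 1, 1⟩, ⟨1, 1, 1, 1⟩, ⟨1, 1, 1, 1⟩, ⟨1, 1, 1, 1⟩, ⟨1, 1, 1, 1⟩, ⟨1, 1, 1, 1⟩] (acsEtopts p c0)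
  (.leaf 0)
  _ (by decide +kernel)

theorem chk_csN0 : Chk (acsNopts p c0) (acsNBox p c0) :=
  chk_of_checkP [⟨394, 5, 16, 15⟩, ⟨1, 1, 1, 1⟩, ⟨39, 1, 2, 2⟩, ⟨1, 1, 1, 1⟩, ⟨1, 1, 1, 1⟩] (acsNopts p c0)
  (.n1 1500 (.leaf 0) (.n1 2250 (.leaf 0) (.n1 2625 (.leaf 0) (.n2 375 (.n1 2813 (.n0 2850 (.leaf 0)
   (.n0 2925 (.leaf 0) (.leaf 0))) (.n2 188 (.n0 2850 (.leaf 0) (.n0 2925 (.leaf 0) (.n0 2963 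
  (.leaf 0) (.leaf 0)))) (.leaf 2))) (.n2 563 (.n2 469 (.n2 422 (.n1 2813 (.n0 2850 (.leaf 0) 
  (.n0 2925 (.leaf 0) (.leaf 0))) (.leaf 2)) (.leaf 2)) (.leaf 2)) (.leaf 2))))))
  _ (by decide +kernel)

theorem chk_ssN22 : Chk (assNopts p c2 c2) (assBox p c2 c2) :=
  chk_of_checkP [⟨388, 5, 15, 15⟩, ⟨1, 1, 1, 1⟩, ⟨1, 1, 1, 1⟩, ⟨41, 2, 2, 2⟩] (assNopts p c2 c2)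
  (.n0 2850 (.leaf 3) (.n0 2925 (.leaf 3) (.leaf 0)))
  _ (by decide +kernel)

theorem chk_ssE11 : Chk (assEopts p c1 c1) (assBox p c1 c1) :=
  chk_of_checkP [⟨1, 1, 1, 1⟩, ⟨1, 1, 1, 1⟩, ⟨1, 1, 1, 1⟩, ⟨1, 1, 1, 1⟩, ⟨1, 1, 1, 1⟩, ⟨349, 5, 16, 16⟩, ⟨1, 1, 1, 1⟩, ⟨1, 1, 1, 1⟩, ⟨1, 1, 1, 1⟩, ⟨1, 1, 1, 1⟩, ⟨1, 1, 1, 1⟩, ⟨1, 1, 1, 1⟩, ⟨1, 1, 1, 1⟩, ⟨1, 1, 1, 1⟩, ⟨1, 1, 1, 1⟩, ⟨1, 1, 1, 1⟩, ⟨1, 1, 1, 1⟩, ⟨1, 1, 1, 1⟩, ⟨1, 1, 1, 1⟩, ⟨1, 1, 1, 1⟩, ⟨1, 1, 1, 1⟩, ⟨1, 1, 1, 1⟩, ⟨1, 1, 1, 1⟩, ⟨1, 1, 1, 1⟩, ⟨1, 1, 1, 1⟩] (assEopts p c1 c1)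
  (.leaf 5)
  _ (by decide +kernel)

theorem chk_vC : Chk (avCopts p) (aCBox p) :=
  chk_of_checkP [⟨83, 2, 5, 1⟩, ⟨39, 2, 2, 1⟩] (avCopts p)
  (.n1 1500 (.leaf 0) (.n1 2250 (.leaf 0) (.n1 2625 (.leaf 0) (.n1 2813 (.leaf 0) (.n0 2850 
  (.n0 2775 (.leaf 1) (.n1 2907 (.leaf 0) (.leaf 1))) (.n0 2925 (.n1 2907 (.leaf 0) (.n1 2954 
  (.leaf 0) (.leaf 1))) (.leaf 0)))))))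
  _ (by decide +kernel)


end Pool.Agent.T2H40.BR.T1
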