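import Pool.Agent.T2H40.BR.D.T1

set_option autoImplicit false
set_option maxRecDepth 1000000
set_option exponentiation.threshold 1000000000

namespace Pool.Agent.T2H40.BR.T1

theorem chk_csEs0 : Chk (acsEsopts p c0) (acsEsBox p) :=
  chk_of_checkP [⟨682, 3, 31, 21⟩, ⟨1046, 5, 47, 31⟩] (acsEsopts p c0)
  (.n2 3000 (.leaf 0) (.n1 150 (.leaf 1) (.n1 225 (.leaf 1) (.n2 4500 (.n2 3750 (.n2 3375 (.n2 3188 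
  (.leaf 0) (.leaf 1)) (.leaf 1)) (.leaf 1)) (.leaf 1)))))
  _ (by decide +kernel)

theorem chk_csE2 : Chk (acsEuopts p c2) (acsEBox p) :=
  chk_of_checkP [⟨732, 5, 23, 31⟩, ⟨1, 1, 1, 1⟩, ⟨1, 1, 1, 1⟩, ⟨1, 1, 1, 1⟩, ⟨1, 1, 1, 1⟩, ⟨1, 1, 1, 1⟩, ⟨1, 1, 1, 1⟩, ⟨40, 1, 2, 3⟩, ⟨1, 1, 1, 1⟩, ⟨1, 1, 1, 1⟩] (acsEuopts p c2)
  (.n2 1500 (.leaf 7) (.n1 1650 (.n2 2250 (.n1 975 (.n1 638 (.n2 1875 (.leaf 7) (.n1 469 (.n2 2063 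
  (.leaf 7) (.leaf 0)) (.leaf 7))) (.leaf 7)) (.leaf 7)) (.n1 975 (.n2 2625 (.n2 2438 (.n1 638 
  (.leaf 0) (.n1 807 (.n2 2344 (.leaf 7) (.leaf 0)) (.leaf 7))) (.leaf 0)) (.n0 2850 (.leaf 0) 
  (.leaf 0))) (.n2 2625 (.n1 1313 (.n1 1144 (.n2 2438 (.leaf 7) (.n2 2532 (.leaf 7) (.n1 1060 
  (.leaf 0) (.leaf 7)))) (.leaf 7)) (.leaf 7)) (.n1 1313 (.n2 2813 (.n1 1144 (.leaf 0) (.n2 2719 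
  (.n1 1229 (.n1 1187 (.leaf 0) (.leaf 7)) (.leaf 7)) (.leaf 0))) (.leaf 0)) (.n2 2813 (.leaf 7) 
  (.n1 1482 (.n2 2907 (.n1 1398 (.leaf 0) (.n2 2860 (.leaf 7) (.n1 1440 (.leaf 0) (.leaf 7)))) 
  (.leaf 0)) (.n2 2907 (.leaf 7) (.n1 1566 (.n1 1524 (.n2 2954 (.leaf 7) (.leaf 0)) (.leaf 7)) 
  (.leaf 7))))))))) (.leaf 7)))
  _ (by decide +kernel)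

theorem chk_csEu1 : Chk (acsEuopts p c1) (acsEuBox p) :=
  chk_of_checkP [⟨718, 5, 23, 31⟩, ⟨1, 1, 1, 1⟩, ⟨1, 1, 1, 1⟩, ⟨1, 1, 1, 1⟩, ⟨1, 1, 1, 1⟩, ⟨1, 1, 1, 1⟩, ⟨1, 1, 1, 1⟩, ⟨40, 1, 2, 3⟩, ⟨40, 1, 2, 3⟩, ⟨1, 1, 1, 1⟩] (acsEuopts p c1)
  (.n2 1800 (.n2 1200 (.leaf 7) (.leaf 0)) (.n2 2400 (.leaf 0) (.leaf 8)))
  _ (by decide +kernel)

theorem chk_csEu0 : Chk (acsEuopts p c0) (acsEuBox p) :=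
  chk_of_checkP [⟨716, 5, 23, 31⟩, ⟨1, 1, 1, 1⟩, ⟨1, 1, 1, 1⟩, ⟨1, 1, 1, 1⟩, ⟨1, 1, 1, 1⟩, ⟨1, 1, 1, 1⟩, ⟨1, 1, 1, 1⟩, ⟨1, 1, 1, 1⟩, ⟨40, 1, 2, 3⟩, ⟨1, 1, 1, 1⟩] (acsEuopts p c0)
  (.n2 1800 (.leaf 0) (.leaf 8))
  _ (by decide +kernel)

theorem chk_ssN21 : Chk (assNopts p c2 c1) (assBox p c2 c1) :=
  chk_of_checkP [⟨386, 5, 15, 15⟩, ⟨1, 1, 1, 1⟩, ⟨1, 1, 1, 1⟩, ⟨40, 2, 2, 2⟩] (assNopts p c2 c1)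
  (.n0 2850 (.n1 2250 (.n1 1875 (.leaf 0) (.n1 2063 (.leaf 0) (.n0 2775 (.leaf 3) (.leaf 0)))) 
  (.leaf 3)) (.leaf 0))
  _ (by decide +kernel)

theorem chk_ssE10 : Chk (assEopts p c1 c0) (assBox p c1 c0) :=
  chk_of_checkP [⟨1, 1, 1, 1⟩, ⟨345, 5, 16, 16⟩, ⟨1, 1, 1, 1⟩, ⟨1, 1, 1, 1⟩, ⟨1, 1, 1, 1⟩, ⟨1, 1, 1, 1⟩, ⟨1, 1, 1, 1⟩, ⟨1, 1, 1, 1⟩, ⟨1, 1, 1, 1⟩, ⟨1, 1, 1, 1⟩, ⟨1, 1, 1, 1⟩, ⟨1, 1, 1, 1⟩, ⟨1, 1, 1, 1⟩, ⟨1, 1, 1, 1⟩, ⟨1, 1, 1, 1⟩, ⟨1, 1, 1, 1⟩, ⟨1, 1, 1, 1⟩, ⟨1, 1, 1, 1⟩, ⟨1, 1, 1, 1⟩, ⟨1, 1, 1, 1⟩, ⟨1, 1, 1, 1⟩, ⟨1, 1, 1, 1⟩, ⟨1, 1, 1, 1⟩, ⟨1, 1, 1, 1⟩, ⟨1, 1, 1, 1⟩] (assEopts p c1 c0)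
  (.leaf 1)
  _ (by decide +kernel)

theorem chk_ssN11 : Chk (assNopts p c1 c1) (assBox p c1 c1) :=
  chk_of_checkP [⟨384, 5, 15, 15⟩, ⟨1, 1, 1, 1⟩, ⟨1, 1, 1, 1⟩, ⟨1, 1, 1, 1⟩] (assNopts p c1 c1)
  (.leaf 0)
  _ (by decide +kernel)

theorem chk_ssE00 : Chk (assEopts p c0 c0) (assBox p c0 c0) :=
  chk_of_checkP [⟨1, 1, 1, 1⟩, ⟨335, 5, 16, 16⟩, ⟨1, 1, 1, 1⟩, ⟨1, 1, 1, 1⟩, ⟨1, 1, 1, 1⟩, ⟨1, 1, 1, 1⟩, ⟨1, 1, 1, 1⟩, ⟨1, 1, 1, 1⟩, ⟨1, 1, 1, 1⟩, ⟨1, 1, 1, 1⟩, ⟨1, 1, 1, 1⟩, ⟨1, 1, 1, 1⟩, ⟨1, 1, 1, 1⟩, ⟨1, 1, 1, 1⟩, ⟨1, 1, 1, 1⟩, ⟨1, 1, 1, 1⟩, ⟨1, 1, 1, 1⟩, ⟨1, 1, 1, 1⟩, ⟨1, 1, 1, 1⟩, ⟨1, 1, 1, 1⟩, ⟨1, 1, 1, 1⟩, ⟨1, 1, 1, 1⟩, ⟨1, 1, 1, 1⟩, ⟨1, 1, 1, 1⟩, ⟨1, 1, 1, 1⟩] (assEopts p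 c0 c0)
  (.leaf 1)
  _ (by decide +kernel)

theorem chk_ssN10 : Chk (assNopts p c1 c0) (assBox p c1 c0) :=
  chk_of_checkP [⟨380, 5, 15, 15⟩, ⟨1, 1, 1, 1⟩, ⟨1, 1, 1, 1⟩, ⟨1, 1, 1, 1⟩] (assNopts p c1 c0)
  (.leaf 0)
  _ (by decide +kernel)

theorem chk_ssN00 : Chk (assNopts p c0 c0) (assBox p c0 c0) :=
  chk_of_checkP [⟨371, 5, 15, 15⟩, ⟨1, 1, 1, 1⟩, ⟨1, 1, 1, 1⟩, ⟨1, 1, 1, 1⟩] (assNopts p c0 c0)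
  (.leaf 0)
  _ (by decide +kernel)


end Pool.Agent.T2H40.BR.T1
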