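import Pool.Agent.T2H40.BR.D.T1_ssE20_0

set_option autoImplicit false
set_option maxRecDepth 1000000
set_option exponentiation.threshold 1000000000

namespace Pool.Agent.T2H40.BR.T1

theorem chk_ssE20 : Chk (assEopts p c2 c0) (assBox p c2 c0) :=
  (Chk.n1 (opts := assEopts p c2 c0) 2250 ssE20_P0 (Chk.n1 
  (opts := assEopts p c2 c0) 2625 ssE20_P1 ssE20_P2))

end Pool.Agent.T2H40.BR.T1
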