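import Pool.Agent.T2H40.BR.D.U1

set_option autoImplicit false
set_option maxRecDepth 1000000
set_option exponentiation.threshold 1000000000

namespace Pool.Agent.T2H40.BR.U1

theorem chk_csE0 : Chk (ucsEuopts p c0) (ucsEBox p) :=
  chk_of_checkP [⟨684, 1, 27, 31⟩, ⟨1, 1, 1, 1⟩, ⟨684, 1, 27, 31⟩, ⟨684, 1, 27, 31⟩, ⟨684, 1, 27, 31⟩, ⟨1, 1, 1, 1⟩, ⟨1, 1, 1, 1⟩, ⟨40, 1, 2, 3⟩] (ucsEuopts p c0)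
  (.n2 1500 (.n1 900 (.n2 750 (.n1 600 (.n2 375 (.n1 450 (.n1 375 (.n2 188 (.leaf 4) (.n1 338 
  (.n2 282 (.leaf 3) (.n1 319 (.n2 329 (.leaf 2) (.n2 352 (.leaf 2) (.leaf 0))) (.leaf 2))) 
  (.leaf 3))) (.leaf 3)) (.leaf 3)) (.n1 450 (.n2 563 (.n1 375 (.n2 469 (.n1 338 (.leaf 0) 
  (.n2 422 (.leaf 2) (.leaf 0))) (.leaf 0)) (.n2 469 (.leaf 2) (.n1 413 (.leaf 0) (.leaf 2)))) 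
  (.leaf 0)) (.n2 563 (.leaf 2) (.n1 525 (.leaf 0) (.leaf 2))))) (.leaf 3)) (.n1 600 (.leaf 0) 
  (.n1 750 (.leaf 0) (.n2 1125 (.leaf 2) (.leaf 0))))) (.n2 750 (.leaf 3) (.leaf 2))) (.n2 2250 
  (.n2 1875 (.n1 900 (.n1 600 (.n2 1688 (.leaf 0) (.leaf 7)) (.leaf 0)) (.n1 1200 (.leaf 0) 
  (.leaf 2))) (.n1 900 (.leaf 7) (.n2 2063 (.n1 1200 (.n1 1050 (.leaf 7) (.leaf 0)) (.leaf 0)) 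
  (.n1 1200 (.leaf 7) (.n2 2157 (.n1 1350 (.leaf 7) (.leaf 0)) (.leaf 7)))))) (.leaf 7)))
  _ (by decide +kernel)

theorem chk_csEs0 : Chk (ucsEsopts p c0) (ucsEsBox p) :=
  chk_of_checkP [⟨656, 1, 31, 21⟩, ⟨1005, 1, 47, 31⟩] (ucsEsopts p c0)
  (.n2 3000 (.leaf 0) (.n2 4500 (.n2 3750 (.n2 3375 (.n2 3188 (.n1 150 (.n1 75 (.leaf 1) (.n2 3094 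
  (.leaf 0) (.leaf 1))) (.leaf 0)) (.n1 150 (.leaf 1) (.n1 225 (.leaf 1) (.n2 3282 (.leaf 0) 
  (.leaf 1))))) (.leaf 1)) (.leaf 1)) (.leaf 1)))
  _ (by decide +kernel)

theorem chk_csE1 : Chk (ucsEuopts p c1) (ucsEBox p) :=
  chk_of_checkP [⟨876, 1, 31, 41⟩, ⟨1, 1, 1, 1⟩, ⟨876, 1, 31, 41⟩, ⟨1, 1, 1, 1⟩, ⟨1, 1, 1, 1⟩, ⟨1, 1, 1, 1⟩, ⟨40, 1, 2, 3⟩, ⟨40, 1, 2, 3⟩] (ucsEuopts p c1)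
  (.n2 1500 (.leaf 6) (.n2 2250 (.n2 1875 (.n1 900 (.leaf 0) (.n1 1200 (.leaf 0) (.leaf 2))) 
  (.leaf 0)) (.n2 2625 (.leaf 0) (.n1 900 (.leaf 7) (.n1 1200 (.n2 2813 (.leaf 0) (.leaf 7)) 
  (.leaf 0))))))
  _ (by decide +kernel)

theorem chk_csEu1 : Chk (ucsEuopts p c1) (ucsEuBox p) :=
  chk_of_checkP [⟨865, 1, 31, 41⟩, ⟨1, 1, 1, 1⟩, ⟨1, 1, 1, 1⟩, ⟨1, 1, 1, 1⟩, ⟨1, 1, 1, 1⟩, ⟨1, 1, 1, 1⟩, ⟨1, 1, 1, 1⟩, ⟨40, 1, 2, 3⟩] (ucsEuopts p c1)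
  (.n2 1800 (.leaf 0) (.n2 2400 (.leaf 0) (.leaf 7)))
  _ (by decide +kernel)

theorem chk_csEu0 : Chk (ucsEuopts p c0) (ucsEuBox p) :=
  chk_of_checkP [⟨674, 1, 27, 31⟩, ⟨1, 1, 1, 1⟩, ⟨1, 1, 1, 1⟩, ⟨1, 1, 1, 1⟩, ⟨1, 1, 1, 1⟩, ⟨1, 1, 1, 1⟩, ⟨1, 1, 1, 1⟩, ⟨40, 1, 2, 3⟩] (ucsEuopts p c0)
  (.n2 1800 (.n2 1200 (.leaf 0) (.n2 1500 (.leaf 0) (.n2 1650 (.leaf 0) (.leaf 7)))) (.leaf 7))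
  _ (by decide +kernel)

theorem chk_csE2 : Chk (ucsEuopts p c2) (ucsEBox p) :=
  chk_of_checkP [⟨875, 1, 31, 41⟩, ⟨1, 1, 1, 1⟩, ⟨1, 1, 1, 1⟩, ⟨1, 1, 1, 1⟩, ⟨1, 1, 1, 1⟩, ⟨1, 1, 1, 1⟩, ⟨1, 1, 1, 1⟩, ⟨1, 1, 1, 1⟩] (ucsEuopts p c2)
  (.leaf 0)
  _ (by decide +kernel)

theorem chk_csEu2 : Chk (ucsEuopts p c2) (ucsEuBox p) :=
  chk_of_checkP [⟨864, 1, 31, 41⟩, ⟨1, 1, 1, 1⟩, ⟨1, 1, 1, 1⟩, ⟨1, 1, 1, 1⟩, ⟨1, 1, 1, 1⟩, ⟨1, 1, 1, 1⟩, ⟨1, 1, 1, 1⟩, ⟨1, 1, 1, 1⟩] (ucsEuopts p c2)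
  (.leaf 0)
  _ (by decide +kernel)

theorem chk_csEt0 : Chk (ucsEtopts p c0) (ucsEtBox p) :=
  chk_of_checkP [⟨680, 1, 49, 31⟩, ⟨1, 1, 1, 1⟩, ⟨1, 1, 1, 1⟩, ⟨1, 1, 1, 1⟩, ⟨1, 1, 1, 1⟩, ⟨1, 1, 1, 1⟩, ⟨1, 1, 1, 1⟩, ⟨1, 1, 1, 1⟩, ⟨1, 1, 1, 1⟩] (ucsEtopts p c0)
  (.leaf 0)
  _ (by decide +kernel)

theorem chk_ssE20 : Chk (ussEopts p c2 c0) (ussBox c2 c0) :=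
  chk_of_checkP [⟨1, 1, 1, 1⟩, ⟨1, 1, 1, 1⟩, ⟨370, 1, 21, 16⟩, ⟨1, 1, 1, 1⟩, ⟨1, 1, 1, 1⟩, ⟨370, 1, 21, 16⟩, ⟨1, 1, 1, 1⟩, ⟨1, 1, 1, 1⟩, ⟨1, 1, 1, 1⟩, ⟨1, 1, 1, 1⟩, ⟨1, 1, 1, 1⟩, ⟨1, 1, 1, 1⟩, ⟨1, 1, 1, 1⟩, ⟨1, 1, 1, 1⟩, ⟨1, 1, 1, 1⟩, ⟨1, 1, 1, 1⟩, ⟨1, 1, 1, 1⟩, ⟨1, 1, 1, 1⟩, ⟨1, 1, 1, 1⟩, ⟨1, 1, 1, 1⟩, ⟨1, 1, 1, 1⟩, ⟨1, 1, 1, 1⟩, ⟨1, 1, 1, 1⟩, ⟨1, 1, 1, 1⟩] (ussEopts p c2 c0)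
  (.n2 375 (.n2 188 (.n1 2250 (.leaf 2) (.n2 94 (.n1 2625 (.leaf 2) (.leaf 5)) (.leaf 5))) 
  (.leaf 5)) (.leaf 5))
  _ (by decide +kernel)

theorem chk_ccE : Chk (uccEopts p) (uccBox p) :=
  chk_of_checkP [⟨540, 1, 21, 21⟩, ⟨1, 1, 1, 1⟩, ⟨1, 1, 1, 1⟩, ⟨1, 1, 1, 1⟩, ⟨1, 1, 1, 1⟩, ⟨1, 1, 1, 1⟩, ⟨540, 1, 21, 21⟩, ⟨1, 1, 1, 1⟩, ⟨1, 1, 1, 1⟩, ⟨1, 1, 1, 1⟩, ⟨1, 1, 1, 1⟩, ⟨1, 1, 1, 1⟩, ⟨1, 1, 1, 1⟩, ⟨1, 1, 1, 1⟩, ⟨1, 1, 1, 1⟩, ⟨1, 1, 1, 1⟩, ⟨1, 1, 1, 1⟩, ⟨1, 1, 1, 1⟩, ⟨1, 1, 1, 1⟩, ⟨1, 1, 1, 1⟩, ⟨1, 1, 1, 1⟩, ⟨1, 1, 1, 1⟩, ⟨1, 1, 1, 1⟩, ⟨1, 1, 1, 1⟩, ⟨1, 1, 1, 1⟩, ⟨1, 1, 1, 1⟩, ⟨1, 1, 1, 1⟩, ⟨1, 1, 1, 1⟩, ⟨1, 1, 1, 1⟩, ⟨1, 1, 1, 1⟩, ⟨1, 1, 1, 1⟩, ⟨1, 1, 1, 1⟩,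 ⟨1, 1, 1, 1⟩, ⟨1, 1, 1, 1⟩, ⟨1, 1, 1, 1⟩] (uccEopts p)
  (.n1 750 (.leaf 0) (.leaf 6))
  _ (by decide +kernel)

theorem chk_ccN : Chk (uccNopts p) (uccBox p) :=
  chk_of_checkP [⟨448, 1, 22, 22⟩, ⟨1, 1, 1, 1⟩] (uccNopts p)
  (.leaf 0)
  _ (by decide +kernel)

theorem chk_csN2 : Chk (ucsNopts p c2) (ucsNBox p c2) :=
  chk_of_checkP [⟨445, 1, 22, 20⟩, ⟨1, 1, 1, 1⟩, ⟨1, 1, 1, 1⟩] (ucsNopts p c2)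
  (.leaf 0)
  _ (by decide +kernel)

theorem chk_csN1 : Chk (ucsNopts p c1) (ucsNBox p c1) :=
  chk_of_checkP [⟨438, 1, 22, 20⟩, ⟨1, 1, 1, 1⟩, ⟨1, 1, 1, 1⟩] (ucsNopts p c1)
  (.leaf 0)
  _ (by decide +kernel)

theorem chk_ssN22 : Chk (ussNopts p c2 c2) (ussBox c2 c2) :=
  chk_of_checkP [⟨440, 1, 20, 20⟩, ⟨1, 1, 1, 1⟩, ⟨1, 1, 1, 1⟩] (ussNopts p c2 c2)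
  (.leaf 0)
  _ (by decide +kernel)

theorem chk_ssN21 : Chk (ussNopts p c2 c1) (ussBox c2 c1) :=
  chk_of_checkP [⟨434, 1, 20, 20⟩, ⟨1, 1, 1, 1⟩, ⟨1, 1, 1, 1⟩] (ussNopts p c2 c1)
  (.leaf 0)
  _ (by decide +kernel)

theorem chk_ssN11 : Chk (ussNopts p c1 c1) (ussBox c1 c1) :=
  chk_of_checkP [⟨428, 1, 20, 20⟩, ⟨1, 1, 1, 1⟩, ⟨1, 1, 1, 1⟩] (ussNopts p c1 c1)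
  (.leaf 0)
  _ (by decide +kernel)

theorem chk_ssE22 : Chk (ussEopts p c2 c2) (ussBox c2 c2) :=
  chk_of_checkP [⟨1, 1, 1, 1⟩, ⟨1, 1, 1, 1⟩, ⟨1, 1, 1, 1⟩, ⟨1, 1, 1, 1⟩, ⟨1, 1, 1, 1⟩, ⟨381, 1, 21, 21⟩, ⟨1, 1, 1, 1⟩, ⟨1, 1, 1, 1⟩, ⟨1, 1, 1, 1⟩, ⟨1, 1, 1, 1⟩, ⟨1, 1, 1, 1⟩, ⟨1, 1, 1, 1⟩, ⟨1, 1, 1, 1⟩, ⟨1, 1, 1, 1⟩, ⟨1, 1, 1, 1⟩, ⟨1, 1, 1, 1⟩, ⟨1, 1, 1, 1⟩, ⟨1, 1, 1, 1⟩, ⟨1, 1, 1, 1⟩, ⟨1, 1, 1, 1⟩, ⟨1, 1, 1, 1⟩, ⟨1, 1, 1, 1⟩, ⟨1, 1, 1, 1⟩, ⟨1, 1, 1, 1⟩] (ussEopts p c2 c2)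
  (.leaf 5)
  _ (by decide +kernel)

theorem chk_ssE21 : Chk (ussEopts p c2 c1) (ussBox c2 c1) :=
  chk_of_checkP [⟨1, 1, 1, 1⟩, ⟨1, 1, 1, 1⟩, ⟨1, 1, 1, 1⟩, ⟨1, 1, 1, 1⟩, ⟨1, 1, 1, 1⟩, ⟨377, 1, 21, 21⟩, ⟨1, 1, 1, 1⟩, ⟨1, 1, 1, 1⟩, ⟨1, 1, 1, 1⟩, ⟨1, 1, 1, 1⟩, ⟨1, 1, 1, 1⟩, ⟨1, 1, 1, 1⟩, ⟨1, 1, 1, 1⟩, ⟨1, 1, 1, 1⟩, ⟨1, 1, 1, 1⟩, ⟨1, 1, 1, 1⟩, ⟨1, 1, 1, 1⟩, ⟨1, 1, 1, 1⟩, ⟨1, 1, 1, 1⟩, ⟨1, 1, 1, 1⟩, ⟨1, 1, 1, 1⟩, ⟨1, 1, 1, 1⟩, ⟨1, 1, 1, 1⟩, ⟨1, 1, 1, 1⟩] (ussEopts p c2 c1)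
  (.leaf 5)
  _ (by decide +kernel)

theorem chk_ssE11 : Chk (ussEopts p c1 c1) (ussBox c1 c1) :=
  chk_of_checkP [⟨1, 1, 1, 1⟩, ⟨1, 1, 1, 1⟩, ⟨1, 1, 1, 1⟩, ⟨1, 1, 1, 1⟩, ⟨1, 1, 1, 1⟩, ⟨370, 1, 21, 21⟩, ⟨1, 1, 1, 1⟩, ⟨1, 1, 1, 1⟩, ⟨1, 1, 1, 1⟩, ⟨1, 1, 1, 1⟩, ⟨1, 1, 1, 1⟩, ⟨1, 1, 1, 1⟩, ⟨1, 1, 1, 1⟩, ⟨1, 1, 1, 1⟩, ⟨1, 1, 1, 1⟩, ⟨1, 1, 1, 1⟩, ⟨1, 1, 1, 1⟩, ⟨1, 1, 1, 1⟩, ⟨1, 1, 1, 1⟩, ⟨1, 1, 1, 1⟩, ⟨1, 1, 1, 1⟩, ⟨1, 1, 1, 1⟩, ⟨1, 1, 1, 1⟩, ⟨1, 1, 1, 1⟩] (ussEopts p c1 c1)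
  (.leaf 5)
  _ (by decide +kernel)

theorem chk_csN0 : Chk (ucsNopts p c0) (ucsNBox p c0) :=
  chk_of_checkP [⟨382, 1, 22, 15⟩, ⟨1, 1, 1, 1⟩, ⟨1, 1, 1, 1⟩] (ucsNopts p c0)
  (.leaf 0)
  _ (by decide +kernel)

theorem chk_ssE10 : Chk (ussEopts p c1 c0) (ussBox c1 c0) :=
  chk_of_checkP [⟨1, 1, 1, 1⟩, ⟨1, 1, 1, 1⟩, ⟨362, 1, 21, 16⟩, ⟨1, 1, 1, 1⟩, ⟨1, 1, 1, 1⟩, ⟨1, 1, 1, 1⟩, ⟨1, 1, 1, 1⟩, ⟨1, 1, 1, 1⟩, ⟨1, 1, 1, 1⟩, ⟨1, 1, 1, 1⟩, ⟨1, 1, 1, 1⟩, ⟨1, 1, 1, 1⟩, ⟨1, 1, 1, 1⟩, ⟨1, 1, 1, 1⟩, ⟨1, 1, 1, 1⟩, ⟨1, 1, 1, 1⟩, ⟨1, 1, 1, 1⟩, ⟨1, 1, 1, 1⟩, ⟨1, 1, 1, 1⟩, ⟨1, 1, 1, 1⟩, ⟨1, 1, 1, 1⟩, ⟨1, 1, 1, 1⟩, ⟨1, 1, 1, 1⟩, ⟨1, 1, 1, 1⟩] (ussEopts p c1 c0)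
  (.leaf 2)
  _ (by decide +kernel)

theorem chk_ssN20 : Chk (ussNopts p c2 c0) (ussBox c2 c0) :=
  chk_of_checkP [⟨381, 1, 20, 15⟩, ⟨1, 1, 1, 1⟩, ⟨1, 1, 1, 1⟩] (ussNopts p c2 c0)
  (.leaf 0)
  _ (by decide +kernel)

theorem chk_ssN10 : Chk (ussNopts p c1 c0) (ussBox c1 c0) :=
  chk_of_checkP [⟨374, 1, 20, 15⟩, ⟨1, 1, 1, 1⟩, ⟨1, 1, 1, 1⟩] (ussNopts p c1 c0)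
  (.leaf 0)
  _ (by decide +kernel)

theorem chk_ssE00 : Chk (ussEopts p c0 c0) (ussBox c0 c0) :=
  chk_of_checkP [⟨1, 1, 1, 1⟩, ⟨1, 1, 1, 1⟩, ⟨292, 1, 16, 16⟩, ⟨1, 1, 1, 1⟩, ⟨1, 1, 1, 1⟩, ⟨1, 1, 1, 1⟩, ⟨1, 1, 1, 1⟩, ⟨1, 1, 1, 1⟩, ⟨1, 1, 1, 1⟩, ⟨1, 1, 1, 1⟩, ⟨1, 1, 1, 1⟩, ⟨1, 1, 1, 1⟩, ⟨1, 1, 1, 1⟩, ⟨1, 1, 1, 1⟩, ⟨1, 1, 1, 1⟩, ⟨1, 1, 1, 1⟩, ⟨1, 1, 1, 1⟩, ⟨1, 1, 1, 1⟩, ⟨1, 1, 1, 1⟩, ⟨1, 1, 1, 1⟩, ⟨1, 1, 1, 1⟩, ⟨1, 1, 1, 1⟩, ⟨1, 1, 1, 1⟩, ⟨1, 1, 1, 1⟩] (ussEopts p c0 c0)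
  (.leaf 2)
  _ (by decide +kernel)

theorem chk_ssN00 : Chk (ussNopts p c0 c0) (ussBox c0 c0) :=
  chk_of_checkP [⟨316, 1, 15, 15⟩, ⟨1, 1, 1, 1⟩, ⟨1, 1, 1, 1⟩] (ussNopts p c0 c0)
  (.leaf 0)
  _ (by decide +kernel)

theorem chk_gC : Chk (ugCopts p) (uCBox p) :=
  chk_of_checkP [⟨92, 1, 7, 1⟩] (ugCopts p)
  (.n1 750 (.n1 375 (.n1 188 (.leaf 0) (.leaf 0)) (.leaf 0)) (.leaf 0))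
  _ (by decide +kernel)

theorem chk_gS2 : Chk (ugSopts p c2) (uSBox c2) :=
  chk_of_checkP [⟨83, 1, 6, 1⟩] (ugSopts p c2)
  (.n1 2250 (.n1 1875 (.leaf 0) (.leaf 0)) (.leaf 0))
  _ (by decide +kernel)

theorem chk_vS2 : Chk (uvSopts p c2) (uSBox c2) :=
  chk_of_checkP [⟨95, 1, 7, 1⟩] (uvSopts p c2)
  (.leaf 0)
  _ (by decide +kernel)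

theorem chk_vS1 : Chk (uvSopts p c1) (uSBox c1) :=
  chk_of_checkP [⟨92, 1, 7, 1⟩] (uvSopts p c1)
  (.leaf 0)
  _ (by decide +kernel)

theorem chk_vC : Chk (uvCopts p) (uCBox p) :=
  chk_of_checkP [⟨91, 1, 7, 1⟩] (uvCopts p)
  (.leaf 0)
  _ (by decide +kernel)

theorem chk_gS1 : Chk (ugSopts p c1) (uSBox c1) :=
  chk_of_checkP [⟨81, 1, 6, 1⟩] (ugSopts p c1)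
  (.leaf 0)
  _ (by decide +kernel)

theorem chk_gS0 : Chk (ugSopts p c0) (uSBox c0) :=
  chk_of_checkP [⟨65, 1, 5, 1⟩] (ugSopts p c0)
  (.leaf 0)
  _ (by decide +kernel)

theorem chk_vS0 : Chk (uvSopts p c0) (uSBox c0) :=
  chk_of_checkP [⟨64, 1, 5, 1⟩] (uvSopts p c0)
  (.leaf 0)
  _ (by decide +kernel)


end Pool.Agent.T2H40.BR.U1
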