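import Pool.Agent.T2H40.BR.D.U2

set_option autoImplicit false
set_option maxRecDepth 1000000
set_option exponentiation.threshold 1000000000

namespace Pool.Agent.T2H40.BR.U2

theorem chk_csE2 : Chk (ucsEuopts p c2) (ucsEBox p) :=
  chk_of_checkP [⟨885, 1, 31, 41⟩, ⟨1, 1, 1, 1⟩, ⟨1, 1, 1, 1⟩, ⟨1, 1, 1, 1⟩, ⟨1, 1, 1, 1⟩, ⟨1, 1, 1, 1⟩, ⟨40, 1, 2, 3⟩, ⟨40, 1, 2, 3⟩] (ucsEuopts p c2)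
  (.n2 1500 (.leaf 6) (.n1 1650 (.n2 2250 (.n2 1875 (.leaf 6) (.n1 975 (.leaf 0) (.leaf 6))) 
  (.n2 2625 (.n1 975 (.n2 2438 (.n1 638 (.n2 2344 (.n1 469 (.n2 2297 (.n1 384 (.n2 2274 (.n1 342 
  (.n1 321 (.leaf 7) (.n2 2262 (.leaf 0) (.leaf 7))) (.n1 363 (.n2 2262 (.leaf 0) (.n1 353 
  (.leaf 7) (.leaf 0))) (.leaf 0))) (.leaf 7)) (.n1 427 (.n1 406 (.n2 2274 (.leaf 0) (.n2 2286 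
  (.leaf 0) (.leaf 7))) (.leaf 0)) (.leaf 0))) (.n1 384 (.leaf 7) (.n1 427 (.leaf 7) (.n2 2321 
  (.n2 2309 (.leaf 0) (.n1 448 (.leaf 7) (.n1 458 (.leaf 7) (.leaf 0)))) (.leaf 7))))) (.n1 554 
  (.n1 511 (.n2 2297 (.leaf 0) (.n2 2321 (.leaf 0) (.n1 490 (.leaf 7) (.n2 2333 (.leaf 0) 
  (.leaf 7))))) (.leaf 0)) (.leaf 0))) (.n1 469 (.leaf 7) (.n2 2391 (.n1 554 (.n1 511 (.leaf 7) 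
  (.n1 533 (.leaf 7) (.n2 2368 (.leaf 0) (.leaf 7)))) (.n1 596 (.n2 2368 (.leaf 0) (.n1 575 
  (.leaf 7) (.leaf 0))) (.leaf 0))) (.leaf 7)))) (.n1 807 (.n2 2344 (.leaf 0) (.n1 723 (.n1 681 
  (.n2 2391 (.leaf 0) (.n2 2415 (.leaf 0) (.leaf 7))) (.leaf 0)) (.leaf 0))) (.leaf 0))) (.n1 638 
  (.leaf 7) (.n1 807 (.n1 723 (.leaf 7) (.n2 2532 (.n2 2485 (.leaf 0) (.leaf 7)) (.leaf 7))) 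
  (.n2 2532 (.leaf 0) (.n1 891 (.leaf 7) (.n2 2579 (.leaf 0) (.n1 933 (.leaf 7) (.leaf 0)))))))) 
  (.leaf 0)) (.n1 975 (.leaf 7) (.n1 1313 (.n2 2813 (.n1 1144 (.n2 2719 (.n1 1060 (.n2 2672 
  (.n1 1018 (.leaf 7) (.leaf 0)) (.leaf 7)) (.leaf 0)) (.leaf 7)) (.n2 2719 (.leaf 0) (.n1 1229 
  (.n2 2766 (.leaf 0) (.leaf 7)) (.leaf 0)))) (.n1 1144 (.leaf 7) (.n1 1229 (.leaf 7) (.n2 2907 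
  (.n2 2860 (.n1 1271 (.leaf 7) (.leaf 0)) (.leaf 7)) (.leaf 7))))) (.n2 2813 (.leaf 0) (.n1 1482 
  (.n2 2907 (.leaf 0) (.n1 1398 (.leaf 7) (.n2 2954 (.leaf 0) (.n1 1440 (.leaf 7) (.n1 1461 
  (.n2 2977 (.leaf 0) (.leaf 7)) (.leaf 0)))))) (.leaf 0))))))) (.n1 2325 (.n2 2250 (.leaf 6) 
  (.leaf 0)) (.leaf 6))))
  _ (by decide +kernel)

theorem chk_csE0 : Chk (ucsEuopts p c0) (ucsEBox p) :=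
  chk_of_checkP [⟨694, 1, 27, 31⟩, ⟨451, 1, 17, 21⟩, ⟨694, 1, 27, 31⟩, ⟨694, 1, 27, 31⟩, ⟨694, 1, 27, 31⟩, ⟨1, 1, 1, 1⟩, ⟨1, 1, 1, 1⟩, ⟨40, 1, 2, 3⟩] (ucsEuopts p c0)
  (.n2 1500 (.n1 1650 (.n1 975 (.n2 750 (.n1 638 (.n2 375 (.leaf 2) (.n1 469 (.n2 563 (.n2 469 
  (.n1 384 (.leaf 0) (.leaf 2)) (.leaf 0)) (.leaf 0)) (.n2 563 (.leaf 2) (.n1 554 (.leaf 0) 
  (.leaf 2))))) (.leaf 3)) (.n1 638 (.leaf 0) (.n2 1125 (.n1 807 (.n2 938 (.n2 844 (.leaf 2) 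
  (.n1 723 (.n1 681 (.leaf 0) (.leaf 2)) (.leaf 2))) (.n1 723 (.leaf 0) (.n2 1032 (.n1 765 
  (.n2 985 (.leaf 2) (.leaf 0)) (.leaf 2)) (.leaf 0)))) (.leaf 2)) (.n1 807 (.leaf 0) (.n2 1313 
  (.n1 891 (.n2 1219 (.n1 849 (.leaf 0) (.n2 1172 (.leaf 2) (.n2 1196 (.leaf 2) (.leaf 0)))) 
  (.leaf 0)) (.n2 1219 (.leaf 2) (.n2 1266 (.leaf 2) (.n1 933 (.n2 1289 (.leaf 1) (.leaf 0)) 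
  (.leaf 1))))) (.n2 1407 (.n1 891 (.leaf 0) (.n1 933 (.leaf 0) (.n2 1360 (.leaf 1) (.n2 1383 
  (.leaf 1) (.leaf 0))))) (.leaf 0))))))) (.n2 750 (.leaf 4) (.n1 1313 (.n2 1125 (.leaf 3) 
  (.n1 1144 (.n2 1313 (.leaf 2) (.n1 1060 (.n2 1407 (.leaf 1) (.n1 1018 (.n2 1454 (.leaf 1) 
  (.leaf 0)) (.leaf 1))) (.leaf 2))) (.leaf 2))) (.leaf 3)))) (.leaf 2)) (.n1 1650 (.n2 2250 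
  (.n2 1875 (.n1 975 (.n2 1688 (.leaf 0) (.n1 638 (.n1 469 (.leaf 7) (.n2 1782 (.leaf 0) 
  (.leaf 7))) (.leaf 0))) (.n1 1313 (.n1 1144 (.n2 1688 (.n1 1060 (.n2 1594 (.n1 1018 (.leaf 0) 
  (.n2 1547 (.leaf 1) (.leaf 0))) (.leaf 0)) (.n2 1594 (.leaf 1) (.n2 1641 (.leaf 1) (.n1 1102 
  (.leaf 0) (.leaf 1))))) (.n1 1060 (.leaf 0) (.n2 1782 (.n2 1735 (.n1 1102 (.leaf 0) (.leaf 1)) 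
  (.leaf 0)) (.leaf 0)))) (.n2 1688 (.leaf 2) (.n1 1229 (.n2 1782 (.leaf 1) (.n1 1187 (.leaf 0) 
  (.leaf 1))) (.leaf 1)))) (.leaf 2))) (.n1 975 (.leaf 7) (.n1 1313 (.n2 2063 (.n1 1144 (.leaf 0) 
  (.n2 1969 (.n1 1229 (.leaf 0) (.leaf 1)) (.leaf 0))) (.leaf 7)) (.n2 2063 (.leaf 1) 
  (.leaf 0))))) (.leaf 7)) (.n1 2325 (.n2 2250 (.leaf 2) (.n1 1988 (.n2 2625 (.leaf 0) (.leaf 7)) 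
  (.leaf 0))) (.leaf 0))))
  _ (by decide +kernel)

theorem chk_csE1 : Chk (ucsEuopts p c1) (ucsEBox p) :=
  chk_of_checkP [⟨886, 1, 31, 41⟩, ⟨1, 1, 1, 1⟩, ⟨886, 1, 31, 41⟩, ⟨1, 1, 1, 1⟩, ⟨1, 1, 1, 1⟩, ⟨602, 1, 17, 29⟩, ⟨40, 1, 2, 3⟩, ⟨40, 1, 2, 3⟩] (ucsEuopts p c1)
  (.n2 1500 (.leaf 6) (.n1 1650 (.n2 2250 (.n1 975 (.n1 638 (.n2 1875 (.leaf 0) (.n2 2063 (.leaf 0) 
  (.n2 2157 (.n1 469 (.n1 384 (.leaf 7) (.n1 427 (.leaf 7) (.n2 2110 (.leaf 0) (.leaf 7)))) 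
  (.n1 554 (.n2 2110 (.leaf 0) (.leaf 7)) (.leaf 0))) (.leaf 7)))) (.leaf 0)) (.leaf 0)) (.n1 975 
  (.n1 638 (.leaf 7) (.n2 2625 (.n2 2438 (.n1 807 (.leaf 7) (.n2 2344 (.leaf 0) (.leaf 7))) 
  (.leaf 7)) (.leaf 7))) (.n2 2625 (.n1 1313 (.n2 2438 (.leaf 0) (.n1 1144 (.leaf 7) (.n2 2532 
  (.leaf 0) (.leaf 7)))) (.leaf 0)) (.n1 1313 (.leaf 7) (.n2 2813 (.n1 1482 (.n2 2719 (.leaf 0) 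
  (.leaf 7)) (.leaf 0)) (.n1 1482 (.leaf 7) (.n2 2907 (.n1 1566 (.leaf 7) (.n2 2860 (.leaf 0) 
  (.leaf 7))) (.leaf 7)))))))) (.n1 2325 (.n2 2250 (.leaf 2) (.n1 1988 (.n2 2625 (.leaf 0) 
  (.n1 1819 (.n2 2813 (.leaf 0) (.n1 1735 (.n2 2907 (.leaf 0) (.n2 2954 (.leaf 0) (.leaf 7))) 
  (.leaf 0))) (.leaf 0))) (.leaf 0))) (.leaf 5))))
  _ (by decide +kernel)

theorem chk_csN1 : Chk (ucsNopts p c1) (ucsNBox p c1) :=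
  chk_of_checkP [⟨445, 1, 22, 20⟩, ⟨1, 1, 1, 1⟩, ⟨39, 1, 2, 2⟩] (ucsNopts p c1)
  (.n1 1500 (.leaf 0) (.n1 2250 (.n1 1875 (.n2 975 (.leaf 0) (.n2 1088 (.leaf 0) (.n2 1144 (.leaf 0)
   (.n1 1688 (.leaf 0) (.n2 1172 (.leaf 0) (.n1 1782 (.leaf 0) (.n1 1828 (.leaf 0) (.n2 1186 
  (.leaf 0) (.leaf 2))))))))) (.n2 975 (.n2 862 (.leaf 0) (.n1 2063 (.leaf 0) (.n1 2157 (.leaf 0) 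
  (.leaf 2)))) (.n1 2063 (.n2 1088 (.n2 1032 (.leaf 0) (.n1 1969 (.leaf 0) (.leaf 2))) (.n2 1144 
  (.n1 1969 (.n1 1922 (.leaf 0) (.leaf 2)) (.leaf 2)) (.leaf 2))) (.leaf 2)))) (.n2 975 (.n2 862 
  (.n1 2625 (.n2 806 (.n2 778 (.leaf 0) (.leaf 2)) (.leaf 2)) (.leaf 2)) (.leaf 2)) (.leaf 2))))
  _ (by decide +kernel)

theorem chk_ssN22 : Chk (ussNopts p c2 c2) (ussBox c2 c2) :=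
  chk_of_checkP [⟨428, 1, 20, 20⟩, ⟨1, 1, 1, 1⟩, ⟨1, 1, 1, 1⟩] (ussNopts p c2 c2)
  (.leaf 0)
  _ (by decide +kernel)

theorem chk_ssN21 : Chk (ussNopts p c2 c1) (ussBox c2 c1) :=
  chk_of_checkP [⟨427, 1, 20, 20⟩, ⟨1, 1, 1, 1⟩, ⟨1, 1, 1, 1⟩] (ussNopts p c2 c1)
  (.leaf 0)
  _ (by decide +kernel)

theorem chk_ssE20 : Chk (ussEopts p c2 c0) (ussBox c2 c0) :=
  chk_of_checkP [⟨1, 1, 1, 1⟩, ⟨362, 1, 21, 16⟩, ⟨1, 1, 1, 1⟩, ⟨1, 1, 1, 1⟩, ⟨1, 1, 1, 1⟩, ⟨1, 1, 1, 1⟩, ⟨1, 1, 1, 1⟩, ⟨1, 1, 1, 1⟩, ⟨1, 1, 1, 1⟩, ⟨1, 1, 1, 1⟩, ⟨1, 1, 1, 1⟩, ⟨1, 1, 1, 1⟩, ⟨1, 1, 1, 1⟩, ⟨1, 1, 1, 1⟩, ⟨1, 1, 1, 1⟩, ⟨1, 1, 1, 1⟩, ⟨1, 1, 1, 1⟩, ⟨1, 1, 1, 1⟩, ⟨1, 1, 1, 1⟩, ⟨1, 1, 1, 1⟩, ⟨1, 1, 1, 1⟩, ⟨1, 1, 1, 1⟩, ⟨1, 1, 1, 1⟩, ⟨1, 1, 1, 1⟩] (ussEopts p c2 c0)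
  (.leaf 1)
  _ (by decide +kernel)

theorem chk_vS1 : Chk (uvSopts p c1) (uSBox c1) :=
  chk_of_checkP [⟨92, 1, 7, 1⟩] (uvSopts p c1)
  (.leaf 0)
  _ (by decide +kernel)


end Pool.Agent.T2H40.BR.U2
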