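import Pool.Agent.T2H40.BR.D.U2

set_option autoImplicit false
set_option maxRecDepth 1000000
set_option exponentiation.threshold 1000000000

namespace Pool.Agent.T2H40.BR.U2

theorem chk_csEu2 : Chk (ucsEuopts p c2) (ucsEuBox p) :=
  chk_of_checkP [⟨864, 1, 31, 41⟩, ⟨1, 1, 1, 1⟩, ⟨1, 1, 1, 1⟩, ⟨1, 1, 1, 1⟩, ⟨1, 1, 1, 1⟩, ⟨1, 1, 1, 1⟩, ⟨40, 1, 2, 3⟩, ⟨40, 1, 2, 3⟩] (ucsEuopts p c2)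
  (.n2 1800 (.leaf 6) (.n2 2400 (.n2 2100 (.leaf 0) (.n2 2250 (.n2 2175 (.leaf 0) (.n2 2213 
  (.n1 150 (.n2 2194 (.leaf 0) (.leaf 7)) (.leaf 0)) (.n1 150 (.leaf 7) (.n1 225 (.leaf 7) 
  (.n2 2232 (.leaf 0) (.n1 263 (.leaf 7) (.n1 282 (.leaf 7) (.leaf 0)))))))) (.leaf 7))) 
  (.leaf 7)))
  _ (by decide +kernel)

theorem chk_csEu1 : Chk (ucsEuopts p c1) (ucsEuBox p) :=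
  chk_of_checkP [⟨866, 1, 31, 41⟩, ⟨1, 1, 1, 1⟩, ⟨1, 1, 1, 1⟩, ⟨1, 1, 1, 1⟩, ⟨1, 1, 1, 1⟩, ⟨1, 1, 1, 1⟩, ⟨1, 1, 1, 1⟩, ⟨40, 1, 2, 3⟩] (ucsEuopts p c1)
  (.n2 1800 (.leaf 0) (.n2 2400 (.n2 2100 (.n2 1950 (.leaf 0) (.n2 2025 (.leaf 0) (.leaf 7))) 
  (.leaf 7)) (.leaf 7)))
  _ (by decide +kernel)

theorem chk_ccE : Chk (uccEopts p) (uccBox p) :=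
  chk_of_checkP [⟨555, 1, 21, 21⟩, ⟨1, 1, 1, 1⟩, ⟨1, 1, 1, 1⟩, ⟨555, 1, 21, 21⟩, ⟨1, 1, 1, 1⟩, ⟨555, 1, 21, 21⟩, ⟨1, 1, 1, 1⟩, ⟨1, 1, 1, 1⟩, ⟨1, 1, 1, 1⟩, ⟨555, 1, 21, 21⟩, ⟨1, 1, 1, 1⟩, ⟨1, 1, 1, 1⟩, ⟨1, 1, 1, 1⟩, ⟨1, 1, 1, 1⟩, ⟨1, 1, 1, 1⟩, ⟨1, 1, 1, 1⟩, ⟨1, 1, 1, 1⟩, ⟨1, 1, 1, 1⟩, ⟨555, 1, 21, 21⟩, ⟨1, 1, 1, 1⟩, ⟨1, 1, 1, 1⟩, ⟨556, 1, 21, 21⟩, ⟨1, 1, 1, 1⟩, ⟨1, 1, 1, 1⟩, ⟨556, 1, 21, 21⟩, ⟨1, 1, 1, 1⟩, ⟨1, 1, 1, 1⟩, ⟨1, 1, 1, 1⟩, ⟨1, 1, 1, 1⟩, ⟨1, 1, 1, 1⟩, ⟨1, 1, 1, 1⟩, ⟨1, 1, 1, 1⟩, ⟨1, 1, 1, 1⟩, ⟨355, 1, 21, 21⟩, ⟨39, 1, 2, 2⟩] (uccEopts p)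
  (.n1 1500 (.n2 1500 (.n1 750 (.n2 750 (.n1 375 (.leaf 0) (.leaf 0)) (.leaf 5)) (.leaf 3)) 
  (.n2 2250 (.leaf 3) (.leaf 34))) (.n2 1500 (.n1 2250 (.leaf 9) (.n1 2625 (.leaf 18) (.n1 2813 
  (.leaf 21) (.n1 2907 (.leaf 24) (.leaf 33))))) (.n1 2250 (.leaf 9) (.n1 2625 (.leaf 18) 
  (.leaf 33)))))
  _ (by decide +kernel)

theorem chk_csEs0 : Chk (ucsEsopts p c0) (ucsEsBox p) :=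
  chk_of_checkP [⟨656, 1, 31, 21⟩, ⟨1005, 1, 47, 31⟩] (ucsEsopts p c0)
  (.n2 3000 (.leaf 0) (.leaf 1))
  _ (by decide +kernel)

theorem chk_csN2 : Chk (ucsNopts p c2) (ucsNBox p c2) :=
  chk_of_checkP [⟨446, 1, 22, 20⟩, ⟨1, 1, 1, 1⟩, ⟨39, 1, 2, 2⟩] (ucsNopts p c2)
  (.n1 1500 (.leaf 0) (.n1 2250 (.n1 1875 (.n1 1688 (.n2 1350 (.leaf 0) (.n1 1594 (.n2 1425 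
  (.leaf 0) (.n2 1463 (.leaf 0) (.n1 1547 (.leaf 0) (.leaf 2)))) (.n2 1425 (.n2 1388 (.leaf 0) 
  (.n2 1407 (.leaf 0) (.leaf 2))) (.leaf 2)))) (.n2 1350 (.n1 1782 (.n2 1275 (.leaf 0) (.n2 1313 
  (.leaf 0) (.leaf 2))) (.n2 1275 (.n1 1828 (.n2 1238 (.leaf 0) (.leaf 2)) (.leaf 2)) (.leaf 2))) 
  (.leaf 2))) (.leaf 2)) (.leaf 2)))
  _ (by decide +kernel)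

theorem chk_csEu0 : Chk (ucsEuopts p c0) (ucsEuBox p) :=
  chk_of_checkP [⟨674, 1, 27, 31⟩, ⟨1, 1, 1, 1⟩, ⟨1, 1, 1, 1⟩, ⟨1, 1, 1, 1⟩, ⟨1, 1, 1, 1⟩, ⟨1, 1, 1, 1⟩, ⟨1, 1, 1, 1⟩, ⟨40, 1, 2, 3⟩] (ucsEuopts p c0)
  (.n2 1800 (.n2 1200 (.leaf 0) (.n2 1500 (.leaf 0) (.n2 1650 (.leaf 0) (.leaf 7)))) (.leaf 7))
  _ (by decide +kernel)

theorem chk_csEt0 : Chk (ucsEtopts p c0) (ucsEtBox p) :=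
  chk_of_checkP [⟨680, 1, 49, 31⟩, ⟨1, 1, 1, 1⟩, ⟨1, 1, 1, 1⟩, ⟨1, 1, 1, 1⟩, ⟨1, 1, 1, 1⟩, ⟨1, 1, 1, 1⟩, ⟨1, 1, 1, 1⟩, ⟨1, 1, 1, 1⟩, ⟨1, 1, 1, 1⟩] (ucsEtopts p c0)
  (.leaf 0)
  _ (by decide +kernel)

theorem chk_ccN : Chk (uccNopts p) (uccBox p) :=
  chk_of_checkP [⟨464, 1, 22, 22⟩, ⟨1, 1, 1, 1⟩] (uccNopts p)
  (.n2 1500 (.n1 1500 (.leaf 0) (.leaf 0)) (.n1 1500 (.leaf 0) (.n1 2250 (.leaf 0) (.leaf 0))))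
  _ (by decide +kernel)

theorem chk_csN0 : Chk (ucsNopts p c0) (ucsNBox p c0) :=
  chk_of_checkP [⟨393, 1, 22, 15⟩, ⟨1, 1, 1, 1⟩, ⟨39, 1, 2, 2⟩] (ucsNopts p c0)
  (.n1 1500 (.leaf 0) (.n1 2250 (.leaf 0) (.n1 2625 (.leaf 0) (.n1 2813 (.leaf 0) (.n2 375 (.n2 188 
  (.n2 94 (.leaf 0) (.n1 2907 (.leaf 0) (.leaf 2))) (.leaf 2)) (.leaf 2))))))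
  _ (by decide +kernel)

theorem chk_ssN11 : Chk (ussNopts p c1 c1) (ussBox c1 c1) :=
  chk_of_checkP [⟨426, 1, 20, 20⟩, ⟨1, 1, 1, 1⟩, ⟨1, 1, 1, 1⟩] (ussNopts p c1 c1)
  (.leaf 0)
  _ (by decide +kernel)

theorem chk_ssE22 : Chk (ussEopts p c2 c2) (ussBox c2 c2) :=
  chk_of_checkP [⟨1, 1, 1, 1⟩, ⟨1, 1, 1, 1⟩, ⟨1, 1, 1, 1⟩, ⟨1, 1, 1, 1⟩, ⟨1, 1, 1, 1⟩, ⟨370, 1, 21, 21⟩, ⟨1, 1, 1, 1⟩, ⟨1, 1, 1, 1⟩, ⟨1, 1, 1, 1⟩, ⟨1, 1, 1, 1⟩, ⟨1, 1, 1, 1⟩, ⟨1, 1, 1, 1⟩, ⟨1, 1, 1, 1⟩, ⟨1, 1, 1, 1⟩, ⟨1, 1, 1, 1⟩, ⟨1, 1, 1, 1⟩, ⟨1, 1, 1, 1⟩, ⟨1, 1, 1, 1⟩, ⟨1, 1, 1, 1⟩, ⟨1, 1, 1, 1⟩, ⟨1, 1, 1, 1⟩, ⟨1, 1, 1, 1⟩, ⟨1, 1, 1, 1⟩, ⟨1, 1, 1, 1⟩] (ussEopts p c2 c2)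
  (.leaf 5)
  _ (by decide +kernel)

theorem chk_ssE21 : Chk (ussEopts p c2 c1) (ussBox c2 c1) :=
  chk_of_checkP [⟨1, 1, 1, 1⟩, ⟨369, 1, 21, 21⟩, ⟨1, 1, 1, 1⟩, ⟨1, 1, 1, 1⟩, ⟨1, 1, 1, 1⟩, ⟨1, 1, 1, 1⟩, ⟨1, 1, 1, 1⟩, ⟨1, 1, 1, 1⟩, ⟨1, 1, 1, 1⟩, ⟨1, 1, 1, 1⟩, ⟨1, 1, 1, 1⟩, ⟨1, 1, 1, 1⟩, ⟨1, 1, 1, 1⟩, ⟨1, 1, 1, 1⟩, ⟨1, 1, 1, 1⟩, ⟨1, 1, 1, 1⟩, ⟨1, 1, 1, 1⟩, ⟨1, 1, 1, 1⟩, ⟨1, 1, 1, 1⟩, ⟨1, 1, 1, 1⟩, ⟨1, 1, 1, 1⟩, ⟨1, 1, 1, 1⟩, ⟨1, 1, 1, 1⟩, ⟨1, 1, 1, 1⟩] (ussEopts p c2 c1)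
  (.leaf 1)
  _ (by decide +kernel)

theorem chk_ssE11 : Chk (ussEopts p c1 c1) (ussBox c1 c1) :=
  chk_of_checkP [⟨1, 1, 1, 1⟩, ⟨368, 1, 21, 21⟩, ⟨1, 1, 1, 1⟩, ⟨1, 1, 1, 1⟩, ⟨1, 1, 1, 1⟩, ⟨1, 1, 1, 1⟩, ⟨1, 1, 1, 1⟩, ⟨1, 1, 1, 1⟩, ⟨1, 1, 1, 1⟩, ⟨1, 1, 1, 1⟩, ⟨1, 1, 1, 1⟩, ⟨1, 1, 1, 1⟩, ⟨1, 1, 1, 1⟩, ⟨1, 1, 1, 1⟩, ⟨1, 1, 1, 1⟩, ⟨1, 1, 1, 1⟩, ⟨1, 1, 1, 1⟩, ⟨1, 1, 1, 1⟩, ⟨1, 1, 1, 1⟩, ⟨1, 1, 1, 1⟩, ⟨1, 1, 1, 1⟩, ⟨1, 1, 1, 1⟩, ⟨1, 1, 1, 1⟩, ⟨1, 1, 1, 1⟩] (ussEopts p c1 c1)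
  (.leaf 1)
  _ (by decide +kernel)

theorem chk_ssE10 : Chk (ussEopts p c1 c0) (ussBox c1 c0) :=
  chk_of_checkP [⟨1, 1, 1, 1⟩, ⟨360, 1, 21, 16⟩, ⟨1, 1, 1, 1⟩, ⟨1, 1, 1, 1⟩, ⟨1, 1, 1, 1⟩, ⟨1, 1, 1, 1⟩, ⟨1, 1, 1, 1⟩, ⟨1, 1, 1, 1⟩, ⟨1, 1, 1, 1⟩, ⟨1, 1, 1, 1⟩, ⟨1, 1, 1, 1⟩, ⟨1, 1, 1, 1⟩, ⟨1, 1, 1, 1⟩, ⟨1, 1, 1, 1⟩, ⟨1, 1, 1, 1⟩, ⟨1, 1, 1, 1⟩, ⟨1, 1, 1, 1⟩, ⟨1, 1, 1, 1⟩, ⟨1, 1, 1, 1⟩, ⟨1, 1, 1, 1⟩, ⟨1, 1, 1, 1⟩, ⟨1, 1, 1, 1⟩, ⟨1, 1, 1, 1⟩, ⟨1, 1, 1, 1⟩] (ussEopts p c1 c0)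
  (.leaf 1)
  _ (by decide +kernel)

theorem chk_ssN20 : Chk (ussNopts p c2 c0) (ussBox c2 c0) :=
  chk_of_checkP [⟨374, 1, 20, 15⟩, ⟨1, 1, 1, 1⟩, ⟨1, 1, 1, 1⟩] (ussNopts p c2 c0)
  (.leaf 0)
  _ (by decide +kernel)

theorem chk_ssN10 : Chk (ussNopts p c1 c0) (ussBox c1 c0) :=
  chk_of_checkP [⟨372, 1, 20, 15⟩, ⟨1, 1, 1, 1⟩, ⟨1, 1, 1, 1⟩] (ussNopts p c1 c0)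
  (.leaf 0)
  _ (by decide +kernel)

theorem chk_ssE00 : Chk (ussEopts p c0 c0) (ussBox c0 c0) :=
  chk_of_checkP [⟨1, 1, 1, 1⟩, ⟨292, 1, 16, 16⟩, ⟨1, 1, 1, 1⟩, ⟨1, 1, 1, 1⟩, ⟨1, 1, 1, 1⟩, ⟨1, 1, 1, 1⟩, ⟨1, 1, 1, 1⟩, ⟨1, 1, 1, 1⟩, ⟨1, 1, 1, 1⟩, ⟨1, 1, 1, 1⟩, ⟨1, 1, 1, 1⟩, ⟨1, 1, 1, 1⟩, ⟨1, 1, 1, 1⟩, ⟨1, 1, 1, 1⟩, ⟨1, 1, 1, 1⟩, ⟨1, 1, 1, 1⟩, ⟨1, 1, 1, 1⟩, ⟨1, 1, 1, 1⟩, ⟨1, 1, 1, 1⟩, ⟨1, 1, 1, 1⟩, ⟨1, 1, 1, 1⟩, ⟨1, 1, 1, 1⟩, ⟨1, 1, 1, 1⟩, ⟨1, 1, 1, 1⟩] (ussEopts p c0 c0)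
  (.leaf 1)
  _ (by decide +kernel)

theorem chk_ssN00 : Chk (ussNopts p c0 c0) (ussBox c0 c0) :=
  chk_of_checkP [⟨315, 1, 15, 15⟩, ⟨1, 1, 1, 1⟩, ⟨1, 1, 1, 1⟩] (ussNopts p c0 c0)
  (.leaf 0)
  _ (by decide +kernel)

theorem chk_gC : Chk (ugCopts p) (uCBox p) :=
  chk_of_checkP [⟨96, 1, 7, 1⟩] (ugCopts p)
  (.n1 1500 (.leaf 0) (.n1 2250 (.leaf 0) (.n1 2625 (.leaf 0) (.n1 2813 (.leaf 0) (.leaf 0)))))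
  _ (by decide +kernel)

theorem chk_vC : Chk (uvCopts p) (uCBox p) :=
  chk_of_checkP [⟨94, 1, 7, 1⟩] (uvCopts p)
  (.n1 1500 (.leaf 0) (.n1 2250 (.leaf 0) (.leaf 0)))
  _ (by decide +kernel)

theorem chk_vS2 : Chk (uvSopts p c2) (uSBox c2) :=
  chk_of_checkP [⟨92, 1, 7, 1⟩] (uvSopts p c2)
  (.leaf 0)
  _ (by decide +kernel)

theorem chk_gS2 : Chk (ugSopts p c2) (uSBox c2) :=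
  chk_of_checkP [⟨81, 1, 6, 1⟩] (ugSopts p c2)
  (.leaf 0)
  _ (by decide +kernel)

theorem chk_gS1 : Chk (ugSopts p c1) (uSBox c1) :=
  chk_of_checkP [⟨80, 1, 6, 1⟩] (ugSopts p c1)
  (.leaf 0)
  _ (by decide +kernel)

theorem chk_vS0 : Chk (uvSopts p c0) (uSBox c0) :=
  chk_of_checkP [⟨64, 1, 5, 1⟩] (uvSopts p c0)
  (.leaf 0)
  _ (by decide +kernel)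

theorem chk_gS0 : Chk (ugSopts p c0) (uSBox c0) :=
  chk_of_checkP [⟨64, 1, 5, 1⟩] (ugSopts p c0)
  (.leaf 0)
  _ (by decide +kernel)


end Pool.Agent.T2H40.BR.U2
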