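import Pool.Agent.T2H40.BR.Chk2

/-!
# Data of piece Q1
-/

set_option autoImplicit false

namespace Pool.Agent.T2H40.BR.Q1

def c0 : SCls := ⟨0, 840, [(1732, 2644), (668, -10428), (5164, 2002)],
  [(826, -3836), (-11273, 188224), (21279, -697966)],
  [(2411, 7097), (4578, -24618), (-2663, 146355)], 1⟩
def c1 : SCls := ⟨840, 2190, [(4074, -28641), (-11829, 180235), (23866, -326591), (-12703, 159489)],
  [(-18393, -49701), (117495, 347467), (-196654, -854346), (15544, 973080)],
  [(-7065, -120949), (113397, 772257), (-383724, -1085742), (402354, 51354)], 1⟩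
def p : Piece := ⟨2000, 2190, (5814, 12149), [(-7588, 29962), (21398, -143764), (-12703, 159489)],
  [(0, 0), (16743, -88779), (3299, 157470), (-15046, -132491), (-2582, 60342)],
  [(3315, -12778), (2477, 6274), (-18229, 3606), (10806, 15419)],
  [c0, c1], 300, 650, true, 1000⟩

end Pool.Agent.T2H40.BR.Q1
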