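import Pool.Agent.T2H40.BR.D.Q1

set_option autoImplicit false
set_option maxRecDepth 1000000
set_option exponentiation.threshold 1000000000

namespace Pool.Agent.T2H40.BR.Q1

theorem csE1_P0 : Chk (csEopts p c1) {(csEBox p c1) with h2 := 1500} :=
  chk_of_checkP [⟨601, 23, 17, 23⟩, ⟨385, 13, 10, 15⟩, ⟨601, 23, 17, 23⟩, ⟨1, 1, 1, 1⟩, ⟨1, 1, 1, 1⟩, ⟨385, 13, 10, 15⟩, ⟨42, 2, 2, 3⟩, ⟨39, 2, 2, 1⟩, ⟨42, 2, 2, 3⟩, ⟨1, 1, 1, 1⟩, ⟨1, 1, 1, 1⟩] (csEopts p c1)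
  (.leaf 8)
  _ (by decide +kernel)

theorem csE1_P1 : Chk (csEopts p c1) {({({(csEBox p c1) with l2 := 1500}) with h1 := 945}) with h1 := 473} :=
  chk_of_checkP [⟨601, 23, 17, 23⟩, ⟨385, 13, 10, 15⟩, ⟨601, 23, 17, 23⟩, ⟨1, 1, 1, 1⟩, ⟨1, 1, 1, 1⟩, ⟨385, 13, 10, 15⟩, ⟨42, 2, 2, 3⟩, ⟨39, 2, 2, 1⟩, ⟨42, 2, 2, 3⟩, ⟨1, 1, 1, 1⟩, ⟨1, 1, 1, 1⟩] (csEopts p c1)
  (.n2 2250 (.leaf 8) (.n1 237 (.n1 119 (.leaf 5) (.leaf 5)) (.n1 355 (.leaf 1) (.n2 2625 (.n1 414 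
  (.n0 2095 (.leaf 2) (.leaf 1)) (.leaf 2)) (.n0 2095 (.n0 2048 (.n2 2813 (.leaf 0) (.n2 2907 
  (.leaf 0) (.leaf 1))) (.leaf 0)) (.leaf 2))))))
  _ (by decide +kernel)

theorem csE1_P2 : Chk (csEopts p c1) {({({({(csEBox p c1) with l2 := 1500}) with h1 := 945}) with l1 := 473}) with h2 := 2250} :=
  chk_of_checkP [⟨601, 23, 17, 23⟩, ⟨385, 13, 10, 15⟩, ⟨601, 23, 17, 23⟩, ⟨1, 1, 1, 1⟩, ⟨1, 1, 1, 1⟩, ⟨385, 13, 10, 15⟩, ⟨42, 2, 2, 3⟩, ⟨39, 2, 2, 1⟩, ⟨42, 2, 2, 3⟩, ⟨1, 1, 1, 1⟩, ⟨1, 1, 1, 1⟩] (csEopts p c1)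
  (.n2 1875 (.leaf 8) (.n1 709 (.n2 2063 (.leaf 8) (.n1 591 (.n2 2157 (.leaf 8) (.n0 2095 (.n1 532 
  (.n0 2048 (.n0 2024 (.leaf 0) (.leaf 2)) (.leaf 2)) (.leaf 0)) (.leaf 2))) (.n0 2095 (.n0 2048 
  (.leaf 0) (.n0 2072 (.leaf 0) (.n2 2157 (.n1 650 (.leaf 8) (.leaf 0)) (.leaf 0)))) (.n2 2157 
  (.leaf 8) (.n0 2143 (.leaf 0) (.n1 650 (.leaf 2) (.leaf 0))))))) (.n2 2063 (.n2 1969 (.leaf 8) 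
  (.n1 827 (.n0 2095 (.leaf 0) (.leaf 8)) (.leaf 0))) (.leaf 0))))
  _ (by decide +kernel)


end Pool.Agent.T2H40.BR.Q1
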