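import Pool.Agent.T2H40.BR.D.Q1

set_option autoImplicit false
set_option maxRecDepth 1000000
set_option exponentiation.threshold 1000000000

namespace Pool.Agent.T2H40.BR.Q1

theorem csEu1_P0 : Chk (csEuopts p c1) {(csEuBox p) with h2 := 1800} :=
  chk_of_checkP [⟨565, 7, 17, 23⟩, ⟨1, 1, 1, 1⟩, ⟨1, 1, 1, 1⟩, ⟨1, 1, 1, 1⟩, ⟨1, 1, 1, 1⟩, ⟨1, 1, 1, 1⟩, ⟨41, 2, 2, 3⟩, ⟨40, 1, 2, 3⟩, ⟨1, 1, 1, 1⟩] (csEuopts p c1)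
  (.n2 1200 (.leaf 7) (.leaf 0))
  _ (by decide +kernel)

theorem csEu1_P1 : Chk (csEuopts p c1) {({(csEuBox p) with l2 := 1800}) with h2 := 2400} :=
  chk_of_checkP [⟨565, 7, 17, 23⟩, ⟨1, 1, 1, 1⟩, ⟨1, 1, 1, 1⟩, ⟨1, 1, 1, 1⟩, ⟨1, 1, 1, 1⟩, ⟨1, 1, 1, 1⟩, ⟨41, 2, 2, 3⟩, ⟨40, 1, 2, 3⟩, ⟨1, 1, 1, 1⟩] (csEuopts p c1)
  (.leaf 0)
  _ (by decide +kernel)

theorem csEu1_P2 : Chk (csEuopts p c1) {({({({({(csEuBox p) with l2 := 1800}) with l2 := 2400}) with h2 := 2700}) with h0 := 2095}) with h2 := 2550} :=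
  chk_of_checkP [⟨565, 7, 17, 23⟩, ⟨1, 1, 1, 1⟩, ⟨1, 1, 1, 1⟩, ⟨1, 1, 1, 1⟩, ⟨1, 1, 1, 1⟩, ⟨1, 1, 1, 1⟩, ⟨41, 2, 2, 3⟩, ⟨40, 1, 2, 3⟩, ⟨1, 1, 1, 1⟩] (csEuopts p c1)
  (.n2 2475 (.n1 150 (.n1 75 (.n1 38 (.n1 19 (.n0 2048 (.n0 2024 (.n0 2012 (.n0 2006 (.n2 2438 
  (.leaf 0) (.n2 2457 (.leaf 0) (.n2 2466 (.leaf 0) (.leaf 6)))) (.leaf 0)) (.leaf 0)) (.leaf 0)) 
  (.leaf 0)) (.leaf 0)) (.leaf 0)) (.leaf 0)) (.leaf 0)) (.n0 2048 (.n2 2512 (.n1 150 (.n0 2024 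
  (.n2 2494 (.n1 75 (.n0 2012 (.n1 38 (.leaf 6) (.n2 2485 (.leaf 0) (.n1 57 (.leaf 6) (.n0 2006 
  (.leaf 6) (.leaf 0))))) (.n1 38 (.n2 2485 (.n1 19 (.leaf 6) (.leaf 0)) (.leaf 6)) (.leaf 0))) 
  (.leaf 0)) (.n1 75 (.n1 38 (.leaf 6) (.n0 2012 (.leaf 6) (.n1 57 (.leaf 6) (.n2 2503 (.n0 2018 
  (.leaf 6) (.leaf 0)) (.leaf 6))))) (.n1 113 (.n2 2503 (.n1 94 (.n0 2012 (.n1 85 (.leaf 6) 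
  (.leaf 0)) (.leaf 0)) (.leaf 0)) (.n0 2012 (.n1 94 (.leaf 6) (.n1 104 (.leaf 6) (.leaf 0))) 
  (.n1 94 (.n1 85 (.leaf 6) (.leaf 0)) (.leaf 0)))) (.leaf 0)))) (.n1 75 (.n2 2494 (.n1 38 
  (.n1 19 (.n0 2036 (.n2 2485 (.leaf 0) (.leaf 6)) (.leaf 0)) (.leaf 0)) (.leaf 0)) (.n1 38 
  (.n1 19 (.leaf 6) (.n0 2036 (.leaf 6) (.n0 2042 (.leaf 6) (.leaf 0)))) (.n0 2036 (.n2 2503 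
  (.leaf 0) (.leaf 6)) (.leaf 0)))) (.leaf 0))) (.leaf 0)) (.n1 150 (.n1 75 (.leaf 6) (.n2 2531 
  (.n0 2024 (.n1 113 (.leaf 6) (.n2 2522 (.n0 2012 (.n1 132 (.n1 123 (.leaf 6) (.n0 2006 (.leaf 6)
   (.leaf 0))) (.leaf 0)) (.leaf 0)) (.n0 2012 (.leaf 6) (.n1 132 (.leaf 6) (.leaf 0))))) 
  (.n1 113 (.n2 2522 (.n1 94 (.n0 2036 (.leaf 6) (.leaf 0)) (.leaf 0)) (.n0 2036 (.leaf 6) 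
  (.n1 94 (.leaf 6) (.leaf 0)))) (.leaf 0))) (.n0 2024 (.leaf 6) (.n1 113 (.leaf 6) (.n2 2541 
  (.n0 2036 (.n1 132 (.leaf 6) (.leaf 0)) (.leaf 0)) (.n0 2036 (.leaf 6) (.n1 132 (.leaf 6) 
  (.leaf 0)))))))) (.n1 225 (.n1 188 (.n2 2531 (.leaf 0) (.n0 2024 (.n2 2541 (.n1 169 (.n0 2012 
  (.leaf 6) (.leaf 0)) (.leaf 0)) (.n1 169 (.leaf 6) (.n0 2012 (.leaf 6) (.n2 2546 (.leaf 0) 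
  (.leaf 6))))) (.n1 169 (.n0 2036 (.n1 160 (.n2 2541 (.leaf 0) (.leaf 6)) (.leaf 0)) (.leaf 0)) 
  (.leaf 0)))) (.leaf 0)) (.leaf 0)))) (.n1 150 (.n2 2512 (.leaf 0) (.n0 2072 (.n2 2531 (.n1 75 
  (.n1 38 (.leaf 6) (.n0 2060 (.n1 57 (.leaf 6) (.leaf 0)) (.leaf 0))) (.leaf 0)) (.n1 75 
  (.leaf 6) (.n1 113 (.n2 2541 (.n1 94 (.n0 2060 (.leaf 6) (.leaf 0)) (.leaf 0)) (.n1 94 (.leaf 6)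
   (.n0 2060 (.leaf 6) (.leaf 0)))) (.leaf 0)))) (.n1 75 (.n1 38 (.n2 2531 (.leaf 0) (.leaf 6)) 
  (.leaf 0)) (.leaf 0)))) (.leaf 0))))
  _ (by decide +kernel)


end Pool.Agent.T2H40.BR.Q1
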