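import Pool.Agent.T2H40.BR.Chk2

/-!
# Data of piece Q2
-/

set_option autoImplicit false

namespace Pool.Agent.T2H40.BR.Q2

def c0 : SCls := ⟨0, 840, [(1698, 487), (3726, -33544), (-6728, 176836)],
  [(980, -2051), (-24000, 140050), (74367, -921977)],
  [(1728, 25310), (6821, 26133), (-18177, -166285)], 1⟩
def c1 : SCls := ⟨840, 1260, [(4406, -6957), (-12561, 88254), (19328, -192298), (-8581, 110321)],
  [(13068, -328291), (-70346, 1764801), (83207, -2548538)],
  [(600, 6000)], 2⟩
def c2 : SCls := ⟨1260, 1890, [(-2927, -176715), (20410, 738123), (-21635, -615077)],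
  [(20575, -821227), (-86791, 3000000), (75019, -2730862)],
  [(16354, -767230), (-60605, 3000000), (59504, -2702509)], 1⟩
def p : Piece := ⟨1800, 1890, (4084, 76712), [(-6150, 22651), (18385, -138665), (-8581, 110321)],
  [(0, 0), (30061, -372288), (-60727, 2189574), (54450, -2912086), (-5923, 807184)],
  [(3919, 6608), (-884, 1034), (-7412, -321964), (2564, 307420)],
  [c0, c1, c2], 300, 580, true, 1000⟩

end Pool.Agent.T2H40.BR.Q2
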