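import Pool.Agent.T2H40.BR.D.Q2

set_option autoImplicit false
set_option maxRecDepth 1000000
set_option exponentiation.threshold 1000000000

namespace Pool.Agent.T2H40.BR.Q2

theorem csE2_P0 : Chk (csEopts p c2) {(csEBox p c2) with h2 := 1500} :=
  chk_of_checkP [⟨465, 7, 15, 17⟩, ⟨298, 4, 10, 11⟩, ⟨465, 7, 15, 17⟩, ⟨1, 1, 1, 1⟩, ⟨1, 1, 1, 1⟩, ⟨298, 4, 10, 11⟩, ⟨41, 2, 2, 3⟩, ⟨1, 1, 1, 1⟩, ⟨40, 1, 2, 3⟩, ⟨40, 1, 2, 3⟩, ⟨1, 1, 1, 1⟩] (csEopts p c2)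
  (.leaf 8)
  _ (by decide +kernel)

theorem csE2_P1 : Chk (csEopts p c2) {({(csEBox p c2) with l2 := 1500}) with h2 := 2250} :=
  chk_of_checkP [⟨465, 7, 15, 17⟩, ⟨298, 4, 10, 11⟩, ⟨465, 7, 15, 17⟩, ⟨1, 1, 1, 1⟩, ⟨1, 1, 1, 1⟩, ⟨298, 4, 10, 11⟩, ⟨41, 2, 2, 3⟩, ⟨1, 1, 1, 1⟩, ⟨40, 1, 2, 3⟩, ⟨40, 1, 2, 3⟩, ⟨1, 1, 1, 1⟩] (csEopts p c2)
  (.n1 1095 (.n2 1875 (.leaf 8) (.n2 2063 (.n1 698 (.n1 499 (.n1 399 (.n2 1969 (.leaf 8) (.n0 1845 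
  (.n1 350 (.n2 2016 (.leaf 8) (.n2 2039 (.leaf 8) (.leaf 0))) (.leaf 8)) (.leaf 0))) (.leaf 8)) 
  (.leaf 8)) (.leaf 8)) (.n1 698 (.n0 1845 (.n2 2157 (.n1 499 (.n0 1822 (.n0 1811 (.n1 399 
  (.leaf 0) (.n1 449 (.leaf 0) (.n2 2110 (.n2 2087 (.leaf 8) (.leaf 0)) (.leaf 0)))) (.leaf 0)) 
  (.leaf 0)) (.n1 599 (.n2 2110 (.leaf 8) (.n2 2134 (.n1 549 (.leaf 0) (.leaf 8)) (.leaf 0))) 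
  (.leaf 8))) (.n0 1822 (.n1 499 (.leaf 0) (.n0 1811 (.n1 599 (.leaf 0) (.n1 649 (.leaf 0) 
  (.n2 2204 (.n2 2181 (.leaf 8) (.leaf 0)) (.leaf 0)))) (.leaf 0))) (.leaf 0))) (.leaf 0)) 
  (.n1 897 (.n1 797 (.n2 2157 (.leaf 8) (.n2 2204 (.leaf 8) (.n0 1845 (.n1 747 (.leaf 0) 
  (.n2 2227 (.leaf 8) (.leaf 0))) (.leaf 0)))) (.leaf 8)) (.leaf 8))))) (.leaf 8))
  _ (by decide +kernel)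

theorem csE2_P2 : Chk (csEopts p c2) {({({({(csEBox p c2) with l2 := 1500}) with l2 := 2250}) with h1 := 1095}) with h2 := 2625} :=
  chk_of_checkP [⟨465, 7, 15, 17⟩, ⟨298, 4, 10, 11⟩, ⟨465, 7, 15, 17⟩, ⟨1, 1, 1, 1⟩, ⟨1, 1, 1, 1⟩, ⟨298, 4, 10, 11⟩, ⟨41, 2, 2, 3⟩, ⟨1, 1, 1, 1⟩, ⟨40, 1, 2, 3⟩, ⟨40, 1, 2, 3⟩, ⟨1, 1, 1, 1⟩] (csEopts p c2)
  (.n1 698 (.n2 2438 (.leaf 0) (.n1 499 (.n2 2532 (.n0 1845 (.n2 2485 (.n0 1822 (.n0 1811 (.n1 399 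
  (.n1 350 (.n2 2462 (.leaf 0) (.n1 325 (.n2 2474 (.n2 2468 (.leaf 0) (.n0 1806 (.leaf 6) 
  (.leaf 0))) (.leaf 6)) (.n0 1806 (.n0 1803 (.n2 2474 (.leaf 0) (.n0 1802 (.leaf 6) (.leaf 0))) 
  (.leaf 0)) (.leaf 0)))) (.leaf 0)) (.leaf 0)) (.leaf 0)) (.leaf 0)) (.n1 399 (.n0 1822 
  (.n2 2509 (.n1 350 (.n0 1811 (.leaf 6) (.n0 1816 (.leaf 6) (.n1 325 (.leaf 6) (.n1 338 (.leaf 6)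
   (.leaf 0))))) (.n0 1811 (.n2 2497 (.n0 1806 (.n0 1803 (.n0 1802 (.n1 375 (.n0 1801 (.leaf 6) 
  (.leaf 0)) (.leaf 0)) (.leaf 0)) (.leaf 0)) (.leaf 0)) (.n1 375 (.leaf 6) (.n2 2503 (.leaf 0) 
  (.n0 1806 (.leaf 6) (.leaf 0))))) (.leaf 0))) (.n0 1811 (.leaf 6) (.n0 1816 (.leaf 6) (.n0 1819 
  (.leaf 6) (.n1 350 (.leaf 6) (.n1 375 (.leaf 6) (.leaf 0))))))) (.n1 350 (.n2 2509 (.n0 1834 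
  (.n1 325 (.leaf 6) (.leaf 0)) (.leaf 0)) (.leaf 6)) (.n0 1834 (.n0 1828 (.n0 1825 (.n1 375 
  (.n2 2509 (.leaf 0) (.leaf 6)) (.leaf 0)) (.leaf 0)) (.leaf 0)) (.leaf 0)))) (.n0 1822 
  (.n0 1811 (.n1 449 (.n1 424 (.n2 2509 (.leaf 0) (.n2 2521 (.n2 2515 (.leaf 0) (.n0 1806 
  (.leaf 6) (.leaf 0))) (.leaf 6))) (.leaf 0)) (.leaf 0)) (.leaf 0)) (.leaf 0)))) (.leaf 0)) 
  (.n1 399 (.n0 1845 (.leaf 6) (.n2 2579 (.n0 1868 (.n1 350 (.leaf 6) (.n1 375 (.leaf 6) 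
  (.leaf 0))) (.n2 2556 (.leaf 0) (.n0 1879 (.leaf 6) (.leaf 0)))) (.leaf 9))) (.n0 1845 
  (.n2 2579 (.n0 1822 (.n1 449 (.n0 1811 (.leaf 6) (.n0 1816 (.leaf 6) (.n1 424 (.leaf 6) 
  (.n2 2556 (.leaf 0) (.leaf 6))))) (.n2 2556 (.n0 1811 (.n0 1806 (.n1 474 (.n2 2544 (.leaf 0) 
  (.leaf 6)) (.leaf 0)) (.leaf 0)) (.leaf 0)) (.n0 1811 (.leaf 6) (.n1 474 (.leaf 6) (.n1 487 
  (.leaf 6) (.leaf 0)))))) (.n1 449 (.n2 2556 (.leaf 0) (.leaf 6)) (.leaf 0))) (.leaf 6)) 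
  (.n2 2579 (.leaf 0) (.n1 449 (.n0 1868 (.leaf 6) (.leaf 0)) (.leaf 0)))))) (.n0 1845 (.n2 2532 
  (.leaf 0) (.n1 599 (.n2 2579 (.n0 1822 (.n0 1811 (.n0 1806 (.n1 549 (.n1 524 (.n2 2556 (.leaf 0)
   (.n2 2568 (.leaf 0) (.leaf 6))) (.leaf 0)) (.leaf 0)) (.leaf 0)) (.leaf 0)) (.leaf 0)) 
  (.n0 1822 (.n1 549 (.n0 1811 (.leaf 6) (.n1 524 (.leaf 6) (.n2 2602 (.leaf 0) (.leaf 6)))) 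
  (.n2 2602 (.n0 1811 (.n0 1806 (.n0 1803 (.n1 574 (.n2 2591 (.leaf 0) (.leaf 6)) (.leaf 0)) 
  (.leaf 0)) (.leaf 0)) (.leaf 0)) (.n1 574 (.leaf 6) (.n2 2614 (.n0 1811 (.n0 1806 (.leaf 6) 
  (.leaf 0)) (.leaf 0)) (.leaf 6))))) (.n0 1834 (.n0 1828 (.n1 549 (.n1 524 (.leaf 6) (.leaf 0)) 
  (.leaf 0)) (.leaf 0)) (.leaf 0)))) (.n0 1822 (.n0 1811 (.n0 1806 (.n0 1803 (.n1 649 (.n0 1802 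
  (.n1 624 (.n2 2579 (.leaf 0) (.n0 1801 (.n1 611 (.n2 2602 (.leaf 0) (.n2 2614 (.leaf 0) 
  (.leaf 6))) (.leaf 0)) (.leaf 0))) (.leaf 0)) (.leaf 0)) (.leaf 0)) (.leaf 0)) (.leaf 0)) 
  (.leaf 0)) (.leaf 0)))) (.leaf 0)))) (.n0 1845 (.n2 2438 (.n1 897 (.n0 1822 (.n0 1811 (.n1 797 
  (.leaf 0) (.n2 2344 (.n2 2297 (.n1 847 (.n0 1806 (.n0 1803 (.n0 1802 (.n1 822 (.leaf 0) 
  (.n2 2274 (.leaf 8) (.leaf 0))) (.leaf 0)) (.leaf 0)) (.leaf 0)) (.n1 872 (.n2 2274 (.leaf 8) 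
  (.leaf 0)) (.leaf 8))) (.leaf 0)) (.leaf 0))) (.leaf 0)) (.leaf 0)) (.n2 2344 (.n1 996 (.n1 947 
  (.n2 2297 (.leaf 8) (.n2 2321 (.leaf 8) (.leaf 0))) (.leaf 8)) (.leaf 8)) (.n0 1822 (.n1 996 
  (.leaf 0) (.n2 2391 (.n1 1046 (.n2 2368 (.leaf 8) (.leaf 0)) (.leaf 8)) (.leaf 0))) (.leaf 0))))
   (.leaf 0)) (.leaf 0)))
  _ (by decide +kernel)


end Pool.Agent.T2H40.BR.Q2
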