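import Pool.Agent.T2H40.BR.D.Q2

set_option autoImplicit false
set_option maxRecDepth 1000000
set_option exponentiation.threshold 1000000000

namespace Pool.Agent.T2H40.BR.Q2

theorem csEu2_P0 : Chk (csEuopts p c2) {(csEuBox p) with h2 := 1800} :=
  chk_of_checkP [⟨455, 7, 15, 17⟩, ⟨1, 1, 1, 1⟩, ⟨1, 1, 1, 1⟩, ⟨1, 1, 1, 1⟩, ⟨1, 1, 1, 1⟩, ⟨1, 1, 1, 1⟩, ⟨41, 2, 2, 3⟩, ⟨40, 1, 2, 3⟩, ⟨40, 1, 2, 3⟩] (csEuopts p c2)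
  (.leaf 7)
  _ (by decide +kernel)

theorem csEu2_P1 : Chk (csEuopts p c2) {({(csEuBox p) with l2 := 1800}) with h2 := 2400} :=
  chk_of_checkP [⟨455, 7, 15, 17⟩, ⟨1, 1, 1, 1⟩, ⟨1, 1, 1, 1⟩, ⟨1, 1, 1, 1⟩, ⟨1, 1, 1, 1⟩, ⟨1, 1, 1, 1⟩, ⟨41, 2, 2, 3⟩, ⟨40, 1, 2, 3⟩, ⟨40, 1, 2, 3⟩] (csEuopts p c2)
  (.n2 2100 (.n2 1950 (.n1 150 (.n1 75 (.n1 38 (.n1 19 (.n2 1875 (.leaf 7) (.n2 1912 (.leaf 7) 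
  (.n2 1931 (.leaf 7) (.leaf 0)))) (.leaf 7)) (.leaf 7)) (.leaf 7)) (.leaf 7)) (.n0 1845 
  (.n2 2025 (.n1 150 (.n0 1822 (.n1 75 (.leaf 0) (.n1 113 (.leaf 0) (.n0 1811 (.n1 132 (.leaf 0) 
  (.n2 1988 (.leaf 7) (.leaf 0))) (.leaf 0)))) (.leaf 0)) (.n2 1988 (.leaf 7) (.n1 225 (.leaf 0) 
  (.n2 2007 (.leaf 7) (.leaf 0))))) (.leaf 0)) (.leaf 0))) (.n1 150 (.n2 2250 (.leaf 0) (.n2 2325 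
  (.leaf 0) (.n0 1845 (.n2 2363 (.n1 75 (.n0 1822 (.n2 2344 (.n1 38 (.n0 1811 (.n2 2335 (.n1 19 
  (.n1 10 (.n1 5 (.n1 3 (.n1 2 (.n1 1 (.n0 1806 (.n2 2330 (.leaf 0) (.leaf 6)) (.leaf 0)) 
  (.leaf 0)) (.leaf 0)) (.leaf 0)) (.leaf 0)) (.leaf 0)) (.leaf 0)) (.n1 19 (.n2 2340 (.n1 10 
  (.leaf 6) (.n0 1806 (.n0 1803 (.leaf 6) (.leaf 0)) (.leaf 0))) (.leaf 6)) (.n0 1806 (.n0 1803 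
  (.n1 29 (.n2 2340 (.leaf 0) (.leaf 6)) (.leaf 0)) (.leaf 0)) (.leaf 0)))) (.leaf 0)) (.leaf 0)) 
  (.n0 1811 (.n1 38 (.n1 19 (.leaf 6) (.n0 1806 (.leaf 6) (.n1 29 (.leaf 6) (.n2 2354 (.n2 2349 
  (.leaf 0) (.leaf 6)) (.leaf 6))))) (.n2 2354 (.n1 57 (.n0 1806 (.n2 2349 (.leaf 0) (.n0 1803 
  (.leaf 6) (.leaf 0))) (.leaf 0)) (.leaf 0)) (.n1 57 (.leaf 6) (.n2 2359 (.leaf 0) (.n0 1806 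
  (.leaf 6) (.leaf 0)))))) (.n1 38 (.n2 2354 (.n1 19 (.n2 2349 (.n0 1816 (.leaf 6) (.n0 1819 
  (.leaf 6) (.leaf 0))) (.leaf 6)) (.n0 1816 (.n2 2349 (.leaf 0) (.n1 29 (.leaf 6) (.leaf 0))) 
  (.leaf 0))) (.leaf 6)) (.n1 57 (.n0 1816 (.n1 47 (.n2 2354 (.leaf 0) (.leaf 6)) (.leaf 0)) 
  (.leaf 0)) (.leaf 0))))) (.n1 38 (.n2 2344 (.leaf 0) (.n0 1834 (.n2 2354 (.n1 19 (.n1 10 (.n1 5 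
  (.n0 1828 (.leaf 6) (.leaf 0)) (.leaf 0)) (.leaf 0)) (.leaf 0)) (.n1 19 (.leaf 6) (.n0 1828 
  (.n1 29 (.leaf 6) (.leaf 0)) (.leaf 0)))) (.n1 19 (.n1 10 (.n1 5 (.n1 3 (.n2 2354 (.leaf 0) 
  (.leaf 6)) (.leaf 0)) (.leaf 0)) (.leaf 0)) (.leaf 0)))) (.leaf 0))) (.leaf 0)) (.n0 1822 
  (.n2 2382 (.n1 75 (.n1 38 (.leaf 6) (.n0 1811 (.leaf 6) (.n1 57 (.leaf 6) (.n2 2373 (.n2 2368 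
  (.leaf 0) (.leaf 6)) (.leaf 6))))) (.n1 113 (.n0 1811 (.n2 2373 (.n1 94 (.n2 2368 (.leaf 0) 
  (.n0 1806 (.leaf 6) (.leaf 0))) (.leaf 0)) (.n1 94 (.leaf 6) (.n0 1806 (.leaf 6) (.leaf 0)))) 
  (.n1 94 (.n0 1816 (.n2 2373 (.leaf 0) (.leaf 6)) (.leaf 0)) (.leaf 0))) (.leaf 0))) (.n1 75 
  (.leaf 6) (.n1 113 (.n0 1811 (.leaf 6) (.n1 94 (.leaf 6) (.n0 1816 (.leaf 6) (.n2 2391 (.leaf 0)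
   (.leaf 6))))) (.n0 1811 (.n2 2391 (.n1 132 (.n0 1806 (.leaf 6) (.leaf 0)) (.leaf 0)) (.n1 132 
  (.leaf 6) (.n0 1806 (.leaf 6) (.leaf 0)))) (.n1 132 (.n2 2391 (.leaf 0) (.n0 1816 (.leaf 6) 
  (.leaf 0))) (.leaf 0)))))) (.n2 2382 (.n1 75 (.n1 38 (.n0 1834 (.leaf 6) (.n2 2373 (.n2 2368 
  (.n1 19 (.leaf 6) (.leaf 0)) (.leaf 6)) (.leaf 6))) (.n0 1834 (.n2 2373 (.n0 1828 (.n1 57 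
  (.n0 1825 (.leaf 6) (.leaf 0)) (.leaf 0)) (.leaf 0)) (.n1 57 (.leaf 6) (.n0 1828 (.leaf 6) 
  (.leaf 0)))) (.n1 57 (.n0 1840 (.n2 2373 (.leaf 0) (.leaf 6)) (.leaf 0)) (.leaf 0)))) (.leaf 0))
   (.n1 75 (.n0 1834 (.leaf 6) (.n1 38 (.leaf 6) (.n1 57 (.leaf 6) (.n2 2391 (.n0 1840 (.leaf 6) 
  (.leaf 0)) (.leaf 6))))) (.n1 113 (.n0 1834 (.n2 2391 (.n0 1828 (.n1 94 (.leaf 6) (.leaf 0)) 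
  (.leaf 0)) (.n0 1828 (.leaf 6) (.n1 94 (.leaf 6) (.leaf 0)))) (.n1 94 (.n2 2391 (.leaf 0) 
  (.leaf 6)) (.leaf 0))) (.leaf 0)))))) (.n1 75 (.n2 2363 (.leaf 0) (.n0 1868 (.n2 2382 (.n1 38 
  (.n0 1857 (.n2 2373 (.n1 19 (.n2 2368 (.leaf 0) (.leaf 6)) (.leaf 0)) (.n0 1851 (.leaf 6) 
  (.n1 19 (.leaf 6) (.leaf 0)))) (.n1 19 (.n1 10 (.n2 2373 (.leaf 0) (.leaf 6)) (.leaf 0)) 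
  (.leaf 0))) (.leaf 0)) (.n1 38 (.n0 1857 (.leaf 6) (.n1 19 (.leaf 6) (.n0 1863 (.leaf 6) 
  (.n1 29 (.leaf 6) (.leaf 0))))) (.n0 1857 (.n2 2391 (.n0 1851 (.n1 57 (.leaf 6) (.leaf 0)) 
  (.leaf 0)) (.leaf 6)) (.leaf 0)))) (.n1 38 (.n2 2382 (.leaf 0) (.n0 1879 (.n2 2391 (.n1 19 
  (.leaf 6) (.leaf 0)) (.leaf 6)) (.n1 19 (.n2 2391 (.leaf 0) (.leaf 8)) (.leaf 0)))) (.leaf 0))))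
   (.leaf 0))))) (.leaf 0)))
  _ (by decide +kernel)

theorem csEu2_P2 : Chk (csEuopts p c2) {({(csEuBox p) with l2 := 1800}) with l2 := 2400} :=
  chk_of_checkP [⟨455, 7, 15, 17⟩, ⟨1, 1, 1, 1⟩, ⟨1, 1, 1, 1⟩, ⟨1, 1, 1, 1⟩, ⟨1, 1, 1, 1⟩, ⟨1, 1, 1, 1⟩, ⟨41, 2, 2, 3⟩, ⟨40, 1, 2, 3⟩, ⟨40, 1, 2, 3⟩] (csEuopts p c2)
  (.n2 2700 (.n2 2550 (.n2 2475 (.n0 1845 (.n1 150 (.n0 1822 (.leaf 6) (.n1 75 (.leaf 6) (.n1 113 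
  (.leaf 6) (.n2 2438 (.n2 2419 (.n0 1834 (.n1 132 (.leaf 6) (.n2 2410 (.leaf 0) (.leaf 6))) 
  (.leaf 0)) (.leaf 6)) (.leaf 6))))) (.n2 2438 (.n1 225 (.n0 1822 (.n2 2419 (.n1 188 (.n0 1811 
  (.n1 169 (.leaf 6) (.n2 2410 (.leaf 0) (.leaf 6))) (.n1 169 (.n2 2410 (.leaf 0) (.leaf 6)) 
  (.leaf 0))) (.leaf 0)) (.n1 188 (.leaf 6) (.n0 1811 (.n1 207 (.leaf 6) (.n2 2429 (.n2 2424 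
  (.leaf 0) (.leaf 6)) (.leaf 6))) (.n2 2429 (.leaf 0) (.n1 207 (.leaf 6) (.leaf 0)))))) 
  (.n0 1834 (.n1 188 (.n2 2419 (.leaf 0) (.n1 169 (.leaf 6) (.n0 1828 (.leaf 6) (.leaf 0)))) 
  (.leaf 0)) (.leaf 0))) (.n0 1822 (.n1 263 (.n0 1811 (.n1 244 (.n0 1806 (.n0 1803 (.n1 235 
  (.n0 1802 (.n1 230 (.n2 2419 (.leaf 0) (.n2 2429 (.leaf 0) (.leaf 6))) (.leaf 0)) (.leaf 0)) 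
  (.leaf 0)) (.leaf 0)) (.leaf 0)) (.leaf 0)) (.leaf 0)) (.leaf 0)) (.leaf 0))) (.n1 225 
  (.n0 1822 (.leaf 6) (.n1 188 (.leaf 6) (.n2 2457 (.n0 1834 (.n0 1828 (.leaf 6) (.n1 207 
  (.leaf 6) (.leaf 0))) (.leaf 0)) (.leaf 6)))) (.n0 1822 (.n2 2457 (.n1 263 (.n2 2448 (.n0 1811 
  (.n1 244 (.leaf 6) (.n0 1806 (.leaf 6) (.leaf 0))) (.leaf 0)) (.leaf 6)) (.n0 1811 (.n1 282 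
  (.n2 2448 (.leaf 0) (.n0 1806 (.leaf 6) (.leaf 0))) (.leaf 0)) (.leaf 0))) (.n1 263 (.leaf 6) 
  (.n0 1811 (.leaf 6) (.n1 282 (.leaf 6) (.leaf 0))))) (.n0 1834 (.n1 263 (.n2 2457 (.leaf 0) 
  (.leaf 6)) (.leaf 0)) (.leaf 0)))))) (.n1 150 (.n2 2438 (.n1 75 (.n0 1868 (.leaf 6) (.n1 38 
  (.leaf 8) (.n2 2419 (.n1 57 (.n0 1879 (.leaf 6) (.leaf 0)) (.leaf 0)) (.leaf 8)))) (.n0 1868 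
  (.n2 2419 (.n0 1857 (.n1 113 (.n1 94 (.leaf 6) (.leaf 0)) (.leaf 0)) (.leaf 0)) (.n1 113 
  (.leaf 6) (.n2 2429 (.leaf 0) (.leaf 6)))) (.n1 113 (.n0 1879 (.n2 2419 (.leaf 0) (.n1 94 
  (.leaf 6) (.leaf 0))) (.leaf 0)) (.leaf 0)))) (.n0 1868 (.leaf 6) (.n1 75 (.leaf 8) (.n1 113 
  (.leaf 8) (.n2 2457 (.n0 1879 (.leaf 6) (.leaf 0)) (.leaf 8)))))) (.n0 1868 (.n1 225 (.n2 2438 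
  (.leaf 0) (.n2 2457 (.n0 1857 (.n1 188 (.leaf 6) (.leaf 0)) (.leaf 0)) (.n0 1857 (.leaf 6) 
  (.n1 188 (.leaf 6) (.leaf 0))))) (.leaf 0)) (.leaf 0)))) (.n1 150 (.leaf 8) (.n2 2512 (.n1 225 
  (.n0 1845 (.leaf 6) (.n0 1868 (.leaf 6) (.n1 188 (.leaf 8) (.n0 1879 (.leaf 6) (.leaf 0))))) 
  (.n0 1845 (.n0 1822 (.leaf 6) (.n0 1834 (.leaf 6) (.n1 263 (.leaf 6) (.n2 2494 (.leaf 0) 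
  (.leaf 6))))) (.n0 1868 (.n1 263 (.n2 2494 (.n0 1857 (.leaf 6) (.leaf 0)) (.leaf 6)) (.leaf 0)) 
  (.leaf 0)))) (.leaf 8)))) (.leaf 8)) (.leaf 8))
  _ (by decide +kernel)


end Pool.Agent.T2H40.BR.Q2
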