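import Pool.Agent.T2H40.BR.Chk2

/-!
# Data of piece Q3
-/

set_option autoImplicit false

namespace Pool.Agent.T2H40.BR.Q3

def c0 : SCls := ⟨0, 900, [(1908, -6680), (4186, -277), (-24383, -388713), (45601, 2120532)],
  [(627, 6961), (-24000, 1), (121588, -1465812), (-176448, 4946987)],
  [(2467, 1614), (364, -475788), (53878, 3397196), (-163370, -5400000)], 1⟩
def c1 : SCls := ⟨900, 1200, [(7425, -89021), (-21821, 950684), (-6883, -2957797), (76917, 3558427), (-17109, -1407633)],
  [(3909, -167338), (-20600, 1768346), (44846, -5400000), (-81494, 5400000)],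
  [(900, 6000)], 2⟩
def c2 : SCls := ⟨1200, 2000, [(-13855, -211009), (81281, 2024626), (-127807, -5400000), (62091, 4571804)],
  [(-163, -1432299), (40090, 3759513), (-180000, 2111700), (166601, -7011457)],
  [(30959, -320794), (-155925, -315014), (268666, 5276190), (-143536, -6071116)], 1⟩
def p : Piece := ⟨1950, 2000, (6378, -12683), [(-8311, -43821), (28407, 768254), (-31459, -2072105), (17109, 1407633)],
  [(0, 0), (27442, -402693), (-46084, 1244836), (49338, -1386634), (-22646, 606760)],
  [(3178, 5922), (2983, -425916), (-22097, 1479742), (15916, -1304368)],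
  [c0, c1, c2], 300, 603, true, 1000⟩

end Pool.Agent.T2H40.BR.Q3
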