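import Pool.Agent.T2H40.BR.D.Q3

set_option autoImplicit false
set_option maxRecDepth 1000000
set_option exponentiation.threshold 1000000000

namespace Pool.Agent.T2H40.BR.Q3

theorem csE0_P0 : Chk (csEopts p c0) {(csEBox p c0) with h2 := 1500} :=
  chk_of_checkP [⟨588, 7, 19, 23⟩, ⟨378, 4, 12, 15⟩, ⟨588, 7, 19, 23⟩, ⟨588, 7, 19, 23⟩, ⟨588, 7, 19, 23⟩, ⟨1, 1, 1, 1⟩, ⟨1, 1, 1, 1⟩, ⟨1, 1, 1, 1⟩, ⟨1, 1, 1, 1⟩, ⟨40, 1, 2, 3⟩, ⟨1, 1, 1, 1⟩] (csEopts p c0)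
  (.n1 1150 (.n2 750 (.n1 725 (.n2 375 (.n1 513 (.n1 407 (.n2 188 (.leaf 4) (.n2 282 (.leaf 3) 
  (.leaf 2))) (.leaf 4)) (.leaf 4)) (.n1 513 (.n2 563 (.n1 407 (.n2 469 (.n1 354 (.n0 1975 
  (.leaf 0) (.n1 327 (.leaf 0) (.n2 422 (.leaf 2) (.leaf 0)))) (.n0 1975 (.leaf 2) (.n0 1988 
  (.leaf 2) (.n0 1994 (.leaf 2) (.n0 1997 (.leaf 2) (.n0 1998 (.leaf 2) (.n0 1999 (.leaf 2) 
  (.n2 422 (.leaf 2) (.n1 381 (.n1 368 (.leaf 0) (.leaf 2)) (.leaf 2)))))))))) (.leaf 0)) 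
  (.n0 1975 (.leaf 2) (.n2 469 (.leaf 2) (.n1 460 (.n2 516 (.leaf 2) (.n1 433 (.leaf 0) 
  (.leaf 2))) (.leaf 2))))) (.n0 1975 (.leaf 0) (.n1 407 (.leaf 0) (.n1 460 (.leaf 0) (.n2 657 
  (.n2 610 (.leaf 2) (.leaf 0)) (.leaf 0)))))) (.n2 563 (.leaf 2) (.n1 619 (.n2 657 (.leaf 2) 
  (.n1 566 (.leaf 0) (.leaf 2))) (.leaf 2))))) (.leaf 3)) (.n2 1125 (.n1 725 (.n1 513 (.leaf 0) 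
  (.n2 938 (.n1 619 (.leaf 0) (.n2 844 (.n0 1975 (.leaf 2) (.n0 1988 (.leaf 2) (.n1 672 (.n2 797 
  (.leaf 2) (.leaf 0)) (.leaf 2)))) (.leaf 0))) (.leaf 0))) (.n1 938 (.n2 938 (.leaf 2) (.leaf 0))
   (.leaf 2))) (.leaf 0))) (.leaf 1))
  _ (by decide +kernel)

theorem csE0_P1 : Chk (csEopts p c0) {(csEBox p c0) with l2 := 1500} :=
  chk_of_checkP [⟨588, 7, 19, 23⟩, ⟨378, 4, 12, 15⟩, ⟨588, 7, 19, 23⟩, ⟨588, 7, 19, 23⟩, ⟨588, 7, 19, 23⟩, ⟨1, 1, 1, 1⟩, ⟨1, 1, 1, 1⟩, ⟨1, 1, 1, 1⟩, ⟨1, 1, 1, 1⟩, ⟨40, 1, 2, 3⟩, ⟨1, 1, 1, 1⟩] (csEopts p c0)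
  (.n2 2250 (.n1 1150 (.n0 1975 (.leaf 0) (.n0 1988 (.leaf 0) (.n1 725 (.n2 1875 (.leaf 0) (.n1 513 
  (.leaf 9) (.leaf 0))) (.leaf 0)))) (.n1 1575 (.n1 1363 (.n0 1975 (.n0 1963 (.n2 1875 (.n1 1257 
  (.leaf 0) (.n2 1688 (.leaf 1) (.leaf 0))) (.leaf 0)) (.leaf 0)) (.leaf 0)) (.n2 1875 (.leaf 1) 
  (.n1 1469 (.n2 2063 (.n1 1416 (.leaf 0) (.n2 1969 (.leaf 1) (.n2 2016 (.leaf 1) (.leaf 0)))) 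
  (.leaf 0)) (.n2 2063 (.leaf 1) (.n1 1522 (.n2 2157 (.leaf 1) (.leaf 0)) (.leaf 1)))))) 
  (.leaf 1))) (.n1 1150 (.leaf 9) (.n1 1575 (.n2 2625 (.n1 1363 (.leaf 9) (.leaf 0)) (.leaf 9)) 
  (.n2 2625 (.n2 2438 (.leaf 1) (.n1 1788 (.n1 1682 (.leaf 2) (.leaf 1)) (.leaf 1))) (.n1 1788 
  (.leaf 9) (.n1 1894 (.leaf 1) (.n2 2813 (.leaf 1) (.n2 2907 (.n2 2860 (.n1 1947 (.leaf 9) 
  (.n0 1975 (.leaf 1) (.leaf 1))) (.leaf 9)) (.leaf 9)))))))))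
  _ (by decide +kernel)


end Pool.Agent.T2H40.BR.Q3
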