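import Pool.Agent.T2H40.BR.D.Q3

set_option autoImplicit false
set_option maxRecDepth 1000000
set_option exponentiation.threshold 1000000000

namespace Pool.Agent.T2H40.BR.Q3

theorem csE1_P0 : Chk (csEopts p c1) {(csEBox p c1) with h2 := 1500} :=
  chk_of_checkP [⟨763, 29, 23, 29⟩, ⟨510, 16, 13, 21⟩, ⟨763, 29, 23, 29⟩, ⟨1, 1, 1, 1⟩, ⟨1, 1, 1, 1⟩, ⟨1, 1, 1, 1⟩, ⟨1, 1, 1, 1⟩, ⟨1, 1, 1, 1⟩, ⟨41, 2, 2, 3⟩, ⟨42, 2, 2, 3⟩, ⟨1, 1, 1, 1⟩] (csEopts p c1)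
  (.leaf 8)
  _ (by decide +kernel)

theorem csE1_P1 : Chk (csEopts p c1) {({(csEBox p c1) with l2 := 1500}) with h2 := 2250} :=
  chk_of_checkP [⟨763, 29, 23, 29⟩, ⟨510, 16, 13, 21⟩, ⟨763, 29, 23, 29⟩, ⟨1, 1, 1, 1⟩, ⟨1, 1, 1, 1⟩, ⟨1, 1, 1, 1⟩, ⟨1, 1, 1, 1⟩, ⟨1, 1, 1, 1⟩, ⟨41, 2, 2, 3⟩, ⟨42, 2, 2, 3⟩, ⟨1, 1, 1, 1⟩] (csEopts p c1)
  (.n1 850 (.n1 425 (.leaf 8) (.n2 1875 (.leaf 8) (.n2 2063 (.leaf 8) (.n1 638 (.n1 532 (.leaf 8) 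
  (.leaf 0)) (.leaf 0))))) (.n0 1975 (.leaf 0) (.n1 1275 (.n2 1875 (.leaf 8) (.leaf 0)) 
  (.leaf 0))))
  _ (by decide +kernel)


end Pool.Agent.T2H40.BR.Q3
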