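import Pool.Agent.T2H40.BR.D.Q3

set_option autoImplicit false
set_option maxRecDepth 1000000
set_option exponentiation.threshold 1000000000

namespace Pool.Agent.T2H40.BR.Q3

theorem csE2_P0 : Chk (csEopts p c2) {(csEBox p c2) with h2 := 1500} :=
  chk_of_checkP [⟨591, 7, 19, 23⟩, ⟨382, 4, 12, 15⟩, ⟨591, 7, 19, 23⟩, ⟨1, 1, 1, 1⟩, ⟨1, 1, 1, 1⟩, ⟨1, 1, 1, 1⟩, ⟨41, 2, 2, 3⟩, ⟨1, 1, 1, 1⟩, ⟨40, 1, 2, 3⟩, ⟨40, 1, 2, 3⟩, ⟨1, 1, 1, 1⟩] (csEopts p c2)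
  (.leaf 8)
  _ (by decide +kernel)

theorem csE2_P1 : Chk (csEopts p c2) {({(csEBox p c2) with l2 := 1500}) with h2 := 2250} :=
  chk_of_checkP [⟨591, 7, 19, 23⟩, ⟨382, 4, 12, 15⟩, ⟨591, 7, 19, 23⟩, ⟨1, 1, 1, 1⟩, ⟨1, 1, 1, 1⟩, ⟨1, 1, 1, 1⟩, ⟨41, 2, 2, 3⟩, ⟨1, 1, 1, 1⟩, ⟨40, 1, 2, 3⟩, ⟨40, 1, 2, 3⟩, ⟨1, 1, 1, 1⟩] (csEopts p c2)
  (.n1 1150 (.n2 1875 (.leaf 8) (.n1 725 (.n2 2063 (.n1 513 (.n2 1969 (.leaf 8) (.n2 2016 (.n1 407 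
  (.n1 354 (.leaf 0) (.leaf 8)) (.leaf 8)) (.n0 1975 (.n0 1963 (.n0 1957 (.n0 1954 (.n1 407 
  (.leaf 0) (.n2 2039 (.leaf 8) (.leaf 0))) (.leaf 0)) (.leaf 0)) (.leaf 0)) (.leaf 0)))) 
  (.leaf 8)) (.n0 1975 (.n1 513 (.leaf 0) (.n2 2157 (.n2 2110 (.n1 619 (.n0 1963 (.n0 1957 
  (.n0 1954 (.n0 1952 (.n1 566 (.leaf 0) (.n1 593 (.leaf 0) (.leaf 8))) (.leaf 0)) (.leaf 0)) 
  (.leaf 0)) (.leaf 0)) (.leaf 8)) (.leaf 0)) (.leaf 0))) (.leaf 0))) (.n1 938 (.n2 2063 (.leaf 8)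
   (.n2 2157 (.leaf 8) (.n1 832 (.n0 1975 (.n0 1963 (.n0 1957 (.n0 1954 (.n0 1952 (.n1 779 
  (.leaf 0) (.n2 2204 (.leaf 8) (.leaf 0))) (.leaf 0)) (.leaf 0)) (.leaf 0)) (.leaf 0)) (.leaf 0))
   (.n2 2204 (.leaf 8) (.n1 885 (.leaf 0) (.leaf 8)))))) (.leaf 8)))) (.leaf 8))
  _ (by decide +kernel)


end Pool.Agent.T2H40.BR.Q3
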