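import Pool.Agent.T2H40.BR.D.Q3

set_option autoImplicit false
set_option maxRecDepth 1000000
set_option exponentiation.threshold 1000000000

namespace Pool.Agent.T2H40.BR.Q3

theorem csEu2_P0 : Chk (csEuopts p c2) {(csEuBox p) with h2 := 1800} :=
  chk_of_checkP [⟨577, 7, 19, 23⟩, ⟨1, 1, 1, 1⟩, ⟨1, 1, 1, 1⟩, ⟨1, 1, 1, 1⟩, ⟨1, 1, 1, 1⟩, ⟨1, 1, 1, 1⟩, ⟨41, 2, 2, 3⟩, ⟨40, 1, 2, 3⟩, ⟨40, 1, 2, 3⟩] (csEuopts p c2)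
  (.leaf 7)
  _ (by decide +kernel)

theorem csEu2_P1 : Chk (csEuopts p c2) {({(csEuBox p) with l2 := 1800}) with h2 := 2400} :=
  chk_of_checkP [⟨577, 7, 19, 23⟩, ⟨1, 1, 1, 1⟩, ⟨1, 1, 1, 1⟩, ⟨1, 1, 1, 1⟩, ⟨1, 1, 1, 1⟩, ⟨1, 1, 1, 1⟩, ⟨41, 2, 2, 3⟩, ⟨40, 1, 2, 3⟩, ⟨40, 1, 2, 3⟩] (csEuopts p c2)
  (.n2 2100 (.n2 1950 (.n2 1875 (.leaf 7) (.n1 150 (.n0 1975 (.n0 1963 (.n1 75 (.leaf 0) (.n2 1912 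
  (.leaf 7) (.leaf 0))) (.leaf 0)) (.leaf 0)) (.n0 1975 (.n1 225 (.n2 1912 (.leaf 7) (.n1 188 
  (.leaf 0) (.leaf 7))) (.leaf 7)) (.leaf 0)))) (.leaf 0)) (.leaf 0))
  _ (by decide +kernel)

theorem csEu2_P2 : Chk (csEuopts p c2) {({({({({({({({({(csEuBox p) with l2 := 1800}) with l2 := 2400}) with h2 := 2700}) with h0 := 1975}) with h2 := 2550}) with h0 := 1963}) with h2 := 2475}) with h1 := 150}) with h2 := 2438} :=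
  chk_of_checkP [⟨577, 7, 19, 23⟩, ⟨1, 1, 1, 1⟩, ⟨1, 1, 1, 1⟩, ⟨1, 1, 1, 1⟩, ⟨1, 1, 1, 1⟩, ⟨1, 1, 1, 1⟩, ⟨41, 2, 2, 3⟩, ⟨40, 1, 2, 3⟩, ⟨40, 1, 2, 3⟩] (csEuopts p c2)
  (.n1 75 (.n1 38 (.n0 1957 (.n2 2419 (.leaf 0) (.n0 1954 (.n2 2429 (.n1 19 (.n0 1952 (.n2 2424 
  (.n1 10 (.n1 5 (.n2 2422 (.leaf 0) (.leaf 6)) (.leaf 0)) (.leaf 0)) (.n1 10 (.leaf 6) (.n0 1951 
  (.n2 2427 (.n1 15 (.n2 2426 (.leaf 0) (.leaf 6)) (.leaf 0)) (.leaf 6)) (.leaf 0)))) (.n1 10 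
  (.n1 5 (.n2 2424 (.leaf 0) (.leaf 6)) (.leaf 0)) (.leaf 0))) (.leaf 0)) (.n1 19 (.leaf 6) 
  (.n0 1952 (.n2 2434 (.n1 29 (.n2 2432 (.n0 1951 (.n1 24 (.n1 22 (.leaf 6) (.n1 23 (.leaf 6) 
  (.leaf 0))) (.leaf 0)) (.leaf 0)) (.leaf 6)) (.leaf 0)) (.n1 29 (.leaf 6) (.n1 34 (.leaf 6) 
  (.n2 2436 (.leaf 0) (.leaf 6))))) (.n1 29 (.n2 2434 (.leaf 0) (.leaf 6)) (.leaf 0))))) (.n1 19 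
  (.n1 10 (.n2 2429 (.leaf 0) (.leaf 6)) (.leaf 0)) (.leaf 0)))) (.leaf 0)) (.leaf 0)) (.leaf 0))
  _ (by decide +kernel)


end Pool.Agent.T2H40.BR.Q3
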