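import Pool.Agent.T2H40.BR.Chk2

/-!
# Data of piece Q4
-/

set_option autoImplicit false

namespace Pool.Agent.T2H40.BR.Q4

def c0 : SCls := ⟨0, 840, [(1776, -1323), (2106, -127115), (-1097, 542956)],
  [(808, 475), (-24000, 363262), (67928, -1124374)],
  [(2526, 4412), (8478, -14307), (-26269, 242996)], 1⟩
def c1 : SCls := ⟨840, 1260, [(8267, -22371), (-33666, 143427), (47260, -200460), (-7143, 98004)],
  [(12105, -430193), (-68958, 2805873), (80714, -4302620)],
  [(780, 6000)], 2⟩
def c2 : SCls := ⟨1260, 1950, [(-9339, 74033), (44617, -153853), (-42553, 183815)],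
  [(25992, -1090569), (-118979, 4500000), (113475, -4359500)],
  [(15949, -1163114), (-56217, 4500000), (53617, -4000000)], 1⟩
def p : Piece := ⟨1890, 1950, (6443, 12955), [(-4879, -4281), (14969, -93552), (-7143, 98004)],
  [(0, 0), (29011, -111467), (-41692, 182186), (6918, 555351), (31106, -1008855)],
  [(3793, -9470), (-415, -102239), (-14959, 455268), (9742, -472727)],
  [c0, c1, c2], 300, 593, true, 1000⟩

end Pool.Agent.T2H40.BR.Q4
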