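import Pool.Agent.T2H40.BR.D.Q4

set_option autoImplicit false
set_option maxRecDepth 1000000
set_option exponentiation.threshold 1000000000

namespace Pool.Agent.T2H40.BR.Q4

theorem csE2_P0 : Chk (csEopts p c2) {(csEBox p c2) with h2 := 1500} :=
  chk_of_checkP [⟨462, 7, 15, 17⟩, ⟨296, 4, 10, 11⟩, ⟨462, 7, 15, 17⟩, ⟨462, 7, 15, 17⟩, ⟨1, 1, 1, 1⟩, ⟨1, 1, 1, 1⟩, ⟨41, 2, 2, 3⟩, ⟨1, 1, 1, 1⟩, ⟨40, 1, 2, 3⟩, ⟨40, 1, 2, 3⟩, ⟨1, 1, 1, 1⟩] (csEopts p c2)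
  (.leaf 8)
  _ (by decide +kernel)

theorem csE2_P1 : Chk (csEopts p c2) {({(csEBox p c2) with l2 := 1500}) with h1 := 1125} :=
  chk_of_checkP [⟨462, 7, 15, 17⟩, ⟨296, 4, 10, 11⟩, ⟨462, 7, 15, 17⟩, ⟨462, 7, 15, 17⟩, ⟨1, 1, 1, 1⟩, ⟨1, 1, 1, 1⟩, ⟨41, 2, 2, 3⟩, ⟨1, 1, 1, 1⟩, ⟨40, 1, 2, 3⟩, ⟨40, 1, 2, 3⟩, ⟨1, 1, 1, 1⟩] (csEopts p c2)
  (.n2 2250 (.n2 1875 (.leaf 8) (.n2 2063 (.n1 713 (.n1 507 (.n1 404 (.n1 352 (.n2 1969 (.leaf 8) 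
  (.n2 2016 (.leaf 8) (.n2 2039 (.leaf 8) (.leaf 0)))) (.leaf 8)) (.leaf 8)) (.leaf 8)) (.leaf 8))
   (.n1 713 (.n2 2157 (.n1 507 (.n0 1920 (.n0 1905 (.n1 404 (.leaf 0) (.n2 2110 (.n2 2087 
  (.leaf 8) (.leaf 0)) (.leaf 0))) (.leaf 0)) (.leaf 0)) (.n1 610 (.n2 2110 (.leaf 8) (.n2 2134 
  (.n1 559 (.leaf 0) (.leaf 8)) (.leaf 0))) (.leaf 8))) (.n0 1920 (.n0 1905 (.n1 507 (.leaf 0) 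
  (.n0 1898 (.n1 610 (.leaf 0) (.n1 662 (.leaf 0) (.n2 2204 (.n2 2181 (.leaf 8) (.leaf 0)) 
  (.leaf 0)))) (.leaf 0))) (.leaf 0)) (.leaf 0))) (.n1 919 (.n1 816 (.n1 765 (.n2 2157 (.leaf 8) 
  (.n2 2204 (.leaf 8) (.leaf 0))) (.leaf 8)) (.leaf 8)) (.leaf 8))))) (.n2 2625 (.n0 1920 
  (.n1 713 (.n1 507 (.n2 2438 (.leaf 0) (.n2 2532 (.leaf 0) (.n1 404 (.n2 2579 (.n1 352 (.n2 2556 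
  (.n0 1905 (.n1 326 (.n0 1898 (.leaf 6) (.n0 1902 (.leaf 6) (.n2 2544 (.leaf 0) (.leaf 6)))) 
  (.n2 2544 (.leaf 0) (.n0 1898 (.leaf 6) (.n0 1902 (.leaf 6) (.leaf 0))))) (.n0 1912 (.n1 326 
  (.n2 2544 (.leaf 0) (.leaf 6)) (.leaf 0)) (.leaf 0))) (.leaf 6)) (.n2 2556 (.leaf 0) (.n0 1905 
  (.n1 378 (.n0 1898 (.leaf 6) (.n2 2568 (.leaf 0) (.leaf 6))) (.n2 2568 (.leaf 0) (.n0 1898 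
  (.leaf 6) (.leaf 0)))) (.n0 1912 (.n0 1909 (.n0 1907 (.n1 378 (.n1 365 (.leaf 6) (.leaf 0)) 
  (.leaf 0)) (.leaf 0)) (.leaf 0)) (.leaf 0))))) (.n0 1905 (.leaf 6) (.n0 1912 (.leaf 6) 
  (.n0 1916 (.leaf 6) (.n0 1918 (.leaf 6) (.n1 352 (.leaf 6) (.n1 378 (.leaf 6) (.n2 2602 
  (.leaf 0) (.leaf 6))))))))) (.n2 2579 (.leaf 0) (.n1 455 (.n2 2602 (.n0 1905 (.n1 430 (.n2 2591 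
  (.n0 1898 (.leaf 6) (.leaf 0)) (.leaf 6)) (.leaf 0)) (.leaf 0)) (.n0 1905 (.leaf 6) (.n0 1912 
  (.leaf 6) (.n1 430 (.leaf 6) (.leaf 0))))) (.n0 1905 (.n0 1898 (.n1 481 (.n2 2602 (.leaf 0) 
  (.n2 2614 (.leaf 0) (.leaf 6))) (.leaf 0)) (.leaf 0)) (.leaf 0))))))) (.leaf 0)) (.n2 2438 
  (.n1 919 (.n0 1905 (.n0 1898 (.n1 816 (.leaf 0) (.n2 2344 (.n1 868 (.leaf 0) (.n2 2297 (.leaf 8)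
   (.leaf 0))) (.leaf 0))) (.leaf 0)) (.leaf 0)) (.n2 2344 (.n1 1022 (.n1 971 (.n2 2297 (.leaf 8) 
  (.leaf 0)) (.leaf 8)) (.leaf 8)) (.n0 1905 (.n0 1898 (.n1 1022 (.leaf 0) (.n2 2391 (.leaf 8) 
  (.leaf 0))) (.leaf 0)) (.leaf 0)))) (.leaf 0))) (.n1 713 (.n1 507 (.n1 404 (.n2 2438 (.leaf 0) 
  (.n2 2532 (.leaf 0) (.n2 2579 (.n0 1935 (.n0 1928 (.n1 352 (.n2 2556 (.leaf 0) (.n1 326 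
  (.leaf 6) (.leaf 0))) (.leaf 0)) (.leaf 0)) (.leaf 0)) (.n1 352 (.leaf 9) (.n2 2602 (.n0 1935 
  (.n1 378 (.leaf 6) (.leaf 0)) (.leaf 0)) (.leaf 9)))))) (.leaf 0)) (.leaf 0)) (.n0 1935 
  (.n0 1928 (.n1 919 (.leaf 0) (.n0 1924 (.n2 2438 (.n1 1022 (.leaf 0) (.n2 2344 (.leaf 8) 
  (.leaf 0))) (.leaf 0)) (.leaf 0))) (.leaf 0)) (.leaf 0)))) (.n1 713 (.n2 2813 (.n1 507 (.n1 404 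
  (.leaf 9) (.n2 2719 (.n2 2672 (.n1 455 (.n0 1920 (.leaf 6) (.n0 1935 (.leaf 6) (.n0 1943 
  (.leaf 6) (.leaf 0)))) (.n0 1920 (.n0 1905 (.leaf 6) (.n1 481 (.leaf 6) (.n2 2649 (.leaf 0) 
  (.leaf 6)))) (.n2 2649 (.leaf 0) (.n0 1935 (.leaf 6) (.leaf 0))))) (.leaf 9)) (.leaf 9))) 
  (.n2 2719 (.n1 610 (.n2 2672 (.n0 1920 (.n1 559 (.n2 2649 (.n0 1905 (.n0 1898 (.n0 1894 
  (.n0 1892 (.n0 1891 (.n1 533 (.n1 520 (.leaf 6) (.leaf 0)) (.leaf 0)) (.leaf 0)) (.leaf 0)) 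
  (.leaf 0)) (.leaf 0)) (.leaf 0)) (.n1 533 (.leaf 6) (.n2 2661 (.leaf 0) (.leaf 6)))) (.leaf 0)) 
  (.leaf 0)) (.n0 1920 (.n1 559 (.leaf 6) (.n2 2696 (.n1 585 (.n0 1905 (.leaf 6) (.leaf 0)) 
  (.leaf 0)) (.leaf 6))) (.n1 559 (.n0 1935 (.leaf 6) (.leaf 0)) (.leaf 0)))) (.n0 1920 (.n0 1905 
  (.n0 1898 (.n1 662 (.n1 636 (.n2 2672 (.leaf 0) (.n2 2696 (.leaf 0) (.leaf 6))) (.leaf 0)) 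
  (.leaf 0)) (.leaf 0)) (.leaf 0)) (.leaf 0))) (.n1 610 (.leaf 9) (.n2 2766 (.n0 1920 (.n1 662 
  (.leaf 6) (.n2 2743 (.leaf 0) (.n0 1905 (.leaf 6) (.leaf 0)))) (.n0 1935 (.n0 1928 (.n0 1924 
  (.n0 1922 (.n1 662 (.n1 636 (.leaf 6) (.leaf 0)) (.leaf 0)) (.leaf 0)) (.leaf 0)) (.leaf 0)) 
  (.leaf 0))) (.n0 1920 (.leaf 6) (.n0 1935 (.leaf 6) (.n0 1943 (.leaf 6) (.leaf 0)))))))) 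
  (.leaf 9)) (.n2 2813 (.n0 1920 (.n1 919 (.n1 816 (.n2 2719 (.leaf 0) (.n1 765 (.n2 2766 
  (.leaf 0) (.n2 2790 (.n1 739 (.leaf 6) (.leaf 0)) (.leaf 6))) (.leaf 0))) (.leaf 0)) (.leaf 0)) 
  (.leaf 0)) (.n1 919 (.n2 2907 (.n1 816 (.n0 1920 (.leaf 6) (.n1 765 (.leaf 9) (.n2 2860 
  (.leaf 0) (.leaf 9)))) (.n0 1920 (.n2 2860 (.n0 1905 (.n0 1898 (.n0 1894 (.n0 1892 (.n1 868 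
  (.n1 842 (.leaf 6) (.leaf 0)) (.leaf 0)) (.leaf 0)) (.leaf 0)) (.leaf 0)) (.leaf 0)) (.n1 868 
  (.leaf 6) (.n2 2884 (.leaf 0) (.leaf 6)))) (.leaf 0))) (.leaf 9)) (.n2 2907 (.leaf 0) (.n1 1022 
  (.n0 1920 (.n2 2954 (.n1 971 (.n0 1905 (.leaf 6) (.leaf 0)) (.leaf 0)) (.n0 1905 (.leaf 6) 
  (.n1 971 (.leaf 6) (.leaf 0)))) (.leaf 0)) (.leaf 0))))))))
  _ (by decide +kernel)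

theorem csE2_P2 : Chk (csEopts p c2) {({(csEBox p c2) with l2 := 1500}) with l1 := 1125} :=
  chk_of_checkP [⟨462, 7, 15, 17⟩, ⟨296, 4, 10, 11⟩, ⟨462, 7, 15, 17⟩, ⟨462, 7, 15, 17⟩, ⟨1, 1, 1, 1⟩, ⟨1, 1, 1, 1⟩, ⟨41, 2, 2, 3⟩, ⟨1, 1, 1, 1⟩, ⟨40, 1, 2, 3⟩, ⟨40, 1, 2, 3⟩, ⟨1, 1, 1, 1⟩] (csEopts p c2)
  (.n2 2250 (.leaf 8) (.n2 2625 (.n1 1537 (.n2 2438 (.leaf 8) (.n1 1331 (.n0 1920 (.n0 1905 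
  (.n1 1228 (.leaf 0) (.n2 2532 (.n1 1280 (.n2 2485 (.leaf 8) (.leaf 0)) (.leaf 8)) (.leaf 0))) 
  (.leaf 0)) (.leaf 0)) (.n1 1434 (.n0 1920 (.n1 1383 (.n2 2532 (.leaf 8) (.leaf 0)) (.leaf 8)) 
  (.leaf 0)) (.leaf 8)))) (.leaf 8)) (.n1 1537 (.n1 1331 (.leaf 0) (.n2 2813 (.n1 1434 (.leaf 0) 
  (.n2 2719 (.n1 1486 (.n2 2672 (.leaf 8) (.leaf 0)) (.leaf 8)) (.leaf 1))) (.leaf 2))) (.n1 1743 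
  (.n0 1920 (.n2 2813 (.n1 1640 (.n2 2719 (.leaf 8) (.n1 1589 (.n2 2766 (.leaf 8) (.n0 1905 
  (.n0 1898 (.n0 1894 (.n1 1563 (.leaf 1) (.n1 1576 (.leaf 1) (.leaf 8))) (.leaf 1)) (.leaf 2)) 
  (.leaf 2))) (.leaf 8))) (.leaf 8)) (.n1 1640 (.n0 1905 (.n0 1898 (.n1 1589 (.leaf 2) (.n2 2907 
  (.n2 2860 (.n1 1615 (.leaf 2) (.leaf 8)) (.leaf 1)) (.leaf 1))) (.leaf 1)) (.leaf 1)) (.n2 2907 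
  (.n1 1692 (.n1 1666 (.n2 2860 (.leaf 8) (.n2 2884 (.leaf 8) (.leaf 1))) (.leaf 8)) (.leaf 8)) 
  (.n1 1692 (.leaf 1) (.n2 2954 (.n0 1905 (.n1 1718 (.n2 2931 (.leaf 8) (.n1 1705 (.leaf 1) 
  (.leaf 8))) (.leaf 8)) (.leaf 3)) (.n0 1905 (.n0 1898 (.n0 1894 (.n1 1718 (.leaf 1) (.n2 2977 
  (.n1 1731 (.leaf 1) (.leaf 8)) (.leaf 1))) (.leaf 3)) (.leaf 3)) (.leaf 3))))))) (.leaf 1)) 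
  (.leaf 8)))))
  _ (by decide +kernel)


end Pool.Agent.T2H40.BR.Q4
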