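import Pool.Agent.T2H40.BR.D.Q4

set_option autoImplicit false
set_option maxRecDepth 1000000
set_option exponentiation.threshold 1000000000

namespace Pool.Agent.T2H40.BR.Q4

theorem csEu2_P0 : Chk (csEuopts p c2) {(csEuBox p) with h2 := 1800} :=
  chk_of_checkP [⟨453, 7, 15, 17⟩, ⟨1, 1, 1, 1⟩, ⟨1, 1, 1, 1⟩, ⟨1, 1, 1, 1⟩, ⟨1, 1, 1, 1⟩, ⟨1, 1, 1, 1⟩, ⟨41, 2, 2, 3⟩, ⟨40, 1, 2, 3⟩, ⟨40, 1, 2, 3⟩] (csEuopts p c2)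
  (.leaf 7)
  _ (by decide +kernel)

theorem csEu2_P1 : Chk (csEuopts p c2) {({(csEuBox p) with l2 := 1800}) with h2 := 2400} :=
  chk_of_checkP [⟨453, 7, 15, 17⟩, ⟨1, 1, 1, 1⟩, ⟨1, 1, 1, 1⟩, ⟨1, 1, 1, 1⟩, ⟨1, 1, 1, 1⟩, ⟨1, 1, 1, 1⟩, ⟨41, 2, 2, 3⟩, ⟨40, 1, 2, 3⟩, ⟨40, 1, 2, 3⟩] (csEuopts p c2)
  (.n2 2100 (.n2 1950 (.n1 150 (.n1 75 (.n1 38 (.n1 19 (.n2 1875 (.leaf 7) (.n2 1912 (.leaf 7) 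
  (.leaf 0))) (.leaf 7)) (.leaf 7)) (.leaf 7)) (.leaf 7)) (.n0 1920 (.n2 2025 (.n1 150 (.n0 1905 
  (.n1 75 (.leaf 0) (.n0 1898 (.n1 113 (.leaf 0) (.n0 1894 (.n1 132 (.leaf 0) (.n2 1988 (.leaf 7) 
  (.leaf 0))) (.leaf 0))) (.leaf 0))) (.leaf 0)) (.n2 1988 (.leaf 7) (.n1 225 (.leaf 0) (.n2 2007 
  (.leaf 7) (.leaf 0))))) (.leaf 0)) (.leaf 0))) (.n1 150 (.n1 75 (.n1 38 (.n0 1920 (.n2 2250 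
  (.leaf 0) (.n2 2325 (.leaf 0) (.n2 2363 (.leaf 0) (.n2 2382 (.leaf 0) (.n2 2391 (.leaf 0) 
  (.n1 19 (.n0 1905 (.n2 2396 (.n0 1898 (.n1 10 (.leaf 6) (.n2 2394 (.leaf 0) (.leaf 6))) (.n1 10 
  (.n1 5 (.n0 1902 (.leaf 6) (.leaf 0)) (.leaf 0)) (.leaf 0))) (.n0 1898 (.leaf 6) (.n1 10 
  (.leaf 6) (.n0 1902 (.n0 1900 (.leaf 6) (.leaf 0)) (.leaf 0))))) (.n1 10 (.n1 5 (.n1 3 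
  (.n0 1912 (.n2 2396 (.leaf 0) (.n0 1909 (.leaf 6) (.leaf 0))) (.leaf 0)) (.leaf 0)) (.leaf 0)) 
  (.leaf 0))) (.n0 1905 (.n0 1898 (.n0 1894 (.n0 1892 (.n1 29 (.n2 2396 (.leaf 0) (.leaf 6)) 
  (.leaf 0)) (.leaf 0)) (.leaf 0)) (.leaf 0)) (.leaf 0)))))))) (.leaf 0)) (.leaf 0)) (.leaf 0)) 
  (.leaf 0)))
  _ (by decide +kernel)

theorem csEu2_P2 : Chk (csEuopts p c2) {({({({({({({(csEuBox p) with l2 := 1800}) with l2 := 2400}) with h2 := 2700}) with h2 := 2550}) with h2 := 2475}) with h1 := 150}) with h2 := 2438} :=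
  chk_of_checkP [⟨453, 7, 15, 17⟩, ⟨1, 1, 1, 1⟩, ⟨1, 1, 1, 1⟩, ⟨1, 1, 1, 1⟩, ⟨1, 1, 1, 1⟩, ⟨1, 1, 1, 1⟩, ⟨41, 2, 2, 3⟩, ⟨40, 1, 2, 3⟩, ⟨40, 1, 2, 3⟩] (csEuopts p c2)
  (.n0 1920 (.n2 2419 (.n1 75 (.n0 1905 (.n1 38 (.n1 19 (.leaf 6) (.n2 2410 (.n2 2405 (.n0 1898 
  (.n1 29 (.leaf 6) (.n0 1894 (.leaf 6) (.leaf 0))) (.n0 1902 (.n1 29 (.n1 24 (.leaf 6) (.leaf 0))
   (.leaf 0)) (.leaf 0))) (.n0 1898 (.leaf 6) (.n0 1902 (.leaf 6) (.n1 29 (.leaf 6) (.leaf 0))))) 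
  (.leaf 6))) (.n2 2410 (.n0 1898 (.n1 57 (.n1 47 (.n2 2405 (.leaf 0) (.n0 1894 (.leaf 6) 
  (.n0 1896 (.leaf 6) (.leaf 0)))) (.leaf 0)) (.leaf 0)) (.leaf 0)) (.n1 57 (.n0 1898 (.leaf 6) 
  (.n2 2415 (.n1 47 (.leaf 6) (.leaf 0)) (.leaf 6))) (.n0 1898 (.n2 2415 (.leaf 0) (.n1 66 
  (.leaf 6) (.leaf 0))) (.leaf 0))))) (.n1 38 (.n2 2410 (.n2 2405 (.n1 19 (.n0 1912 (.n2 2403 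
  (.n1 10 (.leaf 6) (.leaf 0)) (.leaf 6)) (.n1 10 (.n0 1916 (.n2 2403 (.n1 5 (.leaf 6) (.leaf 0)) 
  (.leaf 6)) (.n1 5 (.n2 2403 (.leaf 0) (.leaf 6)) (.leaf 0))) (.leaf 0))) (.leaf 0)) (.n0 1912 
  (.n1 19 (.leaf 6) (.n1 29 (.n1 24 (.leaf 6) (.n0 1909 (.leaf 6) (.leaf 0))) (.leaf 0))) (.n1 19 
  (.n2 2408 (.n1 10 (.leaf 6) (.n0 1916 (.n0 1914 (.leaf 6) (.leaf 0)) (.leaf 0))) (.leaf 6)) 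
  (.leaf 0)))) (.n1 19 (.leaf 6) (.n0 1912 (.n0 1909 (.leaf 6) (.n1 29 (.leaf 6) (.n0 1911 
  (.leaf 6) (.n2 2415 (.leaf 0) (.leaf 6))))) (.n2 2415 (.n1 29 (.n0 1916 (.leaf 6) (.n1 24 
  (.leaf 6) (.leaf 0))) (.leaf 0)) (.n0 1916 (.leaf 6) (.n0 1918 (.leaf 6) (.n1 29 (.leaf 6) 
  (.leaf 0)))))))) (.n0 1912 (.n1 57 (.n1 47 (.n2 2410 (.leaf 0) (.n2 2415 (.leaf 0) (.leaf 6))) 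
  (.leaf 0)) (.leaf 0)) (.leaf 0)))) (.leaf 0)) (.n1 75 (.n1 38 (.leaf 6) (.n2 2429 (.n0 1905 
  (.n0 1898 (.leaf 6) (.n1 57 (.leaf 6) (.n1 66 (.leaf 6) (.n2 2424 (.leaf 0) (.leaf 6))))) 
  (.n1 57 (.n0 1912 (.leaf 6) (.n2 2424 (.n1 47 (.n0 1916 (.leaf 6) (.n0 1918 (.leaf 6) 
  (.leaf 0))) (.leaf 0)) (.leaf 6))) (.n0 1912 (.n2 2424 (.leaf 0) (.n1 66 (.leaf 6) (.leaf 0))) 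
  (.leaf 0)))) (.n0 1905 (.leaf 6) (.n0 1912 (.leaf 6) (.n0 1916 (.leaf 6) (.n1 57 (.leaf 6) 
  (.n1 66 (.leaf 6) (.n1 71 (.leaf 6) (.leaf 0))))))))) (.n1 113 (.n0 1905 (.n2 2429 (.n0 1898 
  (.n1 94 (.n2 2424 (.leaf 0) (.n0 1894 (.leaf 6) (.n1 85 (.leaf 6) (.leaf 0)))) (.leaf 0)) 
  (.leaf 0)) (.n1 94 (.leaf 6) (.n0 1898 (.n1 104 (.leaf 6) (.n2 2434 (.leaf 0) (.leaf 6))) 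
  (.n0 1902 (.n0 1900 (.n2 2434 (.leaf 0) (.leaf 6)) (.leaf 0)) (.leaf 0))))) (.n0 1912 (.n1 94 
  (.n1 85 (.n2 2429 (.leaf 0) (.n2 2434 (.n0 1909 (.leaf 6) (.leaf 0)) (.leaf 6))) (.leaf 0)) 
  (.leaf 0)) (.leaf 0))) (.leaf 0)))) (.n1 75 (.n2 2419 (.n1 38 (.n0 1935 (.n2 2410 (.n1 19 
  (.n1 10 (.n0 1928 (.n2 2405 (.leaf 0) (.n0 1924 (.n2 2408 (.n1 5 (.leaf 6) (.leaf 0)) (.leaf 6))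
   (.n1 5 (.n2 2408 (.leaf 0) (.leaf 6)) (.leaf 0)))) (.leaf 0)) (.leaf 0)) (.leaf 0)) (.n0 1928 
  (.n2 2415 (.n1 19 (.n2 2413 (.n1 10 (.leaf 6) (.n0 1924 (.n1 15 (.leaf 6) (.leaf 0)) (.leaf 0)))
   (.leaf 6)) (.leaf 0)) (.n1 19 (.leaf 6) (.n1 29 (.n0 1924 (.leaf 6) (.n1 24 (.leaf 6) 
  (.leaf 0))) (.leaf 0)))) (.n1 19 (.n2 2415 (.n1 10 (.n2 2413 (.n1 5 (.n0 1932 (.leaf 6) 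
  (.leaf 0)) (.leaf 0)) (.n0 1932 (.leaf 6) (.n1 5 (.leaf 6) (.leaf 0)))) (.leaf 0)) (.n1 10 
  (.leaf 6) (.n0 1932 (.n1 15 (.leaf 6) (.leaf 0)) (.leaf 0)))) (.leaf 0)))) (.n1 19 (.n1 10 
  (.n0 1943 (.n2 2410 (.leaf 0) (.n2 2415 (.leaf 0) (.n0 1939 (.n2 2417 (.n1 5 (.leaf 6) 
  (.leaf 0)) (.leaf 6)) (.n1 5 (.n2 2417 (.leaf 0) (.leaf 6)) (.leaf 0))))) (.leaf 0)) (.leaf 0)) 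
  (.leaf 0))) (.leaf 0)) (.n0 1935 (.n1 38 (.n1 19 (.leaf 6) (.n2 2429 (.n2 2424 (.n0 1928 
  (.n0 1924 (.leaf 6) (.n1 29 (.leaf 6) (.n1 34 (.leaf 6) (.leaf 0)))) (.n0 1932 (.n1 29 (.n1 24 
  (.leaf 6) (.n0 1930 (.leaf 6) (.leaf 0))) (.leaf 0)) (.leaf 0))) (.n0 1928 (.leaf 6) (.n0 1932 
  (.leaf 6) (.n1 29 (.leaf 6) (.leaf 0))))) (.leaf 6))) (.n2 2429 (.n0 1928 (.n1 57 (.n1 47 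
  (.n2 2424 (.leaf 0) (.n0 1924 (.leaf 6) (.n0 1926 (.leaf 6) (.leaf 0)))) (.leaf 0)) (.leaf 0)) 
  (.leaf 0)) (.n1 57 (.n0 1928 (.leaf 6) (.n1 47 (.leaf 6) (.n2 2434 (.leaf 0) (.leaf 6)))) 
  (.n0 1928 (.n0 1924 (.n2 2434 (.leaf 0) (.leaf 6)) (.leaf 0)) (.leaf 0))))) (.n1 38 (.n2 2429 
  (.n0 1943 (.n1 19 (.n1 10 (.leaf 6) (.n2 2424 (.n0 1939 (.n1 15 (.leaf 6) (.leaf 0)) (.leaf 0)) 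
  (.leaf 6))) (.n0 1939 (.n1 29 (.n2 2424 (.leaf 0) (.leaf 6)) (.leaf 0)) (.leaf 0))) (.n1 19 
  (.n2 2424 (.n1 10 (.n1 5 (.n0 1947 (.leaf 6) (.leaf 0)) (.leaf 0)) (.leaf 0)) (.n1 10 (.leaf 8) 
  (.n2 2427 (.leaf 0) (.leaf 8)))) (.leaf 0))) (.n1 19 (.leaf 8) (.n0 1943 (.n0 1939 (.leaf 6) 
  (.n0 1941 (.leaf 6) (.n1 29 (.leaf 6) (.n1 34 (.leaf 6) (.leaf 0))))) (.n1 29 (.n0 1947 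
  (.leaf 6) (.n1 24 (.leaf 8) (.leaf 0))) (.leaf 0))))) (.n0 1943 (.n0 1939 (.n1 57 (.n0 1937 
  (.n1 47 (.n0 1936 (.n2 2429 (.leaf 0) (.n1 43 (.leaf 6) (.leaf 0))) (.leaf 0)) (.leaf 0)) 
  (.leaf 0)) (.leaf 0)) (.leaf 0)) (.leaf 0))))) (.leaf 0)))
  _ (by decide +kernel)


end Pool.Agent.T2H40.BR.Q4
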