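import Pool.Agent.T2H40.BR.Chk2

/-!
# Data of piece Q5
-/

set_option autoImplicit false

namespace Pool.Agent.T2H40.BR.Q5

def c0 : SCls := ⟨0, 840, [(1918, -2571), (627, 90424), (5177, -330971)],
  [(807, 9880), (2320, -269562), (-42900, 1285714)],
  [(2522, 8025), (3291, -112534), (959, 478498)], 1⟩
def c1 : SCls := ⟨840, 2400, [(423, -3404), (8292, 17732), (-5495, -39820), (-1666, 21897)],
  [(-10423, -26674), (82382, 403078), (-180000, -1285714), (91220, 1238960)],
  [(2229, 58672), (6927, -314889), (-13410, 656739), (18873, -401922)], 1⟩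
def p : Piece := ⟨2190, 2400, (5146, -3115), [(-4359, -7771), (9110, 5392), (-1666, 21897)],
  [(0, 0), (4772, -47769), (25600, 134891), (-6735, -429880), (-33312, 318047)],
  [(2647, -28456), (2231, 148295), (-14261, -316273), (8083, 213327)],
  [c0, c1], 300, 717, true, -1⟩

end Pool.Agent.T2H40.BR.Q5
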