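import Pool.Agent.T2H40.BR.Chk2

/-!
# Data of piece Q8
-/

set_option autoImplicit false

namespace Pool.Agent.T2H40.BR.Q8

def c0 : SCls := ⟨0, 780, [(2148, -6375), (4238, -50535), (-22680, 451409)],
  [(589, 4709), (-2841, 108073), (-48042, 75279)],
  [(2130, -484), (5146, -37018), (-32897, 464323)], 1⟩
def c1 : SCls := ⟨780, 1350, [(3155, 4581), (-11104, 55796), (26618, -131362), (-21961, 59545)],
  [(-1925, 55882), (-5120, -65992), (-7755, 89765)],
  [(300, 6000)], 2⟩
def c2 : SCls := ⟨1350, 1800, [(-16243, -90988), (73015, 293125), (-75267, -160658)],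
  [(43295, -429893), (-180000, 1800000), (156833, -1799999)],
  [(35171, -452733), (-143665, 1800000), (148605, -1717675)], 1⟩
def p : Piece := ⟨1650, 1800, (6221, -14747), [(-8340, -21073), (32045, -47273), (-21961, 59545)],
  [(0, 0), (13215, 131323), (51980, -1038634), (-77402, 1800000), (-9188, -775369)],
  [(5098, -14721), (-5852, 246811), (-9120, -731075), (8991, 620253)],
  [c0, c1, c2], 300, 563, true, 1275⟩

end Pool.Agent.T2H40.BR.Q8
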