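import Pool.Agent.T2H40.BR.D.Q8

set_option autoImplicit false
set_option maxRecDepth 1000000
set_option exponentiation.threshold 1000000000

namespace Pool.Agent.T2H40.BR.Q8

theorem csE2_P0 : Chk (csEopts p c2) {(csEBox p c2) with h2 := 1500} :=
  chk_of_checkP [⟨461, 7, 15, 17⟩, ⟨296, 4, 10, 11⟩, ⟨461, 7, 15, 17⟩, ⟨461, 7, 15, 17⟩, ⟨1, 1, 1, 1⟩, ⟨1, 1, 1, 1⟩, ⟨41, 2, 2, 3⟩, ⟨1, 1, 1, 1⟩, ⟨40, 1, 2, 3⟩, ⟨40, 1, 2, 3⟩, ⟨1, 1, 1, 1⟩] (csEopts p c2)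
  (.leaf 8)
  _ (by decide +kernel)

theorem csE2_P1 : Chk (csEopts p c2) {({(csEBox p c2) with l2 := 1500}) with h2 := 2250} :=
  chk_of_checkP [⟨461, 7, 15, 17⟩, ⟨296, 4, 10, 11⟩, ⟨461, 7, 15, 17⟩, ⟨461, 7, 15, 17⟩, ⟨1, 1, 1, 1⟩, ⟨1, 1, 1, 1⟩, ⟨41, 2, 2, 3⟩, ⟨1, 1, 1, 1⟩, ⟨40, 1, 2, 3⟩, ⟨40, 1, 2, 3⟩, ⟨1, 1, 1, 1⟩] (csEopts p c2)
  (.n1 1050 (.n1 675 (.n2 1875 (.leaf 8) (.n2 2063 (.leaf 8) (.n2 2157 (.n1 488 (.n1 394 (.n2 2110 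
  (.leaf 8) (.n1 347 (.leaf 0) (.n2 2134 (.leaf 8) (.leaf 0)))) (.leaf 8)) (.leaf 8)) (.n1 488 
  (.n1 394 (.leaf 0) (.n1 441 (.leaf 0) (.n1 464 (.leaf 0) (.n2 2204 (.n2 2181 (.leaf 8) 
  (.leaf 0)) (.leaf 0))))) (.n2 2204 (.n1 582 (.n1 535 (.n1 511 (.n2 2181 (.leaf 8) (.leaf 0)) 
  (.leaf 8)) (.leaf 8)) (.leaf 8)) (.n1 582 (.n1 535 (.leaf 0) (.n1 559 (.leaf 0) (.n2 2227 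
  (.leaf 8) (.leaf 0)))) (.n1 629 (.n2 2227 (.leaf 8) (.n1 606 (.leaf 0) (.leaf 8))) 
  (.leaf 8)))))))) (.leaf 8)) (.leaf 8))
  _ (by decide +kernel)

theorem csE2_P2 : Chk (csEopts p c2) {({({({({({(csEBox p c2) with l2 := 1500}) with l2 := 2250}) with h1 := 1050}) with h2 := 2625}) with h1 := 675}) with h2 := 2438} :=
  chk_of_checkP [⟨461, 7, 15, 17⟩, ⟨296, 4, 10, 11⟩, ⟨461, 7, 15, 17⟩, ⟨461, 7, 15, 17⟩, ⟨1, 1, 1, 1⟩, ⟨1, 1, 1, 1⟩, ⟨41, 2, 2, 3⟩, ⟨1, 1, 1, 1⟩, ⟨40, 1, 2, 3⟩, ⟨40, 1, 2, 3⟩, ⟨1, 1, 1, 1⟩] (csEopts p c2)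
  (.n1 488 (.n2 2344 (.leaf 0) (.n1 394 (.n0 1725 (.n2 2391 (.n0 1688 (.n1 347 (.n2 2368 (.leaf 0) 
  (.n0 1669 (.n2 2380 (.n1 324 (.n0 1660 (.leaf 6) (.leaf 0)) (.leaf 0)) (.leaf 6)) (.n0 1679 
  (.n1 324 (.n2 2380 (.leaf 0) (.leaf 6)) (.leaf 0)) (.leaf 0)))) (.leaf 0)) (.leaf 0)) (.n0 1688 
  (.n2 2415 (.n1 347 (.n0 1669 (.leaf 6) (.n0 1679 (.leaf 6) (.n0 1683 (.leaf 6) (.n1 324 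
  (.leaf 6) (.n2 2403 (.leaf 0) (.leaf 6)))))) (.n0 1669 (.n2 2403 (.n1 371 (.leaf 6) (.leaf 0)) 
  (.leaf 6)) (.n1 371 (.n2 2403 (.leaf 0) (.n0 1679 (.leaf 6) (.n0 1683 (.leaf 6) (.leaf 0)))) 
  (.leaf 0)))) (.leaf 6)) (.n2 2415 (.n1 347 (.n0 1707 (.n2 2403 (.n0 1698 (.n1 324 (.leaf 6) 
  (.leaf 0)) (.leaf 0)) (.n0 1698 (.leaf 6) (.n1 324 (.leaf 6) (.leaf 0)))) (.n0 1716 (.n1 324 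
  (.n2 2403 (.leaf 0) (.leaf 6)) (.leaf 0)) (.leaf 0))) (.leaf 0)) (.n1 347 (.n0 1707 (.leaf 6) 
  (.n0 1716 (.leaf 6) (.n1 324 (.leaf 6) (.n2 2427 (.leaf 0) (.leaf 6))))) (.n0 1707 (.n2 2427 
  (.n1 371 (.n0 1698 (.leaf 6) (.n0 1702 (.leaf 6) (.leaf 0))) (.leaf 0)) (.n0 1698 (.leaf 6) 
  (.n1 371 (.leaf 6) (.n0 1702 (.leaf 6) (.leaf 0))))) (.n0 1716 (.n1 371 (.n2 2427 (.leaf 0) 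
  (.leaf 6)) (.leaf 0)) (.leaf 0))))))) (.n0 1762 (.n1 347 (.n2 2391 (.leaf 0) (.n2 2415 (.leaf 0)
   (.n0 1743 (.n2 2427 (.n0 1734 (.n1 324 (.leaf 6) (.leaf 0)) (.leaf 0)) (.n0 1734 (.leaf 6) 
  (.n1 324 (.leaf 6) (.leaf 0)))) (.n0 1753 (.n0 1748 (.n1 324 (.n2 2427 (.leaf 0) (.leaf 6)) 
  (.leaf 0)) (.leaf 0)) (.leaf 0))))) (.leaf 0)) (.leaf 0))) (.n0 1725 (.n0 1688 (.n1 441 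
  (.n2 2391 (.leaf 0) (.n2 2415 (.leaf 0) (.n0 1669 (.n1 418 (.leaf 6) (.n2 2427 (.leaf 0) 
  (.leaf 6))) (.n1 418 (.n2 2427 (.leaf 0) (.leaf 6)) (.leaf 0))))) (.leaf 0)) (.leaf 0)) 
  (.leaf 0)))) (.leaf 0))
  _ (by decide +kernel)


end Pool.Agent.T2H40.BR.Q8
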