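import Pool.Agent.T2H40.BR.D.Q8

set_option autoImplicit false
set_option maxRecDepth 1000000
set_option exponentiation.threshold 1000000000

namespace Pool.Agent.T2H40.BR.Q8

theorem csEu2_P0 : Chk (csEuopts p c2) {(csEuBox p) with h2 := 1800} :=
  chk_of_checkP [⟨452, 7, 15, 17⟩, ⟨1, 1, 1, 1⟩, ⟨1, 1, 1, 1⟩, ⟨1, 1, 1, 1⟩, ⟨1, 1, 1, 1⟩, ⟨1, 1, 1, 1⟩, ⟨41, 2, 2, 3⟩, ⟨40, 1, 2, 3⟩, ⟨40, 1, 2, 3⟩] (csEuopts p c2)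
  (.leaf 7)
  _ (by decide +kernel)

theorem csEu2_P1 : Chk (csEuopts p c2) {({({(csEuBox p) with l2 := 1800}) with h2 := 2400}) with h2 := 2100} :=
  chk_of_checkP [⟨452, 7, 15, 17⟩, ⟨1, 1, 1, 1⟩, ⟨1, 1, 1, 1⟩, ⟨1, 1, 1, 1⟩, ⟨1, 1, 1, 1⟩, ⟨1, 1, 1, 1⟩, ⟨41, 2, 2, 3⟩, ⟨40, 1, 2, 3⟩, ⟨40, 1, 2, 3⟩] (csEuopts p c2)
  (.n2 1950 (.leaf 7) (.n2 2025 (.n1 150 (.n1 75 (.n1 38 (.n2 1988 (.leaf 7) (.n2 2007 (.leaf 7) 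
  (.leaf 0))) (.leaf 7)) (.leaf 7)) (.leaf 7)) (.n1 150 (.n0 1725 (.n1 75 (.leaf 0) (.n1 113 
  (.leaf 0) (.n1 132 (.leaf 0) (.n2 2063 (.n2 2044 (.leaf 7) (.leaf 0)) (.leaf 0))))) (.leaf 0)) 
  (.n2 2063 (.leaf 7) (.n1 225 (.leaf 0) (.n2 2082 (.leaf 7) (.n1 263 (.leaf 0) (.leaf 7))))))))
  _ (by decide +kernel)

theorem csEu2_P2 : Chk (csEuopts p c2) {({({({(csEuBox p) with l2 := 1800}) with h2 := 2400}) with l2 := 2100}) with h2 := 2250} :=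
  chk_of_checkP [⟨452, 7, 15, 17⟩, ⟨1, 1, 1, 1⟩, ⟨1, 1, 1, 1⟩, ⟨1, 1, 1, 1⟩, ⟨1, 1, 1, 1⟩, ⟨1, 1, 1, 1⟩, ⟨41, 2, 2, 3⟩, ⟨40, 1, 2, 3⟩, ⟨40, 1, 2, 3⟩] (csEuopts p c2)
  (.n1 150 (.n1 75 (.n1 38 (.n1 19 (.n1 10 (.n0 1725 (.n0 1688 (.n0 1669 (.n0 1660 (.n2 2175 
  (.leaf 0) (.n2 2213 (.leaf 0) (.n2 2232 (.leaf 0) (.n2 2241 (.leaf 0) (.leaf 6))))) (.leaf 0)) 
  (.leaf 0)) (.leaf 0)) (.leaf 0)) (.leaf 0)) (.leaf 0)) (.leaf 0)) (.leaf 0)) (.leaf 0))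
  _ (by decide +kernel)

theorem csEu2_P3 : Chk (csEuopts p c2) {({({({({(csEuBox p) with l2 := 1800}) with h2 := 2400}) with l2 := 2100}) with l2 := 2250}) with h2 := 2325} :=
  chk_of_checkP [⟨452, 7, 15, 17⟩, ⟨1, 1, 1, 1⟩, ⟨1, 1, 1, 1⟩, ⟨1, 1, 1, 1⟩, ⟨1, 1, 1, 1⟩, ⟨1, 1, 1, 1⟩, ⟨41, 2, 2, 3⟩, ⟨40, 1, 2, 3⟩, ⟨40, 1, 2, 3⟩] (csEuopts p c2)
  (.n0 1725 (.n1 150 (.n2 2288 (.n0 1688 (.n2 2269 (.n1 75 (.n0 1669 (.n1 38 (.n0 1660 (.leaf 6) 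
  (.n1 19 (.leaf 6) (.n2 2260 (.n1 29 (.leaf 6) (.leaf 0)) (.leaf 6)))) (.n1 57 (.n2 2260 
  (.leaf 0) (.leaf 6)) (.leaf 0))) (.n1 38 (.n2 2260 (.n1 19 (.n1 10 (.n0 1679 (.leaf 6) 
  (.leaf 0)) (.leaf 0)) (.leaf 0)) (.n0 1679 (.leaf 6) (.n1 19 (.leaf 6) (.leaf 0)))) (.leaf 0))) 
  (.leaf 0)) (.n1 75 (.n0 1669 (.leaf 6) (.n1 38 (.leaf 6) (.n2 2279 (.n0 1679 (.n1 57 (.leaf 6) 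
  (.leaf 0)) (.leaf 0)) (.n0 1679 (.leaf 6) (.n1 57 (.leaf 6) (.n0 1683 (.leaf 6) (.leaf 0))))))) 
  (.n0 1669 (.n1 113 (.n2 2279 (.n0 1660 (.n1 94 (.leaf 6) (.leaf 0)) (.leaf 0)) (.n1 94 (.leaf 6)
   (.n0 1660 (.leaf 6) (.leaf 0)))) (.leaf 0)) (.leaf 0)))) (.n1 75 (.n2 2269 (.leaf 0) (.n0 1707 
  (.n1 38 (.n2 2279 (.n1 19 (.n0 1698 (.leaf 6) (.n1 10 (.leaf 6) (.leaf 0))) (.n0 1698 (.n0 1693 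
  (.leaf 6) (.leaf 0)) (.leaf 0))) (.leaf 6)) (.n0 1698 (.n1 57 (.n2 2279 (.leaf 0) (.leaf 6)) 
  (.leaf 0)) (.leaf 0))) (.n1 38 (.n1 19 (.n0 1716 (.n2 2279 (.leaf 0) (.leaf 6)) (.leaf 0)) 
  (.leaf 0)) (.leaf 0)))) (.leaf 0))) (.n0 1688 (.n1 75 (.leaf 6) (.n2 2307 (.n1 113 (.n0 1669 
  (.leaf 6) (.n0 1679 (.leaf 6) (.n2 2298 (.n1 94 (.leaf 6) (.leaf 0)) (.leaf 6)))) (.n0 1669 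
  (.n2 2298 (.n1 132 (.n0 1660 (.leaf 6) (.leaf 0)) (.leaf 0)) (.leaf 6)) (.n0 1679 (.n1 132 
  (.n2 2298 (.leaf 0) (.leaf 6)) (.leaf 0)) (.leaf 0)))) (.n0 1669 (.leaf 6) (.n1 113 (.leaf 6) 
  (.n0 1679 (.leaf 6) (.n1 132 (.leaf 6) (.n2 2316 (.leaf 0) (.leaf 6)))))))) (.n2 2307 (.n1 75 
  (.n0 1707 (.n1 38 (.leaf 6) (.n0 1698 (.leaf 6) (.n1 57 (.leaf 6) (.n2 2298 (.leaf 0) 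
  (.leaf 6))))) (.n1 38 (.n1 19 (.leaf 6) (.n0 1716 (.leaf 6) (.n1 29 (.leaf 6) (.n2 2298 
  (.leaf 0) (.leaf 6))))) (.n2 2298 (.n1 57 (.n0 1716 (.n1 47 (.leaf 6) (.leaf 0)) (.leaf 0)) 
  (.leaf 0)) (.n1 57 (.leaf 6) (.n0 1716 (.leaf 6) (.leaf 0)))))) (.n1 113 (.n0 1707 (.n0 1698 
  (.n2 2298 (.leaf 0) (.n1 94 (.leaf 6) (.leaf 0))) (.leaf 0)) (.leaf 0)) (.leaf 0))) (.n1 75 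
  (.leaf 6) (.n1 113 (.n0 1707 (.leaf 6) (.n2 2316 (.n1 94 (.n0 1716 (.leaf 6) (.leaf 0)) 
  (.leaf 0)) (.n1 94 (.leaf 6) (.n0 1716 (.leaf 6) (.leaf 0))))) (.n0 1707 (.n2 2316 (.leaf 0) 
  (.n1 132 (.leaf 6) (.leaf 0))) (.leaf 0))))))) (.n0 1688 (.n1 225 (.n1 188 (.n2 2288 (.leaf 0) 
  (.n2 2307 (.leaf 0) (.n0 1669 (.n0 1660 (.leaf 6) (.n2 2316 (.leaf 0) (.leaf 6))) (.n0 1679 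
  (.n2 2316 (.leaf 0) (.n1 169 (.leaf 6) (.leaf 0))) (.leaf 0))))) (.leaf 0)) (.leaf 0)) 
  (.leaf 0))) (.n1 150 (.n1 75 (.n2 2288 (.leaf 0) (.n0 1762 (.n2 2307 (.n1 38 (.n0 1743 
  (.n2 2298 (.n1 19 (.n0 1734 (.n1 10 (.leaf 6) (.leaf 0)) (.leaf 0)) (.leaf 0)) (.n0 1734 
  (.leaf 6) (.n1 19 (.leaf 6) (.leaf 0)))) (.leaf 0)) (.leaf 0)) (.n0 1743 (.n2 2316 (.n1 38 
  (.leaf 6) (.n1 57 (.n0 1734 (.leaf 6) (.leaf 0)) (.leaf 0))) (.leaf 6)) (.n1 38 (.n2 2316 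
  (.n1 19 (.leaf 6) (.n0 1753 (.n0 1748 (.leaf 6) (.leaf 0)) (.leaf 0))) (.leaf 6)) (.n0 1753 
  (.n1 57 (.n2 2316 (.leaf 0) (.leaf 6)) (.leaf 0)) (.leaf 0))))) (.n1 38 (.n1 19 (.n1 10 (.n1 5 
  (.n1 3 (.n0 1781 (.n0 1772 (.n2 2307 (.leaf 0) (.leaf 6)) (.leaf 0)) (.leaf 0)) (.leaf 0)) 
  (.leaf 0)) (.leaf 0)) (.leaf 0)) (.leaf 0)))) (.leaf 0)) (.leaf 0)))
  _ (by decide +kernel)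


end Pool.Agent.T2H40.BR.Q8
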