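import Pool.Agent.T2H40.BR.Chk2

/-!
# Data of piece Q9
-/

set_option autoImplicit false

namespace Pool.Agent.T2H40.BR.Q9

def c0 : SCls := ⟨0, 1650, [(2317, 6009), (-4506, 9767), (3222, -17042), (1082, -504)],
  [(365, 19559), (-24000, 29722), (8111, 78623)],
  [(2019, 12557), (-4057, 54291), (-8972, -345204), (17213, 468274)], 1⟩
def p : Piece := ⟨1500, 1650, (6620, -3634), [(-749, -41235), (8938, 18554), (1082, -504)],
  [(0, 0), (8441, -343800), (65386, 1431477), (-82443, -1800000)],
  [(6169, -13888), (-20109, 93607), (21005, -297134)],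
  [c0], 300, 538, true, 1500⟩

end Pool.Agent.T2H40.BR.Q9
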