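import Pool.Agent.T2H40.BR.D.Q9

set_option autoImplicit false
set_option maxRecDepth 1000000
set_option exponentiation.threshold 1000000000

namespace Pool.Agent.T2H40.BR.Q9

theorem csEs0_P0 : Chk (csEsopts p c0) {(csEsBox p) with h2 := 3000} :=
  chk_of_checkP [⟨506, 4, 22, 15⟩, ⟨797, 7, 35, 23⟩] (csEsopts p c0)
  (.leaf 0)
  _ (by decide +kernel)

theorem csEs0_P1 : Chk (csEsopts p c0) {({({({({(csEsBox p) with l2 := 3000}) with h2 := 4500}) with h2 := 3750}) with h2 := 3375}) with h2 := 3188} :=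
  chk_of_checkP [⟨506, 4, 22, 15⟩, ⟨797, 7, 35, 23⟩] (csEsopts p c0)
  (.n1 150 (.n2 3094 (.n1 75 (.n0 1575 (.n0 1537 (.n1 38 (.n0 1519 (.n2 3047 (.n1 19 (.n0 1510 
  (.n0 1505 (.n1 10 (.leaf 1) (.n2 3024 (.n2 3012 (.leaf 0) (.leaf 1)) (.leaf 1))) (.leaf 1)) 
  (.leaf 1)) (.n2 3024 (.leaf 0) (.n1 29 (.leaf 1) (.leaf 0)))) (.leaf 1)) (.leaf 1)) (.n2 3047 
  (.leaf 0) (.n1 57 (.n0 1519 (.n2 3071 (.n1 47 (.leaf 1) (.leaf 0)) (.leaf 1)) (.leaf 1)) 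
  (.leaf 0)))) (.n0 1556 (.n1 38 (.leaf 1) (.n1 57 (.leaf 1) (.leaf 0))) (.leaf 1))) (.leaf 1)) 
  (.leaf 0)) (.n0 1575 (.n1 75 (.leaf 1) (.n1 113 (.n0 1537 (.n2 3141 (.n2 3117 (.leaf 0) (.n1 94 
  (.leaf 1) (.leaf 0))) (.leaf 1)) (.leaf 1)) (.leaf 0))) (.leaf 1))) (.leaf 0))
  _ (by decide +kernel)

theorem csEs0_P2 : Chk (csEsopts p c0) {({({({({(csEsBox p) with l2 := 3000}) with h2 := 4500}) with h2 := 3750}) with h2 := 3375}) with l2 := 3188} :=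
  chk_of_checkP [⟨506, 4, 22, 15⟩, ⟨797, 7, 35, 23⟩] (csEsopts p c0)
  (.n1 150 (.leaf 1) (.n1 225 (.n2 3282 (.n2 3235 (.leaf 0) (.leaf 1)) (.leaf 1)) (.n0 1575 
  (.n0 1537 (.n2 3282 (.leaf 0) (.leaf 1)) (.leaf 0)) (.leaf 0))))
  _ (by decide +kernel)

theorem csEs0_P3 : Chk (csEsopts p c0) {({({({(csEsBox p) with l2 := 3000}) with h2 := 4500}) with h2 := 3750}) with l2 := 3375} :=
  chk_of_checkP [⟨506, 4, 22, 15⟩, ⟨797, 7, 35, 23⟩] (csEsopts p c0)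
  (.leaf 1)
  _ (by decide +kernel)

theorem csEs0_P4 : Chk (csEsopts p c0) {({({(csEsBox p) with l2 := 3000}) with h2 := 4500}) with l2 := 3750} :=
  chk_of_checkP [⟨506, 4, 22, 15⟩, ⟨797, 7, 35, 23⟩] (csEsopts p c0)
  (.leaf 1)
  _ (by decide +kernel)

theorem csEs0_P5 : Chk (csEsopts p c0) {({(csEsBox p) with l2 := 3000}) with l2 := 4500} :=
  chk_of_checkP [⟨506, 4, 22, 15⟩, ⟨797, 7, 35, 23⟩] (csEsopts p c0)
  (.leaf 1)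
  _ (by decide +kernel)


end Pool.Agent.T2H40.BR.Q9
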