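import Pool.Agent.T2H40.BR.Chk2
import Pool.Agent.T2H40.BR.BuildA

/-!
# Data of piece T0
-/

set_option autoImplicit false

namespace Pool.Agent.T2H40.BR.T0

def c0 : SCls := ⟨0, 750, [(2028, -1915), (231, -3909), (11315, 142734), (-18429, -325691), (-35568, -272809)],
  [(44, 1790), (12238, -110814), (-127143, 1056785), (254606, -1783074), (119619, -1779005)],
  [(3626, -4386), (574, 3374), (-2142, -145395), (49169, 1093496), (-204022, -1800000)], 0⟩
def c1 : SCls := ⟨750, 1350, [(3861, 25246), (-17866, -166688), (53383, 247590), (-26543, 120655), (-34637, -289875)],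
  [(-8900, -48873), (60682, 529408), (-138814, -1800000), (220858, 1800000), (-300000, 637169)],
  [(1147, -24576), (30180, 61024), (-139648, 443830), (300000, -1800000), (-250034, 1800000)], 0⟩
def c2 : SCls := ⟨1350, 3000, [(343, 52716), (4059, -232691), (15607, 187489), (-34053, 287444), (13816, -306177)],
  [(-2463, 363558), (-22286, -1468178), (53804, 1800000), (111428, -775831), (-257821, 458817)],
  [(-21108, 248264), (118019, -1173690), (-141520, 1488435), (-57239, 262068), (129870, -1033383)], 0⟩
def p : Piece := ⟨2400, 2700, (5901, -6063), [(-2899, -26849), (4281, 218783), (-1588, -445779), (6825, 239496)],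
  [(600, 0), (6567, 44494), (-23957, -271075), (110284, 91764), (-113656, 242681)],
  [(1423, -16269), (7581, 92463), (-35148, -265514), (44764, 317187), (-20354, -117048)],
  [c0, c1, c2], 300, 1500, false, 0⟩

end Pool.Agent.T2H40.BR.T0
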