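import Pool.Agent.T2H40.BR.D.T0

set_option autoImplicit false
set_option maxRecDepth 1000000
set_option exponentiation.threshold 1000000000

namespace Pool.Agent.T2H40.BR.T0

theorem csE1_P0 : Chk (acsEuopts p c1) {(acsEBox p) with h2 := 1500} :=
  chk_of_checkP [⟨741, 5, 23, 31⟩, ⟨1, 1, 1, 1⟩, ⟨741, 5, 23, 31⟩, ⟨741, 5, 23, 31⟩, ⟨1, 1, 1, 1⟩, ⟨479, 3, 13, 21⟩, ⟨1, 1, 1, 1⟩, ⟨40, 1, 2, 3⟩, ⟨40, 1, 2, 3⟩, ⟨1, 1, 1, 1⟩] (acsEuopts p c1)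
  (.leaf 7)
  _ (by decide +kernel)

theorem csE1_P1 : Chk (acsEuopts p c1) {({(acsEBox p) with l2 := 1500}) with h1 := 1650} :=
  chk_of_checkP [⟨741, 5, 23, 31⟩, ⟨1, 1, 1, 1⟩, ⟨741, 5, 23, 31⟩, ⟨741, 5, 23, 31⟩, ⟨1, 1, 1, 1⟩, ⟨479, 3, 13, 21⟩, ⟨1, 1, 1, 1⟩, ⟨40, 1, 2, 3⟩, ⟨40, 1, 2, 3⟩, ⟨1, 1, 1, 1⟩] (acsEuopts p c1)
  (.n2 2250 (.n1 975 (.n2 1875 (.n1 638 (.leaf 0) (.n2 1688 (.leaf 7) (.n0 2550 (.n0 2475 (.n0 2438 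
  (.n0 2419 (.n1 807 (.leaf 0) (.n0 2410 (.n2 1782 (.n1 891 (.leaf 0) (.leaf 7)) (.leaf 0)) 
  (.leaf 0))) (.leaf 0)) (.leaf 0)) (.leaf 0)) (.leaf 0)))) (.leaf 0)) (.n2 1875 (.n1 1313 
  (.n1 1144 (.n2 1688 (.leaf 7) (.n2 1782 (.leaf 7) (.n2 1828 (.n1 1060 (.leaf 0) (.leaf 7)) 
  (.leaf 0)))) (.leaf 7)) (.leaf 7)) (.n1 1313 (.n0 2550 (.leaf 0) (.n1 1144 (.leaf 0) (.n2 2063 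
  (.n2 1969 (.n1 1229 (.leaf 0) (.n2 1922 (.leaf 7) (.n1 1271 (.leaf 0) (.leaf 7)))) (.leaf 0)) 
  (.leaf 0)))) (.n1 1482 (.n2 2063 (.n2 1969 (.leaf 7) (.n1 1398 (.n1 1356 (.leaf 0) (.leaf 2)) 
  (.leaf 2))) (.leaf 0)) (.n2 2063 (.leaf 3) (.leaf 2)))))) (.n2 2625 (.n1 975 (.n2 2438 (.leaf 0)
   (.n2 2532 (.leaf 0) (.leaf 8))) (.leaf 0)) (.n1 975 (.leaf 8) (.n1 1313 (.n1 1144 (.leaf 8) 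
  (.n2 2813 (.n2 2719 (.leaf 0) (.leaf 8)) (.leaf 8))) (.n2 2813 (.leaf 0) (.n1 1482 (.n1 1398 
  (.leaf 8) (.n2 2907 (.leaf 0) (.leaf 8))) (.n0 2550 (.n0 2475 (.n0 2438 (.n2 2907 (.leaf 0) 
  (.n1 1566 (.n1 1524 (.leaf 8) (.leaf 0)) (.leaf 0))) (.leaf 0)) (.leaf 0)) (.leaf 0))))))))
  _ (by decide +kernel)

theorem csE1_P2 : Chk (acsEuopts p c1) {({(acsEBox p) with l2 := 1500}) with l1 := 1650} :=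
  chk_of_checkP [⟨741, 5, 23, 31⟩, ⟨1, 1, 1, 1⟩, ⟨741, 5, 23, 31⟩, ⟨741, 5, 23, 31⟩, ⟨1, 1, 1, 1⟩, ⟨479, 3, 13, 21⟩, ⟨1, 1, 1, 1⟩, ⟨40, 1, 2, 3⟩, ⟨40, 1, 2, 3⟩, ⟨1, 1, 1, 1⟩] (acsEuopts p c1)
  (.n2 2250 (.leaf 5) (.n1 2325 (.n1 1988 (.n1 1819 (.n2 2625 (.leaf 2) (.leaf 0)) (.n2 2625 
  (.leaf 3) (.leaf 2))) (.leaf 5)) (.leaf 5)))
  _ (by decide +kernel)


end Pool.Agent.T2H40.BR.T0
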