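import Pool.Agent.T2H40.BR.Chk2
import Pool.Agent.T2H40.BR.BuildA

/-!
# Data of piece T1
-/

set_option autoImplicit false

namespace Pool.Agent.T2H40.BR.T1

def c0 : SCls := ⟨0, 750, [(1804, -1366), (4176, 579), (-14994, -8591), (14501, 75037), (4505, 127919)],
  [(610, -2454), (5634, -35915), (-19397, 264580), (-35674, -422528), (135049, -473727)],
  [(2803, -1542), (1720, 19583), (16916, -166219), (-91947, 57810), (106706, 1231142)], 0⟩
def c1 : SCls := ⟨750, 1500, [(1286, 11822), (-30, -85068), (17562, 127573), (-24735, 57691), (5436, -121935)],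
  [(-5239, -42813), (54323, 353784), (-169857, -943628), (260741, 373955), (-196303, 934073)],
  [(3659, -31034), (-4604, 179975), (21246, -133622), (-21720, -749624), (-5247, 1121299)], 0⟩
def c2 : SCls := ⟨1500, 3000, [(-1709, 8661), (8292, -19565), (14693, -3361), (-31606, 22019), (11852, 4551)],
  [(-45495, 455261), (152814, -1243616), (-134334, 282415), (83960, 352658), (-134787, 906809)],
  [(-9596, -13073), (50469, 234732), (-44718, -862525), (-23706, 1188435), (32387, -562535)], 0⟩
def p : Piece := ⟨2700, 3000, (3406, 6375), [(1400, 16574), (-14951, 1071), (30266, -98652), (-13217, 73028)],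
  [(600, 0), (-1602, 7134), (-4579, 25721), (59269, -258763), (-68235, 313879)],
  [(239, -8248), (5213, -10002), (-16921, 135676), (17781, -221887), (-6495, 107489)],
  [c0, c1, c2], 300, 1500, false, 0⟩

end Pool.Agent.T2H40.BR.T1
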