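import Pool.Agent.T2H40.BR.D.T1

set_option autoImplicit false
set_option maxRecDepth 1000000
set_option exponentiation.threshold 1000000000

namespace Pool.Agent.T2H40.BR.T1

theorem ccE_P0 : Chk (accEopts p) {(accBox p) with h1 := 1500} :=
  chk_of_checkP [⟨506, 5, 15, 15⟩, ⟨1, 1, 1, 1⟩, ⟨1, 1, 1, 1⟩, ⟨506, 5, 15, 15⟩, ⟨1, 1, 1, 1⟩, ⟨1, 1, 1, 1⟩, ⟨506, 5, 15, 15⟩, ⟨1, 1, 1, 1⟩, ⟨506, 5, 15, 15⟩, ⟨506, 5, 15, 15⟩, ⟨1, 1, 1, 1⟩, ⟨1, 1, 1, 1⟩, ⟨506, 5, 15, 15⟩, ⟨1, 1, 1, 1⟩, ⟨1, 1, 1, 1⟩, ⟨506, 5, 15, 15⟩, ⟨1, 1, 1, 1⟩, ⟨1, 1, 1, 1⟩, ⟨1, 1, 1, 1⟩, ⟨1, 1, 1, 1⟩, ⟨1, 1, 1, 1⟩, ⟨507, 5, 15, 15⟩, ⟨1, 1, 1, 1⟩, ⟨1, 1, 1, 1⟩, ⟨1, 1, 1, 1⟩, ⟨1, 1, 1, 1⟩, ⟨1, 1, 1, 1⟩, ⟨1, 1, 1, 1⟩, ⟨1, 1, 1, 1⟩, ⟨1, 1, 1, 1⟩, ⟨1, 1,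 1, 1⟩, ⟨1, 1, 1, 1⟩, ⟨1, 1, 1, 1⟩, ⟨314, 4, 15, 15⟩, ⟨39, 1, 2, 2⟩, ⟨41, 2, 2, 2⟩] (accEopts p)
  (.n2 1500 (.n1 750 (.leaf 0) (.n2 750 (.leaf 8) (.n1 1125 (.leaf 3) (.n2 1125 (.leaf 3) (.n1 1313 
  (.n2 1313 (.leaf 3) (.n2 1407 (.leaf 3) (.leaf 34))) (.n2 1313 (.n0 2850 (.n0 2775 (.n0 2738 
  (.n2 1219 (.leaf 3) (.n1 1407 (.leaf 3) (.n2 1266 (.leaf 3) (.n1 1454 (.leaf 3) (.n2 1289 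
  (.leaf 3) (.leaf 35)))))) (.leaf 3)) (.leaf 3)) (.leaf 3)) (.n0 2850 (.n1 1407 (.n2 1407 
  (.n0 2775 (.n0 2738 (.n1 1360 (.leaf 3) (.n2 1360 (.leaf 3) (.n1 1383 (.leaf 3) (.leaf 35)))) 
  (.leaf 3)) (.leaf 3)) (.n1 1360 (.leaf 34) (.n2 1454 (.n1 1383 (.leaf 34) (.n0 2775 (.leaf 35) 
  (.n2 1431 (.leaf 3) (.leaf 34)))) (.leaf 34)))) (.n2 1407 (.n0 2775 (.n2 1360 (.n1 1454 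
  (.n0 2738 (.n1 1431 (.leaf 3) (.leaf 35)) (.leaf 3)) (.n0 2738 (.leaf 35) (.n0 2757 (.leaf 35) 
  (.n2 1337 (.n0 2766 (.leaf 35) (.leaf 3)) (.leaf 35))))) (.n0 2738 (.leaf 35) (.n0 2757 
  (.leaf 35) (.n0 2766 (.leaf 35) (.n1 1454 (.n1 1431 (.leaf 3) (.leaf 35)) (.leaf 35)))))) 
  (.n2 1360 (.n0 2813 (.n0 2794 (.n1 1454 (.leaf 3) (.n2 1337 (.leaf 3) (.n1 1477 (.leaf 3) 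
  (.leaf 35)))) (.leaf 3)) (.leaf 3)) (.n1 1454 (.n0 2813 (.n0 2794 (.n1 1431 (.leaf 3) (.n2 1383 
  (.leaf 3) (.leaf 35))) (.leaf 3)) (.leaf 3)) (.n0 2813 (.leaf 35) (.n2 1383 (.n0 2832 (.n1 1477 
  (.leaf 3) (.leaf 35)) (.leaf 3)) (.n1 1477 (.n0 2832 (.leaf 35) (.leaf 3)) (.leaf 35))))))) 
  (.n0 2775 (.leaf 35) (.n0 2813 (.leaf 35) (.n1 1454 (.n2 1454 (.n1 1431 (.n2 1431 (.leaf 3) 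
  (.n0 2832 (.leaf 35) (.leaf 3))) (.n2 1431 (.n0 2832 (.leaf 35) (.leaf 3)) (.leaf 35))) 
  (.leaf 35)) (.leaf 35)))))) (.n0 2925 (.n1 1407 (.leaf 3) (.n2 1407 (.leaf 3) (.n1 1454 
  (.n2 1454 (.leaf 3) (.n0 2887 (.n1 1431 (.leaf 34) (.n1 1443 (.leaf 34) (.leaf 35))) (.leaf 3)))
   (.n2 1454 (.n0 2887 (.n2 1431 (.n1 1477 (.leaf 3) (.n0 2869 (.leaf 35) (.leaf 3))) (.n0 2869 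
  (.leaf 35) (.n1 1477 (.leaf 3) (.leaf 35)))) (.leaf 3)) (.n0 2887 (.leaf 35) (.n0 2906 
  (.leaf 35) (.n1 1477 (.leaf 3) (.leaf 35)))))))) (.leaf 3))))))))) (.n1 750 (.leaf 34) 
  (.n2 2250 (.n1 1125 (.leaf 34) (.n2 1875 (.n1 1313 (.leaf 34) (.n2 1688 (.n2 1594 (.n1 1407 
  (.leaf 34) (.n0 2850 (.leaf 35) (.n2 1547 (.n1 1454 (.leaf 34) (.n0 2925 (.leaf 35) (.n0 2963 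
  (.n1 1477 (.leaf 34) (.leaf 35)) (.leaf 3)))) (.leaf 34)))) (.leaf 34)) (.leaf 34))) 
  (.leaf 34))) (.leaf 34))))
  _ (by decide +kernel)

theorem ccE_P1 : Chk (accEopts p) {({({({(accBox p) with l1 := 1500}) with h2 := 1500}) with h1 := 2250}) with h2 := 750} :=
  chk_of_checkP [⟨506, 5, 15, 15⟩, ⟨1, 1, 1, 1⟩, ⟨1, 1, 1, 1⟩, ⟨506, 5, 15, 15⟩, ⟨1, 1, 1, 1⟩, ⟨1, 1, 1, 1⟩, ⟨506, 5, 15, 15⟩, ⟨1, 1, 1, 1⟩, ⟨506, 5, 15, 15⟩, ⟨506, 5, 15, 15⟩, ⟨1, 1, 1, 1⟩, ⟨1, 1, 1, 1⟩, ⟨506, 5, 15, 15⟩, ⟨1, 1, 1, 1⟩, ⟨1, 1, 1, 1⟩, ⟨506, 5, 15, 15⟩, ⟨1, 1, 1, 1⟩, ⟨1, 1, 1, 1⟩, ⟨1, 1, 1, 1⟩, ⟨1, 1, 1, 1⟩, ⟨1, 1, 1, 1⟩, ⟨507, 5, 15, 15⟩, ⟨1, 1, 1, 1⟩, ⟨1, 1, 1, 1⟩, ⟨1, 1, 1, 1⟩, ⟨1, 1, 1, 1⟩, ⟨1, 1, 1, 1⟩, ⟨1, 1, 1, 1⟩, ⟨1, 1,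 1, 1⟩, ⟨1, 1, 1, 1⟩, ⟨1, 1, 1, 1⟩, ⟨1, 1, 1, 1⟩, ⟨1, 1, 1, 1⟩, ⟨314, 4, 15, 15⟩, ⟨39, 1, 2, 2⟩, ⟨41, 2, 2, 2⟩] (accEopts p)
  (.leaf 12)
  _ (by decide +kernel)

theorem ccE_P2 : Chk (accEopts p) {({({({({(accBox p) with l1 := 1500}) with h2 := 1500}) with h1 := 2250}) with l2 := 750}) with h2 := 1125} :=
  chk_of_checkP [⟨506, 5, 15, 15⟩, ⟨1, 1, 1, 1⟩, ⟨1, 1, 1, 1⟩, ⟨506, 5, 15, 15⟩, ⟨1, 1, 1, 1⟩, ⟨1, 1, 1, 1⟩, ⟨506, 5, 15, 15⟩, ⟨1, 1, 1, 1⟩, ⟨506, 5, 15, 15⟩, ⟨506, 5, 15, 15⟩, ⟨1, 1, 1, 1⟩, ⟨1, 1, 1, 1⟩, ⟨506, 5, 15, 15⟩, ⟨1, 1, 1, 1⟩, ⟨1, 1, 1, 1⟩, ⟨506, 5, 15, 15⟩, ⟨1, 1, 1, 1⟩, ⟨1, 1, 1, 1⟩, ⟨1, 1, 1, 1⟩, ⟨1, 1, 1, 1⟩, ⟨1, 1, 1, 1⟩, ⟨507, 5, 15, 15⟩, ⟨1, 1, 1, 1⟩, ⟨1, 1, 1, 1⟩, ⟨1, 1, 1, 1⟩, ⟨1, 1, 1,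 1⟩, ⟨1, 1, 1, 1⟩, ⟨1, 1, 1, 1⟩, ⟨1, 1, 1, 1⟩, ⟨1, 1, 1, 1⟩, ⟨1, 1, 1, 1⟩, ⟨1, 1, 1, 1⟩, ⟨1, 1, 1, 1⟩, ⟨314, 4, 15, 15⟩, ⟨39, 1, 2, 2⟩, ⟨41, 2, 2, 2⟩] (accEopts p)
  (.n2 938 (.n1 1875 (.leaf 6) (.n2 844 (.leaf 9) (.n0 2850 (.n1 2063 (.n1 1969 (.n0 2775 (.n2 891 
  (.leaf 6) (.n2 914 (.n0 2738 (.leaf 35) (.leaf 6)) (.leaf 35))) (.leaf 6)) (.n2 891 (.n0 2775 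
  (.leaf 35) (.leaf 9)) (.leaf 35))) (.leaf 35)) (.n1 2063 (.leaf 9) (.leaf 9))))) (.n1 1875 
  (.n1 1688 (.n0 2850 (.n0 2775 (.n1 1594 (.leaf 6) (.n2 1032 (.leaf 6) (.n1 1641 (.leaf 6) 
  (.n2 1079 (.leaf 6) (.n0 2738 (.n2 1102 (.n0 2719 (.leaf 35) (.leaf 6)) (.leaf 35)) (.n0 2757 
  (.n0 2748 (.n0 2743 (.n1 1664 (.leaf 6) (.n0 2741 (.leaf 35) (.leaf 6))) (.leaf 6)) (.leaf 6)) 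
  (.leaf 6))))))) (.leaf 6)) (.leaf 6)) (.n0 2850 (.n2 1032 (.n1 1782 (.n0 2775 (.n0 2738 
  (.n1 1735 (.leaf 6) (.n2 985 (.leaf 6) (.n1 1759 (.leaf 6) (.leaf 35)))) (.leaf 6)) (.leaf 6)) 
  (.n0 2775 (.n2 985 (.n1 1828 (.n0 2738 (.n0 2719 (.leaf 35) (.leaf 6)) (.leaf 6)) (.n0 2738 
  (.leaf 35) (.n0 2757 (.leaf 35) (.leaf 6)))) (.n0 2738 (.leaf 35) (.n0 2757 (.leaf 35) 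
  (.n0 2766 (.leaf 35) (.n1 1828 (.n2 1008 (.leaf 6) (.leaf 35)) (.leaf 35)))))) (.n2 985 
  (.leaf 6) (.n1 1828 (.n0 2813 (.n0 2794 (.n0 2785 (.n2 1008 (.leaf 6) (.leaf 35)) (.leaf 6)) 
  (.leaf 6)) (.leaf 6)) (.n0 2813 (.n0 2794 (.leaf 35) (.n2 1008 (.leaf 6) (.leaf 35))) (.n0 2832 
  (.n1 1852 (.leaf 6) (.leaf 35)) (.leaf 6))))))) (.n1 1782 (.n0 2775 (.n1 1735 (.n2 1079 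
  (.n0 2738 (.n2 1056 (.leaf 6) (.leaf 35)) (.leaf 6)) (.n0 2738 (.leaf 35) (.n0 2757 (.leaf 35) 
  (.n0 2766 (.leaf 35) (.n2 1102 (.n1 1712 (.leaf 6) (.leaf 35)) (.leaf 35)))))) (.n0 2738 
  (.leaf 35) (.n0 2757 (.leaf 35) (.n0 2766 (.leaf 35) (.n2 1079 (.n1 1759 (.leaf 6) (.leaf 35)) 
  (.leaf 35)))))) (.n2 1079 (.n0 2813 (.n0 2794 (.n1 1735 (.leaf 6) (.n1 1759 (.leaf 6) (.n2 1056 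
  (.leaf 6) (.leaf 35)))) (.leaf 6)) (.leaf 6)) (.n1 1735 (.n0 2813 (.n1 1712 (.leaf 6) (.n2 1102 
  (.leaf 6) (.leaf 35))) (.leaf 6)) (.n0 2813 (.leaf 35) (.n2 1102 (.n0 2832 (.n1 1759 (.leaf 6) 
  (.leaf 35)) (.leaf 6)) (.n1 1759 (.n0 2832 (.leaf 35) (.leaf 6)) (.leaf 35))))))) (.n0 2775 
  (.leaf 35) (.n0 2813 (.leaf 35) (.n1 1828 (.n2 1079 (.n2 1056 (.leaf 6) (.n1 1805 (.n0 2832 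
  (.leaf 35) (.leaf 6)) (.leaf 35))) (.leaf 35)) (.leaf 35)))))) (.n0 2925 (.n1 1782 (.leaf 6) 
  (.n2 1032 (.leaf 6) (.n2 1079 (.n0 2887 (.n1 1828 (.leaf 6) (.n2 1056 (.leaf 6) (.n0 2869 
  (.leaf 35) (.n0 2878 (.leaf 35) (.leaf 6))))) (.leaf 6)) (.n1 1828 (.n0 2887 (.n2 1102 
  (.n1 1805 (.leaf 6) (.n0 2869 (.leaf 35) (.leaf 6))) (.n0 2869 (.leaf 35) (.n1 1805 (.leaf 6) 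
  (.leaf 35)))) (.leaf 6)) (.n0 2887 (.leaf 35) (.n2 1102 (.n0 2906 (.leaf 35) (.leaf 6)) 
  (.leaf 35))))))) (.leaf 6)))) (.n1 2063 (.n0 2850 (.n0 2775 (.leaf 35) (.n1 1969 (.n2 1032 
  (.n1 1922 (.n2 985 (.n0 2813 (.n2 962 (.leaf 6) (.leaf 35)) (.leaf 6)) (.leaf 35)) (.leaf 35)) 
  (.leaf 35)) (.leaf 35))) (.n2 1032 (.n1 1969 (.n0 2925 (.n2 985 (.leaf 6) (.n1 1922 (.n0 2887 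
  (.n1 1899 (.leaf 6) (.n0 2869 (.leaf 35) (.leaf 6))) (.leaf 6)) (.n0 2887 (.leaf 35) (.n0 2906 
  (.leaf 35) (.leaf 6))))) (.leaf 6)) (.n0 2925 (.n0 2887 (.leaf 35) (.n0 2906 (.leaf 35) 
  (.n1 2016 (.n2 985 (.leaf 9) (.leaf 35)) (.leaf 35)))) (.n2 985 (.n0 2963 (.n0 2944 (.n1 2016 
  (.leaf 9) (.leaf 35)) (.leaf 9)) (.leaf 9)) (.n1 2016 (.n0 2963 (.n0 2944 (.leaf 35) (.n2 1008 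
  (.leaf 9) (.leaf 35))) (.leaf 9)) (.leaf 35))))) (.n1 1969 (.n0 2925 (.n0 2887 (.leaf 35) 
  (.n0 2906 (.leaf 35) (.n1 1922 (.n2 1079 (.n1 1899 (.leaf 6) (.leaf 35)) (.leaf 35)) 
  (.leaf 35)))) (.n2 1079 (.n0 2963 (.n1 1922 (.leaf 6) (.n0 2944 (.leaf 35) (.leaf 6))) 
  (.leaf 6)) (.n1 1922 (.n0 2963 (.n0 2944 (.leaf 35) (.n1 1899 (.leaf 6) (.leaf 35))) (.leaf 6)) 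
  (.leaf 35)))) (.leaf 35)))) (.leaf 35))))
  _ (by decide +kernel)


end Pool.Agent.T2H40.BR.T1
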