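import Pool.Agent.T2H40.BR.D.T1

set_option autoImplicit false
set_option maxRecDepth 1000000
set_option exponentiation.threshold 1000000000

namespace Pool.Agent.T2H40.BR.T1

theorem csN2_P0 : Chk (acsNopts p c2) {({(acsNBox p c2) with h1 := 1500}) with h2 := 2250} :=
  chk_of_checkP [⟨401, 5, 16, 15⟩, ⟨1, 1, 1, 1⟩, ⟨40, 1, 2, 2⟩, ⟨1, 1, 1, 1⟩, ⟨1, 1, 1, 1⟩] (acsNopts p c2)
  (.n1 750 (.leaf 0) (.n2 1875 (.n1 1125 (.leaf 0) (.n1 1313 (.n0 2850 (.n0 2775 (.n2 1688 (.leaf 0)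
   (.n2 1782 (.leaf 0) (.n1 1219 (.leaf 0) (.leaf 2)))) (.leaf 0)) (.leaf 0)) (.n2 1688 (.n2 1594 
  (.leaf 0) (.n1 1407 (.leaf 0) (.leaf 2))) (.leaf 2)))) (.n1 1125 (.n0 2850 (.n2 2063 (.n1 938 
  (.leaf 0) (.n0 2775 (.n2 1969 (.n0 2738 (.n0 2719 (.n0 2710 (.n2 1922 (.leaf 0) (.n1 1032 
  (.leaf 0) (.n1 1079 (.leaf 0) (.leaf 2)))) (.leaf 0)) (.leaf 0)) (.leaf 0)) (.n1 1032 (.n0 2738 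
  (.n2 2016 (.leaf 0) (.n1 985 (.leaf 0) (.leaf 2))) (.leaf 0)) (.leaf 2))) (.n0 2813 (.n0 2794 
  (.n2 1969 (.leaf 0) (.n1 1032 (.leaf 0) (.leaf 2))) (.leaf 0)) (.leaf 0)))) (.n1 938 (.n0 2775 
  (.n2 2157 (.n1 844 (.leaf 0) (.n0 2738 (.n2 2110 (.n0 2719 (.n0 2710 (.n1 891 (.leaf 0) 
  (.n2 2087 (.leaf 0) (.n1 914 (.leaf 0) (.leaf 2)))) (.leaf 0)) (.leaf 0)) (.n1 891 (.n0 2719 
  (.n2 2134 (.leaf 0) (.n1 868 (.n0 2710 (.n0 2705 (.n0 2703 (.n2 2146 (.leaf 0) (.n1 856 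
  (.leaf 0) (.leaf 2))) (.leaf 0)) (.leaf 0)) (.leaf 0)) (.leaf 2))) (.leaf 0)) (.leaf 2))) 
  (.n0 2757 (.n0 2748 (.n2 2110 (.leaf 0) (.n1 891 (.leaf 0) (.leaf 2))) (.leaf 0)) (.leaf 0)))) 
  (.n1 844 (.n0 2738 (.n2 2204 (.n1 797 (.leaf 0) (.n0 2719 (.n2 2181 (.n0 2710 (.n0 2705 
  (.n2 2169 (.leaf 0) (.n1 820 (.leaf 0) (.n1 832 (.leaf 0) (.leaf 2)))) (.leaf 0)) (.leaf 0)) 
  (.n1 820 (.n0 2710 (.n2 2193 (.leaf 0) (.n1 808 (.leaf 0) (.leaf 2))) (.leaf 0)) (.leaf 2))) 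
  (.n0 2729 (.n0 2724 (.n2 2181 (.leaf 0) (.n1 820 (.leaf 0) (.leaf 2))) (.leaf 0)) (.leaf 0)))) 
  (.n1 797 (.n0 2719 (.n2 2227 (.n0 2710 (.n1 774 (.leaf 0) (.n2 2216 (.n0 2705 (.n0 2703 
  (.n0 2702 (.n2 2210 (.leaf 0) (.n1 786 (.leaf 0) (.n1 792 (.leaf 0) (.leaf 2)))) (.leaf 0)) 
  (.leaf 0)) (.leaf 0)) (.n1 786 (.n0 2705 (.n0 2703 (.n2 2222 (.leaf 0) (.n1 780 (.leaf 0) 
  (.leaf 2))) (.leaf 0)) (.leaf 0)) (.leaf 2)))) (.leaf 0)) (.n1 774 (.n0 2710 (.n2 2239 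
  (.n0 2705 (.n1 762 (.leaf 0) (.n2 2233 (.leaf 0) (.n1 768 (.leaf 0) (.leaf 2)))) (.leaf 0)) 
  (.n1 762 (.n0 2705 (.n1 756 (.n0 2703 (.n0 2702 (.n2 2245 (.leaf 0) (.n0 2701 (.n2 2248 
  (.leaf 0) (.n1 753 (.leaf 0) (.leaf 2))) (.leaf 0))) (.leaf 0)) (.leaf 0)) (.n2 2245 (.n0 2703 
  (.n0 2702 (.n0 2701 (.n2 2242 (.leaf 0) (.n1 759 (.leaf 0) (.leaf 2))) (.leaf 0)) (.leaf 0)) 
  (.leaf 0)) (.leaf 2))) (.leaf 0)) (.leaf 2))) (.leaf 0)) (.leaf 2))) (.n0 2729 (.n0 2724 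
  (.n2 2227 (.leaf 0) (.n1 774 (.leaf 0) (.leaf 2))) (.leaf 0)) (.leaf 0))) (.leaf 2))) (.n0 2757 
  (.n0 2748 (.n2 2204 (.leaf 0) (.n1 797 (.leaf 0) (.leaf 2))) (.leaf 0)) (.leaf 0))) (.leaf 2))) 
  (.n0 2813 (.n0 2794 (.n2 2157 (.leaf 0) (.n1 844 (.leaf 0) (.leaf 2))) (.leaf 0)) (.leaf 0))) 
  (.leaf 2))) (.leaf 0)) (.n2 2063 (.n2 1969 (.n1 1313 (.n0 2850 (.n1 1219 (.n0 2775 (.n2 1922 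
  (.n1 1172 (.leaf 0) (.leaf 2)) (.leaf 2)) (.leaf 0)) (.leaf 2)) (.leaf 0)) (.leaf 2)) (.leaf 2))
   (.leaf 2)))))
  _ (by decide +kernel)


end Pool.Agent.T2H40.BR.T1
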