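import Pool.Agent.T2H40.BR.D.T1

set_option autoImplicit false
set_option maxRecDepth 1000000
set_option exponentiation.threshold 1000000000

namespace Pool.Agent.T2H40.BR.T1

theorem ssE20_P0 : Chk (assEopts p c2 c0) {(assBox p c2 c0) with h1 := 2250} :=
  chk_of_checkP [⟨1, 1, 1, 1⟩, ⟨350, 5, 16, 16⟩, ⟨350, 5, 16, 16⟩, ⟨350, 5, 16, 16⟩, ⟨441, 5, 21, 21⟩, ⟨350, 5, 16, 16⟩, ⟨1, 1, 1, 1⟩, ⟨350, 5, 16, 16⟩, ⟨1, 1, 1, 1⟩, ⟨1, 1, 1, 1⟩, ⟨1, 1, 1, 1⟩, ⟨1, 1, 1, 1⟩, ⟨1, 1, 1, 1⟩, ⟨1, 1, 1, 1⟩, ⟨1, 1, 1, 1⟩, ⟨1, 1, 1, 1⟩, ⟨1, 1, 1, 1⟩, ⟨1, 1, 1, 1⟩, ⟨1, 1, 1, 1⟩, ⟨1, 1, 1, 1⟩, ⟨1, 1, 1, 1⟩, ⟨1, 1, 1, 1⟩, ⟨1, 1, 1, 1⟩, ⟨1, 1, 1, 1⟩, ⟨40, 2, 2, 2⟩] (assEopts p c2 c0)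
  (.n2 375 (.n0 2850 (.leaf 4) (.n2 188 (.leaf 4) (.n1 1875 (.leaf 2) (.n0 2925 (.n0 2887 (.leaf 4) 
  (.n2 282 (.leaf 4) (.n0 2906 (.leaf 4) (.leaf 2)))) (.n1 2063 (.leaf 2) (.n2 282 (.n0 2963 
  (.leaf 4) (.n2 235 (.leaf 2) (.n0 2982 (.leaf 2) (.leaf 1)))) (.n0 2963 (.leaf 2) 
  (.leaf 1)))))))) (.n1 1875 (.leaf 1) (.n0 2850 (.n2 563 (.n0 2775 (.leaf 4) (.n2 469 (.leaf 4) 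
  (.leaf 2))) (.n1 2063 (.leaf 1) (.leaf 3))) (.n0 2925 (.n2 563 (.n2 469 (.leaf 2) (.leaf 1)) 
  (.leaf 5)) (.leaf 5)))))
  _ (by decide +kernel)

theorem ssE20_P1 : Chk (assEopts p c2 c0) {({(assBox p c2 c0) with l1 := 2250}) with h1 := 2625} :=
  chk_of_checkP [⟨1, 1, 1, 1⟩, ⟨350, 5, 16, 16⟩, ⟨350, 5, 16, 16⟩, ⟨350, 5, 16, 16⟩, ⟨441, 5, 21, 21⟩, ⟨350, 5, 16, 16⟩, ⟨1, 1, 1, 1⟩, ⟨350, 5, 16, 16⟩, ⟨1, 1, 1, 1⟩, ⟨1, 1, 1, 1⟩, ⟨1, 1, 1, 1⟩, ⟨1, 1, 1, 1⟩, ⟨1, 1, 1, 1⟩, ⟨1, 1, 1, 1⟩, ⟨1, 1, 1, 1⟩, ⟨1, 1, 1, 1⟩, ⟨1, 1, 1, 1⟩, ⟨1, 1, 1, 1⟩, ⟨1, 1, 1, 1⟩, ⟨1, 1, 1, 1⟩, ⟨1, 1, 1, 1⟩, ⟨1, 1, 1, 1⟩, ⟨1, 1, 1, 1⟩, ⟨1, 1, 1, 1⟩, ⟨40, 2, 2, 2⟩] (assEopts p c2 c0)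
  (.n0 2850 (.n2 375 (.n2 188 (.leaf 4) (.n0 2775 (.leaf 4) (.n0 2813 (.leaf 4) (.n1 2438 (.leaf 4) 
  (.n2 282 (.leaf 4) (.leaf 3)))))) (.n2 563 (.n1 2438 (.n2 469 (.leaf 4) (.n1 2344 (.leaf 4) 
  (.n2 516 (.leaf 4) (.leaf 24)))) (.n0 2775 (.leaf 24) (.n2 469 (.n1 2532 (.n2 422 (.leaf 4) 
  (.leaf 24)) (.leaf 24)) (.leaf 24)))) (.n0 2775 (.leaf 24) (.n1 2438 (.n0 2813 (.n2 657 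
  (.n0 2794 (.leaf 24) (.n1 2344 (.n2 610 (.leaf 2) (.leaf 24)) (.leaf 24))) (.leaf 24)) 
  (.leaf 5)) (.leaf 24))))) (.n2 375 (.n0 2925 (.n2 188 (.n2 94 (.leaf 4) (.n0 2887 (.leaf 4) 
  (.n1 2438 (.leaf 4) (.n1 2532 (.leaf 4) (.n2 141 (.n1 2579 (.leaf 4) (.leaf 3)) (.leaf 3)))))) 
  (.n2 282 (.n1 2438 (.n0 2887 (.leaf 4) (.n2 235 (.leaf 4) (.leaf 3))) (.n0 2887 (.n1 2532 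
  (.leaf 4) (.leaf 3)) (.leaf 3))) (.leaf 7))) (.n2 188 (.n2 94 (.n1 2438 (.leaf 4) (.n2 47 
  (.leaf 4) (.n0 2963 (.n1 2532 (.leaf 4) (.n2 71 (.leaf 4) (.n1 2579 (.leaf 4) (.leaf 3)))) 
  (.n0 2982 (.leaf 3) (.n1 2532 (.leaf 2) (.n2 71 (.leaf 2) (.n1 2579 (.leaf 2) (.leaf 1)))))))) 
  (.n0 2963 (.n1 2438 (.n0 2944 (.leaf 4) (.n2 141 (.leaf 4) (.leaf 3))) (.n2 141 (.n1 2532 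
  (.n0 2944 (.leaf 4) (.n1 2485 (.leaf 4) (.leaf 3))) (.leaf 3)) (.leaf 3))) (.n0 2982 (.n2 141 
  (.n1 2438 (.leaf 4) (.n0 2973 (.leaf 3) (.leaf 2))) (.n1 2438 (.n1 2344 (.leaf 4) (.leaf 2)) 
  (.leaf 2))) (.n0 2991 (.leaf 2) (.n1 2438 (.n2 141 (.leaf 2) (.n1 2344 (.n1 2297 (.leaf 2) 
  (.n2 165 (.leaf 2) (.leaf 1))) (.n1 2391 (.n2 165 (.n2 153 (.leaf 2) (.leaf 1)) (.leaf 1)) 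
  (.leaf 1)))) (.n2 141 (.n1 2532 (.n0 2996 (.n1 2485 (.leaf 2) (.leaf 1)) (.leaf 1)) (.leaf 1)) 
  (.leaf 1))))))) (.n2 282 (.n1 2438 (.n0 2963 (.n0 2944 (.leaf 3) (.n1 2344 (.n2 235 (.n0 2954 
  (.leaf 3) (.leaf 2)) (.leaf 2)) (.leaf 2))) (.n0 2982 (.leaf 2) (.n1 2344 (.n2 235 (.n0 2991 
  (.n1 2297 (.leaf 2) (.leaf 1)) (.leaf 1)) (.leaf 1)) (.leaf 1)))) (.leaf 1)) (.leaf 5)))) 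
  (.leaf 5)))
  _ (by decide +kernel)

theorem ssE20_P2 : Chk (assEopts p c2 c0) {({(assBox p c2 c0) with l1 := 2250}) with l1 := 2625} :=
  chk_of_checkP [⟨1, 1, 1, 1⟩, ⟨350, 5, 16, 16⟩, ⟨350, 5, 16, 16⟩, ⟨350, 5, 16, 16⟩, ⟨441, 5, 21, 21⟩, ⟨350, 5, 16, 16⟩, ⟨1, 1, 1, 1⟩, ⟨350, 5, 16, 16⟩, ⟨1, 1, 1, 1⟩, ⟨1, 1, 1, 1⟩, ⟨1, 1, 1, 1⟩, ⟨1, 1, 1, 1⟩, ⟨1, 1, 1, 1⟩, ⟨1, 1, 1, 1⟩, ⟨1, 1, 1, 1⟩, ⟨1, 1, 1, 1⟩, ⟨1, 1, 1, 1⟩, ⟨1, 1, 1, 1⟩, ⟨1, 1, 1, 1⟩, ⟨1, 1, 1, 1⟩, ⟨1, 1, 1, 1⟩, ⟨1, 1, 1, 1⟩, ⟨1, 1, 1, 1⟩, ⟨1, 1, 1, 1⟩, ⟨40, 2, 2, 2⟩] (assEopts p c2 c0)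
  (.n2 375 (.n1 2813 (.n0 2850 (.n2 188 (.n1 2719 (.n0 2775 (.leaf 4) (.n2 94 (.leaf 4) (.n0 2813 
  (.leaf 4) (.n1 2672 (.leaf 4) (.n2 141 (.n0 2832 (.leaf 4) (.leaf 3)) (.leaf 3)))))) (.n0 2775 
  (.n1 2766 (.leaf 4) (.n2 94 (.n2 47 (.leaf 4) (.leaf 24)) (.leaf 24))) (.n2 94 (.n2 47 
  (.n1 2766 (.leaf 4) (.n2 24 (.leaf 4) (.n1 2790 (.n0 2813 (.leaf 4) (.n2 36 (.leaf 4) 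
  (.leaf 3))) (.n0 2813 (.leaf 24) (.leaf 3))))) (.n1 2766 (.n0 2813 (.leaf 4) (.n1 2743 (.leaf 4)
   (.leaf 3))) (.leaf 3))) (.leaf 7)))) (.n0 2775 (.leaf 24) (.n0 2813 (.n2 282 (.n0 2794 
  (.leaf 24) (.n0 2804 (.leaf 24) (.leaf 7))) (.leaf 24)) (.leaf 7)))) (.n2 188 (.n2 94 (.n2 47 
  (.n0 2925 (.n1 2719 (.leaf 4) (.n2 24 (.n1 2766 (.leaf 4) (.n2 12 (.leaf 4) (.n1 2790 (.leaf 4) 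
  (.n2 18 (.n0 2887 (.leaf 4) (.n0 2906 (.leaf 4) (.leaf 3))) (.leaf 3))))) (.n1 2766 (.n0 2887 
  (.n0 2869 (.leaf 4) (.n0 2878 (.leaf 4) (.n2 36 (.leaf 4) (.leaf 3)))) (.n2 36 (.n1 2743 
  (.leaf 4) (.n0 2906 (.leaf 4) (.leaf 3))) (.leaf 3))) (.leaf 3)))) (.n0 2963 (.n1 2719 
  (.n1 2672 (.leaf 4) (.n2 24 (.leaf 4) (.n2 36 (.leaf 4) (.n0 2944 (.n0 2935 (.leaf 4) (.leaf 3))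
   (.leaf 3))))) (.n2 24 (.n1 2766 (.leaf 4) (.n2 12 (.leaf 4) (.n0 2944 (.n1 2790 (.n1 2778 
  (.leaf 4) (.leaf 3)) (.leaf 3)) (.leaf 3)))) (.n0 2944 (.n0 2935 (.n1 2766 (.n0 2930 (.n1 2743 
  (.n2 36 (.leaf 4) (.leaf 3)) (.leaf 3)) (.leaf 3)) (.leaf 3)) (.leaf 3)) (.leaf 3)))) (.n0 2982 
  (.n0 2973 (.n2 24 (.n1 2719 (.leaf 4) (.n2 12 (.leaf 4) (.leaf 3))) (.n1 2719 (.n1 2672 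
  (.leaf 4) (.leaf 3)) (.leaf 3))) (.leaf 3)) (.n2 24 (.leaf 3) (.leaf 2))))) (.n1 2719 (.n0 2925 
  (.n0 2887 (.n0 2869 (.leaf 4) (.n1 2672 (.leaf 4) (.n2 71 (.leaf 4) (.leaf 3)))) (.n2 71 
  (.n1 2672 (.leaf 4) (.n0 2906 (.n0 2897 (.leaf 4) (.leaf 3)) (.leaf 3))) (.leaf 3))) (.n2 71 
  (.n0 2963 (.n0 2944 (.n1 2672 (.n2 59 (.leaf 4) (.leaf 3)) (.leaf 3)) (.leaf 3)) (.leaf 2)) 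
  (.leaf 1))) (.n0 2925 (.leaf 3) (.leaf 1)))) (.n0 2925 (.n0 2887 (.n1 2719 (.n2 141 (.n0 2869 
  (.n1 2672 (.leaf 4) (.leaf 3)) (.leaf 3)) (.leaf 3)) (.leaf 7)) (.leaf 7)) (.leaf 5))) 
  (.leaf 5))) (.n2 188 (.n2 94 (.n2 47 (.n0 2850 (.n0 2775 (.leaf 24) (.n1 2907 (.n1 2860 (.n2 24 
  (.n2 12 (.n0 2813 (.leaf 4) (.n0 2832 (.leaf 4) (.n0 2841 (.leaf 4) (.n1 2837 (.leaf 4) (.n2 6 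
  (.leaf 4) (.n1 2849 (.leaf 4) (.leaf 24))))))) (.n0 2813 (.leaf 24) (.n1 2837 (.n1 2825 
  (.leaf 4) (.leaf 3)) (.leaf 3)))) (.leaf 3)) (.leaf 24)) (.leaf 24))) (.n2 24 (.n2 12 (.n1 2907 
  (.n2 6 (.n1 2860 (.leaf 4) (.n2 3 (.n1 2884 (.leaf 4) (.n2 2 (.leaf 4) (.leaf 3))) (.n0 2925 
  (.n1 2884 (.n1 2872 (.leaf 4) (.leaf 3)) (.leaf 3)) (.leaf 3)))) (.n1 2860 (.n0 2925 (.n1 2837 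
  (.leaf 4) (.n2 9 (.n0 2887 (.leaf 4) (.leaf 3)) (.leaf 3))) (.n0 2963 (.n0 2944 (.n0 2935 
  (.n1 2837 (.n1 2825 (.leaf 4) (.leaf 3)) (.leaf 3)) (.leaf 3)) (.leaf 3)) (.leaf 2))) 
  (.leaf 1))) (.n0 2925 (.n0 2887 (.leaf 24) (.n0 2906 (.leaf 24) (.leaf 7))) (.leaf 5))) 
  (.n0 2925 (.leaf 7) (.leaf 5))) (.leaf 5))) (.leaf 5)) (.leaf 5)) (.leaf 24))) (.n0 2850 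
  (.leaf 24) (.leaf 5)))
  _ (by decide +kernel)


end Pool.Agent.T2H40.BR.T1
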