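import Pool.Agent.T2H40.BR.Chk2
import Pool.Agent.T2H40.BR.BuildU

/-!
# Data of piece U1
-/

set_option autoImplicit false

namespace Pool.Agent.T2H40.BR.U1

def c0 : SCls := ⟨0, 750, [(1411, 0), (5567, 0), (1914, 0), (-36094, 0), (-28777, 0)],
  [(993, 0), (15704, 0), (-18514, 0), (-167527, 0), (309914, 0)],
  [(4550, 0), (-5573, 0), (47613, 0), (-194102, 0), (335402, 0)], 0⟩
def c1 : SCls := ⟨750, 1500, [(3007, 0), (-13395, 0), (62918, 0), (-108120, 0), (89563, 0), (-37728, 0), (3508, 0)],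
  [(-1815, 0), (49355, 0), (-182462, 0), (280799, 0), (-234436, 0), (111514, 0)],
  [(5119, 0), (872, 0), (-19905, 0), (25467, 0), (2642, 0), (-8425, 0)], 0⟩
def c2 : SCls := ⟨1500, 3000, [(3090, 0), (-13380, 0), (62737, 0), (-107375, 0), (81159, 0), (-24010, 0), (844, 0)],
  [(7030, 0), (11012, 0), (-114325, 0), (185533, 0), (-101847, 0), (12608, 0)],
  [(5420, 0), (-265, 0), (-14715, 0), (17214, 0), (1871, 0), (-6516, 0)], 0⟩
def p : Piece := ⟨3000, 1500, (1439, 0), [(3381, 0), (-27357, 0), (48084, 0), (-1864, 0), (-24884, 0), (1965, 0)],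
  [(40, 0), (-1285, 0), (9641, 0), (83246, 0), (-274740, 0), (165420, 0), (-7034, 0)],
  [(-285, 0), (-3089, 0), (45512, 0), (-150335, 0), (299999, 0), (-299621, 0), (13300, 0)],
  [c0, c1, c2], 300, 1500, false, 3000⟩

end Pool.Agent.T2H40.BR.U1
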