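import Pool.Agent.T2H40.BR.Chk2
import Pool.Agent.T2H40.BR.BuildU

/-!
# Data of piece U2
-/

set_option autoImplicit false

namespace Pool.Agent.T2H40.BR.U2

def c0 : SCls := ⟨0, 750, [(979, 0), (8377, 0), (-6418, 0), (-40184, 0), (-39332, 0)],
  [(12, 0), (6545, 0), (-26598, 0), (-47544, 0), (309914, 0)],
  [(2483, 0), (4155, 0), (3277, 0), (-122907, 0), (281661, 0)], 0⟩
def c1 : SCls := ⟨750, 1200, [(3922, 0), (-18927, 0), (71160, 0), (-118698, 0), (104985, 0), (-48283, 0), (15984, 0)],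
  [(2761, 0), (1308, 0), (-102517, 0), (300000, 0), (-300000, 0), (221916, 0)],
  [(-244, 0), (34577, 0), (-125460, 0), (137989, 0), (110293, 0), (-133178, 0)], 0⟩
def c2 : SCls := ⟨1200, 1500, [(-1270, 0), (3055, 0), (53455, 0), (-118698, 0), (69396, 0), (-13926, 0), (15983, 0)],
  [(-6644, 0), (57679, 0), (-134860, 0), (76426, 0), (8289, 0), (46567, 0)],
  [(-16632, 0), (109068, 0), (-125460, 0), (-129295, 0), (110293, 0), (215526, 0)], 0⟩
def p : Piece := ⟨3000, 3000, (4482, 0), [(10056, 0), (-49345, 0), (54850, 0), (19601, 0), (-18293, 0), (-15982, 0)],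
  [(1361, 0), (3850, 0), (-64141, 0), (225764, 0), (-256698, 0), (52186, 0), (38130, 0)],
  [(549, 0), (1553, 0), (-13839, 0), (-22868, 0), (203116, 0), (-300000, 0), (131873, 0)],
  [c0, c1, c2], 300, 1500, false, 1500⟩

end Pool.Agent.T2H40.BR.U2
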